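import Pool.Agent.MP_96f5a9_co.gw.Spec

/-! Generalized Wilf inequality: counting in the classes modulo the short periods. -/

set_option autoImplicit false

namespace Pool.Agent.MP_96f5a9_co.GW

open Finset

namespace Fc

variable {d : ℕ} {M : Md d} {Q : ℝ} (A : Ax M Q)

theorem mR (l : Fin d) : (0 : ℝ) < A.m l := by exact_mod_cast A.mpos l
theorem mZ (l : Fin d) : (0 : ℤ) < A.m l := by exact_mod_cast A.mpos l
theorem Q_le (l : Fin d) : Q ≤ A.q l := (le_div_iff₀ (mR A l)).2 (A.mQ l)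
theorem q_pos (l : Fin d) : 0 < A.q l := div_pos (M.cR_pos l) (mR A l)
theorem mem_R {r : V d} : r ∈ A.R ↔ ∀ l, 0 ≤ r l ∧ r l < A.m l := by
  simp [Ax.R, Fintype.mem_piFinset]

/-- the point of the class of `y` with parameter `t` -/
def pt (y t : V d) : V d := fun l => y l + t l * A.m l

/-- the number of steps to the face -/
noncomputable def T (y : V d) (l : Fin d) : ℤ := ⌈((M.c l : ℝ) - y l) / A.m l⌉

theorem lt_T {y : V d} {l : Fin d} {t : ℤ} : t < T A y l ↔ y l + t * A.m l < M.c l := by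
  unfold T
  rw [Int.lt_ceil, lt_div_iff₀ (mR A l), lt_sub_iff_add_lt']
  exact_mod_cast Iff.rfl

theorem le_T (y : V d) (l : Fin d) : A.q l - y l / A.m l ≤ T A y l := by
  rw [Ax.q, ← sub_div]
  exact Int.le_ceil _

theorem T_lt (y : V d) (l : Fin d) : (T A y l : ℝ) < A.q l - y l / A.m l + 1 := by
  rw [Ax.q, ← sub_div]
  exact Int.ceil_lt_add_one _

theorem T_bd {r : V d} (hr : r ∈ A.R) (l : Fin d) :
    A.q l - 1 ≤ T A r l ∧ (T A r l : ℝ) ≤ A.q l + 1 := by
  obtain ⟨h0, h1⟩ := (mem_R A).1 hr l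
  have a0 : (0 : ℝ) ≤ r l / A.m l := div_nonneg (by exact_mod_cast h0) (mR A l).le
  have a1 : (r l : ℝ) / A.m l ≤ 1 := (div_le_one (mR A l)).2 (by exact_mod_cast h1.le)
  constructor <;> linarith [le_T A r l, T_lt A r l]

theorem pt_inj (y : V d) : Function.Injective (pt A y) := fun s t h => funext fun l => by
  have := congrFun h l
  simp only [pt, add_right_inj] at this
  exact mul_right_cancel₀ (mZ A l).ne' this

theorem pt_up {y s t : V d} (hs : pt A y s ∈ M.S) (h : ∀ l, s l ≤ t l) : pt A y t ∈ M.S := by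
  have e : pt A y t = pt A y s + ∑ l, (t l - s l).toNat • (Pi.single l (A.m l : ℤ) : V d) := by
    funext j
    simp only [pt, Pi.add_apply, Finset.sum_apply, Pi.smul_apply, Pi.single_apply, smul_ite,
      smul_zero, Finset.sum_ite_eq, Finset.mem_univ, if_true]
    rw [nsmul_eq_mul, Int.toNat_of_nonneg (sub_nonneg.2 (h j))]
    ring
  rw [e]
  exact M.S.add_mem hs (M.S.sum_mem fun l _ => M.S.nsmul_mem (M.G_mem (A.mG l)) _)

theorem pt_N {y t : V d} (hs : pt A y t ∈ M.S) (h : ∀ l, t l < T A y l) : pt A y t ∈ M.N :=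
  M.mem_N.2 ⟨M.mem_B.2 fun l => ⟨M.nonneg _ hs l, (lt_T A).1 (h l)⟩, hs⟩

/-- a set of parameters of elements of the monoid is counted by the class -/
theorem card_le_cls {y r : V d} (hy : ∀ l, (A.m l : ℤ) ∣ y l - r l) (U : Finset (V d))
    (hU : ∀ t ∈ U, pt A y t ∈ M.S ∧ ∀ l, t l < T A y l) : (U.card : ℝ) ≤ A.cls r := by
  classical
  rw [← Finset.card_image_of_injective U (pt_inj A y)]
  refine card_le_cnt fun x hx => ?_
  obtain ⟨t, ht, rfl⟩ := mem_image.1 hx
  refine ⟨pt_N A (hU t ht).1 (hU t ht).2, fun l => ?_⟩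
  have e : pt A y t l - r l = y l - r l + t l * A.m l := by simp only [pt]; ring
  rw [e]
  exact (hy l).add (dvd_mul_left _ _)

/-- the elements on a line form a final segment -/
theorem line (hQ : 4 ≤ Q) (i : Fin d) {r : V d} (hr : r ∈ A.R) : ∃ s : ℤ, 0 ≤ s ∧ s ≤ T A r i ∧
    A.dep i r = T A r i - s ∧ (s < T A r i → pt A r (Pi.single i s) ∈ M.S) := by
  classical
  have T0 : ∀ l, 0 < T A r l := fun l => by
    have : (0 : ℝ) < T A r l := by linarith [(T_bd A hr l).1, Q_le A l]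
    exact_mod_cast this
  have hs : ∃ s : ℤ, 0 ≤ s ∧ s ≤ T A r i ∧ (s < T A r i → pt A r (Pi.single i s) ∈ M.S) ∧
      ∀ t, 0 ≤ t → t < s → pt A r (Pi.single i t) ∉ M.S := by
    by_cases h : ∃ t, 0 ≤ t ∧ t < T A r i ∧ pt A r (Pi.single i t) ∈ M.S
    · obtain ⟨s, h1, h2⟩ := Int.exists_least_of_bdd
        (P := fun t => 0 ≤ t ∧ t < T A r i ∧ pt A r (Pi.single i t) ∈ M.S) ⟨0, fun z hz => hz.1⟩ h
      exact ⟨s, h1.1, h1.2.1.le, fun _ => h1.2.2, fun t a b c =>
        absurd (h2 t ⟨a, b.trans h1.2.1, c⟩) (not_le.2 b)⟩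
    · exact ⟨T A r i, (T0 i).le, le_rfl, fun h => absurd h (lt_irrefl _),
        fun t a b c => h ⟨t, a, b, c⟩⟩
  obtain ⟨s, s0, s1, s2, s3⟩ := hs
  refine ⟨s, s0, s1, ?_, s2⟩
  have e : flt M.N (fun x => (A.m i : ℤ) ∣ x i - r i ∧ ∀ l, l ≠ i → x l = r l) =
      (Finset.Ico s (T A r i)).image fun t => pt A r (Pi.single i t) := by
    ext x
    rw [mem_flt, mem_image]
    constructor
    · rintro ⟨hx, ⟨t, ht⟩, h2⟩
      have ex : pt A r (Pi.single i t) = x := funext fun l => by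
        by_cases hl : l = i
        · subst hl; simp only [pt, Pi.single_eq_same]; linarith
        · simp [pt, hl, h2 l hl]
      obtain ⟨hB, hS⟩ := M.mem_N.1 hx
      obtain ⟨b0, b1⟩ := M.mem_B.1 hB i
      obtain ⟨r0, r1⟩ := (mem_R A).1 hr i
      have t0 : 0 ≤ t := by
        by_contra hc
        have : t ≤ -1 := by omega
        nlinarith [mZ A i]
      refine ⟨t, mem_Ico.2 ⟨not_lt.1 fun hc => s3 t t0 hc (ex ▸ hS), (lt_T A).2 ?_⟩, ex⟩
      linarith
    · rintro ⟨t, ht, rfl⟩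
      obtain ⟨t0, t1⟩ := mem_Ico.1 ht
      refine ⟨pt_N A (pt_up A (s2 (t0.trans_lt t1)) fun l => ?_) fun l => ?_, ?_, fun l hl => ?_⟩
      · by_cases hl : l = i
        · subst hl; simpa using t0
        · simp [hl]
      · by_cases hl : l = i
        · subst hl; simpa using t1
        · simpa [hl] using T0 l
      · simp [pt]
      · simp [pt, hl]
  have inj : Function.Injective fun t : ℤ => pt A r (Pi.single i t) := fun a b h => by
    simpa using congrFun (pt_inj A r h) i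
  unfold Ax.dep
  rw [cnt_eq, e, Finset.card_image_of_injective _ inj, Int.card_Ico]
  have : ((T A r i - s).toNat : ℤ) = T A r i - s := Int.toNat_of_nonneg (sub_nonneg.2 s1)
  exact_mod_cast this

theorem card_box {a : V d} (h : ∀ l, 0 ≤ a l) :
    ((Fintype.piFinset fun l => Finset.Ico (0 : ℤ) (a l)).card : ℝ) = ∏ l, (a l : ℝ) := by
  rw [Fintype.card_piFinset, Nat.cast_prod]
  refine Finset.prod_congr rfl fun l _ => ?_
  rw [Int.card_Ico, sub_zero]
  exact_mod_cast Int.toNat_of_nonneg (h l)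

theorem prod_ge {q a : Fin d → ℝ} {x : ℝ} (s : Finset (Fin d)) (hq : ∀ l, 0 < q l) (x0 : 0 ≤ x)
    (x1 : x ≤ 1) (h : ∀ l ∈ s, q l * (1 - x) ≤ a l) : (∏ l ∈ s, q l) * (1 - d * x) ≤ ∏ l ∈ s, a l := by
  have h1 : ∏ l ∈ s, q l * (1 - x) ≤ ∏ l ∈ s, a l :=
    Finset.prod_le_prod (fun l _ => mul_nonneg (hq l).le (by linarith)) h
  rw [Finset.prod_mul_distrib, Finset.prod_const] at h1
  have h2 := one_add_mul_le_pow (a := -x) (by linarith) s.card
  have h3 : (s.card : ℝ) ≤ d := by exact_mod_cast (Finset.card_le_univ s).trans_eq (by simp)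
  refine le_trans (mul_le_mul_of_nonneg_left ?_ (Finset.prod_nonneg fun l _ => (hq l).le)) h1
  rw [sub_eq_add_neg 1 x]
  nlinarith

theorem split2 {i k : Fin d} (h : i ≠ k) (f : Fin d → ℝ) :
    ∏ l, f l = f i * f k * ∏ l ∈ (univ.erase i).erase k, f l := by
  rw [← Finset.mul_prod_erase univ f (mem_univ i), ← Finset.mul_prod_erase (univ.erase i) f
    (mem_erase.2 ⟨h.symm, mem_univ k⟩), mul_assoc]

theorem c1 : M.n = ∑ r ∈ A.R, A.cls r := by
  classical
  have h := Finset.card_eq_sum_card_fiberwise (s := M.N) (t := A.R)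
    (f := fun (x : V d) l => x l % (A.m l : ℤ)) fun x _ => (mem_R A).2 fun l =>
      ⟨Int.emod_nonneg _ (mZ A l).ne', Int.emod_lt_of_pos _ (mZ A l)⟩
  unfold Md.n
  rw [h, Nat.cast_sum]
  refine Finset.sum_congr rfl fun r hr => ?_
  unfold Ax.cls
  rw [cnt_eq]
  congr 2
  ext x
  rw [mem_flt, mem_filter]
  refine and_congr_right fun _ => ?_
  rw [funext_iff]
  refine forall_congr' fun l => ?_
  obtain ⟨r0, r1⟩ := (mem_R A).1 hr l
  rw [← Int.emod_emod_of_dvd (x l) (dvd_refl (A.m l : ℤ)), ← Int.modEq_iff_dvd, Int.ModEq,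
    Int.emod_eq_of_lt r0 r1, Int.emod_emod_of_dvd _ (dvd_refl _), eq_comm]

theorem c2 : M.vol = (∏ l, A.q l) * A.R.card := by
  have : (A.R.card : ℝ) = ∏ l, (A.m l : ℝ) := by simp [Ax.R, Fintype.card_piFinset]
  rw [this, ← Finset.prod_mul_distrib]
  exact Finset.prod_congr rfl fun l _ => (div_mul_cancel₀ _ (mR A l).ne').symm

theorem alg {a b Ti Tk Di Dk x P P' n : ℝ} (x0 : 0 < x) (x1 : x ≤ 1 / 4) (ha : 1 ≤ a * x)
    (hb : 1 ≤ b * x) (i0 : a - 1 ≤ Ti) (i1 : Ti ≤ a + 1) (k0 : b - 1 ≤ Tk) (k1 : Tk ≤ b + 1)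
    (di0 : 0 ≤ Di) (di1 : Di ≤ Ti) (dk0 : 0 ≤ Dk) (dk1 : Dk ≤ Tk) (n0 : 0 ≤ n) (P0 : 0 ≤ P)
    (hP : P * (1 - n * x) ≤ P') :
    P * (Di * b + Dk * a - Di * Dk - (3 * n + 3) * x * (a * b)) ≤
      Ti * Tk * P' - (Ti - Di) * (Tk - Dk) * P' := by
  have a4 : 4 ≤ a := by nlinarith
  have b4 : 4 ≤ b := by nlinarith
  set X := Ti * Tk - (Ti - Di) * (Tk - Dk) with hX
  have X0 : 0 ≤ X := by nlinarith [mul_nonneg (sub_nonneg.2 di1) dk0, mul_nonneg di0 (dk0.trans dk1)]
  have X1 : X ≤ 2 * (a * b) := by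
    have h1 : X ≤ Ti * Tk := by nlinarith [mul_nonneg (sub_nonneg.2 di1) (sub_nonneg.2 dk1)]
    have h2 : Ti * Tk ≤ (5 / 4 * a) * (5 / 4 * b) :=
      mul_le_mul (by linarith) (by linarith) (by linarith) (by linarith)
    nlinarith
  have X2 : Di * b + Dk * a - Di * Dk - (Di + Dk) ≤ X := by
    nlinarith [mul_le_mul_of_nonneg_left k0 di0, mul_le_mul_of_nonneg_left i0 dk0]
  have X3 : Di + Dk ≤ 3 * x * (a * b) := by
    have h1 : a ≤ a * (b * x) := le_mul_of_one_le_right (by linarith) hb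
    have h2 : b ≤ b * (a * x) := le_mul_of_one_le_right (by linarith) ha
    nlinarith
  have X4 : n * x * X ≤ n * x * (3 * (a * b)) :=
    mul_le_mul_of_nonneg_left (by nlinarith) (by positivity)
  calc _ ≤ P * ((1 - n * x) * X) := mul_le_mul_of_nonneg_left (by nlinarith) P0
    _ = P * (1 - n * x) * X := by ring
    _ ≤ P' * X := mul_le_mul_of_nonneg_right hP X0
    _ = _ := by rw [hX]; ring

theorem c4 (hQ : 4 ≤ Q) {i k : Fin d} (hik : i ≠ k) {r : V d} (hr : r ∈ A.R) :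
    (∏ l, A.q l) * (A.dep i r / A.q i + A.dep k r / A.q k -
      A.dep i r / A.q i * (A.dep k r / A.q k) - (3 * d + 3) / Q) ≤ A.cls r := by
  classical
  obtain ⟨s, s0, s1, s2, s3⟩ := line A hQ i hr
  obtain ⟨u, u0, u1, u2, u3⟩ := line A hQ k hr
  have Q0 : 0 < Q := by linarith
  have T0 : ∀ l, 0 ≤ T A r l := fun l => by
    have : (0 : ℝ) ≤ T A r l := by linarith [(T_bd A hr l).1, Q_le A l]
    exact_mod_cast this
  set lo : V d := fun l => if l = i then s else if l = k then u else T A r l with hlo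
  have li : lo i = s := by simp [hlo]
  have lk : lo k = u := by simp [hlo, hik.symm]
  have ll : ∀ l, l ≠ i → l ≠ k → lo l = T A r l := fun l a b => by simp [hlo, a, b]
  have lb : ∀ l, 0 ≤ lo l ∧ lo l ≤ T A r l := fun l => by
    by_cases a : l = i
    · rw [a, li]; exact ⟨s0, s1⟩
    by_cases b : l = k
    · rw [b, lk]; exact ⟨u0, u1⟩
    · rw [ll l a b]; exact ⟨T0 l, le_rfl⟩
  have sub : (Fintype.piFinset fun l => Finset.Ico (0 : ℤ) (lo l)) ⊆
      Fintype.piFinset fun l => Finset.Ico (0 : ℤ) (T A r l) :=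
    Fintype.piFinset_subset _ _ fun l => Finset.Ico_subset_Ico le_rfl (lb l).2
  have h := card_le_cls A (y := r) (r := r) (fun l => by simp)
    ((Fintype.piFinset fun l => Finset.Ico (0 : ℤ) (T A r l)) \
      Fintype.piFinset fun l => Finset.Ico (0 : ℤ) (lo l)) fun t ht => by
    obtain ⟨h1, h2⟩ := mem_sdiff.1 ht
    simp only [Fintype.mem_piFinset, mem_Ico, not_forall] at h1 h2
    obtain ⟨l, hl⟩ := h2
    have h3 : lo l ≤ t l := not_lt.1 fun c => hl ⟨(h1 l).1, c⟩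
    have up : ∀ (j : Fin d) (v : ℤ), v ≤ t j → ∀ m, (Pi.single j v : V d) m ≤ t m := fun j v hv m => by
      by_cases hm : m = j
      · subst hm; simpa using hv
      · simpa [hm] using (h1 m).1
    refine ⟨?_, fun l => (h1 l).2⟩
    by_cases a : l = i
    · rw [a, li] at h3; exact pt_up A (s3 (h3.trans_lt (h1 i).2)) (up i s h3)
    by_cases b : l = k
    · rw [b, lk] at h3; exact pt_up A (u3 (h3.trans_lt (h1 k).2)) (up k u h3)
    · rw [ll l a b] at h3; exact absurd (h1 l).2 (not_lt.2 h3)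
  rw [Finset.card_sdiff_of_subset sub, Nat.cast_sub (Finset.card_le_card sub), card_box T0,
    card_box fun l => (lb l).1, split2 hik, split2 hik (fun l => (lo l : ℝ)), li, lk,
    Finset.prod_congr rfl (f := fun l => (lo l : ℝ)) (g := fun l => (T A r l : ℝ)) fun l hl => by
      rw [ll l (ne_of_mem_erase (mem_of_mem_erase hl)) (ne_of_mem_erase hl)]] at h
  have qx : ∀ l, 1 ≤ A.q l * (1 / Q) := fun l => by
    rw [mul_one_div, one_le_div Q0]; exact Q_le A l
  have x1 : 1 / Q ≤ 1 / 4 := one_div_le_one_div_of_le (by norm_num) hQ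
  have hP := prod_ge (a := fun l => (T A r l : ℝ)) (x := 1 / Q) ((univ.erase i).erase k) (q_pos A)
    (by positivity) (by linarith) fun l _ => by linarith [(T_bd A hr l).1, qx l]
  have s0' : (0 : ℝ) ≤ s := by exact_mod_cast s0
  have u0' : (0 : ℝ) ≤ u := by exact_mod_cast u0
  have key := alg (Di := A.dep i r) (Dk := A.dep k r) (by positivity) x1 (qx i) (qx k)
    (T_bd A hr i).1 (T_bd A hr i).2 (T_bd A hr k).1 (T_bd A hr k).2 (cnt_nonneg _ _) (by linarith)
    (cnt_nonneg _ _) (by linarith) (Nat.cast_nonneg d)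
    (Finset.prod_nonneg fun l _ => (q_pos A l).le) hP
  have e1 : (T A r i : ℝ) - A.dep i r = s := by linarith
  have e2 : (T A r k : ℝ) - A.dep k r = u := by linarith
  rw [e1, e2] at key
  refine le_trans (le_of_eq ?_) (key.trans h)
  rw [split2 hik]
  have := (q_pos A i).ne'
  have := (q_pos A k).ne'
  field_simp

theorem c5 (hQ : 4 ≤ Q) (i : Fin d) {r : V d} (hr : r ∈ A.R) (h : 0 < A.dep i r) :
    ∃ y ∈ M.S, (A.m i : ℤ) ∣ y i - r i ∧ (∀ l, l ≠ i → y l = r l) ∧
      M.h y i ≤ 1 - A.dep i r / A.q i + 1 / Q := by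
  obtain ⟨s, -, -, s2, s3⟩ := line A hQ i hr
  have hs : s < T A r i := by
    have : (s : ℝ) < T A r i := by linarith
    exact_mod_cast this
  refine ⟨_, s3 hs, by simp [pt], fun l hl => by simp [pt, hl], ?_⟩
  have h1 := T_lt A r i
  have h2 : 1 / A.q i ≤ 1 / Q := one_div_le_one_div_of_le (by linarith) (Q_le A i)
  have e : M.h (pt A r (Pi.single i s)) i = (r i / A.m i + s) / A.q i := by
    have := (mR A i).ne'
    have := (M.cR_pos i).ne'
    simp only [Md.h, pt, Pi.single_eq_same, Ax.q]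
    push_cast
    field_simp
  have h3 : (r i / A.m i + s) / A.q i ≤ (A.q i - A.dep i r + 1) / A.q i :=
    div_le_div_of_nonneg_right (by linarith) (q_pos A i).le
  rw [add_div (A.q i - A.dep i r), sub_div, div_self (q_pos A i).ne'] at h3
  linarith

theorem c6 (hQ : 4 ≤ Q) (i : Fin d) (y r : V d) (t : ℝ) (hy : y ∈ M.S)
    (hr : ∀ l, (A.m l : ℤ) ∣ y l - r l) (t1 : t ≤ 1) (hi : M.h y i ≤ 1 - t)
    (hl : ∀ l, l ≠ i → y l ≤ 2 * A.m l) : (∏ l, A.q l) * (t - 2 * d / Q) ≤ A.cls r := by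
  have Q0 : 0 < Q := by linarith
  have P0 : 0 ≤ ∏ l, A.q l := Finset.prod_nonneg fun l _ => (q_pos A l).le
  have x0 : 0 ≤ 2 * d / Q := by positivity
  rcases le_total t 0 with t0 | t0
  · exact (mul_nonpos_of_nonneg_of_nonpos P0 (by linarith)).trans (cnt_nonneg _ _)
  have Ti : t * A.q i ≤ T A y i := by
    have h1 := le_T A y i
    have e : (y i : ℝ) / A.m i = M.h y i * A.q i := by
      have := (M.cR_pos i).ne'
      simp only [Md.h, Ax.q]
      field_simp
    nlinarith [q_pos A i]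
  have Tl : ∀ l, l ≠ i → A.q l * (1 - 2 / Q) ≤ T A y l := fun l h => by
    have h1 := le_T A y l
    have h2 : (y l : ℝ) / A.m l ≤ 2 := (div_le_iff₀ (mR A l)).2 (by exact_mod_cast hl l h)
    have h3 : 2 ≤ A.q l * (2 / Q) := by
      rw [← mul_div_assoc, le_div_iff₀ Q0]; linarith [Q_le A l]
    linarith
  have x1 : 2 / Q ≤ 1 := (div_le_one Q0).2 (by linarith)
  have T0 : ∀ l, 0 ≤ T A y l := fun l => by
    have : (0 : ℝ) ≤ T A y l := by
      by_cases h : l = i
      · rw [h]; exact (mul_nonneg t0 (q_pos A i).le).trans Ti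
      · exact (mul_nonneg (q_pos A l).le (by linarith)).trans (Tl l h)
    exact_mod_cast this
  have h := card_le_cls A hr (Fintype.piFinset fun l => Finset.Ico (0 : ℤ) (T A y l)) fun s hs => by
    simp only [Fintype.mem_piFinset, mem_Ico] at hs
    refine ⟨pt_up A (s := 0) ?_ fun l => (hs l).1, fun l => (hs l).2⟩
    have : pt A y 0 = y := funext fun l => by simp [pt]
    rwa [this]
  rw [card_box T0, ← Finset.mul_prod_erase univ _ (mem_univ i)] at h
  have hP := prod_ge (a := fun l => (T A y l : ℝ)) (x := 2 / Q) (univ.erase i) (q_pos A)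
    (by positivity) x1 fun l hl => Tl l (ne_of_mem_erase hl)
  have P1 : 0 ≤ ∏ l ∈ univ.erase i, A.q l := Finset.prod_nonneg fun l _ => (q_pos A l).le
  have P2 : 0 ≤ ∏ l ∈ univ.erase i, (T A y l : ℝ) :=
    Finset.prod_nonneg fun l _ => by exact_mod_cast T0 l
  rw [← Finset.mul_prod_erase univ _ (mem_univ i)]
  have e : (d : ℝ) * (2 / Q) = 2 * d / Q := by ring
  rw [e] at hP
  have q0 := (q_pos A i).le
  calc _ ≤ A.q i * (∏ l ∈ univ.erase i, A.q l) * (t * (1 - 2 * d / Q)) :=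
        mul_le_mul_of_nonneg_left (by nlinarith) (by positivity)
    _ = t * A.q i * ((∏ l ∈ univ.erase i, A.q l) * (1 - 2 * d / Q)) := by ring
    _ ≤ t * A.q i * ∏ l ∈ univ.erase i, (T A y l : ℝ) :=
        mul_le_mul_of_nonneg_left hP (by positivity)
    _ ≤ _ := (mul_le_mul_of_nonneg_right Ti P2).trans h

end Fc

theorem fc : FcStmt := fun _ _ _ A hQ =>
  ⟨Fc.c1 A, Fc.c2 A, fun i r hr => by
    obtain ⟨s, s0, -, s2, -⟩ := Fc.line A hQ i hr
    have : (0 : ℝ) ≤ s := by exact_mod_cast s0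
    linarith [(Fc.T_bd A hr i).2], fun _ _ h _ hr => Fc.c4 A hQ h hr,
    fun i _ hr => Fc.c5 A hQ i hr, Fc.c6 A hQ⟩

end Pool.Agent.MP_96f5a9_co.GW
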