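import Pool.Agent.MP_96f5a9_co.gw.Spec

/-! Row FE: the classes are almost full or almost empty. -/

set_option autoImplicit false

namespace Pool.Agent.MP_96f5a9_co.GW

open Finset

namespace Fe

section
variable {α : Type}

open Classical in
theorem cnt_sum (R : Finset α) (P : α → Prop) :
    cnt R P = ∑ r ∈ R, if P r then (1 : ℝ) else 0 := by
  simp only [cnt, Finset.card_filter]
  push_cast
  rfl

theorem markov (R : Finset α) (P : α → Prop) (g : α → ℝ) (c : ℝ) (h0 : ∀ r ∈ R, 0 ≤ g r)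
    (h1 : ∀ r ∈ R, P r → c ≤ g r) : c * cnt R P ≤ ∑ r ∈ R, g r := by
  rw [cnt_sum, Finset.mul_sum]
  refine Finset.sum_le_sum fun r hr => ?_
  split_ifs with h
  · simpa using h1 r hr h
  · simpa using h0 r hr

theorem upper (R : Finset α) (P P' : α → Prop) (g : α → ℝ) (a b c : ℝ) (ha : 0 ≤ a) (hb : 0 ≤ b)
    (hc : 0 ≤ c) (h : ∀ r ∈ R, (P r ∧ g r ≤ a) ∨ (P' r ∧ g r ≤ b) ∨ g r ≤ c) :
    ∑ r ∈ R, g r ≤ a * cnt R P + b * cnt R P' + c * R.card := by
  have e : c * (R.card : ℝ) = ∑ _r ∈ R, c := by simp [mul_comm]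
  rw [cnt_sum, cnt_sum, Finset.mul_sum, Finset.mul_sum, e, ← Finset.sum_add_distrib,
    ← Finset.sum_add_distrib]
  refine Finset.sum_le_sum fun r hr => ?_
  rcases h r hr with ⟨h1, h2⟩ | ⟨h1, h2⟩ | h2
  · rw [if_pos h1]; split_ifs <;> linarith
  · rw [if_pos h1]; split_ifs <;> linarith
  · split_ifs <;> linarith

theorem low {x y m a s : ℝ} (hs : 0 ≤ s) (hs1 : s ≤ 1 / 4) (hx : x ≤ 1 + s) (hy0 : 0 ≤ y)
    (hy : y ≤ 1 + s) (hm : x + y - x * y - a ≤ m) : x - (a + 2 * s) ≤ m := by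
  have h1 : y * (x - 1) ≤ y * s := mul_le_mul_of_nonneg_left (by linarith) hy0
  have h2 : y * s ≤ (1 + s) * s := mul_le_mul_of_nonneg_right hy hs
  nlinarith

theorem core (R : Finset α) (x y m : α → ℝ) (H P : α → Prop) (k s a b τ ζ E : ℝ)
    (hs : 0 ≤ s) (hs1 : s ≤ 1 / 4) (ha : 0 ≤ a) (hb : 0 ≤ b) (hk : 1 ≤ k) (hkE : k ≤ E)
    (hτ : 0 < τ) (hτE : τ * E ≤ 1) (h1 : 64 * (a + 2 * s + b) ≤ ζ * τ)
    (h2 : 528 * E * (a + 2 * s + b) ≤ τ)
    (hx : ∀ r ∈ R, 0 ≤ x r ∧ x r ≤ 1 + s) (hy : ∀ r ∈ R, 0 ≤ y r ∧ y r ≤ 1 + s)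
    (hm0 : ∀ r ∈ R, 0 ≤ m r) (hm : ∀ r ∈ R, x r + y r - x r * y r - a ≤ m r)
    (sx : (1 - k * b) * R.card ≤ k * ∑ r ∈ R, x r) (sy : (1 - k * b) * R.card ≤ k * ∑ r ∈ R, y r)
    (sm : k * ∑ r ∈ R, m r ≤ R.card) (hH : ∀ r, H r ↔ 1 - τ / 16 ≤ x r)
    (hP : ∀ r, P r ↔ τ / 4 ≤ m r) :
    (∀ r ∈ R, H r → P r) ∧ cnt R (fun r => P r ∧ ¬ H r) ≤ ζ * R.card ∧
      k * cnt R H ≤ (1 + τ) * R.card ∧ (R.card : ℝ) ≤ 2 * k * cnt R H := by
  obtain ⟨e, he⟩ : ∃ e, e = a + 2 * s + b := ⟨_, rfl⟩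
  rw [← he] at h1 h2
  have e0 : 0 ≤ e := by rw [he]; positivity
  have hE : 1 ≤ E := hk.trans hkE
  have k0 : 0 < k := by linarith
  have τ1 : τ ≤ 1 := by nlinarith
  have eτ : 528 * e ≤ τ := by nlinarith
  have R0 : (0 : ℝ) ≤ R.card := Nat.cast_nonneg _
  have lx : ∀ r ∈ R, x r - (a + 2 * s) ≤ m r := fun r hr =>
    low hs hs1 (hx r hr).2 (hy r hr).1 (hy r hr).2 (hm r hr)
  have ly : ∀ r ∈ R, y r - (a + 2 * s) ≤ m r := fun r hr =>
    low hs hs1 (hy r hr).2 (hx r hr).1 (hx r hr).2 (by have := hm r hr; linarith)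
  have hsum : ∑ r ∈ R, (2 * m r - x r - y r + 2 * (a + 2 * s)) ≤ 2 * e * R.card := by
    simp only [Finset.sum_add_distrib, Finset.sum_sub_distrib, ← Finset.mul_sum, Finset.sum_const,
      nsmul_eq_mul]
    refine le_of_mul_le_mul_left ?_ k0
    rw [he]
    nlinarith
  have mk : τ / 32 * cnt R (fun r => P r ∧ ¬ H r) ≤ 2 * e * R.card := by
    refine (markov R _ _ _ (fun r hr => ?_) fun r hr h => ?_).trans hsum
    · have := lx r hr
      have := ly r hr
      linarith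
    · have p1 := (hP r).1 h.1
      have p2 : x r < 1 - τ / 16 := not_le.1 fun h' => h.2 ((hH r).2 h')
      have := lx r hr
      have := ly r hr
      have p3 := hm r hr
      by_cases c1 : x r < τ / 8
      · linarith
      · push Not at c1
        by_cases c2 : 1 / 2 ≤ y r
        · have : 1 / 2 * (τ / 16) ≤ y r * (1 - x r) :=
            mul_le_mul c2 (by linarith) (by positivity) (hy r hr).1
          nlinarith
        · push Not at c2
          have : τ / 8 * (1 / 2) ≤ x r * (1 - y r) :=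
            mul_le_mul c1 (by linarith) (by positivity) (hx r hr).1
          nlinarith
  have c0 := cnt_nonneg R H
  have c1 := cnt_nonneg R fun r => P r ∧ ¬ H r
  refine ⟨fun r hr h => (hP r).2 ?_, ?_, ?_, ?_⟩
  · have := lx r hr
    have := (hH r).1 h
    linarith
  · refine le_of_mul_le_mul_left ?_ hτ
    have := mul_le_mul_of_nonneg_right h1 R0
    linarith
  · have h3 : (1 - τ / 16 - e) * cnt R H ≤ ∑ r ∈ R, m r :=
      markov R H m _ hm0 fun r hr h => by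
        have := lx r hr
        have := (hH r).1 h
        linarith
    have h4 : (1 - τ / 16 - e) * (k * cnt R H) ≤ R.card := by
      have := mul_le_mul_of_nonneg_left h3 k0.le
      linarith
    have h5 : 1 ≤ (1 + τ) * (1 - τ / 16 - e) := by nlinarith
    have h6 := mul_le_mul_of_nonneg_right h5 (mul_nonneg k0.le c0)
    have h7 := mul_le_mul_of_nonneg_left h4 (by linarith : 0 ≤ 1 + τ)
    linarith
  · have h3 := upper R H (fun r => P r ∧ ¬ H r) x (1 + s) 1 (τ / 4 + e) (by linarith) one_pos.le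
      (by positivity) fun r hr => by
        by_cases c : H r
        · exact Or.inl ⟨c, (hx r hr).2⟩
        · have p2 : x r < 1 - τ / 16 := not_le.1 fun h' => c ((hH r).2 h')
          by_cases c' : P r
          · exact Or.inr (Or.inl ⟨⟨c', c⟩, by linarith⟩)
          · have p1 : m r < τ / 4 := not_le.1 fun h' => c' ((hP r).2 h')
            have := lx r hr
            exact Or.inr (Or.inr (by linarith))
    have h4 := mul_le_mul_of_nonneg_left h3 k0.le
    have ke : 528 * (k * e) ≤ τ := by nlinarith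
    have kb : k * b ≤ k * e := mul_le_mul_of_nonneg_left (by rw [he]; linarith) k0.le
    have kτ : k * τ ≤ 1 := by nlinarith
    have h5 : k * cnt R (fun r => P r ∧ ¬ H r) ≤ 64 / 528 * R.card := by
      refine le_of_mul_le_mul_left ?_ hτ
      have p1 := mul_le_mul_of_nonneg_left mk k0.le
      have p2 := mul_le_mul_of_nonneg_right ke R0
      nlinarith
    have h6 : k * b * R.card ≤ 1 / 528 * R.card := mul_le_mul_of_nonneg_right (by linarith) R0
    have h7 : k * (τ / 4 + e) * R.card ≤ (1 / 4 + 1 / 528) * R.card :=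
      mul_le_mul_of_nonneg_right (by linarith) R0
    have h8 : s * (k * cnt R H) ≤ 1 / 4 * (k * cnt R H) :=
      mul_le_mul_of_nonneg_right hs1 (mul_nonneg k0.le c0)
    nlinarith

end

variable {d : ℕ} {M : Md d} {Q : ℝ}

theorem disj {i l : Fin d} (h : i ≠ l) : Disjoint (M.Fl (1 / 2) i) (M.Fl (1 / 2) l) := by
  refine Finset.disjoint_left.2 fun g h1 h2 => ?_
  obtain ⟨-, a1, a2⟩ := mem_flt.1 h1
  obtain ⟨-, -, b2⟩ := mem_flt.1 h2
  have c1 := a2 l h.symm
  have c2 := b2 i h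
  have c3 : 0 < M.h g i := div_pos (by exact_mod_cast a1) (M.cR_pos i)
  linarith

theorem one_le (A : Ax M Q) (i : Fin d) : 1 ≤ (M.Fl (1 / 2) i).card := by
  refine Finset.card_pos.2 ⟨Pi.single i (A.m i : ℤ), mem_flt.2 ⟨A.mG i, ?_, fun l hl => ?_⟩⟩
  · simpa using A.mpos i
  · have := M.cR_pos i
    simp only [Md.h, Pi.single_eq_of_ne hl, Pi.single_eq_same, Int.cast_zero, zero_div,
      Int.cast_natCast]
    positivity

theorem R_pos (A : Ax M Q) : (0 : ℝ) < A.R.card := by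
  have : (0 : V d) ∈ A.R := by
    simp only [Ax.R, Fintype.mem_piFinset, Finset.mem_Ico]
    exact fun i => ⟨le_rfl, by simpa using A.mpos i⟩
  exact_mod_cast Finset.card_pos.2 ⟨_, this⟩

theorem q_ge (A : Ax M Q) (i : Fin d) : Q ≤ A.q i := by
  have : (0 : ℝ) < A.m i := by exact_mod_cast A.mpos i
  exact (le_div_iff₀ this).2 (A.mQ i)

end Fe

open Fe

theorem fe (hb : FbStmt) (hc : FcStmt) : FeStmt := by
  classical
  intro d hd E τ ζ hE hτ hτE hζ
  have d0 : (2 : ℝ) ≤ d := by exact_mod_cast hd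
  have u1 : (0 : ℝ) ≤ 64 * (5 * d + 7) / (ζ * τ) := by positivity
  have u2 : (0 : ℝ) ≤ 528 * E * E * (5 * d + 7) / τ := by positivity
  refine ⟨4 + 64 * (5 * d + 7) / (ζ * τ) + 528 * E * E * (5 * d + 7) / τ, by linarith, ?_⟩
  intro M Q A hQ hp hC
  have Q4 : 4 ≤ Q := by linarith
  have Q0 : 0 < Q := by linarith
  obtain ⟨s, hs⟩ : ∃ s : ℝ, s = 1 / Q := ⟨_, rfl⟩
  have s0 : 0 < s := by rw [hs]; positivity
  have sQ : s * Q = 1 := by rw [hs]; field_simp
  have s1 : s ≤ 1 / 4 := by nlinarith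
  have e1 : 64 * ((5 * d + 7) * s) ≤ ζ * τ := by
    have h1 : 64 * (5 * d + 7) / (ζ * τ) ≤ Q := by linarith
    rw [div_le_iff₀ (by positivity)] at h1
    have := mul_le_mul_of_nonneg_left h1 s0.le
    rw [← mul_assoc s Q, sQ] at this
    linarith
  have e2 : 528 * E * E * ((5 * d + 7) * s) ≤ τ := by
    have h1 : 528 * E * E * (5 * d + 7) / τ ≤ Q := by linarith
    rw [div_le_iff₀ hτ] at h1
    have := mul_le_mul_of_nonneg_left h1 s0.le
    rw [← mul_assoc s Q, sQ] at this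
    linarith
  obtain ⟨c1, c2, c3, c4, -, -⟩ := hc d M Q A Q4
  have R0 := R_pos A
  have q0 : ∀ i, 0 < A.q i := fun i => Q0.trans_le (q_ge A i)
  have qs : ∀ i, 1 ≤ s * A.q i := fun i => by
    have := mul_le_mul_of_nonneg_left (q_ge A i) s0.le
    linarith
  have P0 : 0 < ∏ l, A.q l := Finset.prod_pos fun l _ => q0 l
  obtain ⟨x, hx⟩ : ∃ x : Fin d → V d → ℝ, x = fun i r => A.dep i r / A.q i := ⟨_, rfl⟩
  obtain ⟨m, hm⟩ : ∃ m : V d → ℝ, m = fun r => A.cls r / ∏ l, A.q l := ⟨_, rfl⟩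
  have x1 : ∀ i, ∀ r ∈ A.R, 0 ≤ x i r ∧ x i r ≤ 1 + s := fun i r hr => by
    rw [hx]
    refine ⟨div_nonneg (cnt_nonneg _ _) (q0 i).le, (div_le_iff₀ (q0 i)).2 ?_⟩
    have := c3 i r hr
    have := qs i
    linarith
  have m0 : ∀ r ∈ A.R, 0 ≤ m r := fun r _ => by
    rw [hm]; exact div_nonneg (cnt_nonneg _ _) P0.le
  have m1 : ∀ i l, i ≠ l → ∀ r ∈ A.R, x i r + x l r - x i r * x l r - (3 * d + 3) * s ≤ m r :=
    fun i l h r hr => by
      rw [hx, hm, hs]
      refine (le_div_iff₀ P0).2 ?_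
      have := c4 i l h r hr
      rwa [mul_comm, div_eq_mul_one_div (3 * (d : ℝ) + 3)] at this
  have sx : ∀ i, (1 - (M.Fl (1 / 2) i).card * ((2 * d + 2) * s)) * A.R.card ≤
      (M.Fl (1 / 2) i).card * ∑ r ∈ A.R, x i r := fun i => by
    have h1 := hb d M Q (1 / 2) A i (by linarith) (by norm_num)
    have h2 : (d : ℝ) / (Q * (1 / 2)) = 2 * d * s := by rw [hs]; field_simp
    have h3 : ∑ r ∈ A.R, A.dep i r = A.q i * ∑ r ∈ A.R, x i r := by
      rw [Finset.mul_sum, hx]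
      exact Finset.sum_congr rfl fun r _ => (mul_div_cancel₀ _ (q0 i).ne').symm
    have h4 : (1 : ℝ) ≤ (M.Fl (1 / 2) i).card := by exact_mod_cast one_le A i
    rw [h2, h3] at h1
    generalize ((M.Fl (1 / 2) i).card : ℝ) = k at h1 h4 ⊢
    refine le_of_mul_le_mul_left ?_ (q0 i)
    have h5 : k * A.R.card * 1 ≤ k * A.R.card * (s * A.q i) :=
      mul_le_mul_of_nonneg_left (qs i) (by positivity)
    have h6 : 1 * (d * s * A.q i * A.R.card) ≤ k * (d * s * A.q i * A.R.card) :=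
      mul_le_mul_of_nonneg_right h4 (by have := q0 i; positivity)
    nlinarith
  have sm : M.p * ∑ r ∈ A.R, m r < d * A.R.card := by
    have h1 : ∑ r ∈ A.R, A.cls r = (∏ l, A.q l) * ∑ r ∈ A.R, m r := by
      rw [Finset.mul_sum, hm]
      exact Finset.sum_congr rfl fun r _ => (mul_div_cancel₀ _ P0.ne').symm
    have h2 : M.p * M.n < d * M.vol := hC
    rw [c1, c2, h1] at h2
    refine lt_of_mul_lt_mul_left ?_ P0.le
    linarith
  have oth : ∀ i : Fin d, ∃ l, i ≠ l := fun i => by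
    have : Nontrivial (Fin d) := Fin.nontrivial_iff_two_le.2 hd
    exact (exists_ne i).imp fun _ h => h.symm
  obtain ⟨j, -, hj⟩ := Finset.exists_min_image univ (fun i => (M.Fl (1 / 2) i).card)
    ⟨⟨0, by omega⟩, mem_univ _⟩
  obtain ⟨k, hk⟩ : ∃ k, k = (M.Fl (1 / 2) j).card := ⟨_, rfl⟩
  have k1 : 1 ≤ k := hk ▸ one_le A j
  have k1' : (1 : ℝ) ≤ k := by exact_mod_cast k1
  have hU : (univ.biUnion fun i => M.Fl (1 / 2) i).card = ∑ i, (M.Fl (1 / 2) i).card :=
    Finset.card_biUnion fun i _ l _ h => disj h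
  have hUs : (univ.biUnion fun i => M.Fl (1 / 2) i) ⊆ M.G :=
    Finset.biUnion_subset.2 fun i _ => flt_sub _ _
  have n1 : ∑ _i : Fin d, k ≤ ∑ i, (M.Fl (1 / 2) i).card :=
    Finset.sum_le_sum fun i hi => hk ▸ hj i hi
  have n2 : ∑ i, (M.Fl (1 / 2) i).card ≤ M.G.card := hU ▸ Finset.card_le_card hUs
  have n0 : ∑ _i : Fin d, k = d * k := by simp
  have n3 : (d : ℝ) * k ≤ M.p := by
    have : d * k ≤ M.G.card := by omega
    unfold Md.p
    exact_mod_cast this
  have kE : (k : ℝ) ≤ E := by nlinarith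
  have sm0 : 0 ≤ ∑ r ∈ A.R, m r := Finset.sum_nonneg m0
  have es : 0 ≤ (5 * (d : ℝ) + 7) * s := by positivity
  have τ1 : τ ≤ 1 := by nlinarith
  have n4 : M.G.card ≤ d * k := by
    by_contra hn
    have h1 : (d : ℝ) * k + 1 ≤ M.p := by
      have : d * k + 1 ≤ M.G.card := by omega
      unfold Md.p
      exact_mod_cast this
    obtain ⟨l, hl⟩ := oth j
    have h2 : ∑ r ∈ A.R, (x j r - ((3 * d + 3) * s + 2 * s)) ≤ ∑ r ∈ A.R, m r :=
      Finset.sum_le_sum fun r hr =>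
        low s0.le s1 (x1 j r hr).2 (x1 l r hr).1 (x1 l r hr).2 (m1 j l hl r hr)
    rw [Finset.sum_sub_distrib, Finset.sum_const, nsmul_eq_mul] at h2
    have h3 := sx j
    rw [← hk] at h3
    have h4 : (1 - k * ((5 * d + 7) * s)) * A.R.card ≤ k * ∑ r ∈ A.R, m r := by
      have := mul_le_mul_of_nonneg_left h2 (by linarith : (0 : ℝ) ≤ k)
      linarith
    generalize (5 * (d : ℝ) + 7) * s = e at h4 es e2
    have h5 : ((d : ℝ) * k + 1) * ∑ r ∈ A.R, m r ≤ M.p * ∑ r ∈ A.R, m r :=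
      mul_le_mul_of_nonneg_right h1 sm0
    have h6 := mul_le_mul_of_nonneg_left h4 (by positivity : (0 : ℝ) ≤ d * k + 1)
    have h7 := mul_lt_mul_of_pos_left (h5.trans_lt sm) (by linarith : (0 : ℝ) < k)
    have h8 : ((d : ℝ) * k + 1) * k ≤ E * E :=
      mul_le_mul (h1.trans hp) kE (by linarith) (by linarith)
    have h9 : ((d : ℝ) * k + 1) * k * e ≤ 1 := by
      have := mul_le_mul_of_nonneg_right h8 es
      have : 0 ≤ E * E * e := by positivity
      linarith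
    have h10 := mul_le_mul_of_nonneg_right h9 R0.le
    nlinarith
  have hall : ∀ i, (M.Fl (1 / 2) i).card = k := fun i =>
    ((Finset.sum_eq_sum_iff_of_le fun i hi => hk ▸ hj i hi).1 (by omega) i (mem_univ i)).symm
  have hG : (univ.biUnion fun i => M.Fl (1 / 2) i) = M.G :=
    Finset.eq_of_subset_of_card_le hUs (by omega)
  have sm1 : k * ∑ r ∈ A.R, m r ≤ A.R.card := by
    have := (mul_le_mul_of_nonneg_right n3 sm0).trans_lt sm
    refine le_of_mul_le_mul_left ?_ (by linarith : (0 : ℝ) < d)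
    linarith
  refine ⟨k, k1, kE, hall, fun g hg => ?_, fun i => ?_⟩
  · rw [← hG] at hg
    obtain ⟨i, -, hi⟩ := Finset.mem_biUnion.1 hg
    exact ⟨i, hi⟩
  · obtain ⟨l, hl⟩ := oth i
    have h1 := sx i
    have h2 := sx l
    rw [hall] at h1 h2
    refine core A.R (x i) (x l) m _ _ k s ((3 * d + 3) * s) ((2 * d + 2) * s) τ ζ E s0.le s1
      (by positivity) (by positivity) k1' kE hτ hτE (by linarith) ?_ (x1 i) (x1 l) m0
      (m1 i l hl) h1 h2 sm1 (fun r => ?_) fun r => ?_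
    · have h3 : E * ((5 * d + 7) * s) * 1 ≤ E * ((5 * d + 7) * s) * E :=
        mul_le_mul_of_nonneg_left hE (by positivity)
      linarith
    · rw [hx]; exact (le_div_iff₀ (q0 i)).symm
    · rw [hm]; exact (le_div_iff₀ P0).symm

end Pool.Agent.MP_96f5a9_co.GW
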