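import Mathlib

/-! Generalized Wilf inequality for many generators or long sides: model, tools, row statements. -/

set_option autoImplicit false

namespace Pool.Agent.MP_96f5a9_co.GW

open Finset

abbrev V (d : ℕ) := Fin d → ℤ

open Classical in
/-- number of points of `A` with property `P`, as a real number -/
noncomputable def cnt {α : Type} (A : Finset α) (P : α → Prop) : ℝ := ((A.filter P).card : ℝ)

open Classical in
/-- classical filter -/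
noncomputable def flt {α : Type} (A : Finset α) (P : α → Prop) : Finset α := A.filter P

section Cnt
variable {α β : Type}

theorem mem_flt {A : Finset α} {P : α → Prop} {x : α} : x ∈ flt A P ↔ x ∈ A ∧ P x := by
  classical
  unfold flt; exact Finset.mem_filter

theorem cnt_eq (A : Finset α) (P : α → Prop) : cnt A P = ((flt A P).card : ℝ) := rfl

theorem flt_sub (A : Finset α) (P : α → Prop) : flt A P ⊆ A := fun _ h => (mem_flt.1 h).1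

theorem cnt_nonneg (A : Finset α) (P : α → Prop) : 0 ≤ cnt A P := Nat.cast_nonneg _

theorem cnt_le_card (A : Finset α) (P : α → Prop) : cnt A P ≤ A.card := by
  rw [cnt_eq]; exact_mod_cast Finset.card_le_card (flt_sub A P)

theorem card_le_cnt {A X : Finset α} {P : α → Prop} (h : ∀ x ∈ X, x ∈ A ∧ P x) :
    (X.card : ℝ) ≤ cnt A P := by
  rw [cnt_eq]; exact_mod_cast Finset.card_le_card fun x hx => mem_flt.2 (h x hx)

theorem cnt_le_of_sub {A X : Finset α} {P : α → Prop} (h : ∀ x ∈ A, P x → x ∈ X) :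
    cnt A P ≤ X.card := by
  rw [cnt_eq]
  exact_mod_cast Finset.card_le_card fun x hx => h x (mem_flt.1 hx).1 (mem_flt.1 hx).2

theorem cnt_mono {A A' : Finset α} {P Q : α → Prop} (h : ∀ x ∈ A, P x → x ∈ A' ∧ Q x) :
    cnt A P ≤ cnt A' Q := by
  rw [cnt_eq A]; exact card_le_cnt fun x hx => h x (mem_flt.1 hx).1 (mem_flt.1 hx).2

theorem cnt_eq_zero {A : Finset α} {P : α → Prop} (h : ∀ x ∈ A, ¬ P x) : cnt A P = 0 := by
  apply le_antisymm _ (cnt_nonneg _ _)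
  have := cnt_le_of_sub (A := A) (X := ∅) (P := P) fun x hx hp => absurd hp (h x hx)
  simpa using this

theorem exists_of_cnt_pos {A : Finset α} {P : α → Prop} (h : 0 < cnt A P) : ∃ x ∈ A, P x := by
  by_contra hc
  push Not at hc
  rw [cnt_eq_zero hc] at h
  exact lt_irrefl _ h

theorem cnt_add_not (A : Finset α) (P : α → Prop) :
    cnt A P + cnt A (fun x => ¬ P x) = A.card := by
  classical
  unfold cnt
  have := Finset.card_filter_add_card_filter_not (s := A) P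
  have h2 : ((A.filter P).card : ℝ) + ((A.filter fun x => ¬ P x).card : ℝ) = A.card := by
    exact_mod_cast this
  convert h2

/-- union bound for two properties -/
theorem cnt_le_add {A : Finset α} {P Q R : α → Prop} (h : ∀ x ∈ A, P x → Q x ∨ R x) :
    cnt A P ≤ cnt A Q + cnt A R := by
  classical
  have h1 : cnt A P ≤ ((flt A Q ∪ flt A R).card : ℝ) := cnt_le_of_sub fun x hx hp => by
    rcases h x hx hp with h | h
    · exact mem_union_left _ (mem_flt.2 ⟨hx, h⟩)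
    · exact mem_union_right _ (mem_flt.2 ⟨hx, h⟩)
  refine h1.trans ?_
  rw [cnt_eq, cnt_eq]
  exact_mod_cast Finset.card_union_le _ _

/-- union bound over a finite index set -/
theorem cnt_le_sum {A : Finset α} {P : α → Prop} (s : Finset β) (Q : β → α → Prop)
    (h : ∀ x ∈ A, P x → ∃ i ∈ s, Q i x) : cnt A P ≤ ∑ i ∈ s, cnt A (Q i) := by
  classical
  have h1 : cnt A P ≤ ((s.biUnion fun i => flt A (Q i)).card : ℝ) :=
    cnt_le_of_sub fun x hx hp => by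
      obtain ⟨i, hi, hq⟩ := h x hx hp
      exact mem_biUnion.2 ⟨i, hi, mem_flt.2 ⟨hx, hq⟩⟩
  refine h1.trans ?_
  simp only [cnt_eq]
  exact_mod_cast Finset.card_biUnion_le

/-- disjoint properties -/
theorem sum_cnt_le (A : Finset α) (s : Finset β) (Q : β → α → Prop)
    (h : ∀ x ∈ A, ∀ i ∈ s, ∀ j ∈ s, Q i x → Q j x → i = j) : ∑ i ∈ s, cnt A (Q i) ≤ A.card := by
  classical
  have h1 : ((s.biUnion fun i => flt A (Q i)).card) = ∑ i ∈ s, (flt A (Q i)).card := by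
    refine Finset.card_biUnion fun i hi j hj hij => ?_
    refine Finset.disjoint_left.2 fun x hx hx' => hij ?_
    exact h x (mem_flt.1 hx).1 i hi j hj (mem_flt.1 hx).2 (mem_flt.1 hx').2
  have h2 : (s.biUnion fun i => flt A (Q i)).card ≤ A.card :=
    Finset.card_le_card fun x hx => by
      obtain ⟨i, _, hi⟩ := mem_biUnion.1 hx
      exact (mem_flt.1 hi).1
  simp only [cnt_eq]
  rw [h1] at h2
  exact_mod_cast h2

/-- injection into a finite set -/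
theorem cnt_le_inj {A : Finset α} {P : α → Prop} {Y : Finset β} (f : α → β)
    (hm : ∀ x ∈ A, P x → f x ∈ Y)
    (hi : ∀ x ∈ A, P x → ∀ y ∈ A, P y → f x = f y → x = y) : cnt A P ≤ Y.card := by
  rw [cnt_eq]
  exact_mod_cast Finset.card_le_card_of_injOn f
    (fun x hx => hm x (mem_flt.1 hx).1 (mem_flt.1 hx).2)
    (fun x hx y hy hxy => hi x (mem_flt.1 hx).1 (mem_flt.1 hx).2 y (mem_flt.1 hy).1
      (mem_flt.1 hy).2 hxy)

/-- injection given as a relation: every point has a witness, and the witness determines it -/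
theorem cnt_le_rel {A : Finset α} {P : α → Prop} {Y : Finset β} (R : α → β → Prop)
    (hm : ∀ x ∈ A, P x → ∃ y ∈ Y, R x y)
    (hi : ∀ x ∈ A, ∀ x' ∈ A, ∀ y, R x y → R x' y → x = x') : cnt A P ≤ Y.card := by
  classical
  have h1 : cnt A P ≤ ∑ y ∈ Y, cnt A (fun x => R x y) := cnt_le_sum Y _ hm
  refine h1.trans ?_
  have h2 : ∀ y ∈ Y, cnt A (fun x => R x y) ≤ 1 := fun y _ => by
    rw [cnt_eq]
    have : (flt A fun x => R x y).card ≤ 1 := Finset.card_le_one.2 fun a ha b hb =>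
      hi a (mem_flt.1 ha).1 b (mem_flt.1 hb).1 y (mem_flt.1 ha).2 (mem_flt.1 hb).2
    exact_mod_cast this
  calc _ ≤ ∑ _y ∈ Y, (1 : ℝ) := Finset.sum_le_sum h2
    _ = Y.card := by simp

/-- a map with fibres of size at most `k` -/
theorem cnt_le_fib {A : Finset α} {P : α → Prop} {Y : Finset β} (f : α → β) (k : ℝ)
    (hm : ∀ x ∈ A, P x → f x ∈ Y)
    (hf : ∀ y ∈ Y, cnt A (fun x => P x ∧ f x = y) ≤ k) : cnt A P ≤ k * Y.card := by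
  have h1 : cnt A P ≤ ∑ y ∈ Y, cnt A (fun x => P x ∧ f x = y) :=
    cnt_le_sum Y _ fun x hx hp => ⟨f x, hm x hx hp, hp, rfl⟩
  refine h1.trans ?_
  calc _ ≤ ∑ _y ∈ Y, k := Finset.sum_le_sum hf
    _ = k * Y.card := by simp [mul_comm]

/-- counting pairs by the second entry -/
theorem cnt_prod (A : Finset α) (Y : Finset β) (R : α → β → Prop) :
    cnt (A ×ˢ Y) (fun q => R q.1 q.2) = ∑ y ∈ Y, cnt A (fun x => R x y) := by
  classical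
  simp only [cnt, Finset.card_filter]
  push_cast
  rw [Finset.sum_product_right]

/-- counting pairs by the first entry -/
theorem cnt_prod' (A : Finset α) (Y : Finset β) (R : α → β → Prop) :
    cnt (A ×ˢ Y) (fun q => R q.1 q.2) = ∑ x ∈ A, cnt Y (fun y => R x y) := by
  classical
  simp only [cnt, Finset.card_filter]
  push_cast
  rw [Finset.sum_product]

end Cnt

/-- a submonoid of the orthant that contains everything outside a box, with a generating set -/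
structure Md (d : ℕ) where
  c : Fin d → ℕ
  cpos : ∀ i, 0 < c i
  S : AddSubmonoid (V d)
  nonneg : ∀ x ∈ S, ∀ i, 0 ≤ x i
  out : ∀ x : V d, (∀ i, 0 ≤ x i) → (∃ i, (c i : ℤ) ≤ x i) → x ∈ S
  G : Finset (V d)
  gen : AddSubmonoid.closure (G : Set (V d)) = S
  G0 : (0 : V d) ∉ G

namespace Md

variable {d : ℕ} (M : Md d)

/-- the box -/
noncomputable def B : Finset (V d) := Fintype.piFinset fun i => Finset.Ico (0 : ℤ) (M.c i)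
/-- elements of the monoid in the box -/
noncomputable def N : Finset (V d) := flt M.B fun x => x ∈ M.S
noncomputable def vol : ℝ := ∏ i, (M.c i : ℝ)
noncomputable def n : ℝ := M.N.card
noncomputable def p : ℝ := M.G.card
/-- the point of the axis `k` on the face -/
def ce (k : Fin d) : V d := Pi.single k (M.c k : ℤ)
/-- normalised coordinate -/
noncomputable def h (x : V d) (m : Fin d) : ℝ := (x m : ℝ) / M.c m
/-- the inequality fails -/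
def Ctr : Prop := M.p * M.n < d * M.vol

theorem cR_pos (i : Fin d) : (0 : ℝ) < M.c i := by exact_mod_cast M.cpos i
theorem one_le_cR (i : Fin d) : (1 : ℝ) ≤ M.c i := by exact_mod_cast M.cpos i
theorem vol_pos : 0 < M.vol := Finset.prod_pos fun i _ => M.cR_pos i
theorem mem_B {x : V d} : x ∈ M.B ↔ ∀ i, 0 ≤ x i ∧ x i < M.c i := by
  simp [B, Fintype.mem_piFinset]
theorem mem_N {x : V d} : x ∈ M.N ↔ x ∈ M.B ∧ x ∈ M.S := mem_flt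
theorem card_B : (M.B.card : ℝ) = M.vol := by
  simp [B, vol, Fintype.card_piFinset]
theorem G_mem {g : V d} (hg : g ∈ M.G) : g ∈ M.S := by
  rw [← M.gen]; exact AddSubmonoid.subset_closure hg
theorem zero_mem_N : (0 : V d) ∈ M.N :=
  M.mem_N.2 ⟨M.mem_B.2 fun i => ⟨le_rfl, by simpa using M.cpos i⟩, M.S.zero_mem⟩
theorem one_le_n : 1 ≤ M.n := by
  unfold n; exact_mod_cast Finset.card_pos.2 ⟨_, M.zero_mem_N⟩
theorem n_pos : 0 < M.n := lt_of_lt_of_le one_pos M.one_le_n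
theorem p_nonneg : 0 ≤ M.p := Nat.cast_nonneg _
theorem h_mul (x : V d) (m : Fin d) : M.h x m * M.c m = x m := by
  unfold h; exact div_mul_cancel₀ _ (M.cR_pos m).ne'
theorem h_add (x y : V d) (m : Fin d) : M.h (x + y) m = M.h x m + M.h y m := by
  simp [h, add_div]
theorem h_sub (x y : V d) (m : Fin d) : M.h (x - y) m = M.h x m - M.h y m := by
  simp [h, sub_div]
theorem h_zero (m : Fin d) : M.h 0 m = 0 := by simp [h]
theorem h_nsmul (k : ℕ) (x : V d) (m : Fin d) : M.h (k • x) m = k * M.h x m := by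
  simp [h, mul_div_assoc]
theorem h_sum {ι : Type} (s : Finset ι) (f : ι → V d) (m : Fin d) :
    M.h (∑ i ∈ s, f i) m = ∑ i ∈ s, M.h (f i) m := by
  simp [h, Finset.sum_div]
theorem ce_self (k : Fin d) : M.ce k k = M.c k := by simp [ce]
theorem ce_ne {k m : Fin d} (hm : m ≠ k) : M.ce k m = 0 := by simp [ce, hm]
theorem h_ce_self (k : Fin d) : M.h (M.ce k) k = 1 := by
  simp [h, ce, (M.cR_pos k).ne']
theorem h_ce_ne {k m : Fin d} (hm : m ≠ k) : M.h (M.ce k) m = 0 := by simp [h, ce, hm]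
theorem h_le_h {x y : V d} {m : Fin d} : M.h x m ≤ M.h y m ↔ x m ≤ y m := by
  unfold h; rw [div_le_div_iff_of_pos_right (M.cR_pos m)]; exact Int.cast_le
theorem h_lt_h {x y : V d} {m : Fin d} : M.h x m < M.h y m ↔ x m < y m := by
  unfold h; rw [div_lt_div_iff_of_pos_right (M.cR_pos m)]; exact Int.cast_lt
theorem h_nonneg_iff {x : V d} {m : Fin d} : 0 ≤ M.h x m ↔ 0 ≤ x m := by
  have := M.h_le_h (x := 0) (y := x) (m := m)
  rwa [M.h_zero] at this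
theorem h_lt_one {x : V d} {m : Fin d} : M.h x m < 1 ↔ x m < M.c m := by
  unfold h; rw [div_lt_one (M.cR_pos m)]; exact_mod_cast Iff.rfl
theorem h_le_iff {x : V d} {m : Fin d} {r : ℝ} : M.h x m ≤ r ↔ (x m : ℝ) ≤ r * M.c m := by
  unfold h; rw [div_le_iff₀ (M.cR_pos m)]
theorem h_lt_iff {x : V d} {m : Fin d} {r : ℝ} : M.h x m < r ↔ (x m : ℝ) < r * M.c m := by
  unfold h; rw [div_lt_iff₀ (M.cR_pos m)]
theorem le_h_iff {x : V d} {m : Fin d} {r : ℝ} : r ≤ M.h x m ↔ r * M.c m ≤ (x m : ℝ) := by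
  unfold h; rw [le_div_iff₀ (M.cR_pos m)]
theorem lt_h_iff {x : V d} {m : Fin d} {r : ℝ} : r < M.h x m ↔ r * M.c m < (x m : ℝ) := by
  unfold h; rw [lt_div_iff₀ (M.cR_pos m)]
theorem h_nonneg {x : V d} (hx : x ∈ M.S) (m : Fin d) : 0 ≤ M.h x m :=
  M.h_nonneg_iff.2 (M.nonneg x hx m)
theorem mem_B_h {x : V d} : x ∈ M.B ↔ ∀ i, 0 ≤ M.h x i ∧ M.h x i < 1 := by
  simp only [M.mem_B, M.h_nonneg_iff, M.h_lt_one]
theorem mem_N_of {x : V d} (hx : x ∈ M.S) (h1 : ∀ i, M.h x i < 1) : x ∈ M.N :=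
  M.mem_N.2 ⟨M.mem_B_h.2 fun i => ⟨M.h_nonneg hx i, h1 i⟩, hx⟩
theorem ce_add_mem {b : V d} (hb : ∀ i, 0 ≤ b i) (k : Fin d) : M.ce k + b ∈ M.S := by
  refine M.out _ (fun i => ?_) ⟨k, ?_⟩
  · by_cases hi : i = k
    · subst hi; have := hb i; simp only [Pi.add_apply, M.ce_self]; positivity
    · simp only [Pi.add_apply, M.ce_ne hi]; simpa using hb i
  · have := hb k; simp only [Pi.add_apply, M.ce_self]; omega
/-- a point lies beyond at most one face -/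
theorem face_unique {k l : Fin d} {b b' : V d} (hb : b ∈ M.B) (hb' : b' ∈ M.B)
    (he : M.ce k + b = M.ce l + b') : k = l ∧ b = b' := by
  have hkl : k = l := by
    by_contra hne
    have h1 := congrFun he k
    have h2 := (M.mem_B.1 hb k).1
    have h3 := (M.mem_B.1 hb' k).2
    simp only [Pi.add_apply, M.ce_self, M.ce_ne hne] at h1
    omega
  subst hkl
  exact ⟨rfl, add_left_cancel he⟩

/-- the submonoid generated by the generators with property `P` -/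
noncomputable def cl (P : V d → Prop) : AddSubmonoid (V d) :=
  AddSubmonoid.closure ((flt M.G P : Finset (V d)) : Set (V d))

theorem cl_le (P : V d → Prop) : M.cl P ≤ M.S := by
  rw [← M.gen]
  exact AddSubmonoid.closure_mono fun x hx => (mem_flt.1 (Finset.mem_coe.1 hx)).1
theorem mem_cl_of {P : V d → Prop} {g : V d} (hg : g ∈ M.G) (hp : P g) : g ∈ M.cl P :=
  AddSubmonoid.subset_closure (Finset.mem_coe.2 (mem_flt.2 ⟨hg, hp⟩))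
theorem cl_mono {P Q : V d → Prop} (h : ∀ g ∈ M.G, P g → Q g) : M.cl P ≤ M.cl Q :=
  AddSubmonoid.closure_mono fun x hx => by
    have := mem_flt.1 (Finset.mem_coe.1 hx)
    exact Finset.mem_coe.2 (mem_flt.2 ⟨this.1, h x this.1 this.2⟩)
/-- factorization with multiplicities -/
theorem fact {P : V d → Prop} {z : V d} (hz : z ∈ M.cl P) :
    ∃ t : V d → ℕ, z = ∑ g ∈ flt M.G P, t g • g := by
  obtain ⟨t, _, ht⟩ := AddSubmonoid.mem_closure_finset.1 hz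
  exact ⟨t, ht.symm⟩
/-- either a generator with `P` divides `z`, or `z` is a sum of generators below `z` without `P` -/
theorem dich (P : V d → Prop) {z : V d} (hz : z ∈ M.S) :
    (∃ g ∈ M.G, P g ∧ z - g ∈ M.S) ∨ z ∈ M.cl fun g => ¬ P g ∧ z - g ∈ M.S := by
  classical
  by_cases hP : ∃ g ∈ M.G, P g ∧ z - g ∈ M.S
  · exact Or.inl hP
  right
  have hz' := hz
  rw [← M.gen] at hz'
  obtain ⟨t, _, ht⟩ := AddSubmonoid.mem_closure_finset.1 hz'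
  rw [← ht]
  refine AddSubmonoid.sum_mem _ fun g hg => ?_
  rcases Nat.eq_zero_or_pos (t g) with h0 | h0
  · rw [h0, zero_smul]; exact AddSubmonoid.zero_mem _
  have hs : z - g ∈ M.S := by
    obtain ⟨k, hk⟩ : ∃ k, t g = k + 1 := ⟨t g - 1, by omega⟩
    have e : z - g = k • g + ∑ x ∈ M.G.erase g, t x • x := by
      rw [← ht, ← Finset.add_sum_erase _ _ hg, hk, succ_nsmul]; abel
    rw [e]
    exact M.S.add_mem (M.S.nsmul_mem (M.G_mem hg) _) (M.S.sum_mem fun x hx =>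
      M.S.nsmul_mem (M.G_mem (mem_of_mem_erase hx)) _)
  refine AddSubmonoid.nsmul_mem _ (M.mem_cl_of hg ⟨fun hp => hP ⟨g, hg, hp, hs⟩, ?_⟩) _
  rw [ht]; exact hs

/-- `b` is served in direction `k` by a generator next to the face -/
def Srv (ε : ℝ) (k : Fin d) (b g : V d) : Prop :=
  g ∈ M.G ∧ 1 - ε ≤ M.h g k ∧ M.ce k + b - g ∈ M.N
/-- near tiling -/
def Til (ε : ℝ) : Prop := ∀ k, cnt M.B (fun b => ¬ ∃ g, M.Srv ε k b g) ≤ ε * M.vol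
open Classical in
/-- the colour of `b` -/
noncomputable def chi (ε : ℝ) (k : Fin d) (b : V d) : V d :=
  if hb : ∃ g, M.Srv ε k b g then hb.choose else 0
theorem chi_spec {ε : ℝ} {k : Fin d} {b : V d} (hb : ∃ g, M.Srv ε k b g) :
    M.Srv ε k b (M.chi ε k b) := by
  unfold chi; rw [dif_pos hb]; exact hb.choose_spec
/-- the pair `(x, g)` is designated for the direction `k` -/
def Des (ε : ℝ) (k : Fin d) (x g : V d) : Prop :=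
  x + g - M.ce k ∈ M.B ∧ (∃ g', M.Srv ε k (x + g - M.ce k) g') ∧ M.chi ε k (x + g - M.ce k) = g

end Md

/-- share of the corner box -/
noncomputable def kap (d : ℕ) (ρ : ℝ) : ℝ := (ρ / 2) ^ d / (2 * d)

/-! ## Tools -/

/-- counting in the box -/
def BoxStmt : Prop := ∀ (d : ℕ) (M : Md d),
  (∀ (m : Fin d) (ρ : ℝ), 0 ≤ ρ → cnt M.B (fun b => 1 - ρ ≤ M.h b m) ≤ ρ * M.vol) ∧
  (∀ (m : Fin d) (ρ : ℝ), 0 ≤ ρ → cnt M.B (fun b => M.h b m ≤ ρ) ≤ (ρ + 1 / M.c m) * M.vol) ∧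
  (∀ (m : Fin d) (t : ℤ), 0 ≤ t → cnt M.B (fun b => b m < t) ≤ (t : ℝ) / M.c m * M.vol) ∧
  (∀ ρ : Fin d → ℝ, (∀ m, 0 ≤ ρ m ∧ ρ m ≤ 1) →
    (∏ m, ρ m) * M.vol ≤ cnt M.B (fun b => ∀ m, M.h b m < ρ m)) ∧
  (∀ (m : Fin d) (lo hi : ℤ) (ρ : ℝ), 0 ≤ lo → lo ≤ hi → hi ≤ M.c m → 0 ≤ ρ → ρ ≤ 1 →
    ((hi - lo : ℤ) : ℝ) / M.c m * ρ ^ (d - 1) * M.vol ≤
      cnt M.B (fun b => lo ≤ b m ∧ b m < hi ∧ ∀ l, l ≠ m → M.h b l < ρ))

/-- cutting a sum of generators at a threshold, and into boundedly many parts -/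
def PartsStmt : Prop := ∀ (d : ℕ) (M : Md d) (P : V d → Prop),
  (∀ (k : Fin d) (a T : ℝ) (z : V d), (∀ g ∈ M.G, P g → M.h g k < a) → z ∈ M.cl P →
    0 < T → T ≤ M.h z k →
    ∃ y ∈ M.cl P, z - y ∈ M.cl P ∧ T ≤ M.h y k ∧ M.h y k < T + a) ∧
  (∀ (k : Fin d) (a T : ℝ) (r : ℕ) (z : V d), 0 < a → (∀ g ∈ M.G, P g → M.h g k < a) →
    z ∈ M.cl P → M.h z k ≤ T → T / a + 1 ≤ r →
    ∃ y : Fin r → V d, (∀ j, y j ∈ M.cl P ∧ M.h (y j) k < 2 * a) ∧ z = ∑ j, y j) ∧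
  (∀ (η : ℝ) (r : ℕ) (z : V d), 0 < η → η ≤ 1 → (∀ g ∈ M.G, P g → ∀ m, M.h g m ≤ 1 - η) →
    z ∈ M.cl P → (∀ m, M.h z m ≤ 3) → 6 * d / η + 1 ≤ r →
    ∃ y : Fin r → V d, (∀ j, y j ∈ M.cl P ∧ ∀ m, M.h (y j) m ≤ 1 - η / 2) ∧ z = ∑ j, y j)

/-- the sumset inequality in the form used here -/
def PlStmt : Prop := ∀ (d : ℕ) (C A Y Z : Finset (V d)) (K : ℝ) (r r' : ℕ),
  C.Nonempty → (∀ x ∈ C, ∀ y ∈ A, x + y ∈ Y) → (Y.card : ℝ) ≤ K * C.card →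
  (∀ z ∈ Z, ∃ (y : Fin r → V d) (y' : Fin r' → V d),
    (∀ j, y j ∈ A) ∧ (∀ j, y' j ∈ A) ∧ z = ∑ j, y j - ∑ j, y' j) →
  (Z.card : ℝ) ≤ K ^ (r + r') * C.card

/-- scaling of a box for a monoid with few generators -/
def LsStmt : Prop := ∀ (d : ℕ) (A X Y : Finset (V d)) (r C0 : ℕ) (H : Fin d → ℝ),
  1 ≤ r → A.card ≤ C0 → (∀ a ∈ A, ∀ m, 0 ≤ a m) →
  (∀ x ∈ X, x ∈ AddSubmonoid.closure (A : Set (V d)) ∧ ∀ m, (x m : ℝ) < r * H m) →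
  (∀ y ∈ AddSubmonoid.closure (A : Set (V d)), (∀ m, (y m : ℝ) < H m) → y ∈ Y) →
  (X.card : ℝ) ≤ (r : ℝ) ^ C0 * Y.card

/-- a thin top layer of long lines -/
def TlStmt : Prop := ∀ (d : ℕ) (M : Md d) (W R : Finset (V d)) (m : Fin d) (ρ σ : ℝ),
  0 ≤ ρ → ρ ≤ σ →
  (∀ b ∈ R, 1 - ρ ≤ M.h b m ∧ M.h b m < 1 ∧
    ∀ t : ℤ, (1 - σ) * M.c m ≤ t → t < M.c m → Function.update b m t ∈ W) →
  σ * R.card ≤ 2 * ρ * W.card

/-! ## Reduction to a near tiling -/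

def LayerStmt : Prop := ∀ d : ℕ, 2 ≤ d → ∃ d0 : ℝ, 0 < d0 ∧ ∀ d1 : ℝ, 0 < d1 → d1 ≤ d0 →
  ∃ K0 p0 : ℝ, 0 < K0 ∧ ∀ M : Md d, p0 ≤ M.p →
    K0 * cnt M.N (fun x => ∀ m, M.h x m < 1 - d1) < M.n → ¬ M.Ctr

def StepStmt : Prop := ∀ d : ℕ, 2 ≤ d → ∀ d1 K0 : ℝ, 0 < d1 → d1 ≤ 1 / 10 → 0 < K0 →
  ∃ K1 p0 : ℝ, 0 < K1 ∧ ∀ M : Md d, p0 ≤ M.p → M.Ctr →
    M.n ≤ K0 * cnt M.N (fun x => ∀ m, M.h x m < 1 - d1) →
    M.n ≤ K1 * cnt M.N (fun x => ∀ m, M.h x m < d1 / 2)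

def BulkStmt : Prop := ∀ d : ℕ, 2 ≤ d → ∀ ε K : ℝ, 0 < ε → ε ≤ 1 / 2 → 0 < K →
  ∃ p0 : ℝ, ∀ M : Md d, p0 ≤ M.p → M.Ctr →
    M.n ≤ K * cnt M.N (fun x => ∀ m, M.h x m < ε / (4 * d)) → M.Til ε

/-! ## The near tiling regime -/

/-- first consequences of a near tiling -/
structure Fac {d : ℕ} (M : Md d) (ε : ℝ) : Prop where
  ctr : M.Ctr
  und : cnt (M.N ×ˢ M.G) (fun q => ¬ ∃ k, M.Des ε k q.1 q.2) ≤ d * ε * M.vol
  volle : d * (1 - ε) * M.vol ≤ M.p * M.n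
  ul : ∀ (m : Fin d) (ρ : ℝ), 0 ≤ ρ →
    cnt M.N (fun x => 1 - ρ ≤ M.h x m) ≤ (2 * ρ + 4 * ε) * M.n
  core : ∀ ρ : ℝ, 0 < ρ → ρ ≤ 1 → ε ≤ (ρ / 2) ^ d / 2 →
    kap d ρ * M.n ≤ cnt M.N (fun x => ∀ m, M.h x m < ρ)
  lab : ∀ (l j : Fin d) (ρ σ : ℝ) (X L : Finset (V d)), 0 ≤ ρ + σ →
    (∀ x ∈ X, x ∈ M.N ∧ M.h x j ≤ σ) →
    (∀ g ∈ L, g ∈ M.G ∧ (∀ m, m ≠ l → M.h g m < 1 - ε) ∧ M.h (g - M.ce l) j ≤ ρ) →
    (L.card : ℝ) * X.card ≤ (d * ε + ρ + σ + 1 / M.c j) * M.vol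

def FacStmt : Prop := ∀ (d : ℕ) (M : Md d) (ε : ℝ), 2 ≤ d → 0 < ε → ε ≤ 1 / 2 →
  M.Ctr → M.Til ε → Fac M ε

/-- colours are nearly invariant under translation by an element -/
def InvStmt : Prop := ∀ (d : ℕ) (M : Md d) (ε : ℝ) (k : Fin d) (s : V d), 0 < ε →
  M.Til ε → Fac M ε → s ∈ M.S →
  cnt M.B (fun b => (∀ m, s m ≤ b m) ∧ ¬ (M.ce k + b - M.chi ε k b - s ∈ M.N)) ≤
    (d + 3) * ε * M.vol

/-- flat periods in the directions of `I`, no extent in the other directions -/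
structure Str {d : ℕ} (M : Md d) (la mu de : ℝ) where
  I : Finset (Fin d)
  a : Fin d → V d
  Exc : Finset (V d)
  exc : (Exc.card : ℝ) ≤ de * M.n
  aN : ∀ m ∈ I, a m ∈ M.N
  alo : ∀ m ∈ I, la ≤ M.h (a m) m
  ahi : ∀ m ∈ I, M.h (a m) m ≤ 1 / 2 + 2 * la
  aflat : ∀ m ∈ I, ∀ l, l ≠ m → M.h (a m) l ≤ mu
  inv : ∀ m ∈ I, ∀ x ∈ M.N, x ∉ Exc → 4 * la ≤ M.h x m → x - a m ∈ M.N
  low : ∀ m, m ∉ I → ∀ x ∈ M.N, x ∉ Exc → M.h x m ≤ 4 * la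

def StructStmt : Prop := ∀ d : ℕ, 2 ≤ d → ∀ la mu de : ℝ, 0 < la → la ≤ 1 / 100 → 0 < mu →
  0 < de → ∃ ε0 : ℝ, 0 < ε0 ∧ ∀ (M : Md d) (ε : ℝ), 0 < ε → ε ≤ ε0 → M.Til ε → Fac M ε →
    Nonempty (Str M la mu de)

/-- the constants, chosen from left to right -/
structure Par (d : ℕ) where
  ga : ℝ
  th : ℝ
  et : ℝ
  r0 : ℕ
  C2 : ℝ
  C3 : ℝ
  C0 : ℕ
  la : ℝ
  NU : ℕ
  mu : ℝ
  de : ℝ
  ep : ℝ
  d2 : 2 ≤ d
  ga_pos : 0 < ga
  ga_le : 10 * d * ga ≤ 1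
  th_pos : 0 < th
  th_le : 30 * d * 2 ^ d * th ≤ 1
  th30 : th ≤ 1 / 30
  et_pos : 0 < et
  et_le : 64 * d * et ≤ th * ga
  et_le2 : 300 * d ^ 2 * et ≤ 1
  et1 : et ≤ 1 / 1000
  et_th : 4 * et ≤ th
  r0_ge : 6 * d / et + 1 ≤ r0
  C2_ge : (16 * d / (ga * et) + 1) ^ d ≤ C2
  C3_ge : (1 / kap d (et / 2)) ^ (2 * r0) ≤ C3
  C3_one : 1 ≤ C3
  C0_ge : (d + (2 * d * C2 + 2 * d ^ 2 / et ^ d)) * C3 ≤ C0
  la_pos : 0 < la
  la_le : (C0 + 1) * 2 ^ (C0 + d) * 200 * d * la ≤ ga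
  la_tau : 64 * d * r0 * la ≤ ga * et ^ d
  la_et : 100 * d * la ≤ et
  la1 : la ≤ 1 / 1000
  NU_ge : 6 / la ≤ NU
  mu_pos : 0 < mu
  mu_le : 4 * d * NU * mu ≤ la
  mu_la : 4 * d * mu ≤ la
  de_pos : 0 < de
  de_le : (r0 + 1) * (NU + 1) ^ d * de ≤ la * kap d (la / 4)
  de_lt : de < kap d (et / 2)
  de_half : de ≤ 1 / 2
  ep_pos : 0 < ep
  ep_le : d * ep ≤ la
  ep_la : ep ≤ la
  ep_core : ep ≤ (la / 4 / 2) ^ d / 2
  ep_core2 : ep ≤ (et / 2 / 2) ^ d / 2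

/-- extent of the inner monoid in the directions outside `I` -/
noncomputable def Par.tau {d : ℕ} (P : Par d) : ℝ := 4 * P.la * P.r0

def ParStmt : Prop := ∀ d : ℕ, 2 ≤ d → ∀ f : ℝ → ℝ → ℝ → ℝ,
  (∀ la mu de, 0 < la → la ≤ 1 / 100 → 0 < mu → 0 < de → 0 < f la mu de) →
  ∃ P : Par d, P.ep ≤ f P.la P.mu P.de ∧ P.ep ≤ 1 / 2

/-- everything known in the near tiling regime -/
structure Ctx (d : ℕ) where
  M : Md d
  P : Par d
  F : Fac M P.ep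
  T : Str M P.la P.mu P.de

namespace Ctx

variable {d : ℕ} (X : Ctx d)

/-- inner generators -/
def In (g : V d) : Prop := ∀ m, X.M.h g m < 1 - X.P.et
noncomputable def A0 : Finset (V d) := flt X.M.G X.In
noncomputable def M0 : AddSubmonoid (V d) := X.M.cl X.In
/-- absorbed generators -/
noncomputable def Kab : Finset (V d) :=
  flt X.M.G fun g => ¬ X.In g ∧ ∃ x ∈ X.M0, g + x ∈ X.M0 ∧ g + x ∈ X.M.B
noncomputable def Em : Finset (V d) := flt X.M.G fun g => ¬ X.In g ∧ g ∉ X.Kab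
noncomputable def N0 : Finset (V d) := flt X.M.N fun x => x ∈ X.M0
noncomputable def N1 : Finset (V d) := flt X.M.N fun x => x ∉ X.M0
def Zero (k : Fin d) (b : V d) : Prop :=
  ∃ g, (g = 0 ∨ g ∈ X.Kab) ∧ ∃ x ∈ X.M0, X.M.ce k + b = g + x
def OK (k : Fin d) (b : V d) : Prop := ∃ g ∈ X.Em, ∃ x ∈ X.N0, X.M.ce k + b = g + x
/-- no nonzero inner element below -/
def Dl (δ : V d) : Prop := (∀ m, 0 ≤ δ m) ∧ ∀ s ∈ X.M0, (∀ m, s m ≤ δ m) → s = 0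
noncomputable def Sur : ℝ := cnt (X.N0 ×ˢ X.Em) fun q => ∃ j, 2 ≤ X.M.h (q.1 + q.2) j
def Arm (b : V d) : Prop :=
  ∃ δ s, X.Dl δ ∧ s ∈ X.M0 ∧ b = δ + s ∧ ∃ j ∈ X.T.I, 1 - X.P.th < X.M.h δ j
def TyD (k : Fin d) (g : V d) : Prop :=
  g ∈ X.Em ∧ g ∈ X.M.B ∧ 1 - X.P.et ≤ X.M.h g k ∧
    (∀ m ∈ X.T.I, m ≠ k → X.M.h g m ≤ 1 - X.P.th) ∧ ∀ m, m ∉ X.T.I → X.M.h g m < 1 - X.P.et
def VD (k : Fin d) (b : V d) : Prop := ∃ g, X.TyD k g ∧ ∀ m, g m ≤ b m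
def WU (j : Fin d) (b : V d) : Prop :=
  ∃ g ∈ X.Em, g ∈ X.M.B ∧ 1 - X.P.et ≤ X.M.h g j ∧ ∀ m, g m ≤ b m
def WU2 (j k : Fin d) (b : V d) : Prop :=
  ∃ g ∈ X.Em, g ∈ X.M.B ∧ 1 - X.P.et ≤ X.M.h g j ∧ (∀ m, m ≠ k → g m ≤ b m) ∧
    (X.M.c k : ℤ) - b k ≤ 2 * (X.M.c k - g k)
noncomputable def Elow (l : Fin d) : Finset (V d) :=
  flt X.M.G fun g => 1 - X.P.et ≤ X.M.h g l ∧ ∀ m, m ≠ l → X.M.h g m < 1 - 2 * X.P.et
/-- bound for the failures of the covering map -/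
def Fail (Φ : ℝ) : Prop := ∀ g ∈ X.Em, g ∈ X.M.B → ∀ l, X.M.h g l ≤ 1 - X.P.et →
  cnt X.M.B (fun β => g + β ∈ X.M.B ∧ X.M.ce l + β ∈ X.M0) ≤ Φ
/-- the inner monoid is flat in the directions outside `I` -/
def Low : Prop := ∀ z ∈ X.M0, (∀ m, X.M.h z m ≤ 3) → ∀ j, j ∉ X.T.I → X.M.h z j ≤ X.P.tau
/-- the covering map -/
def Cm : Prop := ∀ (l : Fin d) (β : V d), (∀ m, 0 ≤ β m ∧ X.M.h β m < 1 - 2 * X.P.et) →
  X.M.ce l + β ∈ X.M0 ∨ ∃ g' ∈ X.Elow l, ∃ x' ∈ X.N0, X.M.ce l + β = g' + x'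

theorem M0_le : X.M0 ≤ X.M.S := X.M.cl_le _
/-- an element with all coordinates away from the faces is inner -/
theorem mem_M0 {x : V d} (hx : x ∈ X.M.S) (h : ∀ m, X.M.h x m < 1 - X.P.et) : x ∈ X.M0 := by
  rcases X.M.dich (fun g => ¬ X.In g) hx with ⟨g, _, hp, hs⟩ | h2
  · exfalso; apply hp; intro m
    have := X.M.h_nonneg hs m
    rw [X.M.h_sub] at this
    linarith [h m]
  · exact X.M.cl_mono (fun g _ hg => not_not.1 hg.1) h2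
/-- translates of a generator that is not absorbed are not inner -/
theorem light {g x : V d} (hg : g ∈ X.Em) (hx : x ∈ X.M0) (hB : g + x ∈ X.M.B) :
    g + x ∈ X.N1 := by
  obtain ⟨hG, hI, hK⟩ := mem_flt.1 hg
  refine mem_flt.2 ⟨X.M.mem_N.2 ⟨hB, X.M.S.add_mem (X.M.G_mem hG) (X.M0_le hx)⟩, fun h0 => ?_⟩
  exact hK (mem_flt.2 ⟨hG, hI, x, hx, h0, hB⟩)

end Ctx

/-- flatness outside `I`, covering map, crude bounds -/
def LowStmt : Prop := ∀ (d : ℕ) (X : Ctx d),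
  X.Low ∧ X.Cm ∧ (∀ k, k ∉ X.T.I → ∀ b ∈ X.M.B, ¬ X.Zero k b) ∧
  (∀ k, cnt X.M.B (X.Zero k) ≤ X.P.C3 * X.M.n) ∧ X.Fail (X.P.C3 * X.M.n) ∧
  (X.A0.card ≤ X.P.C0 → X.Fail ((1 / X.P.et + 2) ^ X.P.C0 * X.N1.card))

/-- sizes of the sets of generators next to one face -/
def ElowStmt : Prop := ∀ (d : ℕ) (X : Ctx d), X.Cm →
  (∀ k, cnt X.M.B (X.Zero k) ≤ X.P.C3 * X.M.n) →
  (∀ l, ((X.Elow l).card : ℝ) ≤ X.M.p / d + 2 * d * X.P.et * X.M.p + d * X.P.C3) ∧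
  (1 - 2 * d * X.P.et) * X.M.p - d * X.P.C3 ≤ X.Em.card

/-- every point of the box is of one of five kinds; the served points are paid by pairs -/
def ClsStmt : Prop := ∀ (d : ℕ) (X : Ctx d), X.Low →
  (∀ k, ∀ b ∈ X.M.B, X.OK k b ∨ X.Zero k b ∨ X.Arm b ∨ (k ∈ X.T.I ∧ X.VD k b) ∨
    ∃ j, j ∉ X.T.I ∧ X.WU2 j k b) ∧
  ∑ k, cnt X.M.B (X.OK k) ≤ (X.Em.card : ℝ) * X.N0.card - X.Sur

/-- the path lemma -/
def PathStmt : Prop := ∀ (d : ℕ) (X : Ctx d) (z : V d) (ν : Fin d → ℕ), z ∈ X.M0 →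
  (∀ m, X.M.h z m ≤ 3) → (∀ m, ν m ≤ X.P.NU) →
  (∀ m, X.M.h (z - ∑ l ∈ X.T.I, ν l • X.T.a l) m ≤ 1 - X.P.la / 2) →
  (∀ m ∈ X.T.I, 1 ≤ ν m →
    4 * X.P.la ≤ X.M.h (z - ∑ l ∈ X.T.I, ν l • X.T.a l) m + X.M.h (X.T.a m) m) →
  cnt X.M.N (fun x => (∀ m, X.M.h x m < X.P.la / 4) ∧
      ¬ (x + (z - ∑ l ∈ X.T.I, ν l • X.T.a l) ∈ X.M.N)) ≤
    X.P.la * cnt X.M.N (fun x => ∀ m, X.M.h x m < X.P.la / 4)

/-- shifting points of the zero class back into the box -/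
def Ctx.Zu {d : ℕ} (X : Ctx d) : Prop := ∀ k ∈ X.T.I, ∀ κ : ℕ, κ * X.P.la ≤ 3 →
  ∀ U : Finset (V d),
  (∀ u ∈ U, (∃ g x, (g = 0 ∨ g ∈ X.Kab) ∧ x ∈ X.M0 ∧ (∀ m, X.M.h x m ≤ 2) ∧
      u = g + x - κ • X.T.a k) ∧ (∀ m, X.M.h u m < 1) ∧
      6 * X.P.la ≤ X.M.h u k + X.M.h (X.T.a k) k) →
  cnt U (fun u => u ∉ X.M.N) ≤ (X.P.C0 + 1) * 2 ^ d * 22 * d * X.P.la * X.M.n

def ZuStmt : Prop := ∀ (d : ℕ) (X : Ctx d), X.Low → X.Kab.card ≤ X.P.C0 → X.Zu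

def ZeroStmt : Prop := ∀ (d : ℕ) (X : Ctx d), X.Zu → X.A0.card ≤ X.P.C0 →
  ∀ k ∈ X.T.I, cnt X.M.B (X.Zero k) ≤ (1 + X.P.ga) * X.M.n

/-- no nonzero inner element on the axis `l` -/
def Ctx.Free {d : ℕ} (X : Ctx d) (l : Fin d) : Prop :=
  ∀ x ∈ X.M0, (∀ m, m ≠ l → x m = 0) → x = 0

def ArmStmt : Prop := ∀ (d : ℕ) (X : Ctx d),
  2 * d * cnt X.M.B X.Arm ≤ X.Sur ∧ ∀ l ∈ X.T.I, X.Free l → X.M.n / 3 ≤ X.Sur

def DomStmt : Prop := ∀ (d : ℕ) (X : Ctx d), X.T.I.card ≤ X.A0.card ∧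
  (X.A0.card + X.Kab.card ≤ X.T.I.card →
    (∃ l ∈ X.T.I, X.Free l) ∨ ∀ k ∈ X.T.I, cnt X.M.B (X.Zero k) ≤ X.M.n)

def DStmt : Prop := ∀ (d : ℕ) (X : Ctx d) (Φ E : ℝ), X.Low → X.Cm → X.Fail Φ → 0 ≤ Φ →
  (∀ l, ((X.Elow l).card : ℝ) ≤ E) →
  ∑ k ∈ X.T.I, cnt X.M.B (X.VD k) ≤ (1 + X.P.ga) * (E * X.N1.card + d * X.P.C2 * Φ)

def UStmt : Prop := ∀ (d : ℕ) (X : Ctx d) (Φ : ℝ), X.Low → X.Cm → X.Fail Φ → 0 ≤ Φ →
  ∀ j, j ∉ X.T.I → ∀ k, cnt X.M.B (X.WU2 j k) ≤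
    2 * (13 * X.P.et * X.M.p * X.N1.card + Φ / X.P.et ^ d)

/-- the end of the near tiling regime -/
def EndStmt : Prop := ∀ (d : ℕ) (X : Ctx d),
  X.M.p < 10 * (3 * d * X.P.C3 +
    (2 * d * X.P.C2 + 2 * d ^ 2 / X.P.et ^ d) * (1 / X.P.et + 2) ^ X.P.C0)

/-- many generators -/
def MainStmt : Prop := ∀ d : ℕ, 2 ≤ d → ∃ E : ℝ, ∀ M : Md d, E ≤ M.p → ¬ M.Ctr

/-! ## Few generators, long sides -/

/-- short periods on the axes -/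
structure Ax {d : ℕ} (M : Md d) (Q : ℝ) where
  m : Fin d → ℕ
  mpos : ∀ i, 0 < m i
  mG : ∀ i, (Pi.single i (m i : ℤ) : V d) ∈ M.G
  mQ : ∀ i, Q * m i ≤ M.c i

namespace Ax
variable {d : ℕ} {M : Md d} {Q : ℝ} (A : Ax M Q)
noncomputable def R : Finset (V d) := Fintype.piFinset fun i => Finset.Ico (0 : ℤ) (A.m i)
/-- number of periods along the side `i` -/
noncomputable def q (i : Fin d) : ℝ := (M.c i : ℝ) / A.m i
/-- elements of the class of `r` -/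
noncomputable def cls (r : V d) : ℝ := cnt M.N fun x => ∀ l, (A.m l : ℤ) ∣ x l - r l
/-- elements on the line through `r` in direction `i` -/
noncomputable def dep (i : Fin d) (r : V d) : ℝ :=
  cnt M.N fun x => (A.m i : ℤ) ∣ x i - r i ∧ ∀ l, l ≠ i → x l = r l
/-- the line of `r` in direction `i` is almost full -/
def Hs (τ : ℝ) (i : Fin d) (r : V d) : Prop := (1 - τ / 16) * A.q i ≤ A.dep i r
/-- the class of `r` has a share of its points -/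
def Ps (τ : ℝ) (r : V d) : Prop := τ / 4 * ∏ l, A.q l ≤ A.cls r
end Ax

/-- generators that are flat in direction `i` -/
noncomputable def Md.Fl {d : ℕ} (M : Md d) (σ : ℝ) (i : Fin d) : Finset (V d) :=
  flt M.G fun g => 0 < g i ∧ ∀ l, l ≠ i → M.h g l ≤ σ * M.h g i

def FaStmt : Prop := ∀ (d : ℕ) (E Q : ℝ), ∃ C : ℕ, ∀ M : Md d, M.p ≤ E → (∀ i, C ≤ M.c i) →
  Nonempty (Ax M Q)

/-- averaging over the position of the face -/
def FbStmt : Prop := ∀ (d : ℕ) (M : Md d) (Q σ : ℝ) (A : Ax M Q) (i : Fin d), 1 ≤ Q → 0 < σ →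
  (1 - d / (Q * σ)) * A.q i * A.R.card ≤
    ((M.Fl σ i).card : ℝ) * (∑ r ∈ A.R, A.dep i r + 2 * A.R.card)

def FcStmt : Prop := ∀ (d : ℕ) (M : Md d) (Q : ℝ) (A : Ax M Q), 4 ≤ Q →
  M.n = ∑ r ∈ A.R, A.cls r ∧ M.vol = (∏ l, A.q l) * A.R.card ∧
  (∀ i, ∀ r ∈ A.R, A.dep i r ≤ A.q i + 1) ∧
  (∀ i k, i ≠ k → ∀ r ∈ A.R, (∏ l, A.q l) * (A.dep i r / A.q i + A.dep k r / A.q k -
    A.dep i r / A.q i * (A.dep k r / A.q k) - (3 * d + 3) / Q) ≤ A.cls r) ∧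
  (∀ i, ∀ r ∈ A.R, 0 < A.dep i r → ∃ y ∈ M.S, (A.m i : ℤ) ∣ y i - r i ∧
    (∀ l, l ≠ i → y l = r l) ∧ M.h y i ≤ 1 - A.dep i r / A.q i + 1 / Q) ∧
  (∀ (i : Fin d) (y r : V d) (t : ℝ), y ∈ M.S → (∀ l, (A.m l : ℤ) ∣ y l - r l) → t ≤ 1 →
    M.h y i ≤ 1 - t → (∀ l, l ≠ i → y l ≤ 2 * A.m l) →
    (∏ l, A.q l) * (t - 2 * d / Q) ≤ A.cls r)

/-- sums of few elements that nearly fix a set -/
def GrpStmt : Prop := ∀ (Γ : Type) [AddCommGroup Γ] (H P Z : Finset Γ) (s : ℕ), H ⊆ P →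
  (∀ z ∈ Z, ∃ y : Fin s → Γ, z = ∑ j, y j ∧ ∀ j, ∀ x ∈ H, x + y j ∈ P) →
  (Z.card : ℝ) * (H.card - s * (P.card - H.card)) ≤ (H.card : ℝ) ^ 2

/-- the classes are almost full or almost empty -/
def FeStmt : Prop := ∀ d : ℕ, 2 ≤ d → ∀ E τ ζ : ℝ, 1 ≤ E → 0 < τ → τ * E ≤ 1 → 0 < ζ →
  ∃ Q0 : ℝ, 4 ≤ Q0 ∧ ∀ (M : Md d) (Q : ℝ) (A : Ax M Q), Q0 ≤ Q → M.p ≤ E → M.Ctr →
    ∃ k : ℕ, 1 ≤ k ∧ (k : ℝ) ≤ E ∧ (∀ i, (M.Fl (1 / 2) i).card = k) ∧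
      (∀ g ∈ M.G, ∃ i, g ∈ M.Fl (1 / 2) i) ∧ ∀ i, (∀ r ∈ A.R, A.Hs τ i r → A.Ps τ r) ∧
        cnt A.R (fun r => A.Ps τ r ∧ ¬ A.Hs τ i r) ≤ ζ * A.R.card ∧
        k * cnt A.R (A.Hs τ i) ≤ (1 + τ) * A.R.card ∧
        (A.R.card : ℝ) ≤ 2 * k * cnt A.R (A.Hs τ i)

def FStmt : Prop := ∀ d : ℕ, 2 ≤ d → ∀ E : ℝ, ∃ C : ℕ, ∀ M : Md d, M.p ≤ E →
  (∀ i, C ≤ M.c i) → M.Ctr → ∃ m : Fin d → ℕ,
    (∀ i, 0 < m i ∧ (Pi.single i (m i : ℤ) : V d) ∈ M.S) ∧ ∀ g ∈ M.G, ∃ i, (m i : ℤ) ≤ g i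

/-! ## Back to the natural numbers -/

/-- number of minimal generators -/
noncomputable def eS {d : ℕ} (S : AddSubmonoid (Fin d → ℕ)) : ℕ :=
  Set.ncard {x : Fin d → ℕ | x ∈ S ∧ x ≠ 0 ∧ ∀ a ∈ S, ∀ b ∈ S, a + b = x → a = 0 ∨ b = 0}
/-- number of elements below a gap -/
noncomputable def nS {d : ℕ} (S : AddSubmonoid (Fin d → ℕ)) : ℕ :=
  Set.ncard {x : Fin d → ℕ | x ∈ S ∧ ∃ h : Fin d → ℕ, h ∉ S ∧ x ≤ h}

def BridgeStmt : Prop := ∀ (d : ℕ) (S : AddSubmonoid (Fin d → ℕ)) (f : Fin d → ℕ), f ∉ S →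
  (∀ h, h ∉ S → h ≤ f) → ∃ M : Md d, (∀ i, M.c i = f i + 1) ∧ M.p = eS S ∧ M.n = nS S ∧
    ∀ x : Fin d → ℕ, x ∈ S ↔ (fun i => (x i : ℤ)) ∈ M.S

/-- the goal in dimension `d` -/
def Goal (d : ℕ) : Prop := ∃ C : ℕ, ∀ (S : AddSubmonoid (Fin d → ℕ)) (f : Fin d → ℕ), f ∉ S →
  (∀ h, h ∉ S → h ≤ f) → (C ≤ eS S ∨ ∀ i, C ≤ f i) → d * ∏ i, (f i + 1) ≤ eS S * nS S

end Pool.Agent.MP_96f5a9_co.GW
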