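import Mathlib
import Pool.Agent.MP_96f5a9_co.gw.Spec

-- ======== part 0: formerly Pool.Agent.MP_96f5a9_co.gw.LayerA
section MrgPart0

/-! Thin layers: factorizations, flat generators and the two injections. -/

set_option autoImplicit false

namespace Pool.Agent.MP_96f5a9_co.GW

open Finset

namespace Layer

variable {d : ℕ}

theorem harm (w : ℕ) (hw : 0 < w) (k : ℕ) :
    Real.log ((w : ℝ) + k) - Real.log w ≤ ∑ r ∈ range k, 1 / ((w : ℝ) + r) := by
  induction k with
  | zero => simp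
  | succ k ih =>
    rw [sum_range_succ]
    have hw' : (0 : ℝ) < w := by exact_mod_cast hw
    have h0 : (0 : ℝ) < w + k := by positivity
    have h1 : Real.log ((w : ℝ) + (k + 1 : ℕ)) - Real.log (w + k) ≤ 1 / ((w : ℝ) + k) := by
      rw [← Real.log_div (by positivity) h0.ne']
      have := Real.log_le_sub_one_of_pos (x := ((w : ℝ) + (k + 1 : ℕ)) / (w + k)) (by positivity)
      refine this.trans (le_of_eq ?_)
      push_cast
      field_simp
      ring
    linarith

theorem harm2 (w : ℕ) (hw : 0 < w) : (69 / 100 : ℝ) ≤ ∑ r ∈ range w, 1 / ((w : ℝ) + r) := by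
  have h := harm w hw w
  have hw' : (0 : ℝ) < w := by exact_mod_cast hw
  have h1 : Real.log ((w : ℝ) + w) = Real.log 2 + Real.log w := by
    rw [← Real.log_mul (by norm_num) hw'.ne', two_mul]
  have h2 := Real.log_two_gt_d9
  linarith

theorem divu {w β β' k k' : ℤ} (h1 : 0 ≤ β) (h2 : β < w) (h3 : 0 ≤ β') (h4 : β' < w)
    (e : β + k * w = β' + k' * w) : k = k' := by
  rcases lt_trichotomy k k' with h | h | h
  · have : (k + 1) * w ≤ k' * w := mul_le_mul_of_nonneg_right (by omega) (by omega)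
    nlinarith
  · exact h
  · have : (k' + 1) * w ≤ k * w := mul_le_mul_of_nonneg_right (by omega) (by omega)
    nlinarith

theorem exists_fa (M : Md d) :
    ∃ a : V d → V d → ℕ, ∀ z ∈ M.S, z = ∑ g ∈ M.G, a z g • g := by
  have h : ∀ z : V d, ∃ t : V d → ℕ, z ∈ M.S → z = ∑ g ∈ M.G, t g • g := fun z => by
    by_cases hz : z ∈ M.S
    · rw [← M.gen] at hz
      obtain ⟨t, _, ht⟩ := AddSubmonoid.mem_closure_finset.1 hz
      exact ⟨t, fun _ => ht.symm⟩
    · exact ⟨fun _ => 0, fun h => absurd h hz⟩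
  choose a ha using h
  exact ⟨a, ha⟩

theorem sub_mem (M : Md d) {z g : V d} {a : V d → ℕ} (hz : z = ∑ g ∈ M.G, a g • g)
    (hg : g ∈ M.G) {t : ℕ} (ht : t ≤ a g) : z - t • g ∈ M.S := by
  classical
  obtain ⟨k, hk⟩ : ∃ k, a g = k + t := ⟨a g - t, by omega⟩
  have e : z - t • g = k • g + ∑ x ∈ M.G.erase g, a x • x := by
    rw [hz, ← Finset.add_sum_erase _ _ hg, hk, add_nsmul]; abel
  rw [e]
  exact M.S.add_mem (M.S.nsmul_mem (M.G_mem hg) _) (M.S.sum_mem fun x hx =>
    M.S.nsmul_mem (M.G_mem (mem_of_mem_erase hx)) _)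

theorem h_fact (M : Md d) {z : V d} {a : V d → ℕ} (hz : z = ∑ g ∈ M.G, a g • g) (m : Fin d) :
    M.h z m = ∑ g ∈ M.G, (a g : ℝ) * M.h g m := by
  rw [hz, M.h_sum]
  exact Finset.sum_congr rfl fun g _ => M.h_nsmul _ _ _

/-- flat in the direction `i` -/
def Fl (M : Md d) (σ : ℝ) (i : Fin d) (y : V d) : Prop := ∀ j, j ≠ i → M.h y j ≤ σ * M.h y i

theorem fl_pos (M : Md d) {σ : ℝ} {i : Fin d} {y : V d} (hy : y ∈ M.S) (h0 : y ≠ 0)
    (hf : Fl M σ i y) : 0 < y i := by
  rcases (M.nonneg y hy i).lt_or_eq with h | h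
  · exact h
  · exfalso
    apply h0
    funext j
    by_cases hj : j = i
    · rw [hj]; exact h.symm
    · have h1 := hf j hj
      have h2 : M.h y i = 0 := by simp [Md.h, ← h]
      rw [h2, mul_zero] at h1
      have h3 : M.h y j ≤ M.h 0 j := by rw [M.h_zero]; exact h1
      exact le_antisymm (M.h_le_h.1 h3) (M.nonneg y hy j)

theorem mass (M : Md d) {σ ρ : ℝ} (hσ : 0 < σ) (hρ : 0 ≤ ρ) (i : Fin d) {z : V d} {a : V d → ℕ}
    (hz : z = ∑ g ∈ M.G, a g • g) (hb : ∀ j, j ≠ i → M.h z j ≤ ρ) :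
    M.h z i - d * ρ / σ ≤ ∑ g ∈ flt M.G (Fl M σ i), (a g : ℝ) * M.h g i := by
  classical
  have key : ∀ g ∈ M.G, σ * ((a g : ℝ) * M.h g i) ≤
      σ * (if Fl M σ i g then (a g : ℝ) * M.h g i else 0) +
        ∑ j ∈ univ.erase i, (a g : ℝ) * M.h g j := fun g hg => by
    have hn : ∀ j, 0 ≤ (a g : ℝ) * M.h g j := fun j =>
      mul_nonneg (Nat.cast_nonneg _) (M.h_nonneg (M.G_mem hg) j)
    split_ifs with hf
    · have := Finset.sum_nonneg (s := univ.erase i) fun j _ => hn j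
      linarith
    · unfold Fl at hf
      push Not at hf
      obtain ⟨j, hj, hlt⟩ := hf
      have h1 : (a g : ℝ) * M.h g j ≤ ∑ j ∈ univ.erase i, (a g : ℝ) * M.h g j :=
        Finset.single_le_sum (f := fun j => (a g : ℝ) * M.h g j) (fun j _ => hn j)
          (mem_erase.2 ⟨hj, mem_univ _⟩)
      have h2 : (a g : ℝ) * (σ * M.h g i) ≤ (a g : ℝ) * M.h g j :=
        mul_le_mul_of_nonneg_left hlt.le (Nat.cast_nonneg _)
      nlinarith
  have h1 := Finset.sum_le_sum key
  rw [Finset.sum_add_distrib, ← Finset.mul_sum, ← Finset.mul_sum, ← h_fact M hz,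
    Finset.sum_comm, ← Finset.sum_filter] at h1
  have h2 : ∑ j ∈ univ.erase i, ∑ g ∈ M.G, (a g : ℝ) * M.h g j ≤ d * ρ := by
    calc _ ≤ ∑ _j ∈ univ.erase i, ρ := Finset.sum_le_sum fun j hj => by
          rw [← h_fact M hz]; exact hb j (mem_erase.1 hj).1
      _ = (univ.erase i).card * ρ := by simp
      _ ≤ d * ρ := by
          refine mul_le_mul_of_nonneg_right ?_ hρ
          have : (univ.erase i).card ≤ d := by
            simp
          exact_mod_cast this
  have h3 : ∑ g ∈ M.G.filter (Fl M σ i), (a g : ℝ) * M.h g i =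
      ∑ g ∈ flt M.G (Fl M σ i), (a g : ℝ) * M.h g i :=
    Finset.sum_congr (by ext x; simp [mem_flt]) fun _ _ => rfl
  rw [h3] at h1
  rw [sub_le_iff_le_add, ← sub_le_iff_le_add', le_div_iff₀ hσ]
  nlinarith

/-- a flat element with least `i`-th coordinate -/
structure Per (M : Md d) (σ : ℝ) (i : Fin d) where
  u : V d
  w : ℕ
  uS : u ∈ M.S
  ui : u i = w
  wpos : 0 < w
  ufl : Fl M σ i u
  wle : ∀ g ∈ M.G, Fl M σ i g → (w : ℤ) ≤ g i

theorem exists_per (M : Md d) {σ : ℝ} (hσ : 0 ≤ σ) (i : Fin d) : Nonempty (Per M σ i) := by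
  classical
  have hex : ∃ w : ℕ, ∃ u ∈ M.S, u ≠ 0 ∧ Fl M σ i u ∧ u i = w := by
    refine ⟨M.c i, M.ce i, ?_, ?_, ?_, M.ce_self i⟩
    · simpa using M.ce_add_mem (b := 0) (fun _ => le_rfl) i
    · intro h
      have h1 := congrFun h i
      rw [M.ce_self] at h1
      have := M.cpos i
      simp at h1
      omega
    · intro j hj
      rw [M.h_ce_ne hj, M.h_ce_self]
      linarith
  obtain ⟨u, hu, h0, hf, hi⟩ := Nat.find_spec hex
  refine ⟨⟨u, Nat.find hex, hu, hi, ?_, hf, fun g hg hgf => ?_⟩⟩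
  · have := fl_pos M hu h0 hf
    omega
  · have hgS := M.G_mem hg
    have hg0 : g ≠ 0 := fun h => M.G0 (h ▸ hg)
    have hp := fl_pos M hgS hg0 hgf
    have := Nat.find_min' hex (m := (g i).toNat) ⟨g, hgS, hg0, hgf, by omega⟩
    omega

/-- elements away from all faces -/
noncomputable def low (M : Md d) (δ : ℝ) : ℝ := cnt M.N fun x => ∀ m, M.h x m < 1 - δ

theorem card_pairs (M : Md d) (δ : ℝ) :
    ((M.G ×ˢ flt M.N fun x => ∀ m, M.h x m < 1 - δ).card : ℝ) = M.p * low M δ := by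
  rw [Finset.card_product]; push_cast; rfl

/-- the least flat coordinate is small -/
theorem w_small (hB : BoxStmt) (M : Md d) {σ δ : ℝ} {i : Fin d} (U : Per M σ i) (hδ : 0 < δ)
    (hδ2 : δ ≤ 1 / 2) (hσ : (d : ℝ) < σ) (hl : M.p * low M δ < δ ^ d * M.vol) :
    (U.w : ℝ) < 2 * δ * M.c i := by
  by_contra hc
  push Not at hc
  have hσ0 : 0 < σ := lt_of_le_of_lt (Nat.cast_nonneg _) hσ
  obtain ⟨a, ha⟩ := exists_fa M
  have h1 := (hB d M).2.2.2.1 (fun _ => δ) fun _ => ⟨hδ.le, by linarith⟩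
  rw [Finset.prod_const, Finset.card_univ, Fintype.card_fin] at h1
  have h2 : cnt M.B (fun b => ∀ m, M.h b m < δ) ≤
      ((M.G ×ˢ flt M.N fun x => ∀ m, M.h x m < 1 - δ).card : ℝ) := by
    refine cnt_le_rel (fun b q => q.2 = M.ce i + b - q.1) (fun b hb hs => ?_)
      (fun b _ b' _ q e e' => ?_)
    · have hb0 := fun m => (M.mem_B.1 hb m).1
      have hz := M.ce_add_mem hb0 i
      have hzi : M.h (M.ce i + b) i = 1 + M.h b i := by rw [M.h_add, M.h_ce_self]
      have hzj : ∀ j, j ≠ i → M.h (M.ce i + b) j = M.h b j := fun j hj => by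
        rw [M.h_add, M.h_ce_ne hj, zero_add]
      have hm := mass M hσ0 zero_le_one i (ha _ hz) fun j hj => by
        rw [hzj j hj]; linarith [hs j]
      have hbi := M.h_nonneg_iff.2 (hb0 i)
      have hds : (d : ℝ) * 1 / σ < 1 := by rw [mul_one, div_lt_one hσ0]; exact hσ
      have hpos : 0 < ∑ g ∈ flt M.G (Fl M σ i), (a (M.ce i + b) g : ℝ) * M.h g i := by linarith
      obtain ⟨g, hg, hg0⟩ := Finset.exists_ne_zero_of_sum_ne_zero hpos.ne'
      obtain ⟨hgG, hgf⟩ := mem_flt.1 hg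
      have ha1 : 1 ≤ a (M.ce i + b) g := by
        rcases Nat.eq_zero_or_pos (a (M.ce i + b) g) with h | h
        · simp [h] at hg0
        · exact h
      have hs1 := sub_mem M (ha _ hz) hgG ha1
      rw [one_nsmul] at hs1
      have hgi : 2 * δ ≤ M.h g i := by
        rw [M.le_h_iff]
        have : (U.w : ℝ) ≤ g i := by exact_mod_cast U.wle g hgG hgf
        linarith
      have hlow : ∀ m, M.h (M.ce i + b - g) m < 1 - δ := fun m => by
        rw [M.h_sub]
        by_cases hm : m = i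
        · rw [hm, hzi]; linarith [hs i]
        · rw [hzj m hm]; linarith [hs m, M.h_nonneg (M.G_mem hgG) m]
      exact ⟨(g, M.ce i + b - g), mem_product.2 ⟨hgG, mem_flt.2
        ⟨M.mem_N_of hs1 fun m => by linarith [hlow m], hlow⟩⟩, rfl⟩
    · have := e.symm.trans e'
      simpa using this
  rw [card_pairs] at h2
  linarith

end Layer

end Pool.Agent.MP_96f5a9_co.GW

end MrgPart0

-- ======== part 1: formerly Pool.Agent.MP_96f5a9_co.gw.LayerB
section MrgPart1

/-! Thin layers: the two injections on a slab beyond a face. -/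

set_option autoImplicit false

namespace Pool.Agent.MP_96f5a9_co.GW

open Finset

namespace Layer

variable {d : ℕ}

/-- the slab beyond the face `i`, cut at the top in the other directions -/
def Zp (M : Md d) (μ : ℝ) (i : Fin d) (w : ℕ) (b : V d) : Prop :=
  b i < w ∧ ∀ l, l ≠ i → M.h b l < 1 - μ

/-- a flat generator carries a large part of the point -/
def Bad (M : Md d) (σ δ : ℝ) (i : Fin d) (a : V d → V d → ℕ) (b : V d) : Prop :=
  ∃ g ∈ M.G, Fl M σ i g ∧ 4 * δ ≤ (a (M.ce i + b) g : ℝ) * M.h g i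

/-- the layer next to the face `i` -/
def Lay (M : Md d) (δ : ℝ) (i : Fin d) (s : V d) : Prop :=
  1 - 4 * δ < M.h s i ∧ ∀ l, l ≠ i → M.h s l < 1 - 4 * δ

theorem nsm (k : ℕ) (x : V d) (m : Fin d) : (k • x) m = k * x m := by simp

theorem per_h (M : Md d) {σ : ℝ} {i : Fin d} (U : Per M σ i) : M.h U.u i = U.w / M.c i := by
  simp [Md.h, U.ui]

theorem bad_le (M : Md d) {σ δ μ : ℝ} {i : Fin d} (U : Per M σ i) (hδ : 0 < δ) (hσ : 0 ≤ σ)
    (hμ : (σ + 1) * δ ≤ μ) (hw : (U.w : ℝ) < 2 * δ * M.c i) {a : V d → V d → ℕ}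
    (ha : ∀ z ∈ M.S, z = ∑ g ∈ M.G, a z g • g) :
    δ * M.c i * cnt M.B (fun b => Zp M μ i U.w b ∧ Bad M σ δ i a b) ≤ U.w * (M.p * low M δ) := by
  have hw0 : (0 : ℝ) < U.w := by exact_mod_cast U.wpos
  have hc := M.cR_pos i
  set K : ℕ := ⌊δ * M.c i / U.w⌋₊ + 1 with hK
  have hK1 : δ * M.c i / U.w < K := by rw [hK]; push_cast; exact Nat.lt_floor_add_one _
  have h1 : cnt (M.B ×ˢ range K) (fun q => (Zp M μ i U.w q.1 ∧ Bad M σ δ i a q.1) ∧ True) ≤
      ((M.G ×ˢ flt M.N fun x => ∀ m, M.h x m < 1 - δ).card : ℝ) := by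
    refine cnt_le_rel (fun q y => q.1 i < U.w ∧
      y.2 = M.ce i + q.1 + q.2 • U.u - ⌈4 * δ / M.h y.1 i⌉₊ • y.1) (fun q hq hs => ?_)
      (fun q hq q' hq' y e e' => ?_)
    · obtain ⟨b, k⟩ := q
      obtain ⟨hb, hk⟩ := mem_product.1 hq
      obtain ⟨⟨⟨hbi, hbl⟩, g, hg, hgf, hbad⟩, -⟩ := hs
      simp only at hb hk hbi hbl hbad ⊢
      have hb0 := fun m => (M.mem_B.1 hb m).1
      have hz := M.ce_add_mem hb0 i
      have hgS := M.G_mem hg
      have hgi : 0 < M.h g i := by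
        have := fl_pos M hgS (fun h => M.G0 (h ▸ hg)) hgf
        have h2 : M.h 0 i < M.h g i := M.h_lt_h.2 this
        rwa [M.h_zero] at h2
      set t : ℕ := ⌈4 * δ / M.h g i⌉₊ with ht
      have ht1 : t ≤ a (M.ce i + b) g := by
        rw [ht, Nat.ceil_le, div_le_iff₀ hgi]; exact hbad
      have ht2 : 4 * δ ≤ t * M.h g i := by
        rw [← div_le_iff₀ hgi]; exact Nat.le_ceil _
      have hk1 : (k : ℝ) * (U.w / M.c i) ≤ δ := by
        have h3 : (k : ℝ) ≤ ⌊δ * M.c i / U.w⌋₊ := by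
          have := mem_range.1 hk
          exact_mod_cast (by omega : k ≤ ⌊δ * M.c i / U.w⌋₊)
        have h4 : (k : ℝ) ≤ δ * M.c i / U.w := h3.trans (Nat.floor_le (by positivity))
        rw [le_div_iff₀ hw0] at h4
        rw [← mul_div_assoc, div_le_iff₀ hc]; exact h4
      have hyS : M.ce i + b + k • U.u - t • g ∈ M.S := by
        have := M.S.add_mem (sub_mem M (ha _ hz) hg ht1) (M.S.nsmul_mem U.uS k)
        rwa [sub_add_eq_add_sub] at this
      have hlow : ∀ m, M.h (M.ce i + b + k • U.u - t • g) m < 1 - δ := fun m => by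
        rw [M.h_sub, M.h_add, M.h_add, M.h_nsmul, M.h_nsmul]
        by_cases hm : m = i
        · rw [hm, M.h_ce_self, per_h]
          have h5 : M.h b i < 2 * δ := by
            rw [M.h_lt_iff]
            have : (b i : ℝ) < U.w := by exact_mod_cast hbi
            linarith
          linarith
        · rw [M.h_ce_ne hm]
          have h5 := U.ufl m hm
          rw [per_h] at h5
          have h6 : (k : ℝ) * M.h U.u m ≤ k * (σ * (U.w / M.c i)) :=
            mul_le_mul_of_nonneg_left h5 (Nat.cast_nonneg _)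
          have h7 : σ * ((k : ℝ) * (U.w / M.c i)) ≤ σ * δ := mul_le_mul_of_nonneg_left hk1 hσ
          have h8 : 0 ≤ (t : ℝ) * M.h g m := mul_nonneg (Nat.cast_nonneg _) (M.h_nonneg hgS m)
          have h9 := hbl m hm
          nlinarith
      exact ⟨(g, M.ce i + b + k • U.u - t • g), mem_product.2 ⟨hg, mem_flt.2
        ⟨M.mem_N_of hyS fun m => by linarith [hlow m], hlow⟩⟩, hbi, rfl⟩
    · obtain ⟨b, k⟩ := q
      obtain ⟨b', k'⟩ := q'
      have hb := (M.mem_B.1 (mem_product.1 hq).1 i).1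
      have hb' := (M.mem_B.1 (mem_product.1 hq').1 i).1
      have h2 : b + k • U.u = b' + k' • U.u := by
        have := e.2.symm.trans e'.2
        simp only [sub_left_inj, add_assoc, add_right_inj] at this
        exact this
      have h3 := congrFun h2 i
      simp only [Pi.add_apply, nsm, U.ui] at h3
      have h4 : k = k' := by exact_mod_cast divu hb e.1 hb' e'.1 h3
      subst h4
      rw [add_left_inj] at h2
      rw [h2]
  rw [card_pairs, cnt_prod M.B (range K)
    (fun b _ => (Zp M μ i U.w b ∧ Bad M σ δ i a b) ∧ True)] at h1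
  simp only [and_true, Finset.sum_const, card_range, nsmul_eq_mul] at h1
  have h2 := cnt_nonneg M.B (fun b => Zp M μ i U.w b ∧ Bad M σ δ i a b)
  rw [div_lt_iff₀ hw0] at hK1
  have h3 := mul_le_mul_of_nonneg_left h1 hw0.le
  nlinarith

theorem good_le (M : Md d) {σ δ μ : ℝ} {i : Fin d} (U : Per M σ i) (hδ : 0 < δ) (hσ : 0 ≤ σ)
    (hμ : (σ + 1) * (4 * δ) ≤ μ) {a : V d → V d → ℕ}
    (ha : ∀ z ∈ M.S, z = ∑ g ∈ M.G, a z g • g) {g : V d} (hg : g ∈ M.G) (hgf : Fl M σ i g) :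
    ∑ b ∈ flt M.B (fun b => Zp M μ i U.w b ∧ ¬ Bad M σ δ i a b),
      (a (M.ce i + b) g : ℝ) * (M.h g i * M.c i) * (1 / (U.w + b i)) ≤ cnt M.N (Lay M δ i) := by
  classical
  have hw0 : (0 : ℝ) < U.w := by exact_mod_cast U.wpos
  have hc := M.cR_pos i
  have hgS := M.G_mem hg
  have hgw := U.wle g hg hgf
  have hgw' : (U.w : ℝ) ≤ g i := by exact_mod_cast hgw
  set Gd := flt M.B (fun b => Zp M μ i U.w b ∧ ¬ Bad M σ δ i a b) with hGd
  set m : V d → ℕ := fun b => ⌈((g i : ℝ) - b i) / U.w⌉₊ with hm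
  have hlt : ∀ b : V d, ∀ k : ℕ, k < m b → b i + k * U.w < g i := fun b k hk => by
    rw [hm] at hk
    simp only at hk
    rw [Nat.lt_ceil, lt_div_iff₀ hw0] at hk
    have : (b i : ℝ) + k * U.w < g i := by linarith
    exact_mod_cast this
  have h1 : (Gd.sigma fun b => range (m b) ×ˢ range (a (M.ce i + b) g)).card ≤
      (flt M.N (Lay M δ i)).card := by
    refine Finset.card_le_card_of_injOn
      (fun q => M.ce i + q.1 + q.2.1 • U.u - (q.2.2 + 1) • g) (fun q hq => ?_) ?_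
    · obtain ⟨b, k, t⟩ := q
      obtain ⟨hb, hkt⟩ := mem_sigma.1 (mem_coe.1 hq)
      obtain ⟨hk, ht⟩ := mem_product.1 hkt
      simp only [mem_range] at hb hk ht ⊢
      obtain ⟨hbB, ⟨hbi, hbl⟩, hgood⟩ := mem_flt.1 hb
      have hb0 := fun m => (M.mem_B.1 hbB m).1
      have hz := M.ce_add_mem hb0 i
      have hyS : M.ce i + b + k • U.u - (t + 1) • g ∈ M.S := by
        have := M.S.add_mem (sub_mem M (ha _ hz) hg (t := t + 1) ht) (M.S.nsmul_mem U.uS k)
        rwa [sub_add_eq_add_sub] at this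
      have hag : (a (M.ce i + b) g : ℝ) * M.h g i < 4 * δ := by
        by_contra hh
        exact hgood ⟨g, hg, hgf, not_lt.1 hh⟩
      have hgn := M.h_nonneg hgS i
      have ht1 : ((t + 1 : ℕ) : ℝ) * M.h g i < 4 * δ :=
        lt_of_le_of_lt (mul_le_mul_of_nonneg_right (by exact_mod_cast ht) hgn) hag
      have ht2 : M.h g i ≤ ((t + 1 : ℕ) : ℝ) * M.h g i :=
        le_mul_of_one_le_left hgn (by exact_mod_cast Nat.le_add_left 1 t)
      have hbn := M.h_nonneg_iff.2 (hb0 i)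
      have hk1 : M.h b i + (k : ℝ) * (U.w / M.c i) < M.h g i := by
        have h3 : (b i : ℝ) + k * U.w < g i := by exact_mod_cast hlt b k hk
        unfold Md.h
        rw [← mul_div_assoc, ← add_div]
        exact div_lt_div_of_pos_right h3 hc
      have hk0 : 0 ≤ (k : ℝ) * (U.w / M.c i) := by positivity
      have hi : M.h (M.ce i + b + k • U.u - (t + 1) • g) i =
          1 + M.h b i + k * (U.w / M.c i) - ((t + 1 : ℕ) : ℝ) * M.h g i := by
        rw [M.h_sub, M.h_add, M.h_add, M.h_nsmul, M.h_nsmul, M.h_ce_self, per_h]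
      have hl : ∀ l, l ≠ i → M.h (M.ce i + b + k • U.u - (t + 1) • g) l < 1 - 4 * δ :=
        fun l hl => by
        rw [M.h_sub, M.h_add, M.h_add, M.h_nsmul, M.h_nsmul, M.h_ce_ne hl]
        have h5 := U.ufl l hl
        rw [per_h] at h5
        have h6 : (k : ℝ) * M.h U.u l ≤ k * (σ * (U.w / M.c i)) :=
          mul_le_mul_of_nonneg_left h5 (Nat.cast_nonneg _)
        have h7 : σ * ((k : ℝ) * (U.w / M.c i)) ≤ σ * (4 * δ) :=
          mul_le_mul_of_nonneg_left (by linarith) hσ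
        have h8 : 0 ≤ ((t + 1 : ℕ) : ℝ) * M.h g l :=
          mul_nonneg (Nat.cast_nonneg _) (M.h_nonneg hgS l)
        have h9 := hbl l hl
        nlinarith
      refine mem_coe.2 (mem_flt.2 ⟨M.mem_N_of hyS fun l => ?_, ?_, hl⟩)
      · by_cases hli : l = i
        · rw [hli, hi]; linarith
        · linarith [hl l hli]
      · rw [hi]; linarith
    · rintro ⟨b, k, t⟩ hq ⟨b', k', t'⟩ hq' e
      obtain ⟨hb, hkt⟩ := mem_sigma.1 (mem_coe.1 hq)
      obtain ⟨hb', hkt'⟩ := mem_sigma.1 (mem_coe.1 hq')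
      have hk := hlt b k (mem_range.1 (mem_product.1 hkt).1)
      have hk' := hlt b' k' (mem_range.1 (mem_product.1 hkt').1)
      obtain ⟨hbB, ⟨hbi, -⟩, -⟩ := mem_flt.1 hb
      obtain ⟨hbB', ⟨hbi', -⟩, -⟩ := mem_flt.1 hb'
      have h0 := (M.mem_B.1 hbB i).1
      have h0' := (M.mem_B.1 hbB' i).1
      simp only at e hbi hbi' h0 h0'
      have h3 := congrFun e i
      simp only [Pi.add_apply, Pi.sub_apply, nsm, U.ui] at h3
      have hkw : (0 : ℤ) ≤ k * U.w := by positivity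
      have hkw' : (0 : ℤ) ≤ k' * U.w := by positivity
      have h4 : (t' : ℤ) = t := by
        refine divu (w := g i) (β := b i + k * U.w) (β' := b' i + k' * U.w) (by omega) hk
          (by omega) hk' ?_
        push_cast at h3
        linarith
      have h5 : t' = t := by exact_mod_cast h4
      subst h5
      have h6 : (k : ℤ) = k' := divu h0 hbi h0' hbi' (by linarith)
      have h7 : k = k' := by exact_mod_cast h6
      subst h7
      have h8 : b = b' := by simpa using e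
      subst h8
      rfl
  rw [Finset.card_sigma] at h1
  rw [cnt_eq]
  refine le_trans (Finset.sum_le_sum fun b hb => ?_) (Nat.cast_sum (R := ℝ) _ _ ▸ Nat.cast_le.2 h1)
  obtain ⟨hbB, ⟨hbi, -⟩, -⟩ := mem_flt.1 hb
  have h0 : (0 : ℝ) ≤ b i := by exact_mod_cast (M.mem_B.1 hbB i).1
  have hbi' : (b i : ℝ) < U.w := by exact_mod_cast hbi
  rw [Finset.card_product, card_range, card_range, M.h_mul]
  push_cast
  have h2 : ((g i : ℝ) - b i) / U.w ≤ m b := Nat.le_ceil _
  rw [div_le_iff₀ hw0] at h2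
  have h3 : (1 : ℝ) ≤ m b := by
    have : 0 < m b := Nat.ceil_pos.2 (div_pos (by linarith) hw0)
    exact_mod_cast this
  have h4 : (g i : ℝ) * (1 / (U.w + b i)) ≤ m b := by
    rw [mul_one_div, div_le_iff₀ (by linarith)]
    nlinarith
  have h5 := mul_le_mul_of_nonneg_left h4 (Nat.cast_nonneg (α := ℝ) (a (M.ce i + b) g))
  linarith

end Layer

end Pool.Agent.MP_96f5a9_co.GW

end MrgPart1

-- ======== part 2: formerly Pool.Agent.MP_96f5a9_co.gw.Layer
section MrgPart2

/-! If most elements of the box lie next to the faces, the inequality holds. -/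

set_option autoImplicit false

namespace Pool.Agent.MP_96f5a9_co.GW

open Finset

namespace Layer

variable {d : ℕ}

/-- the full slab -/
noncomputable def Zs (M : Md d) (i : Fin d) (w : ℕ) : Finset (V d) := flt M.B fun b => b i < w

/-- weight of a point of the slab -/
noncomputable def om (i : Fin d) (w : ℕ) (b : V d) : ℝ := 1 / ((w : ℝ) + b i)

theorem om_bd (M : Md d) {i : Fin d} {w : ℕ} (hw : 0 < w) {b : V d} (hb : b ∈ M.B) :
    0 ≤ om i w b ∧ om i w b ≤ 1 / w := by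
  have h0 : (0 : ℝ) ≤ b i := by exact_mod_cast (M.mem_B.1 hb i).1
  have hw0 : (0 : ℝ) < w := by exact_mod_cast hw
  exact ⟨by unfold om; positivity, one_div_le_one_div_of_le hw0 (by linarith)⟩

theorem om_low (hB : BoxStmt) (M : Md d) (i : Fin d) {w : ℕ} (hw : 0 < w) (hc : w ≤ M.c i) :
    69 / 100 * M.vol ≤ M.c i * ∑ b ∈ Zs M i w, om i w b := by
  classical
  have hcp := M.cR_pos i
  have h1 := Finset.sum_fiberwise_of_maps_to (s := Zs M i w) (t := range w)
    (g := fun b => (b i).toNat) (fun b hb => by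
      have h2 := (mem_flt.1 hb).2
      have h3 := (M.mem_B.1 (mem_flt.1 hb).1 i).1
      exact mem_range.2 (by omega)) (om i w)
  rw [← h1]
  have h2 : ∀ r ∈ range w, 1 / ((w : ℝ) + r) * (M.vol / M.c i) ≤
      ∑ b ∈ (Zs M i w).filter (fun b => (b i).toNat = r), om i w b := fun r hr => by
    have hr' := mem_range.1 hr
    have h3 := (hB d M).2.2.2.2 i r (r + 1) 1 (by omega) (by omega) (by omega) zero_le_one le_rfl
    have h4 : cnt M.B (fun b => (r : ℤ) ≤ b i ∧ b i < r + 1 ∧ ∀ l, l ≠ i → M.h b l < 1) ≤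
        (((Zs M i w).filter fun b => (b i).toNat = r).card : ℝ) :=
      cnt_le_of_sub fun b hb hp => mem_filter.2 ⟨mem_flt.2 ⟨hb, by omega⟩, by omega⟩
    have h5 : ∑ b ∈ (Zs M i w).filter (fun b => (b i).toNat = r), om i w b =
        (((Zs M i w).filter fun b => (b i).toNat = r).card : ℝ) * (1 / ((w : ℝ) + r)) := by
      rw [← nsmul_eq_mul, ← Finset.sum_const]
      refine Finset.sum_congr rfl fun b hb => ?_
      have h6 := (mem_filter.1 hb).2
      have h7 := (M.mem_B.1 (mem_flt.1 (mem_filter.1 hb).1).1 i).1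
      have h8 : b i = r := by omega
      simp [om, h8]
    rw [h5, mul_comm]
    refine mul_le_mul_of_nonneg_right (le_trans (le_of_eq ?_) (h3.trans h4)) (by positivity)
    push_cast
    field_simp
    ring
  have h3 := Finset.sum_le_sum h2
  rw [← Finset.sum_mul] at h3
  have h4 := mul_le_mul_of_nonneg_right (harm2 w hw) (div_pos M.vol_pos hcp).le
  have h5 := mul_le_mul_of_nonneg_left (h4.trans h3) hcp.le
  refine le_trans (le_of_eq ?_) h5
  field_simp

theorem om_refl (M : Md d) {i j : Fin d} (hj : j ≠ i) {w : ℕ} (hw : 0 < w) :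
    2 * ∑ b ∈ Zs M i w, om i w b * M.h b j ≤ ∑ b ∈ Zs M i w, om i w b := by
  classical
  have hc := M.cR_pos j
  have hm : ∀ b ∈ Zs M i w, Function.update b j (M.c j - 1 - b j) ∈ Zs M i w := fun b hb => by
    obtain ⟨h1, h2⟩ := mem_flt.1 hb
    refine mem_flt.2 ⟨M.mem_B.2 fun l => ?_, by rwa [Function.update_of_ne hj.symm]⟩
    by_cases hl : l = j
    · subst hl
      have := M.mem_B.1 h1 l
      rw [Function.update_self]
      omega
    · rw [Function.update_of_ne hl]; exact M.mem_B.1 h1 l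
  have hinv : ∀ b : V d, Function.update (Function.update b j (M.c j - 1 - b j)) j
      (M.c j - 1 - Function.update b j (M.c j - 1 - b j) j) = b := fun b => by simp
  have h1 : ∑ b ∈ Zs M i w, om i w b * M.h b j =
      ∑ b ∈ Zs M i w, om i w b * (1 - 1 / M.c j - M.h b j) := by
    refine Finset.sum_nbij' (fun b => Function.update b j (M.c j - 1 - b j))
      (fun b => Function.update b j (M.c j - 1 - b j)) hm hm (fun b _ => hinv b)
      (fun b _ => hinv b) fun b _ => ?_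
    simp only [om, Md.h, Function.update_self, Function.update_of_ne hj.symm]
    push_cast
    congr 1
    field_simp
    ring
  rw [two_mul]
  nth_rewrite 2 [h1]
  rw [← Finset.sum_add_distrib]
  refine Finset.sum_le_sum fun b hb => ?_
  have h2 := (om_bd M (i := i) hw (mem_flt.1 hb).1).1
  have h3 : 0 ≤ om i w b * (1 / M.c j) := by positivity
  nlinarith

/-- one direction: weights on the generators -/
theorem dir (hB : BoxStmt) (M : Md d) (i : Fin d) {δ : ℝ} (hd : 2 ≤ d) (hδ : 0 < δ)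
    (hδ1 : 1600 * d * (400 * d + 1) * δ ≤ 1) (hl : M.p * low M δ < δ ^ d * M.vol)
    (hl2 : 400 * (M.p * low M δ) ≤ δ * M.vol) :
    ∃ π : V d → ℝ, (∀ g ∈ M.G, 0 ≤ π g ∧ π g ≤ cnt M.N (Lay M δ i) ∧ (π g ≠ 0 → 0 < M.h g i)) ∧
      ∀ j, j ≠ i → M.vol / 2 ≤ ∑ g ∈ M.G, π g * (1 - M.h g j / M.h g i / 2) := by
  classical
  have hd' : (2 : ℝ) ≤ d := by exact_mod_cast hd
  set σ : ℝ := 400 * d with hσ
  set μ : ℝ := (σ + 1) * (4 * δ) with hμ
  have hσ0 : 0 < σ := by rw [hσ]; linarith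
  have hdμ : d * μ ≤ 1 / 400 := by rw [hμ]; linarith
  have hμ0 : 0 < μ := by positivity
  have hμ1 : μ ≤ 1 / 800 := by nlinarith
  have hδ2 : δ ≤ 1 / 2 := by nlinarith
  have hc := M.cR_pos i
  have hv := M.vol_pos
  obtain ⟨U⟩ := exists_per M hσ0.le i
  obtain ⟨a, ha⟩ := exists_fa M
  have hw := w_small hB M U hδ hδ2 (by rw [hσ]; linarith) hl
  have hw0 : (0 : ℝ) < U.w := by exact_mod_cast U.wpos
  have hwc : U.w ≤ M.c i := by
    have : (U.w : ℝ) ≤ M.c i := by nlinarith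
    exact_mod_cast this
  have hbad := bad_le M U (μ := μ) hδ hσ0.le (by rw [hμ]; nlinarith) hw ha
  set Gd := flt M.B (fun b => Zp M μ i U.w b ∧ ¬ Bad M σ δ i a b) with hGd
  have hsub : Gd ⊆ Zs M i U.w := fun b hb => mem_flt.2 ⟨(mem_flt.1 hb).1, (mem_flt.1 hb).2.1.1⟩
  have hpos : ∀ g ∈ M.G, Fl M σ i g → 0 < M.h g i := fun g hg hgf => by
    have := fl_pos M (M.G_mem hg) (fun h => M.G0 (h ▸ hg)) hgf
    have h2 : M.h 0 i < M.h g i := M.h_lt_h.2 this
    rwa [M.h_zero] at h2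
  -- the points of the slab that are not good
  have hmiss : M.c i * ((Zs M i U.w \ Gd).card : ℝ) ≤ U.w * (M.vol / 200) := by
    have h1 := (hB d M).2.2.1 i U.w (by positivity)
    have h2 := (hB d M).2.2.2.2 i 0 U.w (1 - μ) le_rfl (by positivity) (by exact_mod_cast hwc)
      (by linarith) (by linarith)
    have h3 : 1 - d * μ ≤ (1 - μ) ^ (d - 1) := by
      have h4 := one_add_mul_le_pow (a := -μ) (by linarith) (d - 1)
      have h5 : ((d - 1 : ℕ) : ℝ) ≤ d := by exact_mod_cast Nat.sub_le d 1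
      have h6 : (1 : ℝ) + -μ = 1 - μ := by ring
      rw [h6] at h4
      nlinarith
    have h4 : cnt M.B (fun b => 0 ≤ b i ∧ b i < U.w ∧ ∀ l, l ≠ i → M.h b l < 1 - μ) ≤
        cnt M.B (fun b => Zp M μ i U.w b ∧ ¬ Bad M σ δ i a b) +
        cnt M.B (fun b => Zp M μ i U.w b ∧ Bad M σ δ i a b) :=
      cnt_le_add fun b _ hp => by
        by_cases hb : Bad M σ δ i a b
        · exact Or.inr ⟨⟨hp.2.1, hp.2.2⟩, hb⟩
        · exact Or.inl ⟨⟨hp.2.1, hp.2.2⟩, hb⟩
    have h5 : ((Zs M i U.w \ Gd).card : ℝ) = (Zs M i U.w).card - Gd.card := by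
      rw [Finset.card_sdiff_of_subset hsub, Nat.cast_sub (Finset.card_le_card hsub)]
    have h6 : ((Zs M i U.w).card : ℝ) = cnt M.B fun b => b i < U.w := rfl
    have h7 : (Gd.card : ℝ) = cnt M.B (fun b => Zp M μ i U.w b ∧ ¬ Bad M σ δ i a b) := rfl
    have h8 : M.c i * cnt M.B (fun b => Zp M μ i U.w b ∧ Bad M σ δ i a b) ≤
        U.w * (M.vol / 400) := by
      have h9 := mul_le_mul_of_nonneg_left hl2 hw0.le
      refine le_of_mul_le_mul_left ?_ hδ
      nlinarith
    push_cast at h1 h2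
    rw [sub_zero] at h2
    have h9 : (U.w : ℝ) / M.c i * (1 - 1 / 400) * M.vol ≤ U.w / M.c i * (1 - μ) ^ (d - 1) * M.vol :=
      mul_le_mul_of_nonneg_right (mul_le_mul_of_nonneg_left (by linarith) (by positivity)) hv.le
    have h10 : (M.c i : ℝ) * (U.w / M.c i * M.vol) = U.w * M.vol := by field_simp
    have h11 := mul_le_mul_of_nonneg_left
      (show ((Zs M i U.w).card : ℝ) - Gd.card ≤ U.w / M.c i * M.vol / 400 +
        cnt M.B (fun b => Zp M μ i U.w b ∧ Bad M σ δ i a b) by rw [h6, h7]; linarith) hc.le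
    rw [h5]
    nlinarith
  have hOm := om_low hB M i U.wpos hwc
  have hGdOm : M.c i * ∑ b ∈ Zs M i U.w, om i U.w b - M.vol / 200 ≤
      M.c i * ∑ b ∈ Gd, om i U.w b := by
    rw [← Finset.sum_sdiff hsub]
    have h1 : ∑ b ∈ Zs M i U.w \ Gd, om i U.w b ≤ ((Zs M i U.w \ Gd).card : ℝ) * (1 / U.w) := by
      rw [← nsmul_eq_mul]
      exact Finset.sum_le_card_nsmul _ _ _ fun b hb =>
        (om_bd M U.wpos (mem_flt.1 (mem_sdiff.1 hb).1).1).2
    have h2 := mul_le_mul_of_nonneg_left h1 hc.le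
    have h3 := mul_le_mul_of_nonneg_right hmiss (one_div_pos.2 hw0).le
    have h4 : (U.w : ℝ) * (M.vol / 200) * (1 / U.w) = M.vol / 200 := by field_simp
    nlinarith
  refine ⟨fun g => if Fl M σ i g then
    ∑ b ∈ Gd, (a (M.ce i + b) g : ℝ) * (M.h g i * M.c i) * om i U.w b else 0,
    fun g hg => ?_, fun j hj => ?_⟩
  · simp only
    split_ifs with hf
    · refine ⟨Finset.sum_nonneg fun b hb => ?_, good_le M U hδ hσ0.le le_rfl ha hg hf,
        fun _ => hpos g hg hf⟩
      have h1 := (om_bd M (i := i) U.wpos (mem_flt.1 hb).1).1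
      have h2 := hpos g hg hf
      positivity
    · exact ⟨le_rfl, cnt_nonneg _ _, fun h => absurd rfl h⟩
  have e1 : ∑ g ∈ M.G, (if Fl M σ i g then
      ∑ b ∈ Gd, (a (M.ce i + b) g : ℝ) * (M.h g i * M.c i) * om i U.w b else 0) *
        (1 - M.h g j / M.h g i / 2) = ∑ b ∈ Gd, M.c i * om i U.w b *
        (∑ g ∈ flt M.G (Fl M σ i), (a (M.ce i + b) g : ℝ) * M.h g i -
          (∑ g ∈ flt M.G (Fl M σ i), (a (M.ce i + b) g : ℝ) * M.h g j) / 2) := by
    simp only [ite_mul, zero_mul]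
    rw [← Finset.sum_filter]
    have e2 : M.G.filter (Fl M σ i) = flt M.G (Fl M σ i) := by ext x; simp [mem_flt]
    rw [e2]
    simp only [Finset.sum_mul, Finset.sum_div, ← Finset.sum_sub_distrib, Finset.mul_sum]
    rw [Finset.sum_comm]
    refine Finset.sum_congr rfl fun b _ => Finset.sum_congr rfl fun g hg => ?_
    have := hpos g (mem_flt.1 hg).1 (mem_flt.1 hg).2
    field_simp
  rw [e1]
  have e3 : ∀ b ∈ Gd, M.c i * om i U.w b * (399 / 400 - M.h b j / 2) ≤ M.c i * om i U.w b *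
      (∑ g ∈ flt M.G (Fl M σ i), (a (M.ce i + b) g : ℝ) * M.h g i -
        (∑ g ∈ flt M.G (Fl M σ i), (a (M.ce i + b) g : ℝ) * M.h g j) / 2) := fun b hb => by
    have hbB := (mem_flt.1 hb).1
    have hb0 := fun m => (M.mem_B.1 hbB m).1
    have hz := M.ce_add_mem hb0 i
    have hzj : ∀ j, j ≠ i → M.h (M.ce i + b) j = M.h b j := fun j hj => by
      rw [M.h_add, M.h_ce_ne hj, zero_add]
    have h1 := mass M hσ0 zero_le_one i (ha _ hz) fun l hl => by
      rw [hzj l hl]; exact (M.mem_B_h.1 hbB l).2.le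
    have h2 : (d : ℝ) * 1 / σ = 1 / 400 := by rw [hσ]; field_simp
    rw [M.h_add, M.h_ce_self, h2] at h1
    have h3 := (M.mem_B_h.1 hbB i).1
    have h4 : ∑ g ∈ flt M.G (Fl M σ i), (a (M.ce i + b) g : ℝ) * M.h g j ≤ M.h b j := by
      rw [← hzj j hj, h_fact M (ha _ hz)]
      exact Finset.sum_le_sum_of_subset_of_nonneg (flt_sub _ _) fun g hg _ =>
        mul_nonneg (Nat.cast_nonneg _) (M.h_nonneg (M.G_mem hg) j)
    have h5 := (om_bd M (i := i) U.wpos hbB).1
    exact mul_le_mul_of_nonneg_left (by linarith) (by positivity)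
  refine le_trans ?_ (Finset.sum_le_sum e3)
  have e4 : ∑ b ∈ Gd, M.c i * om i U.w b * (399 / 400 - M.h b j / 2) =
      399 / 400 * (M.c i * ∑ b ∈ Gd, om i U.w b) -
        M.c i * (∑ b ∈ Gd, om i U.w b * M.h b j) / 2 := by
    simp only [Finset.mul_sum, Finset.sum_div, ← Finset.sum_sub_distrib]
    exact Finset.sum_congr rfl fun b _ => by ring
  have e5 : ∑ b ∈ Gd, om i U.w b * M.h b j ≤ ∑ b ∈ Zs M i U.w, om i U.w b * M.h b j :=
    Finset.sum_le_sum_of_subset_of_nonneg hsub fun b hb _ =>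
      mul_nonneg (om_bd M U.wpos (mem_flt.1 hb).1).1 (M.mem_B_h.1 (mem_flt.1 hb).1 j).1
  have e6 := om_refl M hj U.wpos
  have e7 := mul_le_mul_of_nonneg_left (show 2 * ∑ b ∈ Gd, om i U.w b * M.h b j ≤
    ∑ b ∈ Zs M i U.w, om i U.w b by linarith) hc.le
  rw [e4]
  linarith

theorem pt {π π' L L' x y : ℝ} (h1 : 0 ≤ π) (h2 : π ≤ L) (h3 : 0 ≤ π') (h4 : π' ≤ L')
    (hx : 0 ≤ x) (hy : 0 ≤ y) (hx' : π ≠ 0 → 0 < x) (hy' : π' ≠ 0 → 0 < y) :
    L' * (π * (1 - y / x / 2)) + L * (π' * (1 - x / y / 2)) ≤ L * L' := by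
  have hL : 0 ≤ L := h1.trans h2
  have hL' : 0 ≤ L' := h3.trans h4
  have ha : L' * π ≤ L * L' := by nlinarith
  have hb : L * π' ≤ L * L' := by nlinarith
  have ha0 : 0 ≤ L' * π := by positivity
  have hb0 : 0 ≤ L * π' := by positivity
  have hs : 0 ≤ y / x := by positivity
  have ht : 0 ≤ x / y := by positivity
  by_cases h0 : π = 0
  · subst h0
    nlinarith [mul_nonneg hb0 ht]
  by_cases h0' : π' = 0
  · subst h0'
    nlinarith [mul_nonneg ha0 hs]
  have hx0 := hx' h0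
  have hy0 := hy' h0'
  have h5 : 2 ≤ y / x + x / y := by
    rw [div_add_div _ _ hx0.ne' hy0.ne', le_div_iff₀ (by positivity)]
    nlinarith [sq_nonneg (x - y)]
  rcases le_total (L' * π) (L * π') with h | h
  · nlinarith [mul_le_mul_of_nonneg_right h ht, mul_le_mul_of_nonneg_left h5 ha0]
  · nlinarith [mul_le_mul_of_nonneg_right h hs, mul_le_mul_of_nonneg_left h5 hb0]

theorem pair (hB : BoxStmt) (M : Md d) {i j : Fin d} (hij : j ≠ i) {δ : ℝ} (hd : 2 ≤ d)
    (hδ : 0 < δ) (hδ1 : 1600 * d * (400 * d + 1) * δ ≤ 1) (hl : M.p * low M δ < δ ^ d * M.vol)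
    (hl2 : 400 * (M.p * low M δ) ≤ δ * M.vol) :
    2 * M.vol ≤ M.p * (cnt M.N (Lay M δ i) + cnt M.N (Lay M δ j)) := by
  obtain ⟨π, h1, h2⟩ := dir hB M i hd hδ hδ1 hl hl2
  obtain ⟨π', h1', h2'⟩ := dir hB M j hd hδ hδ1 hl hl2
  have h3 := h2 j hij
  have h3' := h2' i hij.symm
  have hv := M.vol_pos
  set L := cnt M.N (Lay M δ i) with hL
  set L' := cnt M.N (Lay M δ j) with hL'
  have hL0 : 0 ≤ L := cnt_nonneg _ _
  have hL0' : 0 ≤ L' := cnt_nonneg _ _
  have hLp : 0 < L := by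
    refine lt_of_le_of_ne hL0 fun h => ?_
    rw [Finset.sum_eq_zero fun g hg => by
      rw [le_antisymm ((h1 g hg).2.1.trans h.symm.le) (h1 g hg).1, zero_mul]] at h3
    linarith
  have h4 := Finset.sum_le_sum fun g (hg : g ∈ M.G) => pt (h1 g hg).1 (h1 g hg).2.1 (h1' g hg).1
    (h1' g hg).2.1 (M.h_nonneg (M.G_mem hg) i) (M.h_nonneg (M.G_mem hg) j) (h1 g hg).2.2
    (h1' g hg).2.2
  rw [Finset.sum_add_distrib, ← Finset.mul_sum, ← Finset.mul_sum, Finset.sum_const,
    nsmul_eq_mul] at h4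
  have h5 := mul_le_mul_of_nonneg_left h3 hL0'
  have h6 := mul_le_mul_of_nonneg_left h3' hL0
  have h7 : (M.G.card : ℝ) * (L * L') ≤ M.p * ((L + L') ^ 2 / 4) :=
    mul_le_mul_of_nonneg_left (by nlinarith [sq_nonneg (L - L')]) M.p_nonneg
  refine le_of_mul_le_mul_left ?_ (show 0 < L + L' by linarith)
  nlinarith

end Layer

open Layer in
theorem layer (hB : BoxStmt) : LayerStmt := by
  intro d hd
  have hd' : (2 : ℝ) ≤ d := by exact_mod_cast hd
  refine ⟨1 / (1600 * d * (400 * d + 1)), by positivity, fun δ hδ hδ0 =>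
    ⟨d / δ ^ d + 400 * d / δ, 0, by positivity, fun M _ hK hC => ?_⟩⟩
  have hδ1 : 1600 * d * (400 * d + 1) * δ ≤ 1 := by
    rw [le_div_iff₀ (by positivity)] at hδ0; linarith
  have hv := M.vol_pos
  have hp := M.p_nonneg
  have hl0 : 0 ≤ M.p * low M δ := mul_nonneg hp (cnt_nonneg _ _)
  have h1 : (d / δ ^ d + 400 * d / δ) * (M.p * low M δ) < d * M.vol := by
    have h2 := mul_le_mul_of_nonneg_left hK.le hp
    unfold Md.Ctr at hC
    unfold low
    linarith
  have hdp : (0 : ℝ) < d := by linarith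
  have hl : M.p * low M δ < δ ^ d * M.vol := by
    have h2 : d / δ ^ d * (M.p * low M δ) < d * M.vol := by
      have : 0 ≤ 400 * d / δ * (M.p * low M δ) := by positivity
      linarith
    rw [div_mul_eq_mul_div, div_lt_iff₀ (by positivity)] at h2
    refine lt_of_mul_lt_mul_left ?_ hdp.le
    linarith
  have hl2 : 400 * (M.p * low M δ) ≤ δ * M.vol := by
    have h2 : 400 * d / δ * (M.p * low M δ) ≤ d * M.vol := by
      have : 0 ≤ d / δ ^ d * (M.p * low M δ) := by positivity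
      linarith
    rw [div_mul_eq_mul_div, div_le_iff₀ hδ] at h2
    refine le_of_mul_le_mul_left ?_ hdp
    linarith
  obtain ⟨e, rfl⟩ : ∃ e, d = e + 2 := ⟨d - 2, by omega⟩
  have h2 := Finset.sum_le_sum fun i (_ : i ∈ (univ : Finset (Fin (e + 2)))) =>
    pair hB M (i := i) (j := finRotate (e + 2) i) (by simp) hd hδ hδ1 hl hl2
  have h3 : ∑ i, cnt M.N (Lay M δ (finRotate (e + 2) i)) = ∑ i, cnt M.N (Lay M δ i) :=
    Equiv.sum_comp (finRotate (e + 2)) fun i => cnt M.N (Lay M δ i)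
  have h4 : ∑ i, cnt M.N (Lay M δ i) ≤ M.n :=
    sum_cnt_le M.N univ (Lay M δ) fun x _ i _ j _ hi hj => by
      by_contra hij
      linarith [hi.1, hj.2 i hij]
  rw [← Finset.mul_sum, ← Finset.mul_sum, Finset.sum_add_distrib, h3, Finset.sum_const,
    Finset.card_univ, Fintype.card_fin, nsmul_eq_mul] at h2
  have h5 := mul_le_mul_of_nonneg_left h4 hp
  unfold Md.Ctr at hC
  linarith

end Pool.Agent.MP_96f5a9_co.GW

end MrgPart2

-- marker of a merged file
example : 731051 + 800534 = 731051 + 800534 := rfl
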