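import Mathlib
import Pool.Agent.MP_96f5a9_co.h59a.Spec
import Pool.Agent.MP_344f7e_co.Entropy
import Pool.Agent.MP_96f5a9_co.h59a.Basic
import Pool.Agent.MP_96f5a9_co.h59.Bridge
import Pool.Agent.MP_96f5a9_co.h93.Linear
import Pool.Agent.MP_96f5a9_co.h80.II2
import Pool.Agent.MP_96f5a9_co.h12.Cell
import Pool.Agent.MP_96f5a9_co.h42.Ref
import Pool.Agent.MP_96f5a9_co.h16.Rare
import Pool.Agent.MP_96f5a9_co.gw.Spec
import Pool.Agent.MP_96f5a9_co.h59a.Zero
import Pool.Agent.MP_96f5a9_co.h59a.CaseIII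
import Pool.Agent.MP_96f5a9_co.h36.CaseI

-- ======== part 0: formerly Pool.Agent.MP_96f5a9_co.h59.Dom
section MrgPart0

/-!
Row DOM: almost all top elements of a dense level dominate one tuple.
-/

set_option autoImplicit false

namespace Pool.Agent.MP_96f5a9_co.H59

open Finset H51 H16

namespace DomRow

variable {ι : Type} [Fintype ι] [DecidableEq ι]

/-- The monomial of a tuple. -/
def mon {n : ℕ} (x : Fin n → ι) : ι → ℕ := ∑ u, ee (x u)

lemma wt_mon (g : ι → ℕ) {n : ℕ} (x : Fin n → ι) : wt g (mon x) = ∑ u, g (x u) := by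
  simp only [wt, mon, Finset.sum_apply, sum_mul, ee]
  rw [sum_comm]
  refine sum_congr rfl fun u _ => ?_
  rw [sum_eq_single (x u)]
  · simp
  · intro j _ hj
    simp [Pi.single_eq_of_ne hj]
  · simp

lemma exists_mon : ∀ (n : ℕ) (z : ι → ℕ), dg z = n → ∃ x : Fin n → ι, mon x = z
  | 0, z, h => ⟨Fin.elim0, funext fun i => by
      simpa [mon] using ((sum_eq_zero_iff.1 h) i (mem_univ i)).symm⟩
  | n + 1, z, h => by
    obtain ⟨i, -, hi⟩ := exists_ne_zero_of_sum_ne_zero (s := univ) (f := z)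
      (by rw [show ∑ i, z i = n + 1 from h]; omega)
    have hi' := Nat.pos_of_ne_zero hi
    obtain ⟨x, hx⟩ := exists_mon n (z - ee i) (by have := dg_sub hi'; omega)
    refine ⟨Fin.cons i x, ?_⟩
    rw [mon, Fin.sum_univ_succ]
    simp only [Fin.cons_zero, Fin.cons_succ]
    rw [show ∑ u, ee (x u) = z - ee i from hx, add_comm, sub_add_ee hi']

lemma exists_sorted (g : ι → ℕ) {n : ℕ} {z : ι → ℕ} (h : dg z = n) :
    ∃ x : Fin n → ι, mon x = z ∧ Monotone (g ∘ x) := by
  obtain ⟨x, hx⟩ := exists_mon n z h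
  exact ⟨x ∘ Tuple.sort (g ∘ x), hx ▸ Equiv.sum_comp (Tuple.sort (g ∘ x)) fun u => ee (x u),
    Tuple.monotone_sort (g ∘ x)⟩

omit [Fintype ι] in
lemma mon_pos {n : ℕ} (x : Fin n → ι) (u : Fin n) : 0 < mon x (x u) := by
  have : ee (x u) (x u) ≤ ∑ v, ee (x v) (x u) :=
    single_le_sum (f := fun v => ee (x v) (x u)) (fun _ _ => Nat.zero_le _) (mem_univ u)
  rw [mon, Finset.sum_apply]
  exact lt_of_lt_of_le (by simp [ee]) this

omit [Fintype ι] in
lemma mon_split {a r : ℕ} (x : Fin (a + r) → ι) :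
    mon x = mon (fun i => x (Fin.castAdd r i)) + mon fun u => x (Fin.natAdd a u) :=
  Fin.sum_univ_add _

theorem contra (h : ExchStmt) {g : ι → ℕ} {T : Finset (ι → ℕ)} {m F j r d c K : ℕ}
    (hM : Md g T m F) (σ : (ι → ℕ) → Fin (j + 1 + r) → ι) (A B : Finset (ι → ℕ))
    (hA : ∀ z ∈ A, z ∈ T ∧ mon (σ z) = z ∧ wt g z ≤ F + d ∧
      ∀ u : Fin (j + 1 + r), j ≤ u.1 → c + d ≤ g (σ z u))
    (hB : ∀ z ∈ B, z ∈ T ∧ mon (σ z) = z ∧ ∀ i, g (σ z (Fin.castAdd r i)) ≤ c)
    (hp : 0 < Fintype.card ι) (h1 : Fintype.card ι ^ (j + 1 + r) ≤ K * A.card)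
    (h2 : Fintype.card ι ^ (j + 1 + r) ≤ K * B.card)
    (h3 : Fintype.card ι * (T.filter fun y => wt g y ≤ F).card ≤
      K * Fintype.card ι ^ (j + 1 + r)) :
    Fintype.card ι ≤ K ^ (7 * (j + 1 + r) ^ 2) := by
  classical
  let V' := B.image fun z => mon fun i => σ z (Fin.castAdd r i)
  have hV : ∀ M ∈ V', ∃ b : Fin (j + 1) → ι, mon b = M ∧ M ∈ T ∧ ∀ i, g (b i) ≤ c := by
    intro M hM'
    obtain ⟨z, hz, rfl⟩ := mem_image.1 hM'
    obtain ⟨a1, a2, a3⟩ := hB z hz
    refine ⟨_, rfl, hM.down z a1 _ ?_, a3⟩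
    exact le_of_le_of_eq le_self_add ((mon_split (σ z)).symm.trans a2)
  have : Nonempty ι := Fintype.card_pos_iff.1 hp
  choose! τ hτ using hV
  have cast : ∀ {n : ℕ} (x : Fin n → ι), ∑ u, (g (x u) : ZMod m) = (wt g (mon x) : ℕ) :=
    fun x => by rw [wt_mon, Nat.cast_sum]
  refine h ι (ZMod m) (fun i => (g i : ZMod m)) (j + 1 + r) j K (A.image σ) (V'.image τ)
    ((T.filter fun y => wt g y ≤ F).image fun y => (wt g y : ZMod m)) (by omega) hp
    ?_ ?_ ?_ ?_ ?_ ?_
  · intro x hx x' hx' e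
    obtain ⟨z, hz, rfl⟩ := mem_image.1 hx
    obtain ⟨z', hz', rfl⟩ := mem_image.1 hx'
    rw [cast, cast, (hA z hz).2.1, (hA z' hz').2.1, ZMod.natCast_eq_natCast_iff] at e
    rw [hM.inj z (hA z hz).1 z' (hA z' hz').1 e]
  · intro x hx x' hx' e
    obtain ⟨z, hz, rfl⟩ := mem_image.1 hx
    obtain ⟨z', hz', rfl⟩ := mem_image.1 hx'
    rw [cast, cast, (hτ z hz).1, (hτ z' hz').1, ZMod.natCast_eq_natCast_iff] at e
    rw [hM.inj z (hτ z hz).2.1 z' (hτ z' hz').2.1 e]
  · intro x hx b hb u hu i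
    obtain ⟨z, hz, rfl⟩ := mem_image.1 hx
    obtain ⟨M, hM', rfl⟩ := mem_image.1 hb
    obtain ⟨-, a2, a3, a4⟩ := hA z hz
    have e1 : wt g (z - ee (σ z u)) + g (σ z u) = wt g z := by
      rw [← wt_ee, sub_add_ee]
      have := mon_pos (σ z) u
      rwa [a2] at this
    have e2 := wt_ee g (z - ee (σ z u)) (τ M i)
    obtain ⟨y, hy, b1, b2⟩ := hM.min (z - ee (σ z u) + ee (τ M i))
    have b3 := a4 u hu
    have b4 := (hτ M hM').2.2 i
    refine mem_image.2 ⟨y, mem_filter.2 ⟨hy, by omega⟩, ?_⟩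
    rw [cast, a2, (ZMod.natCast_eq_natCast_iff _ _ _).2 b1, e2, ← e1]
    push_cast
    ring
  · rwa [card_image_of_injOn fun z hz z' hz' e => by rw [← (hA z hz).2.1, e, (hA z' hz').2.1]]
  · rw [card_image_of_injOn fun z hz z' hz' e => by rw [← (hτ z hz).1, e, (hτ z' hz').1]]
    have hc : B.card ≤ (V' ×ˢ (univ : Finset (Fin r → ι))).card := by
      refine card_le_card_of_injOn (fun z => (mon fun i => σ z (Fin.castAdd r i),
        fun u => σ z (Fin.natAdd (j + 1) u))) (fun z hz => ?_) fun z hz z' hz' e => ?_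
      · exact mem_coe.2 (mem_product.2 ⟨mem_image_of_mem _ hz, mem_univ _⟩)
      · obtain ⟨e1, e2⟩ := Prod.ext_iff.1 e
        simp only at e1 e2
        rw [← (hB z hz).2.1, ← (hB z' hz').2.1, mon_split (σ z), mon_split (σ z'), e1, e2]
    rw [card_product, card_univ, Fintype.card_fun, Fintype.card_fin] at hc
    refine Nat.le_of_mul_le_mul_right ?_ (pow_pos hp r)
    rw [← pow_add, mul_assoc]
    exact h2.trans (Nat.mul_le_mul_left _ hc)
  · exact (Nat.mul_le_mul_left _ card_image_le).trans h3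

end DomRow

open DomRow in
theorem dom (h : ExchStmt) : DomStmt := by
  intro ι _ _ g T m F n d β K Z hM hn hZT hZ hβ hd h2 h3 h4 h5 h6
  classical
  have hσ : ∀ z ∈ Z, ∃ x : Fin n → ι, mon x = z ∧ Monotone (g ∘ x) := fun z hz =>
    exists_sorted g (hZ z hz).2
  have hp : 0 < Fintype.card ι := (Nat.zero_le _).trans_lt h6
  have : Nonempty ι := Fintype.card_pos_iff.1 hp
  choose! σ hσ hmono using hσ
  have hw : ∀ z ∈ Z, wt g z = ∑ u, g (σ z u) := fun z hz => by rw [← wt_mon, hσ z hz]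
  have hex : ∀ j : Fin n, ∃ c, β < (Z.filter fun z => g (σ z j) ≤ c).card := fun j =>
    ⟨univ.sup g, by
      rw [filter_true_of_mem fun z _ => le_sup (f := g) (mem_univ _)]
      exact (Nat.le_mul_of_pos_left β hn).trans_lt hβ⟩
  let gs : Fin n → ℕ := fun j => Nat.find (hex j)
  have ha : ∀ j, β < (Z.filter fun z => g (σ z j) ≤ gs j).card := fun j => Nat.find_spec (hex j)
  have hb : ∀ j, (Z.filter fun z => g (σ z j) < gs j).card ≤ β := fun j => by
    rcases Nat.eq_zero_or_pos (gs j) with e | e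
    · simp [e]
    · have := Nat.find_min (hex j) (m := gs j - 1) (Nat.sub_lt e one_pos)
      rw [filter_congr (q := fun z => g (σ z j) ≤ gs j - 1) fun z _ => by omega]
      omega
  let G := Z.filter fun z => ∀ j, gs j ≤ g (σ z j)
  have hG : Z.card ≤ G.card + n * β := by
    have a1 : Z ⊆ G ∪ univ.biUnion fun j => Z.filter fun z => g (σ z j) < gs j := fun z hz => by
      by_cases e : ∀ j, gs j ≤ g (σ z j)
      · exact mem_union_left _ (mem_filter.2 ⟨hz, e⟩)
      · obtain ⟨j, hj⟩ := not_forall.1 e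
        exact mem_union_right _ (mem_biUnion.2 ⟨j, mem_univ _, mem_filter.2 ⟨hz, by omega⟩⟩)
    have a2 := card_biUnion_le_card_mul univ _ β fun j _ => hb j
    rw [card_univ, Fintype.card_fin] at a2
    exact (card_le_card a1).trans ((card_union_le _ _).trans (Nat.add_le_add_left a2 _))
  refine ⟨gs, G, filter_subset _ _, hG, fun z hz => ?_, ?_, ?_⟩
  · obtain ⟨hz, e⟩ := mem_filter.1 hz
    refine ⟨(hZ z hz).1, (hZ z hz).2, ?_⟩
    have := wt_mon (fun i => (F + m - wt g z + g i) / m) (σ z)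
    rw [hσ z hz] at this
    refine le_of_le_of_eq (sum_le_sum fun j _ => ?_) this.symm
    exact Nat.div_le_div_right (Nat.add_le_add_left (e j) _)
  · obtain ⟨z, hz⟩ := card_pos.1 (show 0 < G.card by omega)
    obtain ⟨hz, e⟩ := mem_filter.1 hz
    exact (sum_le_sum fun j _ => e j).trans ((hw z hz).symm.le.trans (hM.top z (hZT hz)))
  by_contra hc
  let E := Z.filter fun z => wt g z ≤ F + d
  have hE : d ≤ 2 * E.card := by
    have a1 : (Z.filter fun z => ¬ wt g z ≤ F + d).card ≤ (Ioc (F + d) (F + m)).card := by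
      refine card_le_card_of_injOn (wt g) (fun z hz => ?_) fun z hz z' hz' e => ?_
      · obtain ⟨hz, e⟩ := mem_filter.1 hz
        exact mem_coe.2 (mem_Ioc.2 ⟨by omega, hM.top z (hZT hz)⟩)
      · exact hM.inj z (hZT (mem_filter.1 hz).1) z' (hZT (mem_filter.1 hz').1)
          (by rw [e])
    have a2 := card_filter_add_card_filter_not (s := Z) fun z => wt g z ≤ F + d
    rw [Nat.card_Ioc] at a1
    change E.card + _ = _ at a2
    omega
  have : Nonempty (Fin n) := ⟨⟨0, hn⟩⟩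
  obtain ⟨j, -, hj⟩ := exists_max_image univ
    (fun j => (E.filter fun z => gs j + d ≤ g (σ z j)).card) univ_nonempty
  have hEj : E.card ≤ n * (E.filter fun z => gs j + d ≤ g (σ z j)).card := by
    have a1 : E ⊆ univ.biUnion fun j => E.filter fun z => gs j + d ≤ g (σ z j) := fun z hz => by
      have hz' := (mem_filter.1 hz).1
      by_contra e
      have a2 : ∑ u, g (σ z u) ≤ ∑ u, (gs u + d) := sum_le_sum fun u _ => by
        by_contra e'
        exact e (mem_biUnion.2 ⟨u, mem_univ _, mem_filter.2 ⟨hz, by omega⟩⟩)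
      rw [sum_add_distrib, sum_const, card_univ, Fintype.card_fin, smul_eq_mul, ← hw z hz'] at a2
      have := (hZ z hz').1
      omega
    have a2 := card_biUnion_le_card_mul univ _ _ hj
    rw [card_univ, Fintype.card_fin] at a2
    exact (card_le_card a1).trans a2
  have hA : Fintype.card ι ^ n ≤ K * (E.filter fun z => gs j + d ≤ g (σ z j)).card := by
    refine Nat.le_of_mul_le_mul_left (h3.trans ?_) (by omega : 0 < 2 * n)
    calc K * d ≤ K * (2 * (n * _)) := Nat.mul_le_mul_left _ (hE.trans (Nat.mul_le_mul_left _ hEj))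
      _ = _ := by ring
  have hB := h4.trans (Nat.mul_le_mul_left K (ha j).le)
  generalize gs j = c at hA hB
  clear hEj hj hE hc hG hb ha
  obtain ⟨j, hj⟩ := j
  obtain ⟨r, rfl⟩ := Nat.exists_eq_add_of_le (show j + 1 ≤ n from hj)
  refine (contra (c := c) (d := d) h hM σ _ _ (fun z hz => ?_) (fun z hz => ?_) hp hA hB h5).not_gt h6
  · obtain ⟨hz, a1⟩ := mem_filter.1 hz
    obtain ⟨hz, a2⟩ := mem_filter.1 hz
    exact ⟨hZT hz, hσ z hz, a2, fun u hu => a1.trans (hmono z hz (show ⟨j, hj⟩ ≤ u from hu))⟩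
  · obtain ⟨hz, a1⟩ := mem_filter.1 hz
    exact ⟨hZT hz, hσ z hz, fun i => le_trans
      (hmono z hz (show Fin.castAdd r i ≤ ⟨j, hj⟩ from Nat.lt_succ_iff.1 i.2)) a1⟩

end Pool.Agent.MP_96f5a9_co.H59

end MrgPart0

-- ======== part 1: formerly Pool.Agent.MP_96f5a9_co.h59.Exch
section MrgPart1

/-!
The entropy of the sums over subsets of an almost free random tuple is almost a rank function, so it has the
exchange property.
-/

set_option autoImplicit false

namespace Pool.Agent.MP_96f5a9_co.H59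

open Finset Real Pool.Agent.MP_344f7e_co

namespace Exch

/-- Exchange for an approximate rank function. -/
theorem exchange {K : Type} [DecidableEq K] (h : Finset K → ℝ) (l C D : ℝ) (I J U : Finset K)
    (sub : ∀ A B, h (A ∪ B) + h (A ∩ B) ≤ h A + h B + C)
    (mono : ∀ A B, A ⊆ B → h A ≤ h B + C) (ub : ∀ A, h A ≤ A.card * l) (h0 : 0 ≤ h ∅)
    (hI : I.card * l ≤ h I + C) (hJ : J.card * l ≤ h J + C) (hU : U ⊆ I) (hne : U.Nonempty)
    (hc : J.card + U.card = I.card + 1)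
    (col : ∀ u ∈ U, ∀ i ∈ J, h (insert i (I.erase u)) ≤ (I.card - 1) * l + D) :
    l ≤ J.card * (U.card * (D + 3 * C)) := by
  have hC : 0 ≤ C := by linarith [mono ∅ ∅ subset_rfl]
  have P1 : ∀ i ∈ J, ∀ R : Finset K, R.Nonempty → R ⊆ U →
      h (insert i (I \ R)) + 3 * C ≤ (I.card - R.card) * l + R.card * (D + 3 * C) := by
    intro i hi R hR
    induction hR using Nonempty.cons_induction with
    | singleton u =>
      intro hu
      have := col u (hu (mem_singleton_self u)) i hi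
      rw [sdiff_singleton_eq_erase, card_singleton]
      push_cast
      linarith
    | cons u R hu _ ih =>
      intro hs
      have e1 := ih ((subset_cons hu).trans hs)
      have e2 := col u (hs (mem_cons_self u R)) i hi
      have e3 := sub (insert i (I \ R)) (insert i (I.erase u))
      have e4 := mono I (insert i (I \ R) ∪ insert i (I.erase u)) fun k hk => by
        by_cases c : k = u
        · subst c
          simp [hk, hu]
        · simp [hk, c]
      have e5 : insert i (I \ R) ∩ insert i (I.erase u) = insert i (I \ cons u R hu) := by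
        ext k
        simp only [mem_inter, mem_insert, mem_sdiff, mem_erase, mem_cons]
        tauto
      rw [e5] at e3
      rw [card_cons]
      push_cast
      linarith
  have low : (I.card - U.card) * l ≤ h (I \ U) + 2 * C := by
    have e1 := sub (I \ U) U
    rw [sdiff_union_of_subset hU, sdiff_inter_self] at e1
    linarith [ub U]
  have P2 : ∀ Q : Finset K, Q.Nonempty → Q ⊆ J → h (I \ U ∪ Q) + 3 * C ≤
      (I.card - U.card) * l + Q.card * (U.card * (D + 3 * C)) := by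
    intro Q hQ
    induction hQ using Nonempty.cons_induction with
    | singleton i =>
      intro hs
      have := P1 i (hs (mem_singleton_self i)) U hne subset_rfl
      rw [union_comm, ← insert_eq, card_singleton]
      push_cast
      linarith
    | cons i Q hi _ ih =>
      intro hs
      have e1 := ih ((subset_cons hi).trans hs)
      have e2 := P1 i (hs (mem_cons_self i Q)) U hne subset_rfl
      have e3 := sub (I \ U ∪ Q) (insert i (I \ U))
      have e4 : (I \ U ∪ Q) ∪ insert i (I \ U) = I \ U ∪ cons i Q hi := by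
        ext k
        simp only [mem_union, mem_insert, mem_cons]
        tauto
      have e5 : (I \ U ∪ Q) ∩ insert i (I \ U) = I \ U := by
        ext k
        simp only [mem_union, mem_insert, mem_inter]
        exact ⟨fun ⟨a, b⟩ => a.elim id fun a => b.elim (fun b => absurd (b ▸ a) hi) id,
          fun a => ⟨.inl a, .inr a⟩⟩
      rw [e4, e5] at e3
      rw [card_cons]
      push_cast
      linarith
  have e1 := P2 J (card_pos.1 (by have := card_le_card hU; omega)) subset_rfl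
  have e2 := mono J (I \ U ∪ J) subset_union_right
  have e3 : (J.card : ℝ) = I.card + 1 - U.card := by
    have : ((J.card + U.card : ℕ) : ℝ) = (I.card + 1 : ℕ) := by rw [hc]
    push_cast at this
    linarith
  have e4 : J.card * l = (I.card - U.card) * l + l := by rw [e3]; ring
  linarith

section Ent

variable {Ω K P G : Type} [Fintype Ω] [Nonempty Ω] [Fintype K] [DecidableEq K] [Fintype P]
  [AddCommGroup G]

/-- The uniform distribution. -/
noncomputable def un (Ω : Type) [Fintype Ω] : Ω → ℝ := fun _ => (Fintype.card Ω : ℝ)⁻¹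

theorem un_isP : IsP (un Ω) where
  nn _ := inv_nonneg.2 (Nat.cast_nonneg _)
  sum := by simp [un]

theorem H_id : H (un Ω) id = log (Fintype.card Ω) := by
  have : ∀ ω, pr (un Ω) id ω = (Fintype.card Ω : ℝ)⁻¹ := fun ω => by
    rw [pr, sum_eq_single ω]
    · exact if_pos rfl
    · exact fun _ _ e => if_neg e
    · simp
  simp [H, this, un]

/-- The restriction to a set of coordinates. -/
def rs (Y : Ω → K → P) (A : Finset K) (ω : Ω) : A → P := fun k => Y ω k

/-- The sum over a set of coordinates. -/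
def ps (w : P → G) (Y : Ω → K → P) (A : Finset K) (ω : Ω) : G := ∑ k ∈ A, w (Y ω k)

variable (w : P → G) (Y : Ω → K → P)

omit [Fintype Ω] [Nonempty Ω] [Fintype K] [DecidableEq K] [Fintype P] in
theorem rs_eq {A : Finset K} {ω ω' : Ω} : rs Y A ω = rs Y A ω' ↔ ∀ k ∈ A, Y ω k = Y ω' k :=
  ⟨fun h k hk => congrFun h ⟨k, hk⟩, fun h => funext fun k => h k k.2⟩

omit [Fintype Ω] [Nonempty Ω] [Fintype K] [DecidableEq K] [Fintype P] in
theorem ps_eq {A B : Finset K} (hA : A ⊆ B) {ω ω' : Ω} (h : rs Y B ω = rs Y B ω') :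
    ps w Y A ω = ps w Y A ω' :=
  sum_congr rfl fun k hk => by rw [(rs_eq Y).1 h k (hA hk)]

omit [Fintype K] in
theorem H_rs (A : Finset K) : H (un Ω) (rs Y A) ≤ A.card * log (Fintype.card P) := by
  have := H_le_log_fintype un_isP (rs Y A)
  rwa [Fintype.card_fun, Fintype.card_coe, Nat.cast_pow, log_pow] at this

omit [Fintype K] in
theorem H_ps (A : Finset K) : H (un Ω) (ps w Y A) ≤ A.card * log (Fintype.card P) :=
  (H_mono un_isP fun _ _ _ _ h => ps_eq w Y subset_rfl h).trans (H_rs Y A)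

variable (hY : Function.Injective Y) {C : ℝ}
  (hC : Fintype.card K * log (Fintype.card P) ≤ log (Fintype.card Ω) + C)
include hY hC

omit [Fintype Ω] [Nonempty Ω] [Fintype P] hC in
theorem eq_of_rs {A : Finset K} {ω ω' : Ω} (h : rs Y A ω = rs Y A ω')
    (h' : rs Y Aᶜ ω = rs Y Aᶜ ω') : ω = ω' :=
  hY <| funext fun k => by
    by_cases c : k ∈ A
    exacts [(rs_eq Y).1 h k c, (rs_eq Y).1 h' k (mem_compl.2 c)]

omit hY in
theorem H_compl (A : Finset K) :
    H (un Ω) (rs Y Aᶜ) + A.card * log (Fintype.card P) ≤ log (Fintype.card Ω) + C := by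
  have e1 := H_rs Y Aᶜ
  rw [card_compl, Nat.cast_sub (card_le_univ A)] at e1
  linarith

theorem H_low {A B : Finset K} (h : A ⊆ Bᶜ) : H (un Ω) (ps w Y A) + B.card * log (Fintype.card P) ≤
    H (un Ω) (fun ω => (ps w Y A ω, rs Y B ω)) + C := by
  have e1 := submod un_isP (fun ω => (ps w Y A ω, rs Y B ω)) (rs Y Bᶜ) id (ps w Y A)
    (fun _ _ e => (Prod.mk.inj e).1) (fun _ _ e => ps_eq w Y h e)
    fun _ _ e e' => eq_of_rs Y hY (Prod.mk.inj e).2 e'
  rw [H_id] at e1
  linarith [H_compl Y hC B]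

theorem H_sub (A B : Finset K) : H (un Ω) (ps w Y (A ∪ B)) + H (un Ω) (ps w Y (A ∩ B)) ≤
    H (un Ω) (ps w Y A) + H (un Ω) (ps w Y B) + C := by
  have a1 : ∀ A B : Finset K, ∀ ω, ps w Y (A ∪ B) ω = ps w Y A ω + ps w Y (B \ A) ω :=
    fun A B ω => by rw [ps, ← union_sdiff_self_eq_union, sum_union disjoint_sdiff, ps, ps]
  have a2 : ∀ A B : Finset K, H (un Ω) (fun ω => (ps w Y A ω, rs Y B ω)) ≤
      H (un Ω) (ps w Y A) + B.card * log (Fintype.card P) := fun A B =>
    (subadd un_isP (ps w Y A) (rs Y B) _ fun _ _ e e' => by rw [e, e']).trans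
      (by linarith [H_rs Y B])
  have e1 := submod un_isP (fun ω => (ps w Y A ω, rs Y (B \ A) ω))
    (fun ω => (ps w Y B ω, rs Y (A \ B) ω))
    (fun ω => (ps w Y (A ∩ B) ω, rs Y (A \ B ∪ B \ A) ω)) (ps w Y (A ∪ B))
    (fun _ _ e => by
      rw [a1, a1, (Prod.mk.inj e).1, ps_eq w Y subset_rfl (Prod.mk.inj e).2])
    (fun _ _ e => by
      rw [union_comm, a1, a1, (Prod.mk.inj e).1, ps_eq w Y subset_rfl (Prod.mk.inj e).2])
    fun ω ω' e e' => by
      have b1 : ∀ ω, ps w Y (A ∩ B) ω = ps w Y A ω - ps w Y (A \ B) ω := fun ω =>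
        eq_sub_of_add_eq (sum_inter_add_sum_sdiff A B _)
      refine Prod.ext ?_ ((rs_eq Y).2 fun k hk => ?_)
      · show ps w Y (A ∩ B) ω = ps w Y (A ∩ B) ω'
        rw [b1, b1, (Prod.mk.inj e).1, ps_eq w Y subset_rfl (Prod.mk.inj e').2]
      · rcases mem_union.1 hk with hk | hk
        exacts [(rs_eq Y).1 (Prod.mk.inj e').2 k hk, (rs_eq Y).1 (Prod.mk.inj e).2 k hk]
  have e2 := H_low w Y hY hC (A := A ∩ B) (B := A \ B ∪ B \ A) fun k hk => by
    simp only [mem_inter] at hk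
    simp [hk]
  rw [card_union_of_disjoint disjoint_sdiff_sdiff, Nat.cast_add] at e2
  linarith [a2 A (B \ A), a2 B (A \ B)]

theorem H_mon (A B : Finset K) (h : A ⊆ B) : H (un Ω) (ps w Y A) ≤ H (un Ω) (ps w Y B) + C := by
  have e1 := H_low w Y hY hC (A := A) (B := Aᶜ) (by simp)
  have e2 := subadd un_isP (ps w Y B) (rs Y Aᶜ) (fun ω => (ps w Y A ω, rs Y Aᶜ ω))
    fun ω ω' e e' => by
      have b1 : ∀ ω, ps w Y A ω = ps w Y B ω - ps w Y (B \ A) ω := fun ω =>
        eq_sub_of_add_eq' (sum_sdiff h)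
      rw [b1, b1, e, e', ps_eq w Y (fun k hk => mem_compl.2 (mem_sdiff.1 hk).2) e']
  linarith [H_rs Y Aᶜ]

theorem H_free (A : Finset K) (h : ∀ ω ω', ps w Y A ω = ps w Y A ω' → rs Y A ω = rs Y A ω') :
    A.card * log (Fintype.card P) ≤ H (un Ω) (ps w Y A) + C := by
  have e1 := subadd un_isP (ps w Y A) (rs Y Aᶜ) id fun _ _ e e' => eq_of_rs Y hY (h _ _ e) e'
  rw [H_id] at e1
  linarith [H_compl Y hC A]

end Ent

end Exch

open Exch in
/-- Two dense families of tuples with distinct sums, such that exchanging one entry always gives a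
sum in a small set, exist only over a bounded alphabet. -/
theorem exch : ExchStmt := by
  intro P G _ _ w n j M E V N hj hp hE hV hN h1 h2 h3
  classical
  set p := Fintype.card P
  have p1 := (pow_pos hp n).trans_le h1
  have p2 := (pow_pos hp _).trans_le h2
  have hM : 0 < M := Nat.pos_of_mul_pos_right p1
  have nE : 0 < E.card := Nat.pos_of_mul_pos_left p1
  have nV : 0 < V.card := Nat.pos_of_mul_pos_left p2
  have : Nonempty E := (card_pos.1 nE).to_subtype
  have : Nonempty V := (card_pos.1 nV).to_subtype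
  have lg : ∀ {k a : ℕ}, p ^ k ≤ M * a → 0 < a → k * log p ≤ log a + log M := fun {k a} h ha => by
    rw [← log_pow, ← log_mul (by positivity) (by positivity)]
    exact log_le_log (by positivity) (by rw [mul_comm]; exact_mod_cast h)
  let Y : E × V → Fin n ⊕ Fin (j + 1) → P := fun ω => Sum.elim ω.1.1 ω.2.1
  have hY : Function.Injective Y := fun ω ω' e =>
    Prod.ext (Subtype.ext <| funext fun k => congrFun e (.inl k))
      (Subtype.ext <| funext fun k => congrFun e (.inr k))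
  have hC : Fintype.card (Fin n ⊕ Fin (j + 1)) * log p ≤
      log (Fintype.card (E × V)) + 2 * log M := by
    rw [Fintype.card_sum, Fintype.card_prod, Fintype.card_coe, Fintype.card_coe, Nat.cast_mul,
      log_mul (by positivity) (by positivity), Nat.cast_add, Fintype.card_fin, Fintype.card_fin]
    linarith [lg h1 nE, lg h2 nV]
  have key := exchange (fun A => H (un (E × V)) (ps w Y A)) (log p) (2 * log M) (log M)
    (univ.map Function.Embedding.inl) (univ.map Function.Embedding.inr)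
    ((Ici ⟨j, hj⟩).map Function.Embedding.inl) (H_sub w Y hY hC) (H_mon w Y hY hC) (H_ps w Y)
    (H_nonneg un_isP _)
    (H_free w Y hY hC _ fun ω ω' e => (rs_eq Y).2 fun k hk => by
      obtain ⟨i, -, rfl⟩ := mem_map.1 hk
      exact congrFun (hE _ ω.1.2 _ ω'.1.2 (by simpa [ps, Y] using e)) i)
    (H_free w Y hY hC _ fun ω ω' e => (rs_eq Y).2 fun k hk => by
      obtain ⟨i, -, rfl⟩ := mem_map.1 hk
      exact congrFun (hV _ ω.2.2 _ ω'.2.2 (by simpa [ps, Y] using e)) i)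
    (map_subset_map.2 (subset_univ _)) (by simp) (by simp; omega)
    fun u hu i hi => by
      obtain ⟨v, hv, rfl⟩ := mem_map.1 hu
      obtain ⟨i, -, rfl⟩ := mem_map.1 hi
      have e1 : ∀ ω : E × V, ps w Y (insert (Function.Embedding.inr i)
          ((univ.map Function.Embedding.inl).erase (Function.Embedding.inl v))) ω ∈ N := fun ω => by
        rw [ps, sum_insert (by simp), ← map_erase, sum_map, add_comm,
          sum_erase_eq_sub (mem_univ v)]
        exact hN _ ω.1.2 _ ω.2.2 v (Fin.le_def.1 (mem_Ici.1 hv)) i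
      refine (H_le_log_card un_isP _ N fun ω _ => e1 ω).trans ?_
      have nN : 0 < N.card := card_pos.2 ⟨_, e1 (Classical.arbitrary _)⟩
      have e2 : log (p * N.card) ≤ log (M * p ^ n) :=
        log_le_log (by positivity) (by exact_mod_cast h3)
      rw [log_mul (by positivity) (by positivity), log_mul (by positivity) (by positivity),
        log_pow] at e2
      rw [card_map, card_univ, Fintype.card_fin]
      linarith
  simp only [card_map, card_univ, Fintype.card_fin, Fin.card_Ici] at key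
  have hL : 0 ≤ log M := log_natCast_nonneg M
  have a1 : ((j + 1 : ℕ) : ℝ) ≤ n := by exact_mod_cast hj
  have a2 : ((n - j : ℕ) : ℝ) ≤ n := by exact_mod_cast Nat.sub_le n j
  have a4 : log p ≤ (7 * n ^ 2 : ℕ) * log M := by
    refine key.trans (le_trans (b := n * (n * (log M + 3 * (2 * log M)))) (by gcongr) ?_)
    push_cast
    linarith
  rw [← log_pow, log_le_log_iff (by positivity) (by positivity)] at a4
  exact_mod_cast a4

end Pool.Agent.MP_96f5a9_co.H59

end MrgPart1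

-- ======== part 2: formerly Pool.Agent.MP_96f5a9_co.h59a.Main
section MrgPart2

/-!
Assembly of the cases and the passage to numerical semigroups.
-/

set_option autoImplicit false

namespace Pool.Agent.MP_96f5a9_co.WA

open Finset H51 H16 H59 H80

theorem all (h0 : MainStmt) (hH : HStmt) (h3 : IIIStmt) (h1 : IStmt) (h2 : IIStmt) : AllStmt := by
  obtain ⟨k2, D2, p2, h2⟩ := h2 (2 ^ 27)
  obtain ⟨G, D3, p3, h3⟩ := h3 (2 ^ 27) (2 ^ 82 * (k2 * (2 ^ 27 + 1)))
  obtain ⟨D1, p1, h1⟩ := h1 (2 ^ 27) (2 ^ 82 * (k2 * (2 ^ 27 + 1))) G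
  obtain ⟨k, hH⟩ := hH (2 ^ 27) (D1 + D2 + D3 + 2 ^ 82 * (k2 + 1))
  obtain ⟨p0, h0⟩ := h0 (k + 3)
  refine ⟨p0 + p1 + p2 + p3 + 2 ^ 15, fun ι _ _ g T m F h hp => ?_⟩
  by_contra hW
  have hm : (Fintype.card ι + 1) ^ (k + 3) ≤ m :=
    (not_le.1 fun c => hW (h0 ι g T m F h (by omega) c)).le
  have a1 : (Fintype.card ι + 1) ^ k ≤ m :=
    (Nat.pow_le_pow_right (Nat.succ_pos _) (by omega)).trans hm
  have a2 : (Fintype.card ι + 1) ^ 3 ≤ m :=
    (Nat.pow_le_pow_right (Nat.succ_pos _) (by omega)).trans hm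
  have a3 : 4 * Fintype.card ι ^ 2 ≤ m := by
    refine le_trans ?_ a2
    rw [pow_succ' _ 2]
    exact Nat.mul_le_mul (by omega) (Nat.pow_le_pow_left (by omega) _)
  have a4 : Fintype.card ι ≤ m := by nlinarith
  have hc : F + m ≤ 2 ^ 27 * (Fintype.card ι * m) := by
    have := not_le.1 fun c => hW (H93.wilf_ideal g T m F h.pos (fun i => h.pos.trans_le (h.le i))
      h.down h.card h.inj h.top (by omega) a3 c)
    have b : (Fintype.card ι + 1) * m ≤ 2 * Fintype.card ι * m := Nat.mul_le_mul_right _ (by omega)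
    nlinarith
  obtain ⟨s, hs⟩ := H93.exists_median g
  have hD : (D1 + D2 + D3 + 2 ^ 82 * (k2 + 1)) * s ≤ F + m :=
    (not_le.1 fun c => hW (hH ι g T m F s h (by omega) a1 hs hc c)).le
  have b : ∀ D, D ≤ D1 + D2 + D3 + 2 ^ 82 * (k2 + 1) → D * s ≤ F + m := fun D hD' =>
    (Nat.mul_le_mul_right _ hD').trans hD
  have hA : F + m ≤ 2 ^ 82 * (k2 * (2 ^ 27 + 1)) * ∑ i, Ad g T (F + m) m i := by
    refine gw (by omega) h.le h.down h.card h.inj h.top (by omega) hs.1 hs.2 (not_wilf hW).2 hc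
      (b _ (Nat.le_add_left _ _)) ?_
    by_contra c
    rw [not_or, not_le, not_le] at c
    exact hW (h2 ι g T m F s h (by omega) (by omega) hs hc (b _ (by omega)) c.1.le c.2.le)
  rcases le_total s (G * m) with c | c
  · exact hW (h1 ι g T m F s h (by omega) a4 hs hc c (b _ (by omega)) hA)
  · exact hW (h3 ι g T m F s h (by omega) a4 hs hc c (b _ (by omega)) hA)

open Classical in
/-- Wilf's inequality for large embedding dimension. -/
theorem wilf_dim (h : AllStmt) : ∃ e0 : ℕ, ∀ (S : AddSubmonoid ℕ) (F m : ℕ),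
    (∀ x, F < x → x ∈ S) → 0 < m → m ∈ S → (∀ x ∈ S, x ≠ 0 → m ≤ x) → e0 ≤ (gens S).ncard →
    F + 1 ≤ (gens S).ncard * ((range (F + 1)).filter (· ∈ S)).card := by
  obtain ⟨p0, hp⟩ := h
  refine ⟨p0 + 1, fun S F m hF hm0 hmS hmin he => ?_⟩
  obtain ⟨G, g, T, h1, h2, h3⟩ := exists_md S F m hF hm0 hmS hmin
  rw [h1] at he ⊢
  exact (hp G g T m F h2 (by omega)).trans (Nat.mul_le_mul_left _ h3)

open Classical in
/-- Wilf's inequality for large Frobenius number. -/
theorem wilf_frob (h : AllStmt) : ∃ B : ℕ, ∀ (S : AddSubmonoid ℕ) (F m : ℕ),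
    (∀ x, F < x → x ∈ S) → 0 < m → m ∈ S → (∀ x ∈ S, x ≠ 0 → m ≤ x) → B ≤ F →
    F + 1 ≤ (gens S).ncard * ((range (F + 1)).filter (· ∈ S)).card := by
  obtain ⟨e0, he⟩ := wilf_dim h
  refine ⟨2 ^ 36 * e0 ^ 5 * (2 ^ 36 * e0 ^ 5 + 1) ^ e0, fun S F m hF hm0 hmS hmin hB => ?_⟩
  rcases le_total e0 (gens S).ncard with c | c
  · exact he S F m hF hm0 hmS hmin c
  refine wilf_large S F m hF hm0 hmS hmin ?_
  have a1 : 2 ^ 36 * (gens S).ncard ^ 5 ≤ 2 ^ 36 * e0 ^ 5 :=
    Nat.mul_le_mul_left _ (Nat.pow_le_pow_left c _)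
  rcases le_total ((2 ^ 36 * (gens S).ncard ^ 5) ^ (gens S).ncard) m with d | d
  · exact Or.inr d
  · refine Or.inl (le_trans (Nat.mul_le_mul a1 (d.trans ?_)) hB)
    exact (Nat.pow_le_pow_left (a1.trans (Nat.le_succ _)) _).trans
      (Nat.pow_le_pow_right (Nat.succ_pos _) c)

/-- Only finitely many numerical semigroups can fail Wilf's inequality. -/
theorem all_finite (h : AllStmt) :
    {S : AddSubmonoid ℕ | ∃ F e n : ℕ, F ∉ S ∧ (∀ h, h ∉ S → h ≤ F) ∧
      e = Set.ncard {x : ℕ | x ∈ S ∧ x ≠ 0 ∧ ∀ a ∈ S, ∀ b ∈ S, a + b = x → a = 0 ∨ b = 0} ∧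
      n = Set.ncard {x : ℕ | x ∈ S ∧ ∃ h : ℕ, h ∉ S ∧ x ≤ h} ∧ e * n < F + 1}.Finite := by
  classical
  obtain ⟨B, hB⟩ := wilf_frob h
  refine (finite_small B).subset ?_
  rintro S ⟨F, e, n, hF, hF', rfl, rfl, hW⟩ x hx
  have hb : ∀ x, F < x → x ∈ S := fun x hx => by
    by_contra h
    exact absurd (hF' x h) (by omega)
  have hex : ∃ m, m ∈ S ∧ m ≠ 0 := ⟨F + 1, hb _ (Nat.lt_succ_self _), Nat.succ_ne_zero _⟩
  refine hb x (lt_of_lt_of_le (not_le.1 fun c => ?_) hx)
  rw [count_eq S F hF hF'] at hW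
  exact absurd (hB S F (Nat.find hex) hb (Nat.pos_of_ne_zero (Nat.find_spec hex).2)
    (Nat.find_spec hex).1 (fun x hx h0 => Nat.find_min' hex ⟨hx, h0⟩) c) (not_le.2 hW)

end Pool.Agent.MP_96f5a9_co.WA

end MrgPart2

-- ======== part 3: formerly Pool.Agent.MP_96f5a9_co.h59a.CaseH
section MrgPart3

/-!
The case of bounded depth in terms of the median.
-/

set_option autoImplicit false

namespace Pool.Agent.MP_96f5a9_co.WA

open Finset H51 H16 H59 H80

namespace CaseH

variable {ι : Type} [Fintype ι] {g : ι → ℕ} {T : Finset (ι → ℕ)} {m F s : ℕ}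

omit [Fintype ι] in
lemma dp_mul_le (hg : ∀ i, m ≤ g i) (P : Finset ι) (z : ι → ℕ) : dp P z * m ≤ wp g P z := by
  rw [dp, sum_mul]
  exact sum_le_sum fun i _ => Nat.mul_le_mul_left _ (hg i)

lemma dp_large (P : Finset ι) (hP : ∀ i ∈ P, s ≤ 4 * g i) (z : ι → ℕ) :
    dp P z * s ≤ 4 * wt g z := by
  rw [dp, sum_mul, wt, mul_sum]
  refine (sum_le_sum fun i hi => ?_).trans (sum_le_sum_of_subset (subset_univ P))
  rw [mul_left_comm]
  exact Nat.mul_le_mul_left _ (hP i hi)

lemma partner [DecidableEq ι] (h : Md g T m F) (hs : Med g s) :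
    ∃ U : Finset ι, (∀ i ∈ U, s ≤ g i) ∧ (univ.filter fun i => 4 * g i ≤ s).card = U.card := by
  have a : (univ.filter fun i => 4 * g i ≤ s) ⊆ univ.filter fun i => ¬ s ≤ g i := fun i hi => by
    have := (mem_filter.1 hi).2
    have := h.le i
    have := h.pos
    exact mem_filter.2 ⟨mem_univ _, by omega⟩
  have b := card_filter_add_card_filter_not (s := (univ : Finset ι)) fun i => s ≤ g i
  have c := card_le_card a
  have d := hs.2
  rw [card_univ] at b
  obtain ⟨U, hU, e⟩ := exists_subset_card_eq (s := univ.filter fun i => s ≤ g i)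
    (n := (univ.filter fun i => 4 * g i ≤ s).card) (by omega)
  exact ⟨U, fun i hi => (mem_filter.1 (hU hi)).2, e.symm⟩

end CaseH

open CaseH in
theorem caseH (hz : ZeroStmt) : HStmt := by
  intro c D
  obtain ⟨B, hB⟩ : ∃ B, B = 96 * (4 * D + 32 * D * c) := ⟨_, rfl⟩
  refine ⟨B + 8 * D + 1 + 1, fun ι _ _ g T m F s h hp hm hs hc hD => ?_⟩
  by_contra hW
  have m0 := h.pos
  have a1 := card_le_pow (B + 8 * D + 1) (T.filter fun z => dg z ≤ B + 8 * D + 1)
    fun x hx => (mem_filter.1 hx).2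
  have a2 : (Fintype.card ι + 1) ^ (B + 8 * D + 1) * 3 ≤ m :=
    (Nat.mul_le_mul_left _ (by omega)).trans ((pow_succ _ _).ge.trans hm)
  have a3 : 3 ≤ (Fintype.card ι + 1) ^ (B + 8 * D + 1) :=
    le_trans (by omega) (Nat.le_self_pow (Nat.succ_ne_zero _) _)
  rcases lt_or_ge s (8 * m) with cs | cs
  · rw [filter_true_of_mem fun x hx => ?_, h.card] at a1
    · omega
    · have b1 : dg x * m ≤ wt g x := dp_mul_le h.le univ x
      have b2 := h.top x hx
      have b3 : D * s ≤ D * (8 * m) := Nat.mul_le_mul_left _ cs.le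
      have b4 : dg x * m ≤ 8 * D * m := by linarith
      have := Nat.le_of_mul_le_mul_right b4 m0
      omega
  obtain ⟨U, hU, eU⟩ := partner h hs
  obtain ⟨S, eS⟩ : ∃ S, S = univ.filter fun i => 4 * g i ≤ s := ⟨_, rfl⟩
  rw [← eS] at eU
  have mS : ∀ i, i ∈ S ↔ 4 * g i ≤ s := fun i => by simp [eS]
  obtain ⟨Δ, d0, -, -, d3⟩ := hz ι g T m F s S U h cs (fun i => (mS i).1) hU eU
  obtain ⟨w1, w2⟩ := not_wilf hW
  have mr : (0 : ℝ) < m := Nat.cast_pos.2 m0
  have sr : (0 : ℝ) < s := Nat.cast_pos.2 (by omega)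
  have n1 : ∑ z ∈ T, aa g (F + m) m z ≤ c * m := by
    rw [← cast_n]
    have : Fintype.card ι * ∑ x ∈ T, (F + m - wt g x) / m ≤ Fintype.card ι * (c * m) := by
      rw [mul_left_comm]
      exact w2.trans hc
    exact_mod_cast Nat.le_of_mul_le_mul_left this (by omega)
  have n0 : 0 ≤ ∑ z ∈ T, aa g (F + m) m z := sum_nonneg fun z _ => aa_nonneg z
  have e1 : ∀ z ∈ T, dp Sᶜ z ≤ 4 * D := fun z hz => by
    have b1 := dp_large (g := g) (s := s) Sᶜ (fun i hi => by
      have : ¬ 4 * g i ≤ s := fun e => mem_compl.1 hi ((mS i).2 e)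
      omega) z
    have b2 := h.top z hz
    have b3 : dp Sᶜ z * s ≤ 4 * D * s := by linarith
    exact Nat.le_of_mul_le_mul_right b3 (by omega)
  have e2 : ∑ z ∈ T, (dp Sᶜ z : ℝ) ≤ 4 * D * m := by
    have := sum_le_card_nsmul T (fun z => (dp Sᶜ z : ℝ)) (4 * D) fun z hz => by
      exact_mod_cast e1 z hz
    rwa [h.card, nsmul_eq_mul, mul_comm] at this
  have e3 : 32 * ((F + m : ℕ) : ℝ) * (∑ z ∈ T, aa g (F + m) m z) / s ≤ 32 * D * c * m := by
    rw [div_le_iff₀ sr]
    have b1 : ((F + m : ℕ) : ℝ) ≤ D * s := by exact_mod_cast hD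
    have b2 := mul_le_mul b1 n1 n0 (by positivity)
    linarith
  have e4 : (1 / 2 : ℝ) * B * m ≤ ∑ z ∈ T, min (wp g S z / m : ℝ) B := by
    have b1 : ∑ z ∈ T, (B : ℝ) ≤ ∑ z ∈ T, (min (wp g S z / m : ℝ) B +
        if dg z ≤ B + 8 * D + 1 then (B : ℝ) else 0) := by
      refine sum_le_sum fun z hz => ?_
      split_ifs with cz
      · exact le_add_of_nonneg_left (le_min (by positivity) (by positivity))
      · rw [add_zero]
        refine le_min ((le_div_iff₀ mr).2 ?_) le_rfl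
        have b2 := dp_compl S z
        have b3 := e1 z hz
        have b4 := (Nat.mul_le_mul_right m (show B ≤ dp S z by omega)).trans (dp_mul_le h.le S z)
        exact_mod_cast b4
    rw [sum_add_distrib, ← sum_filter, sum_const, sum_const, h.card, nsmul_eq_mul,
      nsmul_eq_mul] at b1
    have b5 : (((T.filter fun z => dg z ≤ B + 8 * D + 1).card : ℕ) : ℝ) * 2 ≤ m := by
      exact_mod_cast (show (T.filter fun z => dg z ≤ B + 8 * D + 1).card * 2 ≤ m by omega)
    have b6 := mul_le_mul_of_nonneg_right b5 (Nat.cast_nonneg B)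
    linarith
  have e5 := (rearr h (fun z => min (wp g S z / m : ℝ) B) (B := B) (β := 1 / 2) (by norm_num)
    (by have : (8 : ℝ) ≤ m := by exact_mod_cast (show 8 ≤ m by omega)
        linarith)
    (fun z _ => le_min (by positivity) (by positivity)) (fun z _ => min_le_right _ _) e4).1
  have e6 : ∑ z ∈ T, ll g (F + m) m z * min (wp g S z / m : ℝ) B ≤
      ∑ z ∈ T, ll g (F + m) m z * (wp g S z / m) :=
    sum_le_sum fun z _ => mul_le_mul_of_nonneg_left (min_le_left _ _) (ll_nonneg z)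
  have e7 : (B : ℝ) * m = 96 * (4 * D * m + 32 * D * c * m) := by
    rw [hB]
    push_cast
    ring
  rw [← sum_div, Nat.cast_add] at d3
  rw [Nat.cast_add] at e3
  linarith

end Pool.Agent.MP_96f5a9_co.WA

end MrgPart3

-- ======== part 4: formerly Pool.Agent.MP_96f5a9_co.h80.II3
section MrgPart4

/-!
Almost equal generators: the constants.
-/

set_option autoImplicit false

namespace Pool.Agent.MP_96f5a9_co.H80

open Finset Function H51 H16 H93 H36 H59 WA

lemma sum_shift {m : ℕ} (hm : 0 < m) (c : ℕ) (f : ℕ → ℝ) :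
    ∑ l ∈ range m, f ((l + c) % m) = ∑ l ∈ range m, f l := by
  have hinj : ∀ x ∈ range m, ∀ y ∈ range m, (x + c) % m = (y + c) % m → x = y := fun x hx y hy e =>
    (Nat.ModEq.add_right_cancel' _ e).eq_of_lt_of_lt (mem_range.1 hx) (mem_range.1 hy)
  rw [← sum_image (g := fun x => (x + c) % m) (f := f) hinj]
  congr 1
  refine eq_of_subset_of_card_le (fun r hr => ?_) (card_image_of_injOn hinj).ge
  obtain ⟨x, -, rfl⟩ := mem_image.1 hr
  exact mem_range.2 (Nat.mod_lt _ hm)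

lemma geo (a d n : ℕ) : (∑ j ∈ range n, if a * 2 ^ j < d then a * 2 ^ j else 0) ≤ a * 2 ^ n ∧
    (∑ j ∈ range n, if a * 2 ^ j < d then a * 2 ^ j else 0) ≤ 2 * d := by
  induction n with
  | zero => simp
  | succ n ih =>
    rw [sum_range_succ, pow_succ, ← mul_assoc]
    split_ifs <;> omega

lemma fin_arith {G m p N K δ ε e w R t L J R0 S X : ℝ} (hG : 0 ≤ G) (hm : 0 < m) (hp : 0 < p)
    (hpm : p ≤ m) (hN : 0 ≤ N) (hK : 1 ≤ K) (hδ0 : 0 ≤ δ) (hδ : 2 ^ 24 * K * δ ≤ 1) (ht : 1 ≤ t)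
    (hR : 0 ≤ R) (he : 0 ≤ e)
    (h1 : w ≤ δ * e) (h2 : ε * R ≤ 4 * δ * e) (h3 : R ≤ δ * e * t) (h4 : R * R ≤ δ * e * m)
    (h5 : (L + 3 * R) * J ≤ δ * m) (h6 : ε ≤ δ) (h7 : N ≤ δ * p) (h8 : L + 2 * R0 ≤ δ * m)
    (hS : S ≤ (L + 3 * R) * (m * J) +
      N * (8 * R * m / t + 3 * R * (2 * R + m * (2 * R / m + 8 * ε) + m / t ^ 2)))
    (hX : N * e ≤ X + N) (hg : X + N ^ 2 / p * m ≤ 9 * K * (G + m)) :
    N * (w + 2 ^ 12 * ε * R) + S / m + N ^ 2 / p * (8 * (L + 2 * R0) + 212 * ε * m) <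
      G / 2 + m * (1 / 6 - 7 * ε - 2 * (N / p)) := by
  have a1 : R / t ≤ δ * e := by rwa [div_le_iff₀ (by linarith)]
  have a2 : R / t ^ 2 ≤ δ * e :=
    (div_le_div_of_nonneg_left hR (by linarith) (by nlinarith)).trans a1
  have a3 : R * R / m ≤ δ * e := by rwa [div_le_iff₀ hm]
  have a4 : S / m ≤ (L + 3 * R) * J +
      N * (8 * (R / t) + 12 * (R * R / m) + 24 * (ε * R) + 3 * (R / t ^ 2)) := by
    rw [div_le_iff₀ hm]
    refine hS.trans_eq ?_
    field_simp
    ring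
  have a5 : N * (w + 2 ^ 12 * ε * R) +
      N * (8 * (R / t) + 12 * (R * R / m) + 24 * (ε * R) + 3 * (R / t ^ 2)) ≤
      N * (2 ^ 15 * (δ * e)) := by
    rw [← mul_add]
    have : 0 ≤ δ * e := by positivity
    exact mul_le_mul_of_nonneg_left (by linarith) hN
  have a6 : N ^ 2 / p * (8 * (L + 2 * R0) + 212 * ε * m) ≤ N ^ 2 / p * (2 ^ 15 * (δ * m)) := by
    have := mul_le_mul_of_nonneg_right h6 hm.le
    have : 0 ≤ δ * m := by positivity
    exact mul_le_mul_of_nonneg_left (by linarith) (by positivity)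
  have a7 : N / p ≤ δ := by rwa [div_le_iff₀ hp]
  have a8 : 2 ^ 24 * δ ≤ 1 := by nlinarith
  have a9 : N ≤ m := by nlinarith
  have b1 := mul_le_mul_of_nonneg_left hX hδ0
  have b2 := mul_le_mul_of_nonneg_left hg hδ0
  have b3 := mul_le_mul_of_nonneg_right hδ (add_nonneg hG hm.le)
  have b4 := mul_le_mul_of_nonneg_left a9 hδ0
  have b5 := mul_le_mul_of_nonneg_right a8 hm.le
  have b6 := mul_le_mul_of_nonneg_left h6 hm.le
  have b7 := mul_le_mul_of_nonneg_left a7 hm.le
  linarith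

variable {ι : Type} [Fintype ι] [DecidableEq ι] {g : ι → ℕ} {T : Finset (ι → ℕ)} {m F s : ℕ}

/-- The theorem for given scales. -/
lemma scales (md : Md g T m F) (hmed : Med g s) {c e R t Q J : ℕ} (hp : 0 < Fintype.card ι)
    (hpm : Fintype.card ι ≤ m) (hc : F + m ≤ c * (Fintype.card ι * m))
    (hQ : 2 ^ 24 * (2 ^ 87 * (c + 1) ^ 3) ≤ Q) (he : 0 < e)
    (e1 : ∑ i, ds g s m i ≤ Fintype.card ι * e)
    (e2 : Fintype.card ι * e ≤ ∑ i, ds g s m i + Fintype.card ι) (r1 : 64 * e ≤ R)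
    (r2 : Q * ((Nr g s R)ᶜ.card * R) ≤ 2 * ∑ i, ds g s m i) (r3 : Q * R ≤ e * t)
    (r4 : Q * (R * R) ≤ e * m) (r5 : Q * ((3 * R * t ^ 2 + 3 * R) * J) ≤ m)
    (r6 : 2 * R / (e / Q + 1) + 2 ≤ J) (r7 : J * s ≤ F + m)
    (r8 : 3 * (Q * (F + m)) ≤ Fintype.card ι * s) : Wilf g T m F := by
  by_contra hw
  have hc3 : c + 1 ≤ (c + 1) ^ 3 := Nat.le_self_pow (by norm_num) _
  have hQ1 : 2 ^ 14 * (c + 1) ≤ Q := by omega
  have hQ2 : 64 ≤ Q := by omega
  have ht : 1 ≤ t := Nat.pos_of_ne_zero fun h => by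
    have := Nat.mul_pos (show 0 < Q by omega) (show 0 < R by omega)
    rw [h] at r3
    omega
  have hJ : 1 ≤ J := le_trans (Nat.le_add_left 1 _) (Nat.le_of_succ_le r6)
  have r5' : Q * (3 * R * t ^ 2 + 3 * R) ≤ m :=
    (Nat.mul_le_mul_left _ (Nat.le_mul_of_pos_right _ hJ)).trans r5
  have r9 : 64 * (3 * R * t ^ 2 + 3 * R) ≤ m := (Nat.mul_le_mul_right _ hQ2).trans r5'
  have hms : m ≤ s := by
    obtain ⟨i, hi⟩ := card_pos.1 (show 0 < (univ.filter fun i => g i ≤ s).card by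
      have := hmed.1; omega)
    exact (md.le i).trans (mem_filter.1 hi).2
  have hI : 16 * (Nr g s (16 * e))ᶜ.card ≤ Fintype.card ι := by
    refine Nat.le_of_mul_le_mul_right (le_trans ?_ e1) he
    rw [mul_right_comm, mul_comm, ← smul_eq_mul, ← sum_const]
    refine (sum_le_sum fun i hi => ?_).trans (sum_le_sum_of_subset (subset_univ _))
    simp only [Nr, mem_compl, mem_filter, mem_univ, true_and] at hi
    unfold ds
    omega
  have hI' : 15 * Fintype.card ι ≤ 16 * (Nr g s (16 * e)).card := by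
    have := card_add_card_compl (Nr g s (16 * e))
    omega
  set C := Nr g s R with hC
  have hC1 : Fintype.card ι ≤ 2 * C.card := by
    have : (Nr g s (16 * e)).card ≤ C.card := card_le_card fun i hi =>
      mem_filter.2 ⟨mem_univ _, by have := (mem_filter.1 hi).2; omega⟩
    omega
  have hC0 : 0 < C.card := by omega
  have hcore : ∀ k, k ∈ C ↔ g k ≤ s + R ∧ s ≤ g k + R := fun k => by simp [hC, Nr]
  set γ : ι → ℕ := fun k => m + (e / Q + 1) * ((g k - m) / (e / Q + 1)) with hγ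
  have hw' : e / Q ≤ R := (Nat.div_le_self _ _).trans (by omega)
  have hγ1 : ∀ k, m ≤ γ k ∧ γ k ≤ g k ∧ g k ≤ γ k + e / Q := fun k => by
    have := md.le k
    have := Nat.div_add_mod (g k - m) (e / Q + 1)
    have := Nat.mod_lt (g k - m) (show 0 < e / Q + 1 from Nat.succ_pos _)
    simp only [hγ]
    omega
  have hJ' : (C.image γ).card ≤ J := by
    refine le_trans (card_le_card (t := (Icc ((s - R - m) / (e / Q + 1))
      ((s - R - m) / (e / Q + 1) + 2 * R / (e / Q + 1) + 1)).image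
        fun a => m + (e / Q + 1) * a) fun x hx => ?_) (card_image_le.trans ?_)
    · obtain ⟨k, hk, rfl⟩ := mem_image.1 hx
      have := (hcore k).1 hk
      refine mem_image.2 ⟨_, mem_Icc.2 ⟨Nat.div_le_div_right (by omega), ?_⟩, rfl⟩
      exact (Nat.div_le_div_right (show g k - m ≤ s - R - m + 2 * R by omega)).trans
        (Nat.add_div_le_div_add_div_add_one _ _ _)
    · rw [Nat.card_Icc]; omega
  obtain ⟨ref, hq⟩ := H42.ref ι g γ C m s R (e / Q) (card_pos.1 hC0) (by omega) (by omega) hms hw'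
    fun k hk => ⟨(hγ1 k).1, (hγ1 k).2.1, (hγ1 k).2.2, (hcore k).1 hk⟩
  have x1 : (0 : ℝ) < C.card := Nat.cast_pos.2 hC0
  have x2 : (0 : ℝ) < m := Nat.cast_pos.2 md.pos
  have x3 : (0 : ℝ) < s := Nat.cast_pos.2 (md.pos.trans_le hms)
  have x4 : (0 : ℝ) < Q := Nat.cast_pos.2 (by omega)
  have x5 : (0 : ℝ) < Fintype.card ι := Nat.cast_pos.2 hp
  have x6 : (0 : ℝ) < e := Nat.cast_pos.2 he
  have dv : ∀ {a b : ℝ}, (Q : ℝ) * a ≤ b → a ≤ 1 / Q * b := fun h => by
    rwa [one_div, le_inv_mul_iff₀ x4]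
  obtain ⟨ε, hε⟩ : ∃ ε : ℝ, ε = Cᶜ.card / C.card := ⟨_, rfl⟩
  have hε0 : 0 ≤ ε := by rw [hε]; positivity
  have hε1 : (Cᶜ.card : ℝ) = ε * C.card := by rw [hε]; field_simp
  have hε2 : ε * R ≤ 4 * (1 / Q) * e := by
    rw [mul_assoc, mul_left_comm]
    refine dv (le_of_mul_le_mul_left ?_ x1)
    have a1 : Q * (Cᶜ.card * R) ≤ C.card * (4 * e) := by
      linarith only [r2, e1, Nat.mul_le_mul_right e hC1]
    have a2 := (Nat.cast_le (α := ℝ)).2 a1
    push_cast at a2
    rw [hε1] at a2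
    linarith
  have hε3 : ε ≤ 1 / Q := by
    have a1 : 64 * (e : ℝ) ≤ R := by exact_mod_cast r1
    have a2 := mul_le_mul_of_nonneg_left a1 hε0
    have a3 : 0 ≤ 1 / (Q : ℝ) * e := by positivity
    exact le_of_mul_le_mul_right (by linarith) x6
  have hε4 : ε ≤ 1 / 64 := hε3.trans (one_div_le_one_div_of_le (by norm_num) (by exact_mod_cast hQ2))
  obtain ⟨Fr, r, qh, rare⟩ := H16.rare ι g Cᶜ m s R _ C.card _ ref x1 (by rw [hε1]; nlinarith)
    (fun i hi => ⟨md.le i, by have := mt (hcore i).2 (mem_compl.1 hi); omega⟩) (by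
      have a1 : ∑ i ∈ Cᶜ, ds g s m i ≤ C.card * R :=
        (sum_le_sum_of_subset (subset_univ _)).trans (by
          linarith only [e1, Nat.mul_le_mul_right e hC1, Nat.mul_le_mul_left C.card r1,
            Nat.zero_le (C.card * e)])
      unfold ds at a1
      exact_mod_cast a1)
  have y1 : 16 * (R : ℝ) ≤ m := by exact_mod_cast ref.Rm
  have y2 : 2 * (R : ℝ) / m ≤ 1 / 8 := by rw [div_le_iff₀ x2]; linarith
  have y3 : (m : ℝ) ≤ s := Nat.cast_le.2 hms
  obtain ⟨N, hN⟩ : ∃ N : ℝ, N = 3 * (F + m : ℕ) / s := ⟨_, rfl⟩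
  have hN0 : 0 ≤ N := by rw [hN]; positivity
  have hN1 : N * s = 3 * (F + m : ℕ) := by rw [hN]; field_simp
  have hN2 : ∀ z ∈ T, (dp C z : ℝ) + (C.image γ).card ≤ N := fun z hz => by
    have a1 : dp C z * s ≤ 2 * (F + m) := by
      refine le_trans ?_ (Nat.mul_le_mul_left 2 (md.top z hz))
      rw [dp, sum_mul, wt, mul_sum]
      refine (sum_le_sum fun i hi => ?_).trans (sum_le_sum_of_subset (subset_univ _))
      have := (hcore i).1 hi
      linarith only [Nat.mul_le_mul_left (z i) (show s ≤ 2 * g i by omega)]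
    have a2 : (dp C z + (C.image γ).card) * s ≤ 3 * (F + m) := by
      linarith only [a1, r7, Nat.mul_le_mul_right s hJ']
    refine le_of_mul_le_mul_right ?_ x3
    rw [hN1]
    exact_mod_cast a2
  have hN3 : N ≤ 1 / Q * Fintype.card ι := by
    refine dv (le_of_mul_le_mul_right ?_ x3)
    rw [mul_assoc, hN1, mul_left_comm]
    exact_mod_cast r8
  obtain ⟨h1, h2, err, -, hS, hcell⟩ := H16.cellS ι g γ C m s R t (2 * R / m + 8 * ε) N
    (card_pos.1 hC0) (by omega) (by omega) hms ht (by omega) (by positivity) (by linarith) hN0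
    fun k hk => ⟨(hγ1 k).1, (hγ1 k).2.1, by have := hγ1 k; omega, (hcore k).1 hk⟩
  have hL : (0 : ℝ) < (3 * R * t ^ 2 : ℕ) :=
    Nat.cast_pos.2 (Nat.mul_pos (by omega) (by positivity))
  have ce : Ce g T m (F + m) s R (3 * R * t ^ 2) C _ ε (2 * R / m + 8 * ε) N _ r qh Fr
      (bt m (3 * R * t ^ 2) (2 * R / m + 8 * ε)) (hh C γ) fun l => err ((l + (s - 2 * R)) % m) :=
    { hg := md.le, hM := md.top, ref := ref, rare := rare, core := hcore
      sumg := (div_mul_cancel₀ _ x1.ne').symm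
      pos := hC0, eps := hε1, eps1 := hε4, xi := le_rfl, xi1 := by linarith, hL := by omega
      b0 := fun x hx => if_pos hx
      b1 := fun x => by
        have a1 : 0 ≤ m * (1 - (2 * (R : ℝ) / m + 8 * ε)) := mul_nonneg x2.le (by linarith)
        unfold bt
        split_ifs
        · exact ⟨le_rfl, a1⟩
        refine ⟨mul_nonneg a1 (le_max_right _ _), mul_le_of_le_one_right a1
          (max_le (sub_le_self _ (div_nonneg (sub_nonneg.2 ?_) hL.le)) zero_le_one)⟩
        exact Nat.cast_le.2 (Nat.mod_lt _ md.pos).le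
      b2 := fun x v hv => by
        unfold bt
        rw [if_neg (by omega), if_neg (by omega), Nat.mod_add_mod]
      b3 := fun x hx => by
        unfold bt
        split_ifs
        · rfl
        rw [max_eq_right, mul_zero]
        rw [sub_nonpos, le_div_iff₀ hL, one_mul, le_sub_iff_add_le']
        exact_mod_cast hx
      h1 := h1, h2 := h2
      hN := fun z hz => le_trans (le_add_of_nonneg_right (Nat.cast_nonneg _)) (hN2 z hz)
      cell := fun z hz l hl => hcell z l hl (hN2 z hz) }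
  have hbal := ce.bal (R0 := 16 * e) md hw (Nat.cast_nonneg _) hq (by omega) hI' (by
      refine le_of_mul_le_mul_right ?_ x3
      have := mul_le_mul_of_nonneg_left (show (s : ℝ) ≤ 3 * ((∑ k ∈ C, (g k : ℝ)) / C.card) by
        linarith [ref.gb1, ref.gbm])
        (Nat.cast_nonneg (α := ℝ) (F + m))
      rw [mul_right_comm, hN1]
      linarith) (by
      have := mul_le_mul_of_nonneg_right
        (one_div_le_one_div_of_le (by norm_num) (show (64 : ℝ) ≤ Q by exact_mod_cast hQ2)) x5.le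
      linarith)
  have hIC : Nr g s (16 * e) ⊆ C := fun i hi => (hcore i).2 (by have := (mem_filter.1 hi).2; omega)
  have hgain := gain2_real (R := 16 * e) (R1 := R) (by omega) md.le md.down md.card md.inj md.top hp
    hpm hmed.1 hmed.2 (by omega) (by omega) hI' (by
      rw [mul_left_comm]; exact Nat.mul_le_mul (by norm_num) e2) (not_wilf hw).2 hc
    (by linarith only [r8, Nat.mul_le_mul_right (F + m) hQ1, Nat.zero_le (Q * (F + m))]) _
    (fun y _ => ce.gi _ hIC hI' y) fun y _ => ce.prot y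
  have hG0 := sum_nonneg fun y (_ : y ∈ T) => nonneg_of_mul_nonneg_right
    ((Nat.cast_nonneg _).trans (ce.prot y)) (by norm_num)
  rw [sum_shift md.pos] at hbal
  refine absurd hbal (not_le.2 (fin_arith (K := 2 ^ 87 * (c + 1) ^ 3) (δ := 1 / Q) (e := e) (t := t)
    (J := (C.image γ).card) (X := N * (∑ i, ds g s m i : ℕ) / Fintype.card ι) hG0 x2 x5
    (Nat.cast_le.2 hpm) hN0 ?_ (by positivity) ?_ (by exact_mod_cast ht) (Nat.cast_nonneg _) x6.le
    (dv ?_) hε2 ?_ ?_ (dv ?_) hε3 hN3 (dv ?_) ?_ ?_ ?_))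
  · exact_mod_cast (show 1 ≤ 2 ^ 87 * (c + 1) ^ 3 by omega)
  · rw [mul_one_div, div_le_one x4]; exact_mod_cast hQ
  · exact_mod_cast Nat.mul_div_le e Q
  · rw [mul_assoc]; exact dv (by exact_mod_cast r3)
  · rw [mul_assoc]; exact dv (by exact_mod_cast r4)
  · exact_mod_cast (Nat.mul_le_mul_left Q (Nat.mul_le_mul_left _ hJ')).trans r5
  · exact_mod_cast (Nat.mul_le_mul_left Q (show 3 * R * t ^ 2 + 2 * (16 * e) ≤ _ by omega)).trans r5'
  · exact_mod_cast hS
  · refine le_of_mul_le_mul_left ?_ x5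
    have a1 : (Fintype.card ι : ℝ) * e ≤ (∑ i, ds g s m i : ℕ) + Fintype.card ι := by
      exact_mod_cast e2
    rw [mul_add, mul_div_cancel₀ _ x5.ne']
    linarith [mul_le_mul_of_nonneg_left a1 hN0]
  · refine le_of_mul_le_mul_left ?_ (show (0 : ℝ) < Fintype.card ι * (s * s) by positivity)
    have a1 : (0 : ℝ) ≤ s * ((F + m : ℕ) * (∑ i, ds g s m i : ℕ)) := by positivity
    calc _ = s * (N * s) * (∑ i, ds g s m i : ℕ) + m * ((N * s) * (N * s)) := by field_simp
      _ ≤ _ := by rw [hN1]; linarith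

/-- Case II. -/
theorem caseII : IIStmt := by
  intro c
  obtain ⟨Q, hQ⟩ : ∃ Q, Q = 2 ^ 24 * (2 ^ 87 * (c + 1) ^ 3) := ⟨_, rfl⟩
  have hQ0 : 0 < Q := by rw [hQ]; positivity
  obtain ⟨A, hA⟩ : ∃ A, A = 64 * 2 ^ Q := ⟨_, rfl⟩
  have hA0 : 0 < A := by rw [hA]; positivity
  obtain ⟨t, ht⟩ : ∃ t, t = A * Q := ⟨_, rfl⟩
  have ht0 : 0 < t := by rw [ht]; positivity
  obtain ⟨k, hk⟩ : ∃ k, k = Q * ((3 * A * t ^ 2 + 3 * A) * (2 * t + 2)) := ⟨_, rfl⟩
  have hk1 : Q * (A * A) ≤ k ∧ 3 * Q ≤ k ∧ 2 * A ≤ k := by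
    have a1 : A ≤ t := ht ▸ Nat.le_mul_of_pos_right _ hQ0
    have a2 : A * A ≤ (3 * A * t ^ 2 + 3 * A) * (2 * t + 2) := Nat.mul_le_mul (by omega) (by omega)
    have a3 : 3 * 1 ≤ (3 * A * t ^ 2 + 3 * A) * (2 * t + 2) := Nat.mul_le_mul (by omega) (by omega)
    have a4 : 2 * A ≤ (3 * A * t ^ 2 + 3 * A) * (2 * t + 2) :=
      (mul_comm _ _).trans_le (Nat.mul_le_mul (by omega) (by omega))
    rw [hk]
    exact ⟨Nat.mul_le_mul_left _ a2, (mul_comm _ _).trans_le (Nat.mul_le_mul_left _ a3),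
      a4.trans (Nat.le_mul_of_pos_left _ hQ0)⟩
  refine ⟨2 * k, 2 * t + 2, 2 * k, fun ι _ _ g T m F s md hp hm hmed hc hD he hτ => ?_⟩
  have hp0 : 0 < Fintype.card ι := by omega
  have hpm : Fintype.card ι ≤ m := (Nat.le_self_pow (by norm_num) _).trans hm
  obtain ⟨e, he'⟩ : ∃ e, e = (∑ i, ds g s m i) / Fintype.card ι + 1 := ⟨_, rfl⟩
  have e1 : ∑ i, ds g s m i ≤ Fintype.card ι * e := he' ▸ (Nat.lt_mul_div_succ _ hp0).le
  have e2 : Fintype.card ι * e ≤ ∑ i, ds g s m i + Fintype.card ι := by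
    rw [he', mul_add, mul_one]
    exact Nat.add_le_add_right (Nat.mul_div_le _ _) _
  have e3 : k * e ≤ m := by
    refine Nat.le_of_mul_le_mul_left ?_ hp0
    linarith only [Nat.mul_le_mul_left k e2, he, Nat.mul_le_mul_left (Fintype.card ι) (hp.trans hpm)]
  have e4 : ∀ j ∈ range Q, 64 * e * 2 ^ j ≤ A * e := fun j hj => by
    rw [hA, mul_right_comm]
    exact Nat.mul_le_mul_right _ (Nat.mul_le_mul_left _
      (Nat.pow_le_pow_right (by norm_num) (mem_range.1 hj).le))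
  have e5 : 2 * A * e ≤ m := (Nat.mul_le_mul_right _ hk1.2.2).trans e3
  have e0 : 0 < e := he' ▸ Nat.succ_pos _
  have e6 : 0 < A * e := Nat.mul_pos hA0 e0
  rw [mul_assoc] at e5
  obtain ⟨j, hj, r2⟩ := exists_le_of_sum_le (s := range Q) ⟨0, mem_range.2 hQ0⟩
    (f := fun j => Q * ((Nr g s (64 * e * 2 ^ j))ᶜ.card * (64 * e * 2 ^ j)))
    (g := fun _ => 2 * ∑ i, ds g s m i) (by
      rw [← mul_sum, sum_const, card_range, smul_eq_mul]
      refine Nat.mul_le_mul_left _ ?_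
      rw [mul_sum]
      refine le_trans (sum_le_sum fun j hj => ?_) (sum_comm.trans_le
        (sum_le_sum fun i _ => (geo (64 * e) (ds g s m i) Q).2))
      rw [← sum_filter, sum_const, smul_eq_mul]
      refine Nat.mul_le_mul_right _ (card_le_card fun i hi => mem_filter.2 ⟨mem_univ _, ?_⟩)
      have := e4 j hj
      simp only [Nr, mem_compl, mem_filter, mem_univ, true_and] at hi
      unfold ds
      omega)
  have r0 := e4 j hj
  have r1 : 64 * e ≤ 64 * e * 2 ^ j := Nat.le_mul_of_pos_right _ (by positivity)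
  generalize 64 * e * 2 ^ j = R at *
  refine scales md hmed hp0 hpm hc hQ.ge e0 e1 e2 r1 r2 (t := t) ?_ ?_ ?_ ?_ hD ?_
  · rw [ht]; linarith only [Nat.mul_le_mul_left Q r0]
  · linarith only [Nat.mul_le_mul_left Q (Nat.mul_le_mul r0 r0),
      Nat.mul_le_mul_right (e * e) hk1.1, Nat.mul_le_mul_left e e3]
  · refine le_trans ?_ e3
    calc _ ≤ Q * ((3 * (A * e) * t ^ 2 + 3 * (A * e)) * (2 * t + 2)) := by gcongr
      _ = _ := by rw [hk]; ring
  · refine Nat.add_le_add_right (Nat.div_le_of_le_mul ?_) _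
    rw [ht]
    linarith only [r0, Nat.mul_le_mul_left A (Nat.lt_mul_div_succ e hQ0).le]
  · linarith only [hτ, Nat.mul_le_mul_right (F + m) hk1.2.1, Nat.zero_le (k * (F + m))]

end Pool.Agent.MP_96f5a9_co.H80

end MrgPart4

-- ======== part 5: formerly Pool.Agent.MP_96f5a9_co.gw.One
section MrgPart5

/-! The goal in dimension one. -/

set_option autoImplicit false

namespace Pool.Agent.MP_96f5a9_co.GW

namespace One

/-- a number as a point of the line -/
def up : ℕ →+ (Fin 1 → ℕ) where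
  toFun n := fun _ => n
  map_zero' := rfl
  map_add' _ _ := rfl

theorem up_inj : Function.Injective up := fun _ _ h => congrFun h 0

theorem up_sur (x : Fin 1 → ℕ) : up (x 0) = x := funext fun i => by
  rw [Subsingleton.elim i 0]; rfl

theorem all_up {p : (Fin 1 → ℕ) → Prop} : (∀ x, p x) ↔ ∀ n, p (up n) :=
  ⟨fun h _ => h _, fun h x => up_sur x ▸ h (x 0)⟩

theorem ex_up {p : (Fin 1 → ℕ) → Prop} : (∃ x, p x) ↔ ∃ n, p (up n) :=
  ⟨fun ⟨x, h⟩ => ⟨x 0, (up_sur x).symm ▸ h⟩, fun ⟨_, h⟩ => ⟨_, h⟩⟩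

theorem up_le {a b : ℕ} : up a ≤ up b ↔ a ≤ b := ⟨fun h => h 0, fun h _ => h⟩

theorem up_zero {a : ℕ} : up a = 0 ↔ a = 0 := map_eq_zero_iff up up_inj

theorem card_up (p : (Fin 1 → ℕ) → Prop) : Set.ncard {x | p x} = Set.ncard {n | p (up n)} := by
  rw [← Set.ncard_image_of_injective _ up_inj]
  refine congrArg _ (Set.ext fun x => ⟨fun h => ⟨x 0, ?_, up_sur x⟩, ?_⟩)
  · rw [Set.mem_ofPred_eq, up_sur]
    exact h
  · rintro ⟨n, h, rfl⟩
    exact h

theorem bound : ∃ C : ℕ, ∀ (S : AddSubmonoid ℕ) (F : ℕ), F ∉ S → (∀ h, h ∉ S → h ≤ F) →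
    (C ≤ Set.ncard {x : ℕ | x ∈ S ∧ x ≠ 0 ∧ ∀ a ∈ S, ∀ b ∈ S, a + b = x → a = 0 ∨ b = 0} ∨
      C ≤ F) →
    F + 1 ≤ Set.ncard {x : ℕ | x ∈ S ∧ x ≠ 0 ∧ ∀ a ∈ S, ∀ b ∈ S, a + b = x → a = 0 ∨ b = 0} *
      Set.ncard {x : ℕ | x ∈ S ∧ ∃ h : ℕ, h ∉ S ∧ x ≤ h} := by
  obtain ⟨B, hB⟩ := ((WA.all_finite (WA.all (H59.main H59.core (H59.dom H59.exch) H59.dead)
    (WA.caseH WA.zero) (WA.caseIII WA.zero) H36.caseI H80.caseII)).image fun S : AddSubmonoid ℕ =>
    Set.ncard {x : ℕ | x ∈ S ∧ x ≠ 0 ∧ ∀ a ∈ S, ∀ b ∈ S, a + b = x → a = 0 ∨ b = 0} +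
      sSup {h : ℕ | h ∉ S}).bddAbove
  refine ⟨B + 1, fun S F h1 h2 h3 => not_lt.1 fun h4 => ?_⟩
  have h5 := hB ⟨S, ⟨F, _, _, h1, h2, rfl, rfl, h4⟩, rfl⟩
  have h6 : sSup {h : ℕ | h ∉ S} = F := IsGreatest.csSup_eq ⟨h1, h2⟩
  simp only [h6] at h5
  omega

end One

open GW.One in
theorem one : Goal 1 := by
  obtain ⟨C, hC⟩ := bound
  refine ⟨C, fun S f h1 h2 h3 => ?_⟩
  have e1 : eS S = Set.ncard {x : ℕ | x ∈ S.comap up ∧ x ≠ 0 ∧ ∀ a ∈ S.comap up,
      ∀ b ∈ S.comap up, a + b = x → a = 0 ∨ b = 0} := by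
    rw [eS, card_up]
    simp only [all_up, AddSubmonoid.mem_comap, ← map_add, up_inj.eq_iff, up_zero, ne_eq]
  have e2 : nS S = Set.ncard {x : ℕ | x ∈ S.comap up ∧ ∃ h : ℕ, h ∉ S.comap up ∧ x ≤ h} := by
    rw [nS, card_up]
    simp only [ex_up, AddSubmonoid.mem_comap, up_le]
  have := hC (S.comap up) (f 0) (by rwa [AddSubmonoid.mem_comap, up_sur])
    (fun h hh => h2 (up h) hh 0) (by rw [← e1]; exact h3.imp id fun h => h 0)
  rw [e1, e2]
  simpa using this

end Pool.Agent.MP_96f5a9_co.GW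

end MrgPart5

-- marker of a merged file
example : 731051 + 579326 = 731051 + 579326 := rfl
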