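import Mathlib
import Pool.Agent.MP_96f5a9_co.gw.Spec

-- ======== part 0: formerly Pool.Agent.MP_96f5a9_co.gw.End
section MrgPart0

/-! The final count in the near tiling regime. -/

set_option autoImplicit false

namespace Pool.Agent.MP_96f5a9_co.GW

open Finset

namespace End

variable {d : ℕ} (X : Ctx d)

theorem p_split : X.M.p = X.A0.card + X.Kab.card + X.Em.card := by
  have h1 := cnt_add_not X.M.G X.In
  have h2 := cnt_add_not (flt X.M.G fun g => ¬ X.In g) (fun g => g ∈ X.Kab)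
  have e1 : flt (flt X.M.G fun g => ¬ X.In g) (fun g => g ∈ X.Kab) = X.Kab := by
    ext g
    constructor
    · intro hg; exact (mem_flt.1 hg).2
    · intro hg
      exact mem_flt.2 ⟨mem_flt.2 ⟨(mem_flt.1 hg).1, (mem_flt.1 hg).2.1⟩, hg⟩
  have e2 : flt (flt X.M.G fun g => ¬ X.In g) (fun g => ¬ g ∈ X.Kab) = X.Em := by
    ext g
    constructor
    · intro hg
      have := mem_flt.1 (mem_flt.1 hg).1
      exact mem_flt.2 ⟨this.1, this.2, (mem_flt.1 hg).2⟩
    · intro hg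
      have := mem_flt.1 hg
      exact mem_flt.2 ⟨mem_flt.2 ⟨this.1, this.2.1⟩, this.2.2⟩
  rw [cnt_eq, cnt_eq, e1, e2] at h2
  rw [cnt_eq, cnt_eq] at h1
  unfold Md.p Ctx.A0
  linarith

theorem n_split : X.M.n = X.N0.card + X.N1.card :=
  (cnt_add_not X.M.N fun x => x ∈ X.M0).symm

theorem cover_one (hL : X.Low) (h3 : ClsStmt) (k : Fin d) :
    X.M.vol ≤ cnt X.M.B (X.OK k) + cnt X.M.B (X.Zero k) + cnt X.M.B X.Arm +
      (if k ∈ X.T.I then cnt X.M.B (X.VD k) else 0) +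
      ∑ j ∈ X.T.Iᶜ, cnt X.M.B (X.WU2 j k) := by
  have h := (h3 d X hL).1 k
  have a0 : X.M.vol ≤ cnt X.M.B (fun _ => True) := by
    rw [← X.M.card_B]; exact card_le_cnt fun x hx => ⟨hx, trivial⟩
  have a1 := cnt_le_add (A := X.M.B) (P := fun _ => True) (Q := X.OK k)
    (R := fun b => X.Zero k b ∨ X.Arm b ∨ (k ∈ X.T.I ∧ X.VD k b) ∨ ∃ j, j ∉ X.T.I ∧ X.WU2 j k b)
    fun b hb _ => h b hb
  have a2 := cnt_le_add (A := X.M.B)
    (P := fun b => X.Zero k b ∨ X.Arm b ∨ (k ∈ X.T.I ∧ X.VD k b) ∨ ∃ j, j ∉ X.T.I ∧ X.WU2 j k b)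
    (Q := X.Zero k)
    (R := fun b => X.Arm b ∨ (k ∈ X.T.I ∧ X.VD k b) ∨ ∃ j, j ∉ X.T.I ∧ X.WU2 j k b)
    fun _ _ hb => hb
  have a3 := cnt_le_add (A := X.M.B)
    (P := fun b => X.Arm b ∨ (k ∈ X.T.I ∧ X.VD k b) ∨ ∃ j, j ∉ X.T.I ∧ X.WU2 j k b)
    (Q := X.Arm)
    (R := fun b => (k ∈ X.T.I ∧ X.VD k b) ∨ ∃ j, j ∉ X.T.I ∧ X.WU2 j k b) fun _ _ hb => hb
  have a4 := cnt_le_add (A := X.M.B)
    (P := fun b => (k ∈ X.T.I ∧ X.VD k b) ∨ ∃ j, j ∉ X.T.I ∧ X.WU2 j k b)
    (Q := fun b => k ∈ X.T.I ∧ X.VD k b)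
    (R := fun b => ∃ j, j ∉ X.T.I ∧ X.WU2 j k b) fun _ _ hb => hb
  have a5 : cnt X.M.B (fun b => ∃ j, j ∉ X.T.I ∧ X.WU2 j k b) ≤
      ∑ j ∈ X.T.Iᶜ, cnt X.M.B (X.WU2 j k) :=
    cnt_le_sum _ (fun j => X.WU2 j k) fun b _ ⟨j, hj, hw⟩ => ⟨j, Finset.mem_compl.2 hj, hw⟩
  have a6 : cnt X.M.B (fun b => k ∈ X.T.I ∧ X.VD k b) ≤
      (if k ∈ X.T.I then cnt X.M.B (X.VD k) else 0) := by
    split_ifs with hk
    · exact cnt_mono fun b hb h => ⟨hb, h.2⟩
    · exact (cnt_eq_zero fun b _ h => hk h.1).le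
  linarith

theorem cover (hL : X.Low) (h3 : ClsStmt) (W : ℝ) (hW0 : 0 ≤ W)
    (hW : ∀ j, j ∉ X.T.I → ∀ k, cnt X.M.B (X.WU2 j k) ≤ W) :
    d * X.M.vol ≤ (X.Em.card : ℝ) * X.N0.card - X.Sur + ∑ k, cnt X.M.B (X.Zero k) +
      d * cnt X.M.B X.Arm + ∑ k ∈ X.T.I, cnt X.M.B (X.VD k) + d ^ 2 * W := by
  have h := Finset.sum_le_sum fun k (_ : k ∈ (univ : Finset (Fin d))) => cover_one X hL h3 k
  simp only [Finset.sum_add_distrib, Finset.sum_const, Finset.card_univ, Fintype.card_fin,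
    nsmul_eq_mul, Finset.sum_ite_mem, Finset.univ_inter] at h
  have h2 := (h3 d X hL).2
  have h4 : ∑ k, ∑ j ∈ X.T.Iᶜ, cnt X.M.B (X.WU2 j k) ≤ d ^ 2 * W := by
    calc _ ≤ ∑ _k : Fin d, (d : ℝ) * W := Finset.sum_le_sum fun k _ => by
          calc _ ≤ ∑ _j ∈ X.T.Iᶜ, W :=
                Finset.sum_le_sum fun j hj => hW j (Finset.mem_compl.1 hj) k
            _ = (X.T.Iᶜ.card : ℝ) * W := by simp
            _ ≤ d * W := by
                refine mul_le_mul_of_nonneg_right ?_ hW0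
                have := Finset.card_le_univ X.T.Iᶜ
                rw [Fintype.card_fin] at this
                exact_mod_cast this
      _ = d ^ 2 * W := by simp; ring
  linarith

theorem C2_nonneg : 0 ≤ X.P.C2 := by
  have := X.P.ga_pos
  have := X.P.et_pos
  exact le_trans (by positivity) X.P.C2_ge

/-- the gap between the light generators and the labels -/
theorem gap (d p ga et C3 e : ℝ) (hd : 2 ≤ d) (hp : 0 ≤ p) (hga : 0 < ga) (hga' : 10 * d * ga ≤ 1)
    (het : 0 < et) (het' : 300 * d ^ 2 * et ≤ 1) (hC : 0 ≤ C3)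
    (he : (1 - 2 * d * et) * p - d * C3 ≤ e) :
    p / 10 - 3 * d * C3 ≤
      e - (1 + ga) * (p / d + 2 * d * et * p + d * C3) - d ^ 2 * (2 * (13 * et * p)) := by
  have h1 : ga ≤ 1 / 20 := by nlinarith
  have h2 : p / d ≤ p / 2 := div_le_div_of_nonneg_left hp (by norm_num) hd
  have h3 : d ^ 2 * et * p ≤ p / 300 := by
    have : d ^ 2 * et ≤ 1 / 300 := by linarith
    nlinarith
  have h4 : d * et * p ≤ p / 600 := by
    have : 2 * (d * et * p) ≤ d ^ 2 * et * p := by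
      have : 0 ≤ d * et * p := by positivity
      nlinarith
    linarith
  have h5 : 0 ≤ p / d + 2 * d * et * p + d * C3 := by positivity
  have h6 : (1 + ga) * (p / d + 2 * d * et * p + d * C3) ≤
      (21 / 20) * (p / d + 2 * d * et * p + d * C3) :=
    mul_le_mul_of_nonneg_right (by linarith) h5
  have h7 : 0 ≤ d * C3 := by positivity
  nlinarith

/-- the main inequality -/
theorem key (h1 : LowStmt) (h2 : ElowStmt) (h3 : ClsStmt) (h6 : ArmStmt) (h8 : DStmt)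
    (h9 : UStmt) (Φ : ℝ) (hΦ : 0 ≤ Φ) (hF : X.Fail Φ) :
    ((X.A0.card : ℝ) + X.Kab.card) * X.M.n + (X.M.p / 10 - 3 * d * X.P.C3) * X.N1.card +
      X.Sur / 2 < ∑ k, cnt X.M.B (X.Zero k) +
        (2 * d * X.P.C2 + 2 * d ^ 2 / X.P.et ^ d) * Φ := by
  obtain ⟨hL, hC, _, hZ, _, _⟩ := h1 d X
  obtain ⟨hE, hEm⟩ := h2 d X hC hZ
  have het := X.P.et_pos
  have hp := X.M.p_nonneg
  have hd : (2 : ℝ) ≤ d := by exact_mod_cast X.P.d2
  have hn1 : (0 : ℝ) ≤ X.N1.card := Nat.cast_nonneg _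
  have hc := cover X hL h3 (2 * (13 * X.P.et * X.M.p * X.N1.card + Φ / X.P.et ^ d))
    (by positivity) (h9 d X Φ hL hC hF hΦ)
  have hD := h8 d X Φ _ hL hC hF hΦ hE
  have hA := (h6 d X).1
  have hctr : X.M.p * X.M.n < d * X.M.vol := X.F.ctr
  have hg := gap d X.M.p X.P.ga X.P.et X.P.C3 X.Em.card hd hp X.P.ga_pos X.P.ga_le het
    X.P.et_le2 (by linarith [X.P.C3_one]) hEm
  have hg' := mul_le_mul_of_nonneg_right hg hn1
  have hC2 := C2_nonneg X
  have hga : X.P.ga ≤ 1 := by nlinarith [X.P.ga_le, X.P.ga_pos]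
  have h10 : (1 + X.P.ga) * (d * X.P.C2 * Φ) ≤ 2 * (d * X.P.C2 * Φ) :=
    mul_le_mul_of_nonneg_right (by linarith) (by positivity)
  have hpn : X.M.p * X.M.n = ((X.A0.card : ℝ) + X.Kab.card) * X.M.n +
      (X.Em.card : ℝ) * X.N0.card + (X.Em.card : ℝ) * X.N1.card := by
    have e1 := p_split X
    have e2 := n_split X
    calc X.M.p * X.M.n = ((X.A0.card : ℝ) + X.Kab.card) * X.M.n + X.Em.card * X.M.n := by
          rw [e1]; ring
      _ = _ := by rw [add_assoc, ← mul_add, ← e2]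
  have e3 : (2 * d * X.P.C2 + 2 * d ^ 2 / X.P.et ^ d) * Φ =
      2 * (d * X.P.C2 * Φ) + d ^ 2 * (2 * (Φ / X.P.et ^ d)) := by ring
  rw [e3]
  nlinarith

end End

theorem fin (h1 : LowStmt) (h2 : ElowStmt) (h3 : ClsStmt) (h4 : ZuStmt) (h5 : ZeroStmt)
    (h6 : ArmStmt) (h7 : DomStmt) (h8 : DStmt) (h9 : UStmt) : EndStmt := by
  intro d X
  obtain ⟨hL, hC, hZ0, hZ, hF1, hF2⟩ := h1 d X
  have het := X.P.et_pos
  have hd : (2 : ℝ) ≤ d := by exact_mod_cast X.P.d2
  have hn1 : (0 : ℝ) ≤ X.N1.card := Nat.cast_nonneg _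
  have hn := X.M.n_pos
  have hC2 := End.C2_nonneg X
  have hC3 : 0 ≤ X.P.C3 := by linarith [X.P.C3_one]
  have hS : 0 ≤ X.Sur := cnt_nonneg _ _
  set Λ := 2 * d * X.P.C2 + 2 * d ^ 2 / X.P.et ^ d with hΛ
  have hΛ0 : 0 ≤ Λ := by positivity
  set L := (1 / X.P.et + 2) ^ X.P.C0 with hLdef
  have hL0 : 0 ≤ L := by positivity
  by_contra hcon
  push Not at hcon
  by_cases hc : X.P.C0 ≤ X.A0.card + X.Kab.card
  · have hk := End.key X h1 h2 h3 h6 h8 h9 _ (by positivity) hF1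
    have hz : ∑ k, cnt X.M.B (X.Zero k) ≤ d * (X.P.C3 * X.M.n) := by
      calc _ ≤ ∑ _k : Fin d, X.P.C3 * X.M.n := Finset.sum_le_sum fun k _ => hZ k
        _ = _ := by simp
    have hc' : (X.P.C0 : ℝ) ≤ X.A0.card + X.Kab.card := by exact_mod_cast hc
    have h0 := X.P.C0_ge
    rw [← hΛ] at h0 hk
    have h11 : (d + Λ) * X.P.C3 * X.M.n ≤ ((X.A0.card : ℝ) + X.Kab.card) * X.M.n :=
      mul_le_mul_of_nonneg_right (h0.trans hc') hn.le
    have h12 : 0 ≤ (X.M.p / 10 - 3 * d * X.P.C3) * X.N1.card :=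
      mul_nonneg (by nlinarith [mul_nonneg hΛ0 hL0]) hn1
    nlinarith
  · push Not at hc
    have hA : X.A0.card ≤ X.P.C0 := by omega
    have hK : X.Kab.card ≤ X.P.C0 := by omega
    have hk := End.key X h1 h2 h3 h6 h8 h9 _ (by positivity) (hF2 hA)
    rw [← hΛ] at hk
    have h12 : 0 ≤ (X.M.p / 10 - 3 * d * X.P.C3 - Λ * L) * X.N1.card :=
      mul_nonneg (by linarith) hn1
    have hsum : ∀ u : ℝ, (∀ k ∈ X.T.I, cnt X.M.B (X.Zero k) ≤ u) →
        ∑ k, cnt X.M.B (X.Zero k) ≤ X.T.I.card * u := by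
      intro u hu
      rw [← Finset.sum_subset (Finset.subset_univ X.T.I)
        fun k _ hk => cnt_eq_zero (hZ0 k hk)]
      calc _ ≤ ∑ _k ∈ X.T.I, u := Finset.sum_le_sum hu
        _ = _ := by simp
    have hz := hsum _ (h5 d X (h4 d X hL hK) hA)
    have hI : (X.T.I.card : ℝ) ≤ d := by
      have := Finset.card_le_univ X.T.I
      rw [Fintype.card_fin] at this
      exact_mod_cast this
    have hga : X.T.I.card * X.P.ga * X.M.n ≤ X.M.n / 10 := by
      have h13 : X.T.I.card * X.P.ga ≤ 1 / 10 := by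
        nlinarith [X.P.ga_le, X.P.ga_pos]
      nlinarith
    obtain ⟨hD1, hD2⟩ := h7 d X
    have hD1' : (X.T.I.card : ℝ) ≤ X.A0.card + X.Kab.card := by
      exact_mod_cast hD1.trans (Nat.le_add_right _ _)
    have h14 := mul_le_mul_of_nonneg_right hD1' hn.le
    by_cases hc2 : X.A0.card + X.Kab.card ≤ X.T.I.card
    · rcases hD2 hc2 with ⟨l, hl, hf⟩ | hz2
      · have := (h6 d X).2 l hl hf
        nlinarith
      · have := hsum _ hz2
        nlinarith
    · have h15 : (X.T.I.card : ℝ) + 1 ≤ X.A0.card + X.Kab.card := by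
        exact_mod_cast (show X.T.I.card + 1 ≤ X.A0.card + X.Kab.card by omega)
      have h16 := mul_le_mul_of_nonneg_right h15 hn.le
      nlinarith

end Pool.Agent.MP_96f5a9_co.GW

end MrgPart0

-- ======== part 1: formerly Pool.Agent.MP_96f5a9_co.gw.Fb
section MrgPart1

/-! Averaging over the position of the face: the row `FbStmt`. -/

set_option autoImplicit false

namespace Pool.Agent.MP_96f5a9_co.GW

open Finset

namespace Fb

variable {d : ℕ} {M : Md d} {Q : ℝ}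

theorem mem_R (A : Ax M Q) {r : V d} : r ∈ A.R ↔ ∀ l, 0 ≤ r l ∧ r l < A.m l := by
  simp [Ax.R, Fintype.mem_piFinset]

/-- the long thin box in direction `i` -/
noncomputable def box (A : Ax M Q) (i : Fin d) : Finset (V d) :=
  Fintype.piFinset fun l =>
    Finset.Ico (0 : ℤ) (if l = i then (M.c i : ℤ) + 2 * A.m i else A.m l)

theorem mem_box (A : Ax M Q) {i : Fin d} {x : V d} : x ∈ box A i ↔
    (∀ l, 0 ≤ x l) ∧ x i < M.c i + 2 * A.m i ∧ ∀ l, l ≠ i → x l < A.m l := by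
  simp only [box, Fintype.mem_piFinset, Finset.mem_Ico]
  constructor
  · intro h
    refine ⟨fun l => (h l).1, by simpa using (h i).2, fun l hl => ?_⟩
    simpa [hl] using (h l).2
  · rintro ⟨h0, h1, h2⟩ l
    refine ⟨h0 l, ?_⟩
    by_cases hl : l = i
    · subst hl; simpa using h1
    · simpa [hl] using h2 l hl

theorem slab (A : Ax M Q) (i : Fin d) (a : ℤ) :
    cnt (box A i) (fun x => a ≤ x i ∧ x i < a + A.m i) ≤ A.R.card := by
  refine cnt_le_inj (fun x => Function.update x i (x i - a)) (fun x hx hp => ?_)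
    (fun x _ _ y _ _ hxy => ?_)
  · obtain ⟨h0, _, h2⟩ := (mem_box A).1 hx
    refine (mem_R A).2 fun l => ?_
    by_cases hl : l = i
    · subst hl; simp only [Function.update_self]; omega
    · simp only [Function.update_of_ne hl]; exact ⟨h0 l, h2 l hl⟩
  · funext l
    have := congrFun hxy l
    by_cases hl : l = i
    · subst hl; simp only [Function.update_self] at this; omega
    · simpa only [Function.update_of_ne hl] using this

theorem m_le_c (A : Ax M Q) (hQ : 1 ≤ Q) (l : Fin d) : (A.m l : ℤ) ≤ M.c l := by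
  have h1 := A.mQ l
  have h2 : (0 : ℝ) ≤ A.m l := Nat.cast_nonneg _
  have h3 : (A.m l : ℝ) ≤ M.c l := by nlinarith
  exact_mod_cast h3

theorem tube (A : Ax M Q) (hQ : 1 ≤ Q) (i : Fin d) :
    cnt (box A i) (fun x => x ∈ M.S) ≤ ∑ r ∈ A.R, A.dep i r + 2 * A.R.card := by
  have hm : (0 : ℤ) < A.m i := by exact_mod_cast A.mpos i
  have h1 : cnt (box A i) (fun x => x ∈ M.S) ≤
      cnt (box A i) (fun x => x ∈ M.S ∧ x i < M.c i) +
        cnt (box A i) (fun x => (M.c i : ℤ) ≤ x i) :=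
    cnt_le_add fun x _ hp => by
      by_cases h : x i < M.c i
      · exact Or.inl ⟨hp, h⟩
      · exact Or.inr (not_lt.1 h)
  have h2 : cnt (box A i) (fun x => (M.c i : ℤ) ≤ x i) ≤
      cnt (box A i) (fun x => (M.c i : ℤ) ≤ x i ∧ x i < M.c i + A.m i) +
        cnt (box A i) (fun x => (M.c i : ℤ) + A.m i ≤ x i ∧ x i < M.c i + A.m i + A.m i) :=
    cnt_le_add fun x hx hp => by
      have := ((mem_box A).1 hx).2.1
      by_cases h : x i < M.c i + A.m i
      · exact Or.inl ⟨hp, h⟩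
      · exact Or.inr ⟨not_lt.1 h, by omega⟩
  have h3 : cnt (box A i) (fun x => x ∈ M.S ∧ x i < M.c i) ≤
      ∑ r ∈ A.R, cnt (box A i) (fun x => x ∈ M.N ∧ (A.m i : ℤ) ∣ x i - r i ∧
        ∀ l, l ≠ i → x l = r l) := by
    refine cnt_le_sum A.R _ fun x hx hp => ?_
    obtain ⟨h0, _, hx2⟩ := (mem_box A).1 hx
    refine ⟨Function.update x i (x i % A.m i), (mem_R A).2 fun l => ?_,
      M.mem_N.2 ⟨M.mem_B.2 fun l => ⟨h0 l, ?_⟩, hp.1⟩, ?_, fun l hl => ?_⟩
    · by_cases hl : l = i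
      · subst hl; simp only [Function.update_self]
        exact ⟨Int.emod_nonneg _ hm.ne', Int.emod_lt_of_pos _ hm⟩
      · simp only [Function.update_of_ne hl]; exact ⟨h0 l, hx2 l hl⟩
    · by_cases hl : l = i
      · subst hl; exact hp.2
      · exact (hx2 l hl).trans_le (m_le_c A hQ l)
    · simp only [Function.update_self]
      exact Int.dvd_self_sub_emod
    · simp only [Function.update_of_ne hl]
  have h4 : ∑ r ∈ A.R, cnt (box A i) (fun x => x ∈ M.N ∧ (A.m i : ℤ) ∣ x i - r i ∧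
        ∀ l, l ≠ i → x l = r l) ≤ ∑ r ∈ A.R, A.dep i r :=
    Finset.sum_le_sum fun r _ => cnt_mono fun x _ hp => hp
  have h5 := slab A i (M.c i)
  have h6 := slab A i (M.c i + A.m i)
  linarith

/-- removing copies of one generator from a factorization -/
theorem sub_mem {z g : V d} {t : V d → ℕ} (hz : z = ∑ x ∈ M.G, t x • x) (hg : g ∈ M.G)
    {l : ℕ} (hl : l ≤ t g) : z - l • g ∈ M.S := by
  classical
  obtain ⟨k, hk⟩ := Nat.exists_eq_add_of_le hl
  have e : z - l • g = k • g + ∑ x ∈ M.G.erase g, t x • x := by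
    rw [hz, ← Finset.add_sum_erase _ _ hg, hk, add_nsmul]; abel
  rw [e]
  exact M.S.add_mem (M.S.nsmul_mem (M.G_mem hg) _) (M.S.sum_mem fun x hx =>
    M.S.nsmul_mem (M.G_mem (mem_of_mem_erase hx)) _)

theorem single_mem (A : Ax M Q) (i : Fin d) {w : ℤ} (h0 : 0 ≤ w) (hd : (A.m i : ℤ) ∣ w) :
    (Pi.single i w : V d) ∈ M.S := by
  have hm : (0 : ℤ) < A.m i := by exact_mod_cast A.mpos i
  obtain ⟨k, rfl⟩ := hd
  have hk : 0 ≤ k := by
    by_contra hc
    have : (A.m i : ℤ) * k < 0 := mul_neg_of_pos_of_neg hm (not_le.1 hc)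
    omega
  obtain ⟨n, rfl⟩ := Int.eq_ofNat_of_zero_le hk
  have e : (Pi.single i ((A.m i : ℤ) * n) : V d) = n • (Pi.single i (A.m i : ℤ) : V d) := by
    funext l
    by_cases hl : l = i
    · subst hl; simp [mul_comm]
    · simp [hl]
  rw [e]
  exact M.S.nsmul_mem (M.G_mem (A.mG i)) _

/-- the count for one generator -/
theorem one (A : Ax M Q) (i : Fin d) (t : V d → V d → ℕ)
    (ht : ∀ r ∈ A.R, r + Pi.single i ((M.c i : ℤ) + A.m i) = ∑ x ∈ M.G, t r x • x)
    {g : V d} (hg : g ∈ M.G) (hgi : 0 < g i) :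
    ∑ r ∈ A.R, (t r g : ℝ) * g i ≤ A.m i * cnt (box A i) (fun x => x ∈ M.S) := by
  classical
  have hm : (0 : ℤ) < A.m i := by exact_mod_cast A.mpos i
  have hg0 := M.nonneg g (M.G_mem hg)
  let D : Finset (Σ _ : V d, ℕ × ℤ) :=
    A.R.sigma fun r => Finset.range (t r g) ×ˢ Finset.Ico (0 : ℤ) (g i)
  let f : (Σ _ : V d, ℕ × ℤ) → ℤ × V d := fun u =>
    ((u.1 i - u.2.2) % A.m i,
      u.1 + Pi.single i ((M.c i : ℤ) + A.m i) - (u.2.1 + 1) • g +
        Pi.single i (u.2.2 + (u.1 i - u.2.2) % A.m i - u.1 i))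
  have hD : ∀ u ∈ D, u.1 ∈ A.R ∧ u.2.1 < t u.1 g ∧ 0 ≤ u.2.2 ∧ u.2.2 < g i := fun u hu => by
    simpa [D, Finset.mem_sigma, and_assoc] using hu
  have hfi : ∀ u, (f u).2 i =
      M.c i + A.m i - (u.2.1 + 1) * g i + u.2.2 + (f u).1 := fun u => by
    simp only [f, Pi.add_apply, Pi.sub_apply, Pi.single_eq_same, Pi.smul_apply]
    rw [nsmul_eq_mul]
    push_cast; ring
  have hfl : ∀ u l, l ≠ i → (f u).2 l = u.1 l - (u.2.1 + 1) * g l := fun u l hl => by
    simp only [f, Pi.add_apply, Pi.sub_apply, Pi.single_eq_of_ne hl, Pi.smul_apply]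
    rw [nsmul_eq_mul]
    push_cast; ring
  have hs : ∀ u, 0 ≤ (f u).1 ∧ (f u).1 < A.m i ∧ (A.m i : ℤ) ∣ u.2.2 + (f u).1 - u.1 i :=
    fun u => by
      refine ⟨Int.emod_nonneg _ hm.ne', Int.emod_lt_of_pos _ hm, ?_⟩
      have : (A.m i : ℤ) ∣ (u.1 i - u.2.2) - (u.1 i - u.2.2) % A.m i := Int.dvd_self_sub_emod
      have h2 := dvd_neg.2 this
      have e : u.2.2 + (f u).1 - u.1 i = -((u.1 i - u.2.2) - (u.1 i - u.2.2) % A.m i) := by
        simp only [f]; ring
      rw [e]; exact h2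
  have hcard : D.card ≤ (Finset.Ico (0 : ℤ) (A.m i) ×ˢ flt (box A i) fun x => x ∈ M.S).card := by
    refine Finset.card_le_card_of_injOn f (fun u hu => ?_) (fun u hu v hv huv => ?_)
    · obtain ⟨h1, h2, h3, h4⟩ := hD u hu
      obtain ⟨s0, s1, s2⟩ := hs u
      have hr := (mem_R A).1 h1
      have hw : 0 ≤ u.2.2 + (f u).1 - u.1 i := by
        by_contra hc
        have h5 : (A.m i : ℤ) ∣ u.2.2 + (f u).1 - u.1 i + A.m i := dvd_add s2 dvd_rfl
        have h6 := Int.le_of_dvd (by have := (hr i).2; omega) h5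
        omega
      have hS : (f u).2 ∈ M.S :=
        M.S.add_mem (sub_mem (ht u.1 h1) hg (Nat.succ_le_of_lt h2)) (single_mem A i hw s2)
      refine Finset.mem_coe.2 (Finset.mem_product.2 ⟨Finset.mem_Ico.2 ⟨s0, s1⟩,
        mem_flt.2 ⟨(mem_box A).2 ⟨M.nonneg _ hS, ?_, fun l hl => ?_⟩, hS⟩⟩)
      · rw [hfi]
        have : 0 ≤ (u.2.1 : ℤ) * g i := mul_nonneg (Nat.cast_nonneg _) hgi.le
        nlinarith
      · rw [hfl u l hl]
        have : 0 ≤ ((u.2.1 : ℤ) + 1) * g l := mul_nonneg (by positivity) (hg0 l)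
        have := (hr l).2
        omega
    · obtain ⟨h1, _, h3, h4⟩ := hD u hu
      obtain ⟨k1, _, k3, k4⟩ := hD v hv
      have e1 := hfi u
      have e2 := hfi v
      rw [huv] at e1
      have e3 : ((u.2.1 : ℤ) - v.2.1) * g i = u.2.2 - v.2.2 := by linarith
      have e4 : (u.2.1 : ℤ) - v.2.1 = 0 := by
        by_contra hc
        rcases lt_or_gt_of_ne hc with h | h
        · have : ((u.2.1 : ℤ) - v.2.1 + 1) * g i ≤ 0 :=
            mul_nonpos_of_nonpos_of_nonneg (by omega) hgi.le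
          nlinarith
        · have : 0 ≤ ((u.2.1 : ℤ) - v.2.1 - 1) * g i := mul_nonneg (by omega) hgi.le
          nlinarith
      have e5 : u.2.1 = v.2.1 := by omega
      have e6 : u.2.2 = v.2.2 := by rw [e4] at e3; omega
      have e7 : u.1 = v.1 := by
        funext l
        by_cases hl : l = i
        · subst hl
          have s2 := (hs u).2.2
          have s3 := (hs v).2.2
          rw [huv, e6] at s2
          have s4 : (A.m l : ℤ) ∣ u.1 l - v.1 l := by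
            have := dvd_sub s3 s2
            have e : u.1 l - v.1 l =
                v.2.2 + (f v).1 - v.1 l - (v.2.2 + (f v).1 - u.1 l) := by ring
            rw [e]; exact this
          have a1 := (mem_R A).1 h1 l
          have a2 := (mem_R A).1 k1 l
          have := Int.eq_zero_of_abs_lt_dvd s4 (abs_lt.2 ⟨by omega, by omega⟩)
          omega
        · have a1 := hfl u l hl
          have a2 := hfl v l hl
          rw [huv, e5] at a1
          omega
      obtain ⟨u1, u2, u3⟩ := u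
      obtain ⟨v1, v2, v3⟩ := v
      simp only at e5 e6 e7
      subst e5 e6 e7
      rfl
  rw [Finset.card_product, Finset.card_sigma] at hcard
  simp only [Finset.card_product, Finset.card_range, Int.card_Ico, sub_zero,
    Int.toNat_natCast] at hcard
  have hc : ((g i).toNat : ℝ) = g i := by
    have := Int.toNat_of_nonneg hgi.le
    exact_mod_cast this
  rw [cnt_eq, ← hc]
  exact_mod_cast hcard

/-- the flat generators carry most of the coordinate `i` -/
theorem mass (A : Ax M Q) (hQ : 1 ≤ Q) {σ : ℝ} (hσ : 0 < σ) (i : Fin d) {r : V d}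
    (hr : r ∈ A.R) {t : V d → ℕ}
    (ht : r + Pi.single i ((M.c i : ℤ) + A.m i) = ∑ x ∈ M.G, t x • x) :
    (1 - d / (Q * σ)) * M.c i ≤ ∑ g ∈ M.Fl σ i, (t g : ℝ) * g i := by
  classical
  have hr' := (mem_R A).1 hr
  have hQ0 : 0 < Q := lt_of_lt_of_le one_pos hQ
  have hz : ∀ l, M.h (r + Pi.single i ((M.c i : ℤ) + A.m i)) l =
      ∑ g ∈ M.G, (t g : ℝ) * M.h g l := fun l => by
    rw [ht, M.h_sum]; simp only [M.h_nsmul]
  have h1 : 1 ≤ ∑ g ∈ M.G, (t g : ℝ) * M.h g i := by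
    rw [← hz, M.le_h_iff, one_mul]
    have := (hr' i).1
    have h2 : (M.c i : ℤ) ≤ (r + Pi.single i ((M.c i : ℤ) + A.m i) : V d) i := by
      simp only [Pi.add_apply, Pi.single_eq_same]; omega
    exact_mod_cast h2
  have h2 : ∀ l ∈ Finset.univ.erase i, ∑ g ∈ M.G, (t g : ℝ) * M.h g l ≤ 1 / Q := fun l hl => by
    have hl' := (Finset.mem_erase.1 hl).1
    rw [← hz, M.h_le_iff]
    simp only [Pi.add_apply, Pi.single_eq_of_ne hl', add_zero]
    have h3 : (r l : ℝ) ≤ A.m l := by exact_mod_cast (hr' l).2.le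
    have h4 := A.mQ l
    rw [one_div, inv_mul_eq_div, le_div_iff₀ hQ0]
    nlinarith
  have h3 : ∑ l ∈ Finset.univ.erase i, ∑ g ∈ M.G, (t g : ℝ) * M.h g l ≤ d / Q := by
    refine (Finset.sum_le_sum h2).trans ?_
    rw [Finset.sum_const, nsmul_eq_mul]
    have : ((Finset.univ.erase i).card : ℝ) ≤ d := by
      have := Finset.card_le_univ (Finset.univ.erase i)
      rw [Fintype.card_fin] at this
      exact_mod_cast this
    rw [mul_one_div]
    exact div_le_div_of_nonneg_right this hQ0.le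
  have h4 : ∀ g ∈ M.G, (t g : ℝ) * M.h g i ≤
      (if g ∈ M.Fl σ i then (t g : ℝ) * M.h g i else 0) +
        (∑ l ∈ Finset.univ.erase i, (t g : ℝ) * M.h g l) / σ := fun g hg => by
    have hn := M.h_nonneg (M.G_mem hg)
    have hnn : ∀ l ∈ Finset.univ.erase i, 0 ≤ (t g : ℝ) * M.h g l :=
      fun l _ => mul_nonneg (Nat.cast_nonneg _) (hn l)
    have hs := div_nonneg (Finset.sum_nonneg hnn) hσ.le
    split_ifs with hF
    · linarith
    · rw [zero_add]
      by_cases h0 : 0 < g i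
      · have : ∃ l, l ≠ i ∧ σ * M.h g i < M.h g l := by
          by_contra hc
          push Not at hc
          exact hF (mem_flt.2 ⟨hg, h0, hc⟩)
        obtain ⟨l, hl, hlt⟩ := this
        have h5 := Finset.single_le_sum hnn (Finset.mem_erase.2 ⟨hl, Finset.mem_univ l⟩)
        rw [le_div_iff₀ hσ]
        have h6 : (0 : ℝ) ≤ t g := Nat.cast_nonneg _
        nlinarith
      · have h5 : g i = 0 := le_antisymm (not_lt.1 h0) (M.nonneg g (M.G_mem hg) i)
        have h6 : M.h g i = 0 := by simp [Md.h, h5]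
        rw [h6, mul_zero]; exact hs
  have h5 := Finset.sum_le_sum h4
  have hsub : M.Fl σ i ⊆ M.G := flt_sub _ _
  rw [Finset.sum_add_distrib, ← Finset.sum_div, Finset.sum_comm, Finset.sum_ite_mem,
    Finset.inter_eq_right.2 hsub] at h5
  have h6 : (∑ l ∈ Finset.univ.erase i, ∑ g ∈ M.G, (t g : ℝ) * M.h g l) / σ ≤ d / (Q * σ) := by
    rw [← div_div]; exact div_le_div_of_nonneg_right h3 hσ.le
  have h7 : 1 - d / (Q * σ) ≤ ∑ g ∈ M.Fl σ i, (t g : ℝ) * M.h g i := by linarith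
  have h8 : (∑ g ∈ M.Fl σ i, (t g : ℝ) * M.h g i) * M.c i =
      ∑ g ∈ M.Fl σ i, (t g : ℝ) * g i := by
    rw [Finset.sum_mul]
    exact Finset.sum_congr rfl fun g _ => by rw [mul_assoc, M.h_mul]
  rw [← h8]
  exact mul_le_mul_of_nonneg_right h7 (M.cR_pos i).le

end Fb

theorem fb : FbStmt := by
  intro d M Q σ A i hQ hσ
  have hm : (0 : ℝ) < A.m i := by exact_mod_cast A.mpos i
  have hex : ∀ r : V d, ∃ t : V d → ℕ, r ∈ A.R →
      r + Pi.single i ((M.c i : ℤ) + A.m i) = ∑ x ∈ M.G, t x • x := fun r => by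
    by_cases hr : r ∈ A.R
    · have hr' := (Fb.mem_R A).1 hr
      have hS : r + Pi.single i ((M.c i : ℤ) + A.m i) ∈ M.S := by
        refine M.out _ (fun l => ?_) ⟨i, ?_⟩
        · have := (hr' l).1
          by_cases hl : l = i
          · subst hl; simp only [Pi.add_apply, Pi.single_eq_same]; omega
          · simpa only [Pi.add_apply, Pi.single_eq_of_ne hl, add_zero] using this
        · have := (hr' i).1
          simp only [Pi.add_apply, Pi.single_eq_same]; omega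
      rw [← M.gen] at hS
      obtain ⟨t, _, ht⟩ := AddSubmonoid.mem_closure_finset.1 hS
      exact ⟨t, fun _ => ht.symm⟩
    · exact ⟨0, fun h => absurd h hr⟩
  choose t ht using hex
  have h1 : (A.R.card : ℝ) * ((1 - d / (Q * σ)) * M.c i) ≤
      ∑ r ∈ A.R, ∑ g ∈ M.Fl σ i, (t r g : ℝ) * g i := by
    rw [← nsmul_eq_mul, ← Finset.sum_const]
    exact Finset.sum_le_sum fun r hr => Fb.mass A hQ hσ i hr (ht r hr)
  have h2 : ∑ g ∈ M.Fl σ i, ∑ r ∈ A.R, (t r g : ℝ) * g i ≤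
      ((M.Fl σ i).card : ℝ) * (A.m i * (∑ r ∈ A.R, A.dep i r + 2 * A.R.card)) := by
    rw [← nsmul_eq_mul, ← Finset.sum_const]
    refine Finset.sum_le_sum fun g hg => ?_
    have hg' := mem_flt.1 hg
    exact (Fb.one A i t ht hg'.1 hg'.2.1).trans
      (mul_le_mul_of_nonneg_left (Fb.tube A hQ i) hm.le)
  rw [Finset.sum_comm] at h1
  have h3 := h1.trans h2
  have e : (1 - d / (Q * σ)) * A.q i * A.R.card =
      (A.R.card : ℝ) * ((1 - d / (Q * σ)) * M.c i) / A.m i := by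
    unfold Ax.q; ring
  rw [e, div_le_iff₀ hm]
  linarith

end Pool.Agent.MP_96f5a9_co.GW

end MrgPart1

-- ======== part 2: formerly Pool.Agent.MP_96f5a9_co.gw.Step
section MrgPart2

/-! Generalized Wilf inequality: from the bulk to the corner. -/

set_option autoImplicit false

namespace Pool.Agent.MP_96f5a9_co.GW

open Finset

namespace Step

theorem arith {κ D K p n v t : ℝ} (hκ : 0 < κ) (hD : 0 < D) (hp : 2 * D * K / κ + 1 ≤ p)
    (hK : 0 ≤ K) (hn : 0 < n) (hc : p * n < D * v) (h : κ * v ≤ p * t + K * n) :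
    n ≤ 2 * D / κ * t := by
  have h0 : 0 ≤ 2 * D * K / κ := by positivity
  have p0 : 0 < p := by linarith
  have h1 : 2 * D * K ≤ p * κ := by
    rw [← div_le_iff₀ hκ]; linarith
  have h2 : 2 * D * K * n ≤ p * κ * n := by gcongr
  have h3 : κ * (p * n) < κ * (D * v) := by gcongr
  have h4 : 2 * D * (κ * v) ≤ 2 * D * (p * t + K * n) := by gcongr
  have h5 : p * (κ * n) ≤ p * (2 * D * t) := by nlinarith
  have h6 : κ * n ≤ 2 * D * t := le_of_mul_le_mul_left h5 p0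
  rw [div_mul_eq_mul_div, le_div_iff₀ hκ]
  linarith

variable {d : ℕ} (M : Md d)

/-- one round of the argument -/
theorem round (hL : PlStmt) (k : Fin d) (Q P : V d → Prop) (C A T : Finset (V d)) (K : ℝ) (r : ℕ)
    (hK : 0 ≤ K) (hC : C.Nonempty) (hCN : C ⊆ M.N) (hA : ∀ x ∈ C, ∀ y ∈ A, x + y ∈ M.N)
    (hn : M.n ≤ K * C.card)
    (h1 : ∀ b ∈ M.B, Q b → ∀ g ∈ M.G, P g → M.ce k + b - g ∈ M.S → M.ce k + b - g ∈ T)
    (h2 : ∀ b ∈ M.B, Q b → M.ce k + b ∈ M.cl (fun g => ¬ P g ∧ M.ce k + b - g ∈ M.S) →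
      ∃ y : Fin r → V d, (∀ j, y j ∈ A) ∧ M.ce k + b = ∑ j, y j) :
    cnt M.B Q ≤ M.p * T.card + K ^ r * M.n := by
  classical
  have a1 : cnt M.B Q ≤ cnt M.B (fun b => ∃ g ∈ M.G, M.ce k + b - g ∈ T) +
      cnt M.B (fun b => ∃ y : Fin r → V d, (∀ j, y j ∈ A) ∧ M.ce k + b = ∑ j, y j) :=
    cnt_le_add fun b hb hq => by
      rcases M.dich P (M.ce_add_mem (fun i => (M.mem_B.1 hb i).1) k) with ⟨g, hg, hp, hs⟩ | h
      · exact Or.inl ⟨g, hg, h1 b hb hq g hg hp hs⟩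
      · exact Or.inr (h2 b hb hq h)
  have a2 : cnt M.B (fun b => ∃ g ∈ M.G, M.ce k + b - g ∈ T) ≤ ((M.G ×ˢ T).card : ℝ) :=
    cnt_le_rel (fun b q => M.ce k + b - q.1 = q.2)
      (fun b _ ⟨g, hg, ht⟩ => ⟨(g, _), mem_product.2 ⟨hg, ht⟩, rfl⟩)
      fun b _ b' _ q e e' => add_left_cancel (sub_left_inj.1 (e.trans e'.symm))
  rw [card_product, Nat.cast_mul] at a2
  have a3 : cnt M.B (fun b => ∃ y : Fin r → V d, (∀ j, y j ∈ A) ∧ M.ce k + b = ∑ j, y j) ≤
      (((flt M.B fun b => ∃ y : Fin r → V d, (∀ j, y j ∈ A) ∧ M.ce k + b = ∑ j, y j).image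
        fun b => M.ce k + b).card : ℝ) :=
    cnt_le_inj (fun b => M.ce k + b) (fun b hb hp => mem_image_of_mem _ (mem_flt.2 ⟨hb, hp⟩))
      fun b _ _ b' _ _ e => add_left_cancel e
  have a4 := hL d C A M.N ((flt M.B fun b => ∃ y : Fin r → V d, (∀ j, y j ∈ A) ∧
    M.ce k + b = ∑ j, y j).image fun b => M.ce k + b) K r 0 hC hA hn fun z hz => by
      obtain ⟨b, hb, rfl⟩ := mem_image.1 hz
      obtain ⟨y, hy, e⟩ := (mem_flt.1 hb).2
      exact ⟨y, Fin.elim0, hy, fun j => j.elim0, by simpa using e⟩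
  have a5 : (C.card : ℝ) ≤ M.n := by
    unfold Md.n; exact_mod_cast card_le_card hCN
  have a6 : K ^ (r + 0) * (C.card : ℝ) ≤ K ^ r * M.n := by
    rw [add_zero]; gcongr
  unfold Md.p
  linarith

theorem part_le {r : ℕ} {y : Fin r → V d} {z : V d} (hy : ∀ j, y j ∈ M.S) (e : z = ∑ j, y j)
    (j : Fin r) (m : Fin d) : M.h (y j) m ≤ M.h z m := by
  rw [e, M.h_sum]
  exact single_le_sum (f := fun j => M.h (y j) m) (fun i _ => M.h_nonneg (hy i) m) (mem_univ j)

theorem h_self (k : Fin d) (b : V d) : M.h (M.ce k + b) k = 1 + M.h b k := by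
  rw [M.h_add, M.h_ce_self]

theorem h_ne {k m : Fin d} (hm : m ≠ k) (b : V d) : M.h (M.ce k + b) m = M.h b m := by
  rw [M.h_add, M.h_ce_ne hm, zero_add]

theorem corner (hB : BoxStmt) (ρ : ℝ) (h0 : 0 ≤ ρ) (h1 : ρ ≤ 1) :
    ρ ^ d * M.vol ≤ cnt M.B fun b => ∀ m, M.h b m < ρ := by
  simpa using (hB d M).2.2.2.1 (fun _ => ρ) fun _ => ⟨h0, h1⟩

end Step

open Step

theorem step (hB : BoxStmt) (hP : PartsStmt) (hL : PlStmt) : StepStmt := by
  intro d hd d1 K0 d0 d10 K00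
  have dp : (0 : ℝ) < d := by exact_mod_cast (by omega : 0 < d)
  obtain ⟨r1, hr1⟩ := exists_nat_ge (2 / (d1 / 2) + 1)
  obtain ⟨r2, hr2⟩ := exists_nat_ge (6 * d / (d1 / 4) + 1)
  have k1 : 0 < (d1 / 8) ^ d := by positivity
  have k2 : 0 < (d1 / 4) ^ d := by positivity
  refine ⟨2 * d / (d1 / 4) ^ d, max (2 * d * K0 ^ r1 / (d1 / 8) ^ d + 1)
    (2 * d * (2 * d / (d1 / 8) ^ d) ^ r2 / (d1 / 4) ^ d + 1), by positivity,
    fun M hp hc hn => ?_⟩
  let i : Fin d := ⟨0, by omega⟩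
  let j : Fin d := ⟨1, by omega⟩
  have hij : i ≠ j := by simp [i, j]
  let Vv : Finset (V d) := flt M.N fun s => M.h s i < 1 - d1 / 4 ∧ ∀ m, m ≠ i → M.h s m < d1 / 8
  have s1 := round M hL i (fun b => ∀ m, M.h b m < d1 / 8) (fun g => d1 / 2 ≤ M.h g i)
    (flt M.N fun x => ∀ m, M.h x m < 1 - d1) (flt M.N fun x => ∀ m, M.h x m < d1) Vv K0 r1 K00.le
    ⟨0, mem_flt.2 ⟨M.zero_mem_N, fun m => by rw [M.h_zero]; linarith⟩⟩ (flt_sub _ _)
    (fun x hx y hy => by
      obtain ⟨x1, x2⟩ := mem_flt.1 hx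
      obtain ⟨y1, y2⟩ := mem_flt.1 hy
      refine M.mem_N_of (M.S.add_mem (M.mem_N.1 x1).2 (M.mem_N.1 y1).2) fun m => ?_
      rw [M.h_add]; linarith [x2 m, y2 m]) hn
    (fun b _ hq g hg hp hs => by
      have e1 : M.h (M.ce i + b - g) i < 1 - d1 / 4 := by
        rw [M.h_sub, h_self]; linarith [hq i]
      have e2 : ∀ m, m ≠ i → M.h (M.ce i + b - g) m < d1 / 8 := fun m hm => by
        rw [M.h_sub, h_ne M hm]; linarith [hq m, M.h_nonneg (M.G_mem hg) m]
      refine mem_flt.2 ⟨M.mem_N_of hs fun m => ?_, e1, e2⟩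
      by_cases hm : m = i
      · rw [hm]; linarith
      · linarith [e2 m hm])
    (fun b _ hq hz => by
      obtain ⟨y, hy, e⟩ := (hP d M _).2.1 i (d1 / 2) 2 r1 _ (by positivity)
        (fun g _ hg => not_le.1 hg.1) hz (by rw [h_self]; linarith [hq i]) hr1
      have hS : ∀ l, y l ∈ M.S := fun l => M.cl_le _ (hy l).1
      have e2 : ∀ l m, M.h (y l) m < d1 := fun l m => by
        by_cases hm : m = i
        · rw [hm]; linarith [(hy l).2]
        · have := part_le M hS e l m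
          rw [h_ne M hm] at this
          linarith [hq m]
      exact ⟨y, fun l => mem_flt.2 ⟨M.mem_N_of (hS l) fun m => by linarith [e2 l m], e2 l⟩, e⟩)
  have s2 : M.n ≤ 2 * d / (d1 / 8) ^ d * Vv.card :=
    arith k1 dp ((le_max_left _ _).trans hp) (by positivity) M.n_pos hc
      ((corner M hB _ (by positivity) (by linarith)).trans s1)
  have s3 := round M hL j (fun b => ∀ m, M.h b m < d1 / 4) (fun g => 1 - d1 / 4 ≤ M.h g j) Vv
    (flt M.N fun y => M.h y j ≤ 1 - d1 / 4 / 2 ∧ ∀ m, m ≠ j → M.h y m < d1 / 4)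
    (flt M.N fun x => ∀ m, M.h x m < d1 / 2) (2 * d / (d1 / 8) ^ d) r2 (by positivity)
    ⟨0, mem_flt.2 ⟨M.zero_mem_N, by rw [M.h_zero]; linarith,
      fun m _ => by rw [M.h_zero]; linarith⟩⟩ (flt_sub _ _)
    (fun x hx y hy => by
      obtain ⟨x1, x2, x3⟩ := mem_flt.1 hx
      obtain ⟨y1, y2, y3⟩ := mem_flt.1 hy
      refine M.mem_N_of (M.S.add_mem (M.mem_N.1 x1).2 (M.mem_N.1 y1).2) fun m => ?_
      rw [M.h_add]
      by_cases hm : m = i
      · rw [hm]; linarith [y3 i hij]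
      · by_cases hm' : m = j
        · rw [hm']; linarith [x3 j hij.symm]
        · linarith [x3 m hm, y3 m hm']) s2
    (fun b _ hq g hg hp hs => by
      have e2 : ∀ m, M.h (M.ce j + b - g) m < d1 / 2 := fun m => by
        by_cases hm : m = j
        · rw [hm, M.h_sub, h_self]; linarith [hq j]
        · rw [M.h_sub, h_ne M hm]; linarith [hq m, M.h_nonneg (M.G_mem hg) m]
      exact mem_flt.2 ⟨M.mem_N_of hs fun m => by linarith [e2 m], e2⟩)
    (fun b _ hq hz => by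
      obtain ⟨y, hy, e⟩ := (hP d M _).2.2 (d1 / 4) r2 _ (by positivity) (by linarith)
        (fun g _ hg m => by
          by_cases hm : m = j
          · rw [hm]; exact (not_le.1 hg.1).le
          · have := M.h_nonneg hg.2 m
            rw [M.h_sub, h_ne M hm] at this
            linarith [hq m]) hz
        (fun m => by
          by_cases hm : m = j
          · rw [hm, h_self]; linarith [hq j]
          · rw [h_ne M hm]; linarith [hq m]) hr2
      have hS : ∀ l, y l ∈ M.S := fun l => M.cl_le _ (hy l).1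
      refine ⟨y, fun l => mem_flt.2 ⟨M.mem_N_of (hS l) fun m => by linarith [(hy l).2 m],
        (hy l).2 j, fun m hm => ?_⟩, e⟩
      have := part_le M hS e l m
      rw [h_ne M hm] at this
      linarith [hq m])
  exact arith k2 dp ((le_max_right _ _).trans hp) (by positivity) M.n_pos hc
    ((corner M hB _ (by positivity) (by linarith)).trans s3)

end Pool.Agent.MP_96f5a9_co.GW

end MrgPart2

-- ======== part 3: formerly Pool.Agent.MP_96f5a9_co.gw.Struct
section MrgPart3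

/-! Flat periods from a near tiling. -/

set_option autoImplicit false

namespace Pool.Agent.MP_96f5a9_co.GW

open Finset

namespace Struct

variable {d : ℕ}

/-- what the colour of a point of the window satisfies -/
theorem colour (M : Md d) {ε u : ℝ} {k m : Fin d} (hkm : m ≠ k) {L W0 : ℤ} (hu : u ≤ 1 / 2)
    (hε : ε ≤ u / 2)
    (hW : ∀ x ∈ M.N, (∀ l, l ≠ m → M.h x l ≤ u) → L ≤ x m → W0 ≤ x m)
    {b g : V d} (h1 : W0 - L ≤ b m) (h2 : b m < W0) (h3 : ∀ l, l ≠ m → M.h b l < u / 2)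
    (h4 : M.h b m < 1 - ε) (hs : M.Srv ε k b g) :
    W0 - 2 * L + 1 ≤ g m ∧ ∀ l, l ≠ k → M.h g l < 1 - ε := by
  obtain ⟨hg, hk, hx⟩ := hs
  have hxS := (M.mem_N.1 hx).2
  have hg0 : ∀ l, 0 ≤ M.h g l := fun l => M.h_nonneg (M.G_mem hg) l
  have hx0 : ∀ l, 0 ≤ M.h (M.ce k + b - g) l := fun l => M.h_nonneg hxS l
  have hxl : ∀ l, M.h (M.ce k + b - g) l = M.h (M.ce k) l + M.h b l - M.h g l := fun l => by
    rw [M.h_sub, M.h_add]
  have hflat : ∀ l, l ≠ m → M.h (M.ce k + b - g) l ≤ u := by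
    intro l hl
    have hb := h3 l hl
    rw [hxl]
    by_cases hlk : l = k
    · subst hlk
      rw [M.h_ce_self]; linarith
    · rw [M.h_ce_ne hlk]
      have := hg0 l
      have := hx0 l
      rw [hxl, M.h_ce_ne hlk] at this
      linarith
  have hgm : 0 ≤ g m := M.nonneg g (M.G_mem hg) m
  have hxm : (M.ce k + b - g) m = b m - g m := by
    simp only [Pi.sub_apply, Pi.add_apply, M.ce_ne hkm]; ring
  refine ⟨?_, fun l hl => ?_⟩
  · by_contra hc
    have := hW _ hx hflat (by rw [hxm]; omega)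
    rw [hxm] at this
    omega
  · have h0 := hx0 l
    rw [hxl, M.h_ce_ne hl] at h0
    by_cases hlm : l = m
    · subst hlm; linarith
    · have := h3 l hlm
      have := hg0 l
      linarith

/-- a designated pair is determined by its point -/
theorem des_inj (M : Md d) {ε : ℝ} {k : Fin d} {q q' : V d × V d} (h : M.Des ε k q.1 q.2)
    (h' : M.Des ε k q'.1 q'.2) (he : q.1 + q.2 - M.ce k = q'.1 + q'.2 - M.ce k) : q = q' := by
  have e2 : q.2 = q'.2 := by rw [← h.2.2, ← h'.2.2, he]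
  have e1 : q.1 = q'.1 := by
    have := sub_left_injective he
    rw [e2] at this
    exact add_right_cancel this
  exact Prod.ext e1 e2

/-- the exceptional points of a colour -/
def Bad (M : Md d) (ε : ℝ) (k m : Fin d) (a x g : V d) : Prop :=
  ¬ M.Des ε k x g ∨ (∃ l, l ≠ m ∧ (x + g - M.ce k) l < a l) ∨
    ((∀ i, a i ≤ (x + g - M.ce k) i) ∧ ¬ (x - a ∈ M.N))

theorem sum_bad (hB : BoxStmt) (hI : InvStmt) (M : Md d) {ε v : ℝ} (hε : 0 < ε) (hT : M.Til ε)
    (F : Fac M ε) {k m : Fin d} {a : V d} (ha : a ∈ M.S) (hv : 0 ≤ v)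
    (hav : ∀ l, l ≠ m → M.h a l ≤ v) (Γ : Finset (V d))
    (hΓ : ∀ g ∈ Γ, g ∈ M.G ∧ ∀ l, l ≠ k → M.h g l < 1 - ε) :
    ∑ g ∈ Γ, cnt M.N (fun x => Bad M ε k m a x g) ≤ (d * v + (2 * d + 3) * ε) * M.vol := by
  classical
  rw [← cnt_prod M.N Γ (fun x g => Bad M ε k m a x g)]
  have s1 : cnt (M.N ×ˢ Γ) (fun q => Bad M ε k m a q.1 q.2) ≤
      cnt (M.N ×ˢ Γ) (fun q => ¬ M.Des ε k q.1 q.2) +
      cnt (M.N ×ˢ Γ) (fun q => M.Des ε k q.1 q.2 ∧ Bad M ε k m a q.1 q.2) :=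
    cnt_le_add fun q _ hq => by
      by_cases hd : M.Des ε k q.1 q.2
      · exact Or.inr ⟨hd, hq⟩
      · exact Or.inl hd
  have s2 : cnt (M.N ×ˢ Γ) (fun q => ¬ M.Des ε k q.1 q.2) ≤ d * ε * M.vol := by
    refine le_trans (cnt_mono fun q hq hn => ⟨?_, ?_⟩) F.und
    · exact mem_product.2 ⟨(mem_product.1 hq).1, (hΓ _ (mem_product.1 hq).2).1⟩
    · rintro ⟨k', hk'⟩
      have hs := M.chi_spec hk'.2.1
      rw [hk'.2.2] at hs
      by_cases hkk : k' = k
      · exact hn (hkk ▸ hk')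
      · have := (hΓ _ (mem_product.1 hq).2).2 k' hkk
        have := hs.2.1
        linarith
  have s3 : cnt (M.N ×ˢ Γ) (fun q => M.Des ε k q.1 q.2 ∧ Bad M ε k m a q.1 q.2) ≤
      cnt M.B (fun b => (∃ l, l ≠ m ∧ b l < a l) ∨
        ((∀ i, a i ≤ b i) ∧ ¬ (M.ce k + b - M.chi ε k b - a ∈ M.N))) := by
    rw [cnt_eq M.B]
    refine cnt_le_inj (fun q => q.1 + q.2 - M.ce k) (fun q _ hq => ?_)
      (fun q _ hq q' _ hq' he => des_inj M hq.1 hq'.1 he)
    refine mem_flt.2 ⟨hq.1.1, ?_⟩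
    rcases hq.2 with h | h | h
    · exact absurd hq.1 h
    · exact Or.inl h
    · refine Or.inr ⟨h.1, ?_⟩
      rw [hq.1.2.2]
      have e : M.ce k + (q.1 + q.2 - M.ce k) - q.2 - a = q.1 - a := by abel
      rw [e]; exact h.2
  have s4 := cnt_le_add (A := M.B) (P := fun b => (∃ l, l ≠ m ∧ b l < a l) ∨
        ((∀ i, a i ≤ b i) ∧ ¬ (M.ce k + b - M.chi ε k b - a ∈ M.N)))
      (Q := fun b => ∃ l, l ≠ m ∧ b l < a l)
      (R := fun b => (∀ i, a i ≤ b i) ∧ ¬ (M.ce k + b - M.chi ε k b - a ∈ M.N))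
      fun _ _ h => h
  have s5 := hI d M ε k a hε hT F ha
  have s6 : cnt M.B (fun b => ∃ l, l ≠ m ∧ b l < a l) ≤ d * v * M.vol := by
    have h1 := cnt_le_sum (A := M.B) (P := fun b => ∃ l, l ≠ m ∧ b l < a l) (univ.erase m)
      (fun l b => b l < a l) fun b _ hb => by
        obtain ⟨l, hl, hl'⟩ := hb
        exact ⟨l, mem_erase.2 ⟨hl, mem_univ _⟩, hl'⟩
    have h2 : ∀ l ∈ univ.erase m, cnt M.B (fun b => b l < a l) ≤ v * M.vol := fun l hl => by
      refine ((hB d M).2.2.1 l (a l) (M.nonneg a ha l)).trans ?_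
      exact mul_le_mul_of_nonneg_right (hav l (mem_erase.1 hl).1) M.vol_pos.le
    have h3 : ((univ.erase m).card : ℝ) ≤ d := by
      have : (univ.erase m).card ≤ d := (card_le_univ _).trans (by simp)
      exact_mod_cast this
    have h4 := Finset.sum_le_sum h2
    rw [Finset.sum_const, nsmul_eq_mul] at h4
    have h5 : ((univ.erase m).card : ℝ) * (v * M.vol) ≤ d * (v * M.vol) :=
      mul_le_mul_of_nonneg_right h3 (mul_nonneg hv M.vol_pos.le)
    linarith
  linarith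

/-- one window gives one colour with few exceptions -/
theorem window (hB : BoxStmt) (hI : InvStmt) (M : Md d) {ε u v la de : ℝ} (hε : 0 < ε)
    (hT : M.Til ε) (F : Fac M ε) {k m : Fin d} (hkm : m ≠ k) (hla : 0 < la) (hde : 0 < de)
    (hu : u ≤ 1 / 2) (hεu : ε ≤ u / 2) (hv : 0 ≤ v)
    (e1 : 4 * ε ≤ la * (u / 2) ^ (d - 1))
    (e2 : d * v + (2 * d + 3) * ε ≤ de * (la * (u / 2) ^ (d - 1)) / 2)
    {L W0 : ℤ} (hL : la * M.c m ≤ L) (hLW : L ≤ W0) (hWc : W0 ≤ M.c m)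
    (hW : ∀ x ∈ M.N, (∀ l, l ≠ m → M.h x l ≤ u) → L ≤ x m → W0 ≤ x m)
    {a : V d} (ha : a ∈ M.S) (hav : ∀ l, l ≠ m → M.h a l ≤ v) :
    ∃ g : V d, W0 - 2 * L + 1 ≤ g m ∧ cnt M.N (fun x => Bad M ε k m a x g) ≤ de * M.n := by
  classical
  set ρ : ℝ := (u / 2) ^ (d - 1) with hρ
  have hc := M.cR_pos m
  have hvol := M.vol_pos
  have hL0 : (0 : ℤ) ≤ L := by
    have : (0 : ℝ) ≤ L := le_trans (by positivity) hL
    exact_mod_cast this
  have hρ0 : 0 ≤ ρ := pow_nonneg (by linarith) _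
  have y1 := (hB d M).2.2.2.2 m (W0 - L) W0 (u / 2) (by omega) (by omega) hWc (by linarith)
    (by linarith)
  have y2 : la * ρ * M.vol ≤ ((W0 - (W0 - L) : ℤ) : ℝ) / M.c m * ρ * M.vol := by
    have : la ≤ ((W0 - (W0 - L) : ℤ) : ℝ) / M.c m := by
      rw [le_div_iff₀ hc]; push_cast; linarith
    exact mul_le_mul_of_nonneg_right (mul_le_mul_of_nonneg_right this hρ0) hvol.le
  let Y : V d → Prop := fun b => (W0 - L ≤ b m ∧ b m < W0 ∧ ∀ l, l ≠ m → M.h b l < u / 2) ∧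
    (∃ g, M.Srv ε k b g) ∧ M.h b m < 1 - ε
  have y3 : cnt M.B (fun b => W0 - L ≤ b m ∧ b m < W0 ∧ ∀ l, l ≠ m → M.h b l < u / 2) ≤
      cnt M.B Y + cnt M.B (fun b => (¬ ∃ g, M.Srv ε k b g) ∨ 1 - ε ≤ M.h b m) :=
    cnt_le_add fun b _ hb => by
      by_cases h1 : ∃ g, M.Srv ε k b g
      · by_cases h2 : M.h b m < 1 - ε
        · exact Or.inl ⟨hb, h1, h2⟩
        · exact Or.inr (Or.inr (not_lt.1 h2))
      · exact Or.inr (Or.inl h1)
  have y4 := cnt_le_add (A := M.B)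
    (P := fun b => (¬ ∃ g, M.Srv ε k b g) ∨ 1 - ε ≤ M.h b m)
    (Q := fun b => ¬ ∃ g, M.Srv ε k b g) (R := fun b => 1 - ε ≤ M.h b m) fun _ _ h => h
  have y5 := hT k
  have y6 := (hB d M).1 m ε hε.le
  have y7 : la * ρ / 2 * M.vol ≤ cnt M.B Y := by
    have : 4 * ε * M.vol ≤ la * ρ * M.vol := mul_le_mul_of_nonneg_right e1 hvol.le
    linarith
  set Γ : Finset (V d) := (flt M.B Y).image (M.chi ε k) with hΓ
  have hΓm : ∀ g ∈ Γ, g ∈ M.G ∧ W0 - 2 * L + 1 ≤ g m ∧ ∀ l, l ≠ k → M.h g l < 1 - ε := by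
    intro g hg
    obtain ⟨b, hb, rfl⟩ := mem_image.1 hg
    obtain ⟨_, ⟨h1, h2, h3⟩, h4, h5⟩ := mem_flt.1 hb
    have hs := M.chi_spec h4
    exact ⟨hs.1, colour M hkm hu hεu hW h1 h2 h3 h5 hs⟩
  have y8 : cnt M.B Y ≤ M.n * Γ.card := by
    refine cnt_le_fib (M.chi ε k) M.n (fun b hb hy => mem_image_of_mem _ (mem_flt.2 ⟨hb, hy⟩))
      fun g _ => ?_
    refine cnt_le_inj (Y := M.N) (fun b => M.ce k + b - g) (fun b _ hb => ?_)
      (fun b _ _ b' _ _ he => add_left_cancel (sub_left_injective he))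
    have hs := M.chi_spec hb.1.2.1
    rw [hb.2] at hs
    exact hs.2.2
  have hne : Γ.Nonempty := by
    have h0 : 0 < cnt M.B Y := by
      refine lt_of_lt_of_le ?_ y7
      have : 0 < la * ρ := by linarith
      positivity
    obtain ⟨b, hb, hy⟩ := exists_of_cnt_pos h0
    exact ⟨_, mem_image_of_mem _ (mem_flt.2 ⟨hb, hy⟩)⟩
  have y9 := sum_bad hB hI M hε hT F (k := k) ha hv hav Γ
    fun g hg => ⟨(hΓm g hg).1, (hΓm g hg).2.2⟩
  have y10 : ∑ g ∈ Γ, cnt M.N (fun x => Bad M ε k m a x g) ≤ ∑ _g ∈ Γ, de * M.n := by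
    rw [Finset.sum_const, nsmul_eq_mul]
    have a1 := mul_le_mul_of_nonneg_right e2 hvol.le
    have a2 := mul_le_mul_of_nonneg_left (y7.trans y8) hde.le
    linarith
  obtain ⟨g, hg, hle⟩ := Finset.exists_le_of_sum_le hne y10
  exact ⟨g, (hΓm g hg).2.1, hle⟩

/-- the points that are not exceptional -/
theorem good (M : Md d) {ε la : ℝ} {k m : Fin d} (hkm : m ≠ k) (hla : 0 < la) {L W0 W1 : ℤ}
    (hL : (L : ℝ) < la * M.c m + 1) (hD : (W1 : ℝ) - W0 ≤ la * M.c m) {a g x : V d}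
    (ham : a m ≤ W1) (hg : W0 - 2 * L + 1 ≤ g m) (hx : ¬ Bad M ε k m a x g) :
    (x m : ℝ) + W1 ≤ (1 + 3 * la) * M.c m ∧ (4 * la ≤ M.h x m → x - a ∈ M.N) := by
  unfold Bad at hx
  push Not at hx
  obtain ⟨hd, h2, h3⟩ := hx
  have hbm : (x + g - M.ce k) m = x m + g m := by
    simp only [Pi.sub_apply, Pi.add_apply, M.ce_ne hkm]; ring
  have hb := (M.mem_B.1 hd.1 m).2
  rw [hbm] at hb
  have hc := M.cR_pos m
  have ht : 0 < la * M.c m := mul_pos hla hc
  constructor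
  · have h1 : x m + (W0 - 2 * L + 1) + 1 ≤ M.c m := by omega
    have h1' : (x m : ℝ) + (W0 - 2 * L + 1) + 1 ≤ M.c m := by exact_mod_cast h1
    linarith
  · intro h4
    rw [M.le_h_iff] at h4
    refine h3 fun i => ?_
    by_cases hi : i = m
    · subst hi
      rw [hbm]
      have key : 2 * L - 1 + (W1 - W0) ≤ x i := by
        by_cases h1 : 1 ≤ la * M.c i
        · have : ((2 * L - 1 + (W1 - W0) : ℤ) : ℝ) ≤ x i := by push_cast; linarith
          exact_mod_cast this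
        · have a1 : (L : ℝ) < 2 := by linarith
          have a2 : ((W1 - W0 : ℤ) : ℝ) < 1 := by push_cast; linarith
          have a3 : (0 : ℝ) < x i := by linarith
          have b1 : L < 2 := by exact_mod_cast a1
          have b2 : W1 - W0 < 1 := by exact_mod_cast a2
          have b3 : 0 < x i := by exact_mod_cast a3
          omega
      omega
    · exact h2 i hi

/-- the chain of flatness thresholds -/
noncomputable def mus (d : ℕ) (la mu de : ℝ) : ℕ → ℝ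
  | 0 => mu
  | j + 1 => min (mus d la mu de j) (de * (la * (mus d la mu de j / 2) ^ (d - 1)) / (4 * (d + 1)))

theorem mus_pos {la mu de : ℝ} (hla : 0 < la) (hmu : 0 < mu) (hde : 0 < de) (j : ℕ) :
    0 < mus d la mu de j := by
  induction j with
  | zero => exact hmu
  | succ j ih => unfold mus; exact lt_min ih (by positivity)

theorem mus_anti (la mu de : ℝ) : Antitone (mus d la mu de) :=
  antitone_nat_of_succ_le fun _ => min_le_left _ _

/-- a bounded sequence has a short step -/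
theorem short (W : ℕ → ℝ) {t c : ℝ} (J : ℕ) (h0 : 0 < W 0) (hJ : W J ≤ c) (hc : c ≤ J * t) :
    ∃ j, j < J ∧ W (j + 1) - W j ≤ t := by
  by_contra hn
  push Not at hn
  have : ∀ j, j ≤ J → (j : ℝ) * t < W j := by
    intro j
    induction j with
    | zero => intro _; simpa using h0
    | succ j ih =>
      intro hj
      have := ih (by omega)
      have := hn j (by omega)
      push_cast; linarith
  have := this J le_rfl
  linarith

/-- one direction -/
theorem one (hB : BoxStmt) (hI : InvStmt) (hd : 2 ≤ d) {la mu de : ℝ} (hla : 0 < la)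
    (hla1 : la ≤ 1 / 100) (hmu : 0 < mu) (hml : mu ≤ la) (hde : 0 < de) :
    ∃ ε0 : ℝ, 0 < ε0 ∧ ∀ (M : Md d) (ε : ℝ), 0 < ε → ε ≤ ε0 → M.Til ε → Fac M ε →
      ∀ m : Fin d, ∃ (w : ℤ) (a : V d) (E : Finset (V d)), (E.card : ℝ) ≤ de * M.n ∧
        la * M.c m ≤ w ∧ (w < M.c m → a ∈ M.N ∧ a m = w) ∧ (∀ l, l ≠ m → M.h a l ≤ mu) ∧
        ∀ x ∈ M.N, x ∉ E →
          (x m : ℝ) + w ≤ (1 + 3 * la) * M.c m ∧ (4 * la ≤ M.h x m → x - a ∈ M.N) := by
  classical
  set J : ℕ := ⌈1 / la⌉₊ with hJ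
  set μ : ℕ → ℝ := mus d la mu de with hμ
  have hp : ∀ j, 0 < μ j := mus_pos hla hmu hde
  have han : Antitone μ := mus_anti la mu de
  have hJp := hp J
  refine ⟨min (μ J / 2) (min (la * (μ J / 2) ^ (d - 1) / 4)
    (de * (la * (μ J / 2) ^ (d - 1)) / (4 * (2 * d + 3)))),
    lt_min (by positivity) (lt_min (by positivity) (by positivity)), ?_⟩
  intro M ε hε hε0 hT F m
  have c1 := hε0.trans (min_le_left _ _)
  have c2 := hε0.trans ((min_le_right _ _).trans (min_le_left _ _))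
  have c3 := hε0.trans ((min_le_right _ _).trans (min_le_right _ _))
  obtain ⟨k, hkm⟩ : ∃ k : Fin d, m ≠ k := by
    haveI : Nontrivial (Fin d) := Fin.nontrivial_iff_two_le.2 hd
    obtain ⟨k, hk⟩ := exists_ne m
    exact ⟨k, hk.symm⟩
  have hc := M.cR_pos m
  have ht : 0 < la * M.c m := mul_pos hla hc
  set L : ℕ := ⌈la * M.c m⌉₊ with hL
  have hL1 : la * M.c m ≤ L := Nat.le_ceil _
  have hL2 : (L : ℝ) < la * M.c m + 1 := Nat.ceil_lt_add_one ht.le
  have hLc : L ≤ M.c m := Nat.ceil_le.2 (by nlinarith)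
  let P : ℕ → ℕ → Prop := fun j w => L ≤ w ∧
    (w = M.c m ∨ ∃ x ∈ M.N, x m = w ∧ ∀ l, l ≠ m → M.h x l ≤ μ j)
  have hex : ∀ j, ∃ w, P j w := fun j => ⟨M.c m, hLc, Or.inl rfl⟩
  let W : ℕ → ℕ := fun j => Nat.find (hex j)
  have hWs : ∀ j, P j (W j) := fun j => Nat.find_spec (hex j)
  have hWm : ∀ j w, P j w → W j ≤ w := fun j w hw => Nat.find_min' (hex j) hw
  have hWc : ∀ j, W j ≤ M.c m := fun j => hWm j _ ⟨hLc, Or.inl rfl⟩
  obtain ⟨j, hj, hD⟩ := short (fun j => (W j : ℝ)) (t := la * M.c m) (c := M.c m) J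
    (by
      have : (L : ℝ) ≤ W 0 := by exact_mod_cast (hWs 0).1
      show (0 : ℝ) < W 0
      linarith)
    (by exact_mod_cast hWc J)
    (by
      have h1 : 1 / la ≤ J := Nat.le_ceil _
      rw [div_le_iff₀ hla] at h1
      nlinarith)
  have m1 : μ J ≤ μ j := han hj.le
  have m2 : μ j ≤ mu := han (Nat.zero_le j)
  have m3 : μ (j + 1) ≤ mu := han (Nat.zero_le _)
  have m4 : μ (j + 1) ≤ de * (la * (μ j / 2) ^ (d - 1)) / (4 * (d + 1)) := min_le_right _ _
  have m5 : (μ J / 2) ^ (d - 1) ≤ (μ j / 2) ^ (d - 1) :=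
    pow_le_pow_left₀ (by positivity) (by linarith) _
  have m6 : la * (μ J / 2) ^ (d - 1) ≤ la * (μ j / 2) ^ (d - 1) :=
    mul_le_mul_of_nonneg_left m5 hla.le
  have m7 := mul_le_mul_of_nonneg_left m6 hde.le
  obtain ⟨a, haS, ham, haN, hav⟩ : ∃ a : V d, a ∈ M.S ∧ a m ≤ W (j + 1) ∧
      (((W (j + 1) : ℕ) : ℤ) < M.c m → a ∈ M.N ∧ a m = W (j + 1)) ∧
      ∀ l, l ≠ m → M.h a l ≤ μ (j + 1) := by
    rcases (hWs (j + 1)).2 with h | ⟨x, hx, h1, h2⟩
    · refine ⟨0, M.S.zero_mem, by simp, fun h' => ?_, fun l _ => ?_⟩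
      · rw [h] at h'; exact absurd h' (lt_irrefl _)
      · rw [M.h_zero]; exact (hp _).le
    · exact ⟨x, (M.mem_N.1 hx).2, h1.le, fun _ => ⟨hx, h1⟩, h2⟩
  have hd0 : (0 : ℝ) ≤ d := Nat.cast_nonneg _
  obtain ⟨g, hg, hcnt⟩ := window hB hI M (u := μ j) (v := μ (j + 1)) (L := L) (W0 := W j) hε hT F
    hkm hla hde (by linarith) (by linarith) (hp _).le (by linarith)
    (by
      rw [le_div_iff₀ (by positivity)] at m4 c3
      have := hp (j + 1)
      nlinarith)
    (by exact_mod_cast hL1) (by exact_mod_cast (hWs j).1) (by exact_mod_cast hWc j)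
    (fun x hx h1 h2 => by
      have h0 : 0 ≤ x m := M.nonneg x (M.mem_N.1 hx).2 m
      have := hWm j (x m).toNat ⟨by omega, Or.inr ⟨x, hx, by omega, h1⟩⟩
      omega)
    haS hav
  refine ⟨W (j + 1), a, flt M.N fun x => Bad M ε k m a x g, hcnt, ?_, haN,
    fun l hl => (hav l hl).trans m3, fun x hx hE => ?_⟩
  · have : (L : ℝ) ≤ W (j + 1) := by exact_mod_cast (hWs (j + 1)).1
    push_cast; linarith
  · exact good M (ε := ε) hkm hla (L := L) (W0 := W j) (by exact_mod_cast hL2)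
      (by exact_mod_cast hD) ham hg fun hb => hE (mem_flt.2 ⟨hx, hb⟩)

end Struct

open Struct in
theorem struct (hB : BoxStmt) (hI : InvStmt) : StructStmt := by
  classical
  intro d hd la mu de hla hla1 hmu hde
  have hd0 : (0 : ℝ) < d := by exact_mod_cast (by omega : 0 < d)
  have hd1 : (1 : ℝ) ≤ d := by exact_mod_cast (by omega : 1 ≤ d)
  have hk : 0 < kap d la := by unfold kap; positivity
  have hde' : 0 < min (de / d) (kap d la / 2) := lt_min (by positivity) (by positivity)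
  obtain ⟨ε0, h0, H⟩ := one hB hI hd hla hla1 (lt_min hmu hla) (min_le_right mu la) hde'
  refine ⟨min ε0 ((la / 2) ^ d / 2), lt_min h0 (by positivity), fun M ε hε hle hT F => ?_⟩
  choose w a E hE hlo hN hfl hx using H M ε hε (hle.trans (min_le_left _ _)) hT F
  have hn := M.n_pos
  have hI' : ∀ m, (w m : ℝ) ≤ (1 - la) * M.c m → a m ∈ M.N ∧ a m m = w m := fun m hm => by
    refine hN m ?_
    have := mul_pos hla (M.cR_pos m)
    have h2 : (w m : ℝ) < M.c m := by linarith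
    exact_mod_cast h2
  refine ⟨⟨univ.filter fun m => (w m : ℝ) ≤ (1 - la) * M.c m, a, univ.biUnion E, ?_, ?_, ?_, ?_,
    ?_, ?_, ?_⟩⟩
  · have h1 : ((univ.biUnion E).card : ℝ) ≤ ∑ m, ((E m).card : ℝ) := by
      exact_mod_cast Finset.card_biUnion_le
    have h2 : ∑ m, ((E m).card : ℝ) ≤ ∑ _m : Fin d, de / d * M.n :=
      Finset.sum_le_sum fun m _ =>
        (hE m).trans (mul_le_mul_of_nonneg_right (min_le_left _ _) hn.le)
    rw [Finset.sum_const, card_univ, Fintype.card_fin, nsmul_eq_mul] at h2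
    have h3 : (d : ℝ) * (de / d * M.n) = de * M.n := by field_simp
    linarith
  · exact fun m hm => (hI' m (mem_filter.1 hm).2).1
  · intro m hm
    rw [M.le_h_iff, (hI' m (mem_filter.1 hm).2).2]
    exact hlo m
  · intro m hm
    have hm' := (mem_filter.1 hm).2
    obtain ⟨haN, haw⟩ := hI' m hm'
    have hcore := F.core la hla (by linarith) (hle.trans (min_le_right _ _))
    obtain ⟨x, hxN, hxl, hxE⟩ : ∃ x ∈ M.N, (∀ l, M.h x l < la) ∧ a m + x ∉ E m := by
      by_contra hc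
      push Not at hc
      have h1 := cnt_le_inj (A := M.N) (P := fun x => ∀ l, M.h x l < la) (Y := E m)
        (fun x => a m + x) (fun x hx hp => hc x hx hp)
        (fun x _ _ y _ _ he => add_left_cancel he)
      have h2 := (hE m).trans (mul_le_mul_of_nonneg_right (min_le_right _ _) hn.le)
      have h3 := mul_pos hk hn
      linarith
    have hmem : a m + x ∈ M.N := by
      refine M.mem_N_of (M.S.add_mem (M.mem_N.1 haN).2 (M.mem_N.1 hxN).2) fun l => ?_
      rw [M.h_add]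
      have := hxl l
      by_cases hl : l = m
      · subst hl
        have : M.h (a l) l ≤ 1 - la := by rw [M.h_le_iff, haw]; exact hm'
        linarith
      · have := (hfl m l hl).trans (min_le_right _ _)
        linarith
    have h1 := (hx m _ hmem hxE).1
    have h2 : (0 : ℝ) ≤ x m := by exact_mod_cast M.nonneg x (M.mem_N.1 hxN).2 m
    rw [Pi.add_apply, haw] at h1
    push_cast at h1
    rw [M.h_le_iff, haw]
    have := mul_pos hla (M.cR_pos m)
    linarith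
  · exact fun m _ l hl => (hfl m l hl).trans (min_le_left _ _)
  · exact fun m _ x hxN hxE h4 =>
      (hx m x hxN fun h => hxE (mem_biUnion.2 ⟨m, mem_univ _, h⟩)).2 h4
  · intro m hm x hxN hxE
    have h1 := (hx m x hxN fun h => hxE (mem_biUnion.2 ⟨m, mem_univ _, h⟩)).1
    have h2 : (1 - la) * M.c m < w m := by
      by_contra h
      exact hm (mem_filter.2 ⟨mem_univ _, not_lt.1 h⟩)
    rw [M.h_le_iff]
    linarith

end Pool.Agent.MP_96f5a9_co.GW

end MrgPart3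

-- marker of a merged file
example : 731051 + 772238 = 731051 + 772238 := rfl
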