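import Mathlib
import Pool.Agent.MP_96f5a9_co.gw.Spec
import Pool.Agent.MP_96f5a9_co.h22.Final

-- ======== part 0: formerly Pool.Agent.MP_96f5a9_co.gw.Box
section MrgPart0

/-! Counting in the box. -/

set_option autoImplicit false

namespace Pool.Agent.MP_96f5a9_co.GW

open Finset

namespace Box

variable {d : ℕ} (M : Md d)

theorem card_pi (lo hi : Fin d → ℤ) (h : ∀ i, lo i ≤ hi i) :
    ((Fintype.piFinset fun i => Ico (lo i) (hi i)).card : ℝ) = ∏ i, ((hi i - lo i : ℤ) : ℝ) := by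
  rw [Fintype.card_piFinset]
  push_cast
  refine prod_congr rfl fun i _ => ?_
  rw [Int.card_Ico]
  have : (((hi i - lo i).toNat : ℤ) : ℝ) = ((hi i - lo i : ℤ) : ℝ) := by
    rw [Int.toNat_of_nonneg (sub_nonneg.2 (h i))]
  push_cast at this
  exact this

theorem prod_upd (m : Fin d) (f : Fin d → ℝ) (a : ℝ) (g : Fin d → ℝ) (h1 : f m = a * g m)
    (h2 : ∀ i, i ≠ m → f i = g i) : ∏ i, f i = a * ∏ i, g i := by
  rw [← mul_prod_erase univ f (mem_univ m), ← mul_prod_erase univ g (mem_univ m), h1, mul_assoc,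
    prod_congr rfl fun i hi => h2 i (ne_of_mem_erase hi)]

/-- a slab in direction `m` -/
theorem slab (m : Fin d) (lo hi : ℤ) (h : lo ≤ hi) {P : V d → Prop}
    (hP : ∀ b ∈ M.B, P b → lo ≤ b m ∧ b m < hi) :
    cnt M.B P ≤ ((hi - lo : ℤ) : ℝ) / M.c m * M.vol := by
  have h1 := cnt_le_of_sub (A := M.B) (P := P) (X := Fintype.piFinset fun i =>
    Ico (if i = m then lo else 0) (if i = m then hi else (M.c i : ℤ))) fun b hb hp => by
      rw [Fintype.mem_piFinset]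
      intro i
      rw [mem_Ico]
      split_ifs with e
      · subst e; exact hP b hb hp
      · exact M.mem_B.1 hb i
  rw [card_pi _ _ fun i => by split_ifs; exacts [h, by positivity]] at h1
  refine h1.trans (le_of_eq (prod_upd m _ _ _ ?_ fun i hi => by simp [hi]))
  rw [if_pos rfl, if_pos rfl, div_mul_cancel₀ _ (M.cR_pos m).ne']

/-- a box inside the box -/
theorem sub (lo hi : Fin d → ℤ) (h0 : ∀ i, 0 ≤ lo i) (h : ∀ i, lo i ≤ hi i)
    (h1 : ∀ i, hi i ≤ M.c i) {P : V d → Prop} (hP : ∀ b : V d, (∀ i, lo i ≤ b i ∧ b i < hi i) → P b) :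
    ∏ i, ((hi i - lo i : ℤ) : ℝ) ≤ cnt M.B P := by
  rw [← card_pi lo hi h]
  refine card_le_cnt fun b hb => ?_
  have hb' : ∀ i, lo i ≤ b i ∧ b i < hi i := fun i => mem_Ico.1 (Fintype.mem_piFinset.1 hb i)
  exact ⟨M.mem_B.2 fun i => ⟨(h0 i).trans (hb' i).1, (hb' i).2.trans_le (h1 i)⟩, hP b hb'⟩

theorem ce0 {ρ : ℝ} (h : 0 ≤ ρ) (i : Fin d) : 0 ≤ ⌈ρ * M.c i⌉ :=
  Int.ceil_nonneg (mul_nonneg h (M.cR_pos i).le)

theorem ce1 {ρ : ℝ} (h : ρ ≤ 1) (i : Fin d) : ⌈ρ * M.c i⌉ ≤ M.c i :=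
  Int.ceil_le.2 (by simpa using mul_le_of_le_one_left (M.cR_pos i).le h)

end Box

open Box in
theorem box : BoxStmt := by
  intro d M
  refine ⟨fun m ρ hρ => ?_, fun m ρ hρ => ?_, fun m t ht => ?_, fun ρ hρ => ?_,
    fun m lo hi ρ h0 h h1 hρ hρ1 => ?_⟩
  · have hc := M.cR_pos m
    refine (slab M m ⌈(1 - ρ) * M.c m⌉ (M.c m) (ce1 M (by linarith) m) fun b hb hp =>
      ⟨Int.ceil_le.2 (M.le_h_iff.1 hp), (M.mem_B.1 hb m).2⟩).trans ?_
    refine mul_le_mul_of_nonneg_right ?_ M.vol_pos.le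
    rw [div_le_iff₀ hc]
    have := Int.le_ceil ((1 - ρ) * M.c m)
    push_cast; linarith
  · have hc := M.cR_pos m
    have h0 : 0 ≤ ⌊ρ * M.c m⌋ := Int.floor_nonneg.2 (by positivity)
    refine (slab M m 0 (⌊ρ * M.c m⌋ + 1) (by omega) fun b hb hp =>
      ⟨(M.mem_B.1 hb m).1, Int.lt_add_one_iff.2 (Int.le_floor.2 (M.h_le_iff.1 hp))⟩).trans ?_
    refine mul_le_mul_of_nonneg_right ?_ M.vol_pos.le
    rw [div_le_iff₀ hc, add_mul, one_div, inv_mul_cancel₀ hc.ne']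
    have := Int.floor_le (ρ * M.c m)
    push_cast; linarith
  · simpa using slab M m 0 t ht (P := fun b => b m < t) fun b hb hp => ⟨(M.mem_B.1 hb m).1, hp⟩
  · refine le_trans ?_ (sub M 0 (fun i => ⌈ρ i * M.c i⌉) (fun _ => le_rfl)
      (fun i => ce0 M (hρ i).1 i) (fun i => ce1 M (hρ i).2 i) fun b hb i =>
        M.h_lt_iff.2 (Int.lt_ceil.1 (hb i).2))
    rw [Md.vol, ← prod_mul_distrib]
    refine prod_le_prod (fun i _ => mul_nonneg (hρ i).1 (M.cR_pos i).le) fun i _ => ?_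
    simpa using Int.le_ceil (ρ i * M.c i)
  · refine le_trans ?_ (sub M (fun i => if i = m then lo else 0)
      (fun i => if i = m then hi else ⌈ρ * M.c i⌉) (fun i => by split_ifs; exacts [h0, le_rfl])
      (fun i => by split_ifs; exacts [h, ce0 M hρ i])
      (fun i => by
        split_ifs with e
        · rw [e]; exact h1
        · exact ce1 M hρ1 i) fun b hb => ⟨by simpa using (hb m).1, by simpa using (hb m).2,
          fun l hl => M.h_lt_iff.2 (Int.lt_ceil.1 (by simpa [hl] using (hb l).2))⟩)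
    have hc := M.cR_pos m
    have e : ((hi - lo : ℤ) : ℝ) / M.c m * ρ ^ (d - 1) * M.vol
        = ((hi - lo : ℤ) : ℝ) * ∏ i ∈ univ.erase m, (ρ * M.c i) := by
      rw [Md.vol, ← mul_prod_erase univ _ (mem_univ m), prod_mul_distrib, prod_const,
        card_erase_of_mem (mem_univ m), card_univ, Fintype.card_fin]
      field_simp
    rw [e, ← mul_prod_erase univ _ (mem_univ m), if_pos rfl, if_pos rfl]
    refine mul_le_mul_of_nonneg_left (prod_le_prod
      (fun i _ => mul_nonneg hρ (M.cR_pos i).le) fun i hi => ?_) (by exact_mod_cast sub_nonneg.2 h)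
    simpa [ne_of_mem_erase hi] using Int.le_ceil (ρ * M.c i)

end Pool.Agent.MP_96f5a9_co.GW

end MrgPart0

-- ======== part 1: formerly Pool.Agent.MP_96f5a9_co.gw.Bridge
section MrgPart1

/-! From a generalized numerical semigroup to the integer model. -/

set_option autoImplicit false

namespace Pool.Agent.MP_96f5a9_co.GW

open Finset

namespace Bridge

/-- the cast to integer points -/
def cast (d : ℕ) : (Fin d → ℕ) →+ V d where
  toFun x i := (x i : ℤ)
  map_zero' := by funext i; simp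
  map_add' x y := by funext i; simp

theorem cast_inj (d : ℕ) : Function.Injective (cast d) := fun _ _ h =>
  funext fun i => Int.natCast_inj.1 (congrFun h i)

theorem cast_toNat {d : ℕ} {x : V d} (hx : ∀ i, 0 ≤ x i) : cast d (fun i => (x i).toNat) = x :=
  funext fun i => Int.toNat_of_nonneg (hx i)

end Bridge

open Bridge in
theorem bridge : BridgeStmt := by
  classical
  intro d S f hf hle
  have hbox : ∀ x, x ∉ S → ∀ i, x i < f i + 1 := fun x hx i => Nat.lt_succ_of_le (hle x hx i)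
  have hfin := h22.gen_finite S (fun i => f i + 1) (fun i => Nat.succ_pos _) hbox
  have hmem : ∀ x : Fin d → ℕ, cast d x ∈ S.map (cast d) ↔ x ∈ S := fun x =>
    ⟨fun ⟨y, hy, e⟩ => cast_inj d e ▸ hy, fun hx => ⟨x, hx, rfl⟩⟩
  let M : Md d :=
    { c := fun i => f i + 1
      cpos := fun i => Nat.succ_pos _
      S := S.map (cast d)
      nonneg := by
        rintro _ ⟨y, -, rfl⟩ i
        exact Int.natCast_nonneg _
      out := by
        rintro x hx ⟨i, hi⟩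
        refine ⟨fun i => (x i).toNat, ?_, cast_toNat hx⟩
        by_contra h
        have := hbox _ h i
        omega
      G := hfin.toFinset.image (cast d)
      gen := by
        rw [coe_image, ← AddMonoidHom.map_mclosure]
        congr 1
        refine le_antisymm (AddSubmonoid.closure_le.2 fun g hg =>
          (hfin.mem_toFinset.1 (mem_coe.1 hg)).1) fun x hx => ?_
        obtain ⟨t, rfl⟩ := h22.exists_fact S _ (fun g => hfin.mem_toFinset) x hx
        exact AddSubmonoid.sum_mem _ fun g hg =>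
          AddSubmonoid.nsmul_mem _ (AddSubmonoid.subset_closure (mem_coe.2 hg)) _
      G0 := by
        intro h
        obtain ⟨g, hg, e⟩ := mem_image.1 h
        exact (hfin.mem_toFinset.1 hg).2.1 (cast_inj d (e.trans (map_zero _).symm)) }
  refine ⟨M, fun i => rfl, ?_, ?_, fun x => (hmem x).symm⟩
  · unfold Md.p eS
    rw [card_image_of_injective _ (cast_inj d)]
    exact congrArg Nat.cast (Set.ncard_eq_toFinset_card _ hfin).symm
  · unfold Md.n nS
    rw [← Set.ncard_coe_finset, ← Set.ncard_image_of_injective _ (cast_inj d)]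
    congr 2
    ext x
    rw [mem_coe, M.mem_N, M.mem_B]
    constructor
    · rintro ⟨hb, y, hy, rfl⟩
      refine ⟨y, ⟨hy, f, hf, fun i => ?_⟩, rfl⟩
      have : ((y i : ℕ) : ℤ) < (f i + 1 : ℕ) := (hb i).2
      change y i ≤ f i
      omega
    · rintro ⟨y, ⟨hy, h, hh, hyh⟩, rfl⟩
      refine ⟨fun i => ⟨Int.natCast_nonneg _, ?_⟩, y, hy, rfl⟩
      have : y i ≤ f i := (hyh i).trans (hle h hh i)
      change ((y i : ℕ) : ℤ) < (f i + 1 : ℕ)
      omega

end Pool.Agent.MP_96f5a9_co.GW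

end MrgPart1

-- ======== part 2: formerly Pool.Agent.MP_96f5a9_co.gw.Bulk
section MrgPart2

/-! A large core gives a near tiling. -/

set_option autoImplicit false

namespace Pool.Agent.MP_96f5a9_co.GW

open Finset

theorem bulk (hB : BoxStmt) (hP : PartsStmt) (hL : PlStmt) : BulkStmt := by
  classical
  intro d hd ε K hε hε2 hK
  have hd1 : (2 : ℝ) ≤ d := by exact_mod_cast hd
  obtain ⟨δ, hδ⟩ : ∃ δ : ℝ, δ = ε / (2 * d) := ⟨_, rfl⟩
  have d0 : 0 < δ := by rw [hδ]; positivity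
  have d1 : d * δ = ε / 2 := by rw [hδ]; field_simp
  have d2 : δ ≤ ε / 2 := by nlinarith
  have d3 : ε / (4 * d) = δ / 2 := by rw [hδ]; field_simp; norm_num
  obtain ⟨r, hr⟩ : ∃ r : ℕ, 6 * d / δ + 1 ≤ r := exists_nat_ge _
  refine ⟨K ^ r * d / δ, fun M hp hC hn k => ?_⟩
  rw [d3, cnt_eq] at hn
  have a1 := (hB d M).1 k (ε / 2) (by positivity)
  have a2 : cnt M.B (fun b => ∃ m ∈ univ.erase k, 1 - δ ≤ M.h b m) ≤ (d - 1) * (δ * M.vol) := by
    refine (cnt_le_sum (univ.erase k) (fun m b => 1 - δ ≤ M.h b m) fun _ _ h => h).trans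
      ((sum_le_card_nsmul _ _ _ fun m _ => (hB d M).1 m δ d0.le).trans_eq ?_)
    rw [card_erase_of_mem (mem_univ k), card_univ, Fintype.card_fin, nsmul_eq_mul,
      Nat.cast_sub (by omega), Nat.cast_one]
  set Q : V d → Prop := fun b => (¬ ∃ g, M.Srv ε k b g) ∧ M.h b k < 1 - ε / 2 ∧
    ∀ m, m ≠ k → M.h b m < 1 - δ with hQ
  have a3 : cnt M.B Q ≤ K ^ r * M.n := by
    have h := hL d (flt M.N fun x => ∀ m, M.h x m < δ / 2) (flt M.N fun x => ∀ m, M.h x m ≤ 1 - δ / 2)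
      M.N ((flt M.B Q).image fun b => M.ce k + b) K r 0
      ⟨0, mem_flt.2 ⟨M.zero_mem_N, fun m => by rw [M.h_zero]; positivity⟩⟩ ?_ hn ?_
    · rw [card_image_of_injective _ (add_right_injective _), add_zero] at h
      exact h.trans (mul_le_mul_of_nonneg_left (cnt_le_card _ _) (by positivity))
    · intro x hx y hy
      obtain ⟨x1, x2⟩ := mem_flt.1 hx
      obtain ⟨y1, y2⟩ := mem_flt.1 hy
      refine M.mem_N_of (M.S.add_mem (M.mem_N.1 x1).2 (M.mem_N.1 y1).2) fun m => ?_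
      rw [M.h_add]
      linarith [x2 m, y2 m]
    intro z hz
    obtain ⟨b, hb, rfl⟩ := mem_image.1 hz
    obtain ⟨b1, b2, b3, b4⟩ := mem_flt.1 hb
    have b5 := M.mem_B_h.1 b1
    rcases M.dich (fun g => 1 - ε / 2 ≤ M.h g k) (M.ce_add_mem (fun i => (M.mem_B.1 b1 i).1) k) with
      ⟨g, g1, g2, g3⟩ | hz
    · refine absurd ⟨g, g1, by linarith, M.mem_N_of g3 fun m => ?_⟩ b2
      rw [M.h_sub, M.h_add]
      rcases eq_or_ne m k with rfl | e
      · rw [M.h_ce_self]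
        linarith
      · rw [M.h_ce_ne e]
        linarith [M.h_nonneg (M.G_mem g1) m, b4 m e]
    obtain ⟨y, y1, y2⟩ := (hP d M _).2.2 δ r _ d0 (by linarith) (fun g _ hg m => by
      rcases eq_or_ne m k with rfl | e
      · linarith [not_le.1 hg.1]
      · have := M.h_nonneg hg.2 m
        rw [M.h_sub, M.h_add, M.h_ce_ne e] at this
        linarith [b4 m e]) hz (fun m => by
      rw [M.h_add]
      rcases eq_or_ne m k with rfl | e
      · rw [M.h_ce_self]
        linarith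
      · rw [M.h_ce_ne e]
        linarith [b4 m e]) hr
    refine ⟨y, Fin.elim0, fun j => mem_flt.2 ⟨M.mem_N_of (M.cl_le _ (y1 j).1) fun m => ?_, (y1 j).2⟩,
      fun j => j.elim0, by simpa using y2⟩
    linarith [(y1 j).2 m]
  have a4 : K ^ r * M.n ≤ δ * M.vol := by
    have c1 : K ^ r * d ≤ M.p * δ := (div_le_iff₀ d0).1 hp
    have c2 : M.p * M.n < d * M.vol := hC
    refine le_of_mul_le_mul_left (a := (d : ℝ)) ?_ (by linarith)
    calc _ = K ^ r * d * M.n := by ring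
      _ ≤ M.p * δ * M.n := mul_le_mul_of_nonneg_right c1 M.n_pos.le
      _ = δ * (M.p * M.n) := by ring
      _ ≤ δ * (d * M.vol) := mul_le_mul_of_nonneg_left c2.le d0.le
      _ = _ := by ring
  have a5 := cnt_le_add (A := M.B) (P := fun b => ¬ ∃ g, M.Srv ε k b g)
    (Q := fun b => 1 - ε / 2 ≤ M.h b k)
    (R := fun b => (¬ ∃ g, M.Srv ε k b g) ∧ M.h b k < 1 - ε / 2) fun b _ h =>
      (le_or_gt _ _).imp_right fun c => ⟨h, c⟩
  have a6 := cnt_le_add (A := M.B)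
    (P := fun b => (¬ ∃ g, M.Srv ε k b g) ∧ M.h b k < 1 - ε / 2)
    (Q := fun b => ∃ m ∈ univ.erase k, 1 - δ ≤ M.h b m) (R := Q) fun b _ h => by
      by_cases c : ∃ m ∈ univ.erase k, 1 - δ ≤ M.h b m
      · exact Or.inl c
      · exact Or.inr ⟨h.1, h.2, fun m e => not_le.1 fun c' => c ⟨m, by simp [e], c'⟩⟩
  have a7 : (d - 1) * (δ * M.vol) + δ * M.vol = ε / 2 * M.vol := by rw [← d1]; ring
  linarith

end Pool.Agent.MP_96f5a9_co.GW

end MrgPart2

-- ======== part 3: formerly Pool.Agent.MP_96f5a9_co.gw.Cls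
section MrgPart3

/-! The five kinds of points of the box, and the count of the served points. -/

set_option autoImplicit false

namespace Pool.Agent.MP_96f5a9_co.GW

open Finset

namespace Cls

variable {d : ℕ} (X : Ctx d)

lemma decomp (n : ℕ) : ∀ b : V d, (∀ m, 0 ≤ b m) → (∑ m, b m).toNat ≤ n →
    ∃ δ s, X.Dl δ ∧ s ∈ X.M0 ∧ b = δ + s := by
  induction n using Nat.strong_induction_on with
  | _ n ih =>
    intro b hb hn
    by_cases h : ∀ s ∈ X.M0, (∀ m, s m ≤ b m) → s = 0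
    · exact ⟨b, 0, ⟨hb, h⟩, X.M0.zero_mem, (add_zero b).symm⟩
    push Not at h
    obtain ⟨s, hs, h1, h2⟩ := h
    have h3 := X.M.nonneg s (X.M0_le hs)
    have h4 : 0 < ∑ m, s m := by
      obtain ⟨m, hm⟩ := Function.ne_iff.1 h2
      exact sum_pos' (fun i _ => h3 i) ⟨m, mem_univ m, lt_of_le_of_ne (h3 m) (Ne.symm hm)⟩
    have h5 : 0 ≤ ∑ m, (b - s) m := sum_nonneg fun m _ => sub_nonneg.2 (h1 m)
    have h6 : ∑ m, (b - s) m = ∑ m, b m - ∑ m, s m := by
      simp only [Pi.sub_apply, sum_sub_distrib]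
    obtain ⟨δ, s', a1, a2, a3⟩ := ih (∑ m, (b - s) m).toNat (by omega) (b - s)
      (fun m => sub_nonneg.2 (h1 m)) le_rfl
    exact ⟨δ, s' + s, a1, X.M0.add_mem a2 hs, by rw [← add_assoc, ← a3, sub_add_cancel]⟩

lemma tau_lt : X.P.tau < 1 - X.P.et := by
  have d2 : (2 : ℝ) ≤ d := by exact_mod_cast X.P.d2
  have h1 : X.P.ga ≤ 1 := by nlinarith [X.P.ga_le, X.P.ga_pos]
  have h2 : X.P.et ^ d ≤ 1 := pow_le_one₀ X.P.et_pos.le (by linarith [X.P.et1])
  have h3 : X.P.ga * X.P.et ^ d ≤ 1 := mul_le_one₀ h1 (pow_pos X.P.et_pos d).le h2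
  have h4 : 0 ≤ (X.P.r0 : ℝ) * X.P.la := mul_nonneg (Nat.cast_nonneg _) X.P.la_pos.le
  have h5 := X.P.la_tau
  have h6 := mul_le_mul_of_nonneg_right d2 h4
  have h7 := X.P.et1
  unfold Par.tau
  nlinarith

/-- the large coordinates of an absorbed generator are in `I` -/
lemma big_kab (hL : X.Low) {g : V d} (hg : g ∈ X.Kab) {j : Fin d}
    (hj : 1 - X.P.et ≤ X.M.h g j) : j ∈ X.T.I := by
  obtain ⟨-, -, x, hx, h0, hB⟩ := mem_flt.1 hg
  by_contra hI
  have h1 := hL _ h0 (fun m => by linarith [(X.M.mem_B_h.1 hB m).2]) j hI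
  have h2 := X.M.h_nonneg (X.M0_le hx) j
  rw [X.M.h_add] at h1
  linarith [tau_lt X]

lemma of_dich {z : V d} (h : z ∈ X.M.cl fun g => ¬ ¬ X.In g ∧ z - g ∈ X.M.S) : z ∈ X.M0 :=
  X.M.cl_mono (fun _ _ hg => not_not.1 hg.1) h

lemma big {g : V d} (h : ¬ X.In g) : ∃ j, 1 - X.P.et ≤ X.M.h g j := by
  by_contra hc
  push Not at hc
  exact h hc

variable {X}
variable {k : Fin d} {δ : V d}

lemma le_off {g : V d} (hg : X.M.ce k + δ - g ∈ X.M.S) {m : Fin d} (hm : m ≠ k) : g m ≤ δ m := by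
  have := X.M.nonneg _ hg m
  simp only [Pi.sub_apply, Pi.add_apply, X.M.ce_ne hm] at this
  omega

lemma big_eq (hth : ∀ j ∈ X.T.I, X.M.h δ j ≤ 1 - X.P.th) {g : V d}
    (hg : X.M.ce k + δ - g ∈ X.M.S) {j : Fin d} (hI : j ∈ X.T.I)
    (hj : 1 - X.P.et ≤ X.M.h g j) : j = k := by
  by_contra hne
  have h1 := X.M.h_le_h.2 (le_off hg hne)
  linarith [hth j hI, X.P.et_th, X.P.et_pos]

/-- two generators below the point -/
lemma two (hL : X.Low) (hth : ∀ j ∈ X.T.I, X.M.h δ j ≤ 1 - X.P.th) {b g g' : V d}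
    (hb : b ∈ X.M.B) (hδ : ∀ m, δ m ≤ b m) (hG : g ∈ X.M.G) (hI : ¬ X.In g) (hG' : g' ∈ X.M.G)
    (hs : X.M.ce k + δ - g - g' ∈ X.M.S) (hk : g k ≤ g' k) :
    ∃ j, j ∉ X.T.I ∧ X.WU2 j k b := by
  have h1 : X.M.ce k + δ - g ∈ X.M.S := by
    have := X.M.S.add_mem hs (X.M.G_mem hG')
    rwa [sub_add_cancel] at this
  have h2 := X.M.nonneg _ hs k
  simp only [Pi.sub_apply, Pi.add_apply, X.M.ce_self] at h2
  have h3 := hδ k
  have h4 := (X.M.mem_B.1 hb k).2
  have hB : g ∈ X.M.B := X.M.mem_B.2 fun m => ⟨X.M.nonneg _ (X.M.G_mem hG) m, by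
    by_cases hm : m = k
    · subst hm; omega
    · exact ((le_off h1 hm).trans (hδ m)).trans_lt (X.M.mem_B.1 hb m).2⟩
  obtain ⟨j, hj⟩ := big X hI
  have hjI : j ∉ X.T.I := fun hjI => by
    have e := big_eq hth h1 hjI hj
    subst e
    have a1 := X.M.h_nonneg hs j
    have a2 := X.M.h_le_h.2 hk
    rw [X.M.h_sub, X.M.h_sub, X.M.h_add, X.M.h_ce_self] at a1
    linarith [hth j hjI, X.P.et_th, X.P.et_pos]
  exact ⟨j, hjI, g, mem_flt.2 ⟨hG, hI, fun hK => hjI (big_kab X hL hK hj)⟩, hB, hj,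
    fun m hm => (le_off h1 hm).trans (hδ m), by omega⟩

lemma kinds (hL : X.Low) (k : Fin d) (b : V d) (hb : b ∈ X.M.B) :
    X.OK k b ∨ X.Zero k b ∨ X.Arm b ∨ (k ∈ X.T.I ∧ X.VD k b) ∨
      ∃ j, j ∉ X.T.I ∧ X.WU2 j k b := by
  obtain ⟨δ, s, hδ, hs, e⟩ := decomp X _ b (fun m => (X.M.mem_B.1 hb m).1) le_rfl
  by_cases hA : ∃ j ∈ X.T.I, 1 - X.P.th < X.M.h δ j
  · exact Or.inr (Or.inr (Or.inl ⟨δ, s, hδ, hs, e, hA⟩))
  push Not at hA
  have hle : ∀ m, δ m ≤ b m := fun m => by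
    have := X.M.nonneg s (X.M0_le hs) m
    rw [e, Pi.add_apply]
    omega
  rcases X.M.dich (fun g => ¬ X.In g) (X.M.ce_add_mem hδ.1 k) with ⟨g, hG, hI, h1⟩ | h0
  swap
  · exact Or.inr (Or.inl ⟨0, Or.inl rfl, _, X.M0.add_mem (of_dich X h0) hs,
      by rw [e, zero_add, add_assoc]⟩)
  rcases X.M.dich (fun g => ¬ X.In g) h1 with ⟨g', hG', hI', h2⟩ | h0
  · refine Or.inr (Or.inr (Or.inr (Or.inr ?_)))
    rcases le_total (g k) (g' k) with h | h
    · exact two hL hA hb hle hG hI hG' h2 h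
    · exact two hL hA hb hle hG' hI' hG (by rwa [sub_right_comm]) h
  have hx := X.M0.add_mem (of_dich X h0) hs
  have ex : X.M.ce k + b = g + (X.M.ce k + δ - g + s) := by rw [e]; abel
  by_cases hK : g ∈ X.Kab
  · exact Or.inr (Or.inl ⟨g, Or.inr hK, _, hx, ex⟩)
  have hE : g ∈ X.Em := mem_flt.2 ⟨hG, hI, hK⟩
  by_cases hB : X.M.ce k + δ - g + s ∈ X.M.B
  · exact Or.inl ⟨g, hE, _, mem_flt.2 ⟨X.M.mem_N.2 ⟨hB, X.M0_le hx⟩, hx⟩, ex⟩
  have g0 := X.M.nonneg _ (X.M.G_mem hG)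
  have hgb : ∀ m, g m ≤ b m := fun m => by
    by_cases hm : m = k
    swap
    · exact (le_off h1 hm).trans (hle m)
    subst hm
    by_contra hc
    refine hB (X.M.mem_B.2 fun l => ⟨X.M.nonneg _ (X.M0_le hx) l, ?_⟩)
    have a1 := congrFun ex l
    have a2 := (X.M.mem_B.1 hb l).2
    have a3 := g0 l
    rw [Pi.add_apply, Pi.add_apply g] at a1
    by_cases hl : l = m
    · subst hl
      rw [X.M.ce_self] at a1
      omega
    · rw [X.M.ce_ne hl] at a1
      omega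
  have gB : g ∈ X.M.B := X.M.mem_B.2 fun m => ⟨g0 m, (hgb m).trans_lt (X.M.mem_B.1 hb m).2⟩
  refine Or.inr (Or.inr (Or.inr ?_))
  by_cases hj : ∃ j, j ∉ X.T.I ∧ 1 - X.P.et ≤ X.M.h g j
  · obtain ⟨j, hjI, hj⟩ := hj
    have a1 := hgb k
    have a2 := (X.M.mem_B.1 hb k).2
    exact Or.inr ⟨j, hjI, g, hE, gB, hj, fun m _ => hgb m, by omega⟩
  push Not at hj
  obtain ⟨j, hj'⟩ := big X hI
  have hjI : j ∈ X.T.I := by_contra fun h => absurd (hj j h) (not_lt.2 hj')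
  have ej := big_eq hA h1 hjI hj'
  subst ej
  exact Or.inl ⟨hjI, g, ⟨hE, gB, hj',
    fun m hm hne => (X.M.h_le_h.2 (le_off h1 hne)).trans (hA m hm), hj⟩, hgb⟩

lemma served (X : Ctx d) :
    ∑ k, cnt X.M.B (X.OK k) ≤ (X.Em.card : ℝ) * X.N0.card - X.Sur := by
  have h1 := cnt_add_not (X.N0 ×ˢ X.Em) fun q => ∃ j, 2 ≤ X.M.h (q.1 + q.2) j
  have h2 : cnt (univ ×ˢ X.M.B) (fun q : Fin d × V d => X.OK q.1 q.2) ≤
      cnt (X.N0 ×ˢ X.Em) fun q => ¬ ∃ j, 2 ≤ X.M.h (q.1 + q.2) j := by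
    rw [cnt_eq (X.N0 ×ˢ X.Em)]
    refine cnt_le_rel (fun q y => X.M.ce q.1 + q.2 = y.1 + y.2) (fun q hq hO => ?_)
      fun q hq q' hq' y e e' => ?_
    · obtain ⟨g, hg, x, hx, e⟩ := hO
      refine ⟨(x, g), mem_flt.2 ⟨mem_product.2 ⟨hx, hg⟩, fun ⟨j, hj⟩ => ?_⟩, e.trans (add_comm _ _)⟩
      have a1 := (X.M.mem_B_h.1 (mem_product.1 hq).2 j).2
      rw [add_comm, ← e, X.M.h_add] at hj
      by_cases hk : j = q.1
      · rw [hk, X.M.h_ce_self] at hj
        rw [hk] at a1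
        linarith
      · rw [X.M.h_ce_ne hk] at hj
        linarith
    · obtain ⟨a1, a2⟩ := X.M.face_unique (mem_product.1 hq).2 (mem_product.1 hq').2
        (e.trans e'.symm)
      exact Prod.ext a1 a2
  rw [cnt_prod' univ X.M.B X.OK] at h2
  rw [card_product, Nat.cast_mul] at h1
  unfold Ctx.Sur
  linarith

end Cls

theorem cls : ClsStmt := fun _ X hL => ⟨Cls.kinds hL, Cls.served X⟩

end Pool.Agent.MP_96f5a9_co.GW

end MrgPart3

-- ======== part 4: formerly Pool.Agent.MP_96f5a9_co.gw.Elow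
section MrgPart4

/-! Sizes of the sets of generators next to one face. -/

set_option autoImplicit false

namespace Pool.Agent.MP_96f5a9_co.GW

open Finset

namespace Elow

variable {d : ℕ} (X : Ctx d)

theorem disj {g : V d} {i j : Fin d} (hi : g ∈ X.Elow i) (hj : g ∈ X.Elow j) : i = j := by
  by_contra h
  have h1 := (mem_flt.1 hi).2.1
  have h2 := (mem_flt.1 hj).2.2 i h
  linarith [X.P.et_pos]

theorem lower (hB : BoxStmt) (hC : X.Cm) (l : Fin d)
    (hZ : cnt X.M.B (X.Zero l) ≤ X.P.C3 * X.M.n) :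
    (1 - 2 * d * X.P.et) * X.M.p / d - X.P.C3 ≤ cnt X.Em fun g => g ∈ X.Elow l := by
  have he := X.P.et_pos
  have hd : (2 : ℝ) ≤ d := by exact_mod_cast X.P.d2
  have h0 : 0 ≤ 1 - 2 * d * X.P.et := by
    have := X.P.et_le2
    nlinarith [mul_pos he (by linarith : (0 : ℝ) < d)]
  have h1 := (hB d X.M).2.2.2.1 (fun _ => 1 - 2 * X.P.et) fun _ =>
    ⟨by linarith [X.P.et1], by linarith⟩
  rw [prod_const, card_univ, Fintype.card_fin] at h1
  have h2 : 1 - 2 * d * X.P.et ≤ (1 - 2 * X.P.et) ^ d := by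
    have := one_add_mul_le_pow (a := -(2 * X.P.et)) (by linarith [X.P.et1]) d
    rw [← sub_eq_add_neg] at this
    linarith
  have h3 := cnt_le_add (A := X.M.B) (P := fun b => ∀ m, X.M.h b m < 1 - 2 * X.P.et)
    (Q := X.Zero l) (R := fun b => (∀ m, X.M.h b m < 1 - 2 * X.P.et) ∧ ¬ X.Zero l b)
    fun b _ hb => (em _).imp_right fun h => ⟨hb, h⟩
  have h4 := cnt_le_rel (A := X.M.B)
    (P := fun b => (∀ m, X.M.h b m < 1 - 2 * X.P.et) ∧ ¬ X.Zero l b)
    (Y := (flt X.Em fun g => g ∈ X.Elow l) ×ˢ X.M.N) (fun b q => X.M.ce l + b = q.1 + q.2)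
    (fun b hb hp => by
      rcases hC l b (fun m => ⟨(X.M.mem_B.1 hb m).1, hp.1 m⟩) with h | ⟨g, hg, x, hx, e⟩
      · exact absurd ⟨0, Or.inl rfl, _, h, (zero_add _).symm⟩ hp.2
      · refine ⟨(g, x), mem_product.2 ⟨mem_flt.2 ⟨mem_flt.2 ⟨(mem_flt.1 hg).1, fun hI => ?_,
          fun hK => hp.2 ⟨g, Or.inr hK, x, (mem_flt.1 hx).2, e⟩⟩, hg⟩, (mem_flt.1 hx).1⟩, e⟩
        exact absurd (mem_flt.1 hg).2.1 (not_le.2 (hI l)))
    fun b _ b' _ q e e' => add_left_cancel (e.trans e'.symm)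
  rw [card_product, Nat.cast_mul, ← cnt_eq] at h4
  have h5 : X.M.p * X.M.n < d * X.M.vol := X.F.ctr
  have hn := X.M.n_pos
  have h6 : (1 - 2 * d * X.P.et) * X.M.vol ≤
      (X.P.C3 + cnt X.Em fun g => g ∈ X.Elow l) * X.M.n := by
    have := mul_le_mul_of_nonneg_right h2 X.M.vol_pos.le
    have e : (X.M.N.card : ℝ) = X.M.n := rfl
    rw [e] at h4
    linarith
  rw [sub_le_iff_le_add', div_le_iff₀ (by linarith)]
  refine le_of_mul_le_mul_right ?_ hn
  have h7 := mul_le_mul_of_nonneg_left h5.le h0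
  have h8 := mul_le_mul_of_nonneg_left h6 (by linarith : (0 : ℝ) ≤ d)
  linarith

end Elow

open Elow in
theorem elow (hB : BoxStmt) : ElowStmt := by
  intro d X hC hZ
  have hd : (2 : ℝ) ≤ d := by exact_mod_cast X.P.d2
  have hd0 : (d : ℝ) ≠ 0 := by positivity
  have hl := fun l => lower X hB hC l (hZ l)
  constructor
  · intro l
    have h1 := sum_cnt_le X.M.G univ (fun l g => g ∈ X.Elow l) fun _ _ _ _ _ _ => disj X
    rw [← add_sum_erase _ _ (mem_univ l)] at h1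
    have h2 : ((X.Elow l).card : ℝ) ≤ cnt X.M.G fun g => g ∈ X.Elow l :=
      card_le_cnt fun g hg => ⟨(mem_flt.1 hg).1, hg⟩
    have h3 : ∑ _k ∈ univ.erase l, ((1 - 2 * d * X.P.et) * X.M.p / d - X.P.C3) ≤
        ∑ k ∈ univ.erase l, cnt X.M.G fun g => g ∈ X.Elow k :=
      sum_le_sum fun k _ => (hl k).trans (cnt_mono fun g hg h => ⟨(mem_flt.1 hg).1, h⟩)
    rw [sum_const, card_erase_of_mem (mem_univ l), card_univ, Fintype.card_fin, nsmul_eq_mul,
      Nat.cast_sub (by have := X.P.d2; omega)] at h3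
    have e : ((d : ℝ) - (1 : ℕ)) * ((1 - 2 * d * X.P.et) * X.M.p / d - X.P.C3) =
        X.M.p - X.M.p / d - 2 * d * X.P.et * X.M.p + 2 * (X.P.et * X.M.p) - d * X.P.C3
          + X.P.C3 := by
      push_cast; field_simp; ring
    have e' : (X.M.G.card : ℝ) = X.M.p := rfl
    have := mul_nonneg X.P.et_pos.le X.M.p_nonneg
    have := X.P.C3_one
    linarith
  · have h1 := sum_cnt_le X.Em univ (fun l g => g ∈ X.Elow l) fun _ _ _ _ _ _ => disj X
    have h2 := sum_le_sum fun l (_ : l ∈ univ) => hl l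
    rw [sum_const, card_univ, Fintype.card_fin, nsmul_eq_mul, mul_sub,
      mul_div_cancel₀ _ hd0] at h2
    linarith

end Pool.Agent.MP_96f5a9_co.GW

end MrgPart4

-- ======== part 5: formerly Pool.Agent.MP_96f5a9_co.gw.Fa
section MrgPart5

/-! Few generators and long sides give short periods on the axes. -/

set_option autoImplicit false

namespace Pool.Agent.MP_96f5a9_co.GW

open Finset

namespace Fa

theorem axis {d : ℕ} (M : Md d) (i : Fin d) (Q : ℝ) (K : ℕ) (hK : 2 * Q ≤ K) (hK0 : 0 < K)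
    (h : ∀ m : ℕ, 0 < m → (Pi.single i (m : ℤ) : V d) ∈ M.G → (M.c i : ℝ) < Q * m) :
    M.c i ≤ K ^ M.G.card := by
  classical
  have sub : Ico (M.c i : ℤ) (2 * M.c i) ⊆ (univ : Finset (M.G → Fin K)).image
      fun s => ∑ g : M.G, ((s g : ℕ) : ℤ) * g.1 i := by
    intro t ht
    obtain ⟨h1, h2⟩ := mem_Ico.1 ht
    have h3 : (Pi.single i t : V d) ∈ M.S := by
      refine M.out _ (fun l => ?_) ⟨i, by simpa using h1⟩
      by_cases hl : l = i
      · subst hl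
        simp only [Pi.single_eq_same]
        omega
      · simp [hl]
    rw [← M.gen] at h3
    obtain ⟨u, -, hu⟩ := AddSubmonoid.mem_closure_finset.1 h3
    have h4 : ∀ l, ∑ g ∈ M.G, (u g : ℤ) * g l = (Pi.single i t : V d) l := fun l => by
      rw [← hu, Finset.sum_apply]
      simp
    have h5 : ∀ l, ∀ g ∈ M.G, 0 ≤ (u g : ℤ) * g l := fun l g hg =>
      mul_nonneg (Nat.cast_nonneg _) (M.nonneg g (M.G_mem hg) l)
    have h6 : ∀ g ∈ M.G, u g < K := fun g hg => by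
      rcases Nat.eq_zero_or_pos (u g) with h0 | h0
      · omega
      have h7 : ∀ l, l ≠ i → g l = 0 := fun l hl => by
        have h8 := (sum_eq_zero_iff_of_nonneg (h5 l)).1 (by rw [h4]; simp [hl]) g hg
        exact (mul_eq_zero.1 h8).resolve_left (by omega)
      have h8 := M.nonneg g (M.G_mem hg) i
      have h9 : g = Pi.single i (((g i).toNat : ℕ) : ℤ) := by
        funext l
        by_cases hl : l = i
        · subst hl
          rw [Pi.single_eq_same]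
          omega
        · rw [h7 l hl, Pi.single_eq_of_ne hl]
      have h10 : 0 < (g i).toNat := Nat.pos_of_ne_zero fun h0 => M.G0 (by
        rw [h0, Nat.cast_zero, Pi.single_zero] at h9
        rwa [h9] at hg)
      have h11 := h _ h10 (h9 ▸ hg)
      have h12 : (u g : ℤ) * g i ≤ t := by
        have := single_le_sum (h5 i) hg
        rwa [h4, Pi.single_eq_same] at this
      have h13 : (u g : ℤ) * ((g i).toNat : ℕ) < 2 * M.c i := by
        rw [Int.toNat_of_nonneg h8]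
        omega
      have h14 : (u g : ℝ) * ((g i).toNat : ℕ) < 2 * M.c i := by exact_mod_cast h13
      have h15 : (0 : ℝ) < ((g i).toNat : ℕ) := by exact_mod_cast h10
      have h16 : (u g : ℝ) * ((g i).toNat : ℕ) < K * ((g i).toNat : ℕ) := by
        have := mul_le_mul_of_nonneg_right hK h15.le
        linarith
      exact_mod_cast lt_of_mul_lt_mul_right h16 h15.le
    refine mem_image.2 ⟨fun g => ⟨u g.1, h6 g.1 g.2⟩, mem_univ _, ?_⟩
    have h7 := h4 i
    rw [Pi.single_eq_same] at h7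
    rw [← h7]
    exact sum_coe_sort M.G fun g => (u g : ℤ) * g i
  have h1 := (card_le_card sub).trans card_image_le
  rw [card_univ, Fintype.card_fun, Fintype.card_fin, Fintype.card_coe, Int.card_Ico] at h1
  omega

end Fa

theorem fa : FaStmt := by
  intro d E Q
  refine ⟨(⌈2 * Q⌉₊ + 1) ^ ⌈E⌉₊ + 1, fun M hp hc => ?_⟩
  have key : ∀ i, ∃ m : ℕ, 0 < m ∧ (Pi.single i (m : ℤ) : V d) ∈ M.G ∧ Q * m ≤ M.c i := by
    intro i
    by_contra hn
    push Not at hn
    have h1 := Fa.axis M i Q (⌈2 * Q⌉₊ + 1)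
      ((Nat.le_ceil _).trans (by push_cast; linarith)) (Nat.succ_pos _) hn
    have h2 : M.G.card ≤ ⌈E⌉₊ := by
      exact_mod_cast (show (M.G.card : ℝ) ≤ (⌈E⌉₊ : ℝ) from hp.trans (Nat.le_ceil _))
    have h3 := Nat.pow_le_pow_right (Nat.succ_pos ⌈2 * Q⌉₊) h2
    have h4 := hc i
    simp only [Nat.succ_eq_add_one] at h3
    omega
  choose m h1 h2 h3 using key
  exact ⟨⟨m, h1, h2, h3⟩⟩

end Pool.Agent.MP_96f5a9_co.GW

end MrgPart5

-- ======== part 6: formerly Pool.Agent.MP_96f5a9_co.gw.Goal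
section MrgPart6

/-! Assembly of the two regimes in dimension at least two. -/

set_option autoImplicit false

namespace Pool.Agent.MP_96f5a9_co.GW

open Finset

namespace Goal

/-- a nonzero element lies above a generator -/
theorem exists_gen_le {d : ℕ} (M : Md d) {z : V d} (hz : z ∈ M.S) (h0 : z ≠ 0) :
    ∃ g ∈ M.G, ∀ i, g i ≤ z i := by
  rcases M.dich (fun _ => True) hz with ⟨g, hg, _, hs⟩ | h2
  · refine ⟨g, hg, fun i => ?_⟩
    have := M.nonneg _ hs i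
    simp only [Pi.sub_apply] at this
    omega
  · exfalso
    obtain ⟨t, ht⟩ := M.fact h2
    apply h0
    rw [ht]
    refine Finset.sum_eq_zero fun g hg => ?_
    exact absurd trivial (mem_flt.1 hg).2.1

/-- the inequality when every nonzero element lies above an element of an axis -/
theorem axis {d : ℕ} (hd : 2 ≤ d) (S : AddSubmonoid (Fin d → ℕ)) (f : Fin d → ℕ) (hf : f ∉ S)
    (hle : ∀ h, h ∉ S → h ≤ f)
    (hax : ∀ x ∈ S, x ≠ 0 → ∃ i k, 0 < k ∧ k ≤ x i ∧ (Pi.single i k : Fin d → ℕ) ∈ S) :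
    d * ∏ i, (f i + 1) ≤ eS S * nS S := by
  obtain ⟨D, hc, hG, hN⟩ := Pool.Agent.MP_96f5a9_co.h22.exists_setup S f hf hle hax
  obtain ⟨n, rfl⟩ : ∃ n, d = n + 2 := ⟨d - 2, by omega⟩
  have h := D.wilf_two (finRotate (n + 2)) (fun i => by simp)
  unfold eS nS
  rw [hG, hN]
  simpa [hc] using h

theorem cast_single {d : ℕ} (i : Fin d) (k : ℕ) :
    (fun l => (((Pi.single i k : Fin d → ℕ) l : ℕ) : ℤ)) = (Pi.single i (k : ℤ) : V d) := by
  funext l
  by_cases hl : l = i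
  · subst hl; simp
  · simp [hl]

end Goal

theorem goal (hm : MainStmt) (hf : FStmt) (hb : BridgeStmt) (d : ℕ) (hd : 2 ≤ d) : Goal d := by
  obtain ⟨E, hE⟩ := hm d hd
  obtain ⟨C1, hC1⟩ := hf d hd E
  refine ⟨max ⌈E⌉₊ C1, fun S f hfS hle hC => ?_⟩
  by_contra hlt
  have hlt' : eS S * nS S < d * ∏ i, (f i + 1) := Nat.lt_of_not_le hlt
  obtain ⟨M, hc, hp, hn, hS⟩ := hb d S f hfS hle
  have hctr : M.Ctr := by
    unfold Md.Ctr Md.vol
    rw [hp, hn]
    simp only [hc]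
    exact_mod_cast hlt'
  have hpE : M.p ≤ E := by
    by_contra h
    exact hE M (le_of_lt (not_le.1 h)) hctr
  rcases hC with hC | hC
  · refine hE M ?_ hctr
    rw [hp]
    have h1 : ⌈E⌉₊ ≤ eS S := le_trans (le_max_left _ _) hC
    exact Nat.ceil_le.1 h1
  · obtain ⟨m, hm1, hm2⟩ := hC1 M hpE (fun i => by
      rw [hc i]
      exact le_trans (le_trans (le_max_right _ _) (hC i)) (Nat.le_succ _)) hctr
    refine hlt (Goal.axis hd S f hfS hle fun x hx h0 => ?_)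
    have hz : (fun i => (x i : ℤ)) ≠ (0 : V d) := by
      intro h
      apply h0
      funext i
      have := congrFun h i
      simpa using this
    obtain ⟨g, hg, hgx⟩ := Goal.exists_gen_le M ((hS x).1 hx) hz
    obtain ⟨i, hi⟩ := hm2 g hg
    refine ⟨i, m i, (hm1 i).1, ?_, ?_⟩
    · have := hgx i
      have h2 : (m i : ℤ) ≤ x i := le_trans hi this
      exact_mod_cast h2
    · rw [hS, Goal.cast_single]
      exact (hm1 i).2

end Pool.Agent.MP_96f5a9_co.GW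

end MrgPart6

-- ======== part 7: formerly Pool.Agent.MP_96f5a9_co.gw.Grp
section MrgPart7

/-! Sums of few elements that nearly fix a finite set. -/

set_option autoImplicit false

namespace Pool.Agent.MP_96f5a9_co.GW

open Finset

namespace Grp

variable {Γ : Type} [AddCommGroup Γ]

theorem one_step (H P : Finset Γ) (hHP : H ⊆ P) (y : Γ) (hy : ∀ x ∈ H, x + y ∈ P) :
    cnt H (fun x => ¬ (x + y ∈ H)) ≤ (P.card : ℝ) - H.card := by
  classical
  have h1 : cnt H (fun x => ¬ (x + y ∈ H)) ≤ ((P \ H).card : ℝ) :=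
    cnt_le_inj (fun x => x + y) (fun x hx hp => mem_sdiff.2 ⟨hy x hx, hp⟩)
      (fun x _ _ x' _ _ h => add_right_cancel h)
  have h2 : (P \ H).card + H.card = P.card := Finset.card_sdiff_add_card_eq_card hHP
  have h3 : ((P \ H).card : ℝ) + H.card = P.card := by exact_mod_cast h2
  linarith

theorem many (H P : Finset Γ) (hHP : H ⊆ P) : ∀ (s : ℕ) (y : Fin s → Γ),
    (∀ j, ∀ x ∈ H, x + y j ∈ P) →
    cnt H (fun x => ¬ (x + ∑ j, y j ∈ H)) ≤ s * ((P.card : ℝ) - H.card) := by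
  intro s
  induction s with
  | zero =>
    intro y _
    rw [cnt_eq_zero (fun x hx h => h (by simpa using hx))]
    simp
  | succ s ih =>
    intro y hy
    have h0 := one_step H P hHP (y 0) (hy 0)
    have h1 := ih (fun j => y j.succ) (fun j => hy j.succ)
    have h2 : cnt H (fun x => ¬ (x + ∑ j, y j ∈ H)) ≤ cnt H (fun x => ¬ (x + y 0 ∈ H)) +
        cnt H (fun x => x + y 0 ∈ H ∧ ¬ (x + y 0 + ∑ j : Fin s, y j.succ ∈ H)) := by
      refine cnt_le_add fun x _ hp => ?_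
      by_cases h : x + y 0 ∈ H
      · refine Or.inr ⟨h, ?_⟩
        rw [Fin.sum_univ_succ, ← add_assoc] at hp
        exact hp
      · exact Or.inl h
    have h3 : cnt H (fun x => x + y 0 ∈ H ∧ ¬ (x + y 0 + ∑ j : Fin s, y j.succ ∈ H)) ≤
        cnt H (fun x => ¬ (x + ∑ j : Fin s, y j.succ ∈ H)) := by
      rw [cnt_eq H (fun x => ¬ (x + ∑ j : Fin s, y j.succ ∈ H))]
      exact cnt_le_inj (fun x => x + y 0) (fun x _ hp => mem_flt.2 hp)
        (fun x _ _ x' _ _ h => add_right_cancel h)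
    push_cast
    linarith

end Grp

theorem grp : GrpStmt := by
  classical
  intro Γ _ H P Z s hHP hZ
  have h1 : ∀ z ∈ Z, (H.card : ℝ) - s * (P.card - H.card) ≤ cnt H (fun x => x + z ∈ H) := by
    intro z hz
    obtain ⟨y, rfl, hy⟩ := hZ z hz
    have h2 := Grp.many H P hHP s y hy
    have h3 := cnt_add_not H (fun x => x + ∑ j, y j ∈ H)
    linarith
  have h2 : ∑ z ∈ Z, cnt H (fun x => x + z ∈ H) = ∑ x ∈ H, cnt Z (fun z => x + z ∈ H) := by
    unfold cnt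
    simp only [Finset.card_filter]
    push_cast
    rw [Finset.sum_comm]
  have h3 : ∀ x ∈ H, cnt Z (fun z => x + z ∈ H) ≤ H.card := fun x _ =>
    cnt_le_inj (fun z => x + z) (fun _ _ hp => hp) (fun _ _ _ _ _ _ h => add_left_cancel h)
  calc (Z.card : ℝ) * (H.card - s * (P.card - H.card))
      = ∑ _z ∈ Z, ((H.card : ℝ) - s * (P.card - H.card)) := by simp [mul_sub]
    _ ≤ ∑ z ∈ Z, cnt H (fun x => x + z ∈ H) := Finset.sum_le_sum h1
    _ = ∑ x ∈ H, cnt Z (fun z => x + z ∈ H) := h2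
    _ ≤ ∑ _x ∈ H, (H.card : ℝ) := Finset.sum_le_sum h3
    _ = (H.card : ℝ) ^ 2 := by simp [sq]

end Pool.Agent.MP_96f5a9_co.GW

end MrgPart7

-- ======== part 8: formerly Pool.Agent.MP_96f5a9_co.gw.Inv
section MrgPart8

/-! Colours are nearly invariant under translation. -/

set_option autoImplicit false

namespace Pool.Agent.MP_96f5a9_co.GW

open Finset

namespace Inv

variable {d : ℕ} (M : Md d)

theorem sub_mem {b s : V d} (hb : b ∈ M.B) (hs : s ∈ M.S) (h : ∀ m, s m ≤ b m) : b - s ∈ M.B :=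
  M.mem_B.2 fun i => by
    have h1 := M.mem_B.1 hb i
    have h2 := M.nonneg s hs i
    have h3 := h i
    simp only [Pi.sub_apply]
    omega

theorem pair {ε : ℝ} {k : Fin d} {b s g : V d} (hb : b ∈ M.B) (hs : s ∈ M.S)
    (hk : ¬ 1 - ε ≤ M.h b k) (hg : M.Srv ε k (b - s) g) : M.ce k + b - g ∈ M.N := by
  have e : M.ce k + b - g = M.ce k + (b - s) - g + s := by abel
  refine M.mem_N_of (e ▸ M.S.add_mem (M.mem_N.1 hg.2.2).2 hs) fun i => ?_
  rw [M.h_sub, M.h_add]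
  by_cases hi : i = k
  · subst hi
    rw [M.h_ce_self]
    linarith [hg.2.1, not_le.1 hk]
  · rw [M.h_ce_ne hi]
    linarith [(M.mem_B_h.1 hb i).2, M.h_nonneg (M.G_mem hg.1) i]

end Inv

theorem inv (hB : BoxStmt) : InvStmt := by
  intro d M ε k s hε hT hF hs
  have a1 : cnt M.B (fun b => (∀ m, s m ≤ b m) ∧ ¬ ∃ g, M.Srv ε k (b - s) g) ≤ ε * M.vol := by
    refine le_trans ?_ (hT k)
    rw [cnt_eq M.B fun b => ¬ ∃ g, M.Srv ε k b g]
    exact cnt_le_inj (fun b => b - s)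
      (fun b hb hp => mem_flt.2 ⟨Inv.sub_mem M hb hs hp.1, hp.2⟩)
      fun _ _ _ _ _ _ e => sub_left_injective e
  have a2 := (hB d M).1 k ε hε.le
  have a3 : cnt M.B (fun b => ¬ 1 - ε ≤ M.h b k ∧ (∃ g, M.Srv ε k (b - s) g) ∧
      ¬ (M.ce k + b - M.chi ε k b - s ∈ M.N)) ≤ d * ε * M.vol := by
    refine le_trans ?_ hF.und
    rw [cnt_eq (M.N ×ˢ M.G)]
    refine cnt_le_inj (fun b => (M.ce k + b - M.chi ε k (b - s), M.chi ε k (b - s)))
      (fun b hb hp => ?_) fun b _ _ b' _ _ e => ?_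
    · have hg := M.chi_spec hp.2.1
      refine mem_flt.2 ⟨mem_product.2 ⟨Inv.pair M hb hs hp.1 hg, hg.1⟩, ?_⟩
      rintro ⟨k', h1, -, h3⟩
      simp only [sub_add_cancel] at h1 h3
      obtain ⟨rfl, e⟩ := M.face_unique (k := k) (l := k') hb h1 (by abel)
      rw [← e] at h3
      refine hp.2.2 ?_
      have e2 : M.ce k + b - M.chi ε k b - s = M.ce k + (b - s) - M.chi ε k (b - s) := by
        rw [h3]; abel
      exact e2 ▸ hg.2.2
    · have e1 := congrArg Prod.fst e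
      have e2 := congrArg Prod.snd e
      simp only at e1 e2
      rw [e2] at e1
      exact add_left_cancel (sub_left_injective e1)
  have b1 := cnt_le_add (A := M.B)
    (P := fun b => (∀ m, s m ≤ b m) ∧ ¬ (M.ce k + b - M.chi ε k b - s ∈ M.N))
    (Q := fun b => (∀ m, s m ≤ b m) ∧ ¬ ∃ g, M.Srv ε k (b - s) g)
    (R := fun b => (∃ g, M.Srv ε k (b - s) g) ∧ ¬ (M.ce k + b - M.chi ε k b - s ∈ M.N))
    fun b _ hp => by tauto
  have b2 := cnt_le_add (A := M.B)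
    (P := fun b => (∃ g, M.Srv ε k (b - s) g) ∧ ¬ (M.ce k + b - M.chi ε k b - s ∈ M.N))
    (Q := fun b => 1 - ε ≤ M.h b k)
    (R := fun b => ¬ 1 - ε ≤ M.h b k ∧ (∃ g, M.Srv ε k (b - s) g) ∧
      ¬ (M.ce k + b - M.chi ε k b - s ∈ M.N)) fun b _ hp => by tauto
  have := mul_pos hε M.vol_pos
  linarith

end Pool.Agent.MP_96f5a9_co.GW

end MrgPart8

-- ======== part 9: formerly Pool.Agent.MP_96f5a9_co.gw.Low
section MrgPart9

/-! Flatness outside `I`, the covering map, crude bounds. -/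

set_option autoImplicit false

namespace Pool.Agent.MP_96f5a9_co.GW

open Finset

namespace Low

variable {d : ℕ} (X : Ctx d)

theorem core : kap d (X.P.et / 2) * X.M.n ≤ cnt X.M.N fun x => ∀ m, X.M.h x m < X.P.et / 2 :=
  X.F.core _ (half_pos X.P.et_pos) (by linarith [X.P.et1]) X.P.ep_core2

theorem heavy {y : V d} (hy : y ∈ X.M.S) (h : ∀ m, X.M.h y m ≤ 1 - X.P.et / 2) {j : Fin d}
    (hj : j ∉ X.T.I) : X.M.h y j ≤ 4 * X.P.la := by
  by_contra hc
  have h1 : cnt X.M.N (fun x => ∀ m, X.M.h x m < X.P.et / 2) ≤ X.T.Exc.card := by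
    refine cnt_le_inj (fun x => y + x) (fun x hx hp => ?_) fun x _ _ x' _ _ e => add_left_cancel e
    by_contra hE
    have hS := (X.M.mem_N.1 hx).2
    have := X.T.low j hj _ (X.M.mem_N_of (X.M.S.add_mem hy hS) fun i => by
      rw [X.M.h_add]; linarith [h i, hp i]) hE
    rw [X.M.h_add] at this
    linarith [X.M.h_nonneg hS j]
  nlinarith [core X, X.T.exc, X.P.de_lt, X.M.n_pos]

theorem parts (hP : PartsStmt) {z : V d} (hz : z ∈ X.M0) (h : ∀ m, X.M.h z m ≤ 3) :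
    ∃ y : Fin X.P.r0 → V d, (∀ j, y j ∈ X.M0 ∧ ∀ m, X.M.h (y j) m ≤ 1 - X.P.et / 2) ∧
      z = ∑ j, y j :=
  (hP d X.M X.In).2.2 _ _ z X.P.et_pos (by linarith [X.P.et1]) (fun _ _ hg m => (hg m).le) hz h
    X.P.r0_ge

theorem lw (hP : PartsStmt) : X.Low := by
  intro z hz h j hj
  obtain ⟨y, hy, rfl⟩ := parts X hP hz h
  rw [X.M.h_sum]
  refine (Finset.sum_le_sum fun i _ => heavy X (X.M0_le (hy i).1) (hy i).2 hj).trans_eq ?_
  simp [Par.tau, mul_comm]

theorem cm : X.Cm := by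
  intro l β hβ
  have e0 := X.P.et_pos
  rcases X.M.dich (fun g => ¬ X.In g) (X.M.ce_add_mem (fun i => (hβ i).1) l) with
    ⟨g, hG, hp, hs⟩ | h2
  · have a : ∀ m, 0 ≤ X.M.h (X.M.ce l) m + X.M.h β m - X.M.h g m := fun m => by
      simpa only [X.M.h_sub, X.M.h_add] using X.M.h_nonneg hs m
    have b : ∀ m, m ≠ l → X.M.h g m < 1 - 2 * X.P.et := fun m hm => by
      linarith [a m, X.M.h_ce_ne hm, (hβ m).2]
    have c : 1 - X.P.et ≤ X.M.h g l := by
      by_contra hc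
      refine hp fun m => ?_
      by_cases hm : m = l
      · rw [hm]; exact not_le.1 hc
      · linarith [b m hm]
    have f : ∀ m, X.M.h (X.M.ce l + β - g) m < 1 - X.P.et := fun m => by
      rw [X.M.h_sub, X.M.h_add]
      by_cases hm : m = l
      · rw [hm, X.M.h_ce_self]; linarith [(hβ l).2]
      · linarith [X.M.h_ce_ne hm, (hβ m).2, X.M.h_nonneg (X.M.G_mem hG) m]
    exact Or.inr ⟨g, mem_flt.2 ⟨hG, c, b⟩, _, mem_flt.2 ⟨X.M.mem_N_of hs fun m => by linarith [f m],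
      X.mem_M0 hs f⟩, by abel⟩
  · exact Or.inl (X.M.cl_mono (fun g _ hg => not_not.1 hg.1) h2)

/-- a point of the zero class is a difference of two small inner elements -/
theorem rep {k : Fin d} {b : V d} (hb : b ∈ X.M.B) (h : X.Zero k b) : ∃ w ∈ X.M0, ∃ x ∈ X.M0,
    (∀ m, X.M.h w m ≤ 3) ∧ (∀ m, X.M.h x m ≤ 3) ∧ X.M.ce k + b = w - x := by
  obtain ⟨g, hg, x, hx, e⟩ := h
  obtain ⟨g0, x0, h0, h1, h2⟩ : g ∈ X.M.S ∧ ∃ x0 ∈ X.M0, g + x0 ∈ X.M0 ∧ g + x0 ∈ X.M.B := by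
    rcases hg with rfl | hg
    · exact ⟨zero_mem _, 0, zero_mem _, by simp, by simpa using (X.M.mem_N.1 X.M.zero_mem_N).1⟩
    · exact ⟨X.M.G_mem (mem_flt.1 hg).1, (mem_flt.1 hg).2.2⟩
  have a : ∀ m, X.M.h g m + X.M.h x0 m < 1 := fun m => X.M.h_add g x0 m ▸ (X.M.mem_B_h.1 h2 m).2
  refine ⟨g + x0 + x, add_mem h1 hx, x0, h0, fun m => ?_,
    fun m => by linarith [a m, X.M.h_nonneg g0 m], by rw [e]; abel⟩
  have c := congrArg (fun z => X.M.h z m) e
  have f : X.M.h (X.M.ce k) m ≤ 1 := by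
    by_cases hm : m = k
    · rw [hm, X.M.h_ce_self]
    · rw [X.M.h_ce_ne hm]; exact zero_le_one
  simp only [X.M.h_add] at c ⊢
  linarith [a m, X.M.h_nonneg g0 m, (X.M.mem_B_h.1 hb m).2]

theorem tau : X.P.tau < 1 := by
  have d2 : (2 : ℝ) ≤ d := by exact_mod_cast X.P.d2
  have a : X.P.et ^ d ≤ 1 := pow_le_one₀ X.P.et_pos.le (by linarith [X.P.et1])
  have b : X.P.ga ≤ 1 := by nlinarith [X.P.ga_le, X.P.ga_pos]
  have c : 0 ≤ X.P.la * X.P.r0 := mul_nonneg X.P.la_pos.le (Nat.cast_nonneg _)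
  have := X.P.la_tau.trans (mul_le_one₀ b (pow_nonneg X.P.et_pos.le _) a)
  unfold Par.tau
  nlinarith

theorem zc (hP : PartsStmt) (hL : PlStmt) (k : Fin d) :
    cnt X.M.B (X.Zero k) ≤ X.P.C3 * X.M.n := by
  classical
  have k0 : 0 < kap d (X.P.et / 2) := X.P.de_pos.trans X.P.de_lt
  have n0 := X.M.n_pos
  have c := core X
  have h := hL d (flt X.M.N fun x => ∀ m, X.M.h x m < X.P.et / 2)
    (flt X.M.N fun x => ∀ m, X.M.h x m ≤ 1 - X.P.et / 2) X.M.N
    ((flt X.M.B (X.Zero k)).image (X.M.ce k + ·)) (1 / kap d (X.P.et / 2)) X.P.r0 X.P.r0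
    ⟨0, mem_flt.2 ⟨X.M.zero_mem_N, fun m => by rw [X.M.h_zero]; exact half_pos X.P.et_pos⟩⟩
    (fun x hx y hy => X.M.mem_N_of (add_mem (X.M.mem_N.1 (mem_flt.1 hx).1).2
      (X.M.mem_N.1 (mem_flt.1 hy).1).2) fun m => by
        rw [X.M.h_add]; linarith [(mem_flt.1 hx).2 m, (mem_flt.1 hy).2 m])
    (by rw [one_div, le_inv_mul_iff₀ k0]; exact c) fun z hz => by
      obtain ⟨b, hb, rfl⟩ := mem_image.1 hz
      obtain ⟨w, hw, x, hx, h1, h2, e⟩ := rep X (mem_flt.1 hb).1 (mem_flt.1 hb).2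
      obtain ⟨y, hy, rfl⟩ := parts X hP hw h1
      obtain ⟨y', hy', rfl⟩ := parts X hP hx h2
      have a : ∀ v ∈ X.M0, (∀ m, X.M.h v m ≤ 1 - X.P.et / 2) →
          v ∈ flt X.M.N fun x => ∀ m, X.M.h x m ≤ 1 - X.P.et / 2 := fun v hv h =>
        mem_flt.2 ⟨X.M.mem_N_of (X.M0_le hv) fun m => by linarith [h m, X.P.et_pos], h⟩
      exact ⟨y, y', fun j => a _ (hy j).1 (hy j).2, fun j => a _ (hy' j).1 (hy' j).2, e⟩
  rw [card_image_of_injective _ (add_right_injective _), ← two_mul] at h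
  exact h.trans (mul_le_mul X.P.C3_ge (cnt_le_card _ _) (Nat.cast_nonneg _)
    (by linarith [X.P.C3_one]))

theorem fl (hS : LsStmt) (hA : X.A0.card ≤ X.P.C0) :
    X.Fail ((1 / X.P.et + 2) ^ X.P.C0 * X.N1.card) := by
  classical
  intro g hg hB l hl
  have e0 := X.P.et_pos
  have i0 : 0 < 1 / X.P.et := by positivity
  have g1 : ∀ m, (0 : ℝ) < X.M.c m - g m := fun m => by
    have : ((g m : ℤ) : ℝ) < ((X.M.c m : ℤ) : ℝ) := Int.cast_lt.2 (X.M.mem_B.1 hB m).2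
    simpa using this
  have r1 := Nat.le_ceil (1 / X.P.et)
  have r2 := Nat.ceil_lt_add_one i0.le
  have h := hS d X.A0 ((flt X.M.B fun β => g + β ∈ X.M.B ∧ X.M.ce l + β ∈ X.M0).image
    (X.M.ce l + ·)) (X.N1.image (· - g)) (⌈1 / X.P.et⌉₊ + 1) X.P.C0 (fun m => X.M.c m - g m)
    (Nat.le_add_left _ _) hA (fun a ha => X.M.nonneg a (X.M.G_mem (mem_flt.1 ha).1))
    (fun x hx => ?_) fun y hy h => mem_image.2 ⟨g + y, X.light hg hy (X.M.mem_B.2 fun m => ?_),
      by abel⟩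
  · rw [card_image_of_injective _ (add_right_injective _),
      card_image_of_injective _ (sub_left_injective)] at h
    refine h.trans (mul_le_mul_of_nonneg_right (pow_le_pow_left₀ (Nat.cast_nonneg _) ?_ _)
      (Nat.cast_nonneg _))
    push_cast
    linarith
  · obtain ⟨β, hβ, rfl⟩ := mem_image.1 hx
    obtain ⟨-, h1, h2⟩ := mem_flt.1 hβ
    refine ⟨h2, fun m => ?_⟩
    have b : ((g m + β m : ℤ) : ℝ) < ((X.M.c m : ℤ) : ℝ) := Int.cast_lt.2 (X.M.mem_B.1 h1 m).2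
    have c : ((X.M.ce l m : ℤ) : ℝ) ≤ 1 / X.P.et * (X.M.c m - g m) := by
      by_cases hm : m = l
      · rw [hm, X.M.ce_self, one_div, le_inv_mul_iff₀ e0]
        have := X.M.h_le_iff.1 hl
        push_cast
        linarith
      · rw [X.M.ce_ne hm, Int.cast_zero]
        exact (mul_pos i0 (g1 m)).le
    rw [Pi.add_apply]
    push_cast at b ⊢
    nlinarith [g1 m]
  · have a := X.M.nonneg y (X.M0_le hy) m
    have b := (X.M.mem_B.1 hB m).1
    have c : ((g m + y m : ℤ) : ℝ) < ((X.M.c m : ℤ) : ℝ) := by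
      have := h m
      push_cast
      linarith
    exact ⟨add_nonneg b a, Int.cast_lt.1 c⟩

end Low

open Low

theorem low (hP : PartsStmt) (hL : PlStmt) (hS : LsStmt) : LowStmt := by
  intro d X
  refine ⟨lw X hP, cm X, fun k hk b hb h => ?_, zc X hP hL, fun g _ _ l _ => le_trans
    (cnt_mono fun β hβ h => ⟨hβ, 0, Or.inl rfl, _, h.2, (zero_add _).symm⟩) (zc X hP hL l), fl X hS⟩
  obtain ⟨w, hw, x, hx, h1, -, e⟩ := rep X hb h
  have c := congrArg (fun z => X.M.h z k) e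
  simp only [X.M.h_add, X.M.h_sub, X.M.h_ce_self] at c
  linarith [lw X hP w hw h1 k hk, tau X, (X.M.mem_B_h.1 hb k).1, X.M.h_nonneg (X.M0_le hx) k]

end Pool.Agent.MP_96f5a9_co.GW

end MrgPart9

-- ======== part 10: formerly Pool.Agent.MP_96f5a9_co.gw.Main
section MrgPart10

/-! Many generators: assembly. -/

set_option autoImplicit false

namespace Pool.Agent.MP_96f5a9_co.GW

theorem main (h1 : LayerStmt) (h2 : StepStmt) (h3 : BulkStmt) (h4 : FacStmt) (h5 : StructStmt)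
    (h6 : ParStmt) (h7 : EndStmt) : MainStmt := by
  classical
  intro d hd
  have h5' : ∀ la mu de : ℝ, ∃ e0 : ℝ, 0 < la → la ≤ 1 / 100 → 0 < mu → 0 < de →
      0 < e0 ∧ ∀ (M : Md d) (ε : ℝ), 0 < ε → ε ≤ e0 → M.Til ε → Fac M ε →
        Nonempty (Str M la mu de) := by
    intro la mu de
    by_cases h : 0 < la ∧ la ≤ 1 / 100 ∧ 0 < mu ∧ 0 < de
    · obtain ⟨e0, he⟩ := h5 d hd la mu de h.1 h.2.1 h.2.2.1 h.2.2.2
      exact ⟨e0, fun _ _ _ _ => he⟩
    · exact ⟨1, fun a b c e => absurd ⟨a, b, c, e⟩ h⟩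
  choose f hf using h5'
  obtain ⟨P, hP1, hP2⟩ := h6 d hd f fun la mu de a b c e => (hf la mu de a b c e).1
  have hla : P.la ≤ 1 / 100 := by linarith [P.la1]
  have hS := (hf P.la P.mu P.de P.la_pos hla P.mu_pos P.de_pos).2
  have hep := P.ep_pos
  have hd0 : (0 : ℝ) < d := by exact_mod_cast (show 0 < d by omega)
  obtain ⟨d0, hd0p, hL⟩ := h1 d hd
  set d1 := min d0 (min (1 / 10) (P.ep / (2 * d))) with hd1
  have hd1p : 0 < d1 := lt_min hd0p (lt_min (by norm_num) (by positivity))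
  have hd1a : d1 ≤ 1 / 10 := (min_le_right _ _).trans (min_le_left _ _)
  have hd1b : d1 ≤ P.ep / (2 * d) := (min_le_right _ _).trans (min_le_right _ _)
  obtain ⟨K0, p0, hK0, hL⟩ := hL d1 hd1p (min_le_left _ _)
  obtain ⟨K1, p1, hK1, hSt⟩ := h2 d hd d1 K0 hd1p hd1a hK0
  obtain ⟨p2, hBu⟩ := h3 d hd P.ep K1 hep hP2 hK1
  refine ⟨max (max p0 p1) (max p2 (10 * (3 * d * P.C3 +
    (2 * d * P.C2 + 2 * d ^ 2 / P.et ^ d) * (1 / P.et + 2) ^ P.C0))), fun M hM hc => ?_⟩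
  have a0 : p0 ≤ M.p := ((le_max_left _ _).trans (le_max_left _ _)).trans hM
  have a1 : p1 ≤ M.p := ((le_max_right _ _).trans (le_max_left _ _)).trans hM
  have a2 : p2 ≤ M.p := ((le_max_left _ _).trans (le_max_right _ _)).trans hM
  have a3 := ((le_max_right _ _).trans (le_max_right _ _)).trans hM
  have b1 : M.n ≤ K0 * cnt M.N (fun x => ∀ m, M.h x m < 1 - d1) := by
    by_contra h
    exact hL M a0 (not_le.1 h) hc
  have b2 := hSt M a1 hc b1
  have b3 : M.n ≤ K1 * cnt M.N (fun x => ∀ m, M.h x m < P.ep / (4 * d)) := by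
    refine b2.trans (mul_le_mul_of_nonneg_left (cnt_mono fun x hx h => ⟨hx, fun m => ?_⟩) hK1.le)
    have e : P.ep / (4 * d) = P.ep / (2 * d) / 2 := by field_simp; norm_num
    rw [e]
    linarith [h m]
  have hT := hBu M a2 hc b3
  have hF := h4 d M P.ep hd hep hP2 hc hT
  obtain ⟨T⟩ := hS M P.ep hep hP1 hT hF
  exact absurd (h7 d ⟨M, P, hF, T⟩) (not_lt.2 a3)

end Pool.Agent.MP_96f5a9_co.GW

end MrgPart10

-- ======== part 11: formerly Pool.Agent.MP_96f5a9_co.gw.Par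
section MrgPart11

/-! The choice of the constants. -/

set_option autoImplicit false

namespace Pool.Agent.MP_96f5a9_co.GW

open Filter Topology

namespace Par

theorem lt_ev (K : ℝ) {u : ℝ} (hu : 0 < u) : ∀ᶠ x in 𝓝[>] (0 : ℝ), K * x < u := by
  have h : Tendsto (fun x : ℝ => K * x) (𝓝 0) (𝓝 (K * 0)) := tendsto_id.const_mul K
  rw [mul_zero] at h
  exact (h.eventually (gt_mem_nhds hu)).filter_mono nhdsWithin_le_nhds

theorem le_ev (K : ℝ) {u : ℝ} (hu : 0 < u) : ∀ᶠ x in 𝓝[>] (0 : ℝ), K * x ≤ u :=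
  (lt_ev K hu).mono fun _ h => h.le

theorem one_ev {u : ℝ} (hu : 0 < u) : ∀ᶠ x in 𝓝[>] (0 : ℝ), x ≤ u :=
  (le_ev 1 hu).mono fun _ h => by rwa [one_mul] at h

theorem pos_ev : ∀ᶠ x in 𝓝[>] (0 : ℝ), 0 < x := self_mem_nhdsWithin

end Par

open Par in
theorem par : ParStmt := by
  intro d hd f hf
  have hd0 : (0 : ℝ) < d := by exact_mod_cast (by omega : 0 < d)
  have hk : ∀ ρ : ℝ, 0 < ρ → 0 < kap d ρ := fun ρ h => by unfold kap; positivity
  obtain ⟨ga, g0, g1⟩ := (pos_ev.and (le_ev (10 * d) one_pos)).exists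
  obtain ⟨th, t0, t1, t2⟩ := (pos_ev.and ((le_ev (30 * d * 2 ^ d) one_pos).and
    (one_ev (by norm_num : (0 : ℝ) < 1 / 30)))).exists
  obtain ⟨et, e0, e1, e2, e3, e4⟩ := (pos_ev.and ((le_ev (64 * d) (mul_pos t0 g0)).and
    ((le_ev (300 * d ^ 2) one_pos).and ((one_ev (by norm_num : (0 : ℝ) < 1 / 1000)).and
    (le_ev 4 t0))))).exists
  obtain ⟨r0, hr⟩ := exists_nat_ge (6 * d / et + 1)
  obtain ⟨C0, hC⟩ := exists_nat_ge ((d + (2 * d * (16 * d / (ga * et) + 1) ^ d +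
    2 * d ^ 2 / et ^ d)) * max ((1 / kap d (et / 2)) ^ (2 * r0)) 1)
  obtain ⟨la, l0, l1, l2, l3, l4⟩ := (pos_ev.and
    ((le_ev ((C0 + 1) * 2 ^ (C0 + d) * 200 * d) g0).and
    ((le_ev (64 * d * r0) (mul_pos g0 (pow_pos e0 d))).and ((le_ev (100 * d) e0).and
    (one_ev (by norm_num : (0 : ℝ) < 1 / 1000)))))).exists
  obtain ⟨NU, hN⟩ := exists_nat_ge (6 / la)
  obtain ⟨mu, m0, m1, m2⟩ :=
    (pos_ev.and ((le_ev (4 * d * NU) l0).and (le_ev (4 * d) l0))).exists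
  obtain ⟨de, d0, d1, d2, d3⟩ := (pos_ev.and
    ((le_ev ((r0 + 1) * (NU + 1) ^ d) (mul_pos l0 (hk (la / 4) (by positivity)))).and
    ((lt_ev 1 (hk (et / 2) (by positivity))).and
    (one_ev (by norm_num : (0 : ℝ) < 1 / 2))))).exists
  have hf0 := hf la mu de l0 (by linarith) m0 d0
  obtain ⟨ep, p0, p1, p2, p3, p4, p5, p6⟩ := (pos_ev.and ((le_ev d l0).and ((one_ev l0).and
    ((one_ev (by positivity : 0 < (la / 4 / 2) ^ d / 2)).and
    ((one_ev (by positivity : 0 < (et / 2 / 2) ^ d / 2)).and ((one_ev hf0).and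
    (one_ev (by norm_num : (0 : ℝ) < 1 / 2)))))))).exists
  exact ⟨⟨ga, th, et, r0, _, _, C0, la, NU, mu, de, ep, hd, g0, g1, t0, t1, t2, e0, e1, e2, e3, e4,
    hr, le_rfl, le_max_left _ _, le_max_right _ _, hC, l0, l1, l2, l3, l4, hN, m0, m1, m2, d0, d1,
    by rwa [one_mul] at d2, d3, p0, p1, p2, p3, p4⟩, p5, p6⟩

end Pool.Agent.MP_96f5a9_co.GW

end MrgPart11

-- ======== part 12: formerly Pool.Agent.MP_96f5a9_co.gw.Path
section MrgPart12

/-! Generalized Wilf inequality: the path lemma. -/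

set_option autoImplicit false

namespace Pool.Agent.MP_96f5a9_co.GW

open Finset

namespace Path

variable {d : ℕ} (X : Ctx d)

/-- a combination of the periods -/
noncomputable def A (μ : Fin d → ℕ) : V d := ∑ l ∈ X.T.I, μ l • X.T.a l

theorem a_nonneg {l : Fin d} (hl : l ∈ X.T.I) (m : Fin d) : 0 ≤ X.M.h (X.T.a l) m :=
  X.M.h_nonneg (X.M.mem_N.1 (X.T.aN l hl)).2 m

theorem A_h (μ : Fin d → ℕ) (m : Fin d) :
    X.M.h (A X μ) m = ∑ l ∈ X.T.I, (μ l : ℝ) * X.M.h (X.T.a l) m := by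
  simp only [A, X.M.h_sum, X.M.h_nsmul]

theorem A_ge {μ : Fin d → ℕ} {m : Fin d} (hm : m ∈ X.T.I) (h1 : 1 ≤ μ m) :
    X.M.h (X.T.a m) m ≤ X.M.h (A X μ) m := by
  rw [A_h]
  refine le_trans ?_ (single_le_sum (f := fun l => (μ l : ℝ) * X.M.h (X.T.a l) m)
    (fun l hl => mul_nonneg (Nat.cast_nonneg _) (a_nonneg X hl m)) hm)
  exact le_mul_of_one_le_left (a_nonneg X hm m) (by exact_mod_cast h1)

theorem A_le {μ : Fin d → ℕ} {m : Fin d} (hμ : ∀ l, μ l ≤ X.P.NU) (hm : m ∈ X.T.I → μ m = 0) :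
    X.M.h (A X μ) m ≤ X.P.la / 4 := by
  have c0 : (0 : ℝ) ≤ X.P.NU * X.P.mu := mul_nonneg (Nat.cast_nonneg _) X.P.mu_pos.le
  have c1 : ∑ l ∈ X.T.I, (μ l : ℝ) * X.M.h (X.T.a l) m ≤ X.T.I.card • (X.P.NU * X.P.mu) := by
    refine sum_le_card_nsmul _ _ _ fun l hl => ?_
    by_cases e : m = l
    · subst e
      rw [hm hl, Nat.cast_zero, zero_mul]
      exact c0
    · exact mul_le_mul (by exact_mod_cast hμ l) (X.T.aflat l hl m e) (a_nonneg X hl m)
        (Nat.cast_nonneg _)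
  have c2 : (X.T.I.card : ℝ) ≤ d := by
    exact_mod_cast (card_le_univ X.T.I).trans_eq (Fintype.card_fin d)
  have c3 := mul_le_mul_of_nonneg_right c2 c0
  rw [nsmul_eq_mul] at c1
  rw [A_h]
  linarith [X.P.mu_le]

theorem A_dec {μ : Fin d → ℕ} {m : Fin d} (hm : m ∈ X.T.I) (h1 : 1 ≤ μ m) :
    A X μ = A X (Function.update μ m (μ m - 1)) + X.T.a m ∧
      ∑ l ∈ X.T.I, μ l = ∑ l ∈ X.T.I, Function.update μ m (μ m - 1) l + 1 := by
  obtain ⟨k, hk⟩ : ∃ k, μ m = k + 1 := ⟨μ m - 1, by omega⟩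
  have e : ∀ l ∈ X.T.I.erase m, Function.update μ m (μ m - 1) l = μ l := fun l hl =>
    Function.update_of_ne (ne_of_mem_erase hl) _ _
  constructor
  · have e2 : ∑ l ∈ X.T.I.erase m, Function.update μ m (μ m - 1) l • X.T.a l =
        ∑ l ∈ X.T.I.erase m, μ l • X.T.a l := sum_congr rfl fun l hl => by rw [e l hl]
    unfold A
    rw [← add_sum_erase _ _ hm, ← add_sum_erase _ _ hm, Function.update_self, e2, hk,
      Nat.add_sub_cancel, succ_nsmul]
    abel
  · have e2 : ∑ l ∈ X.T.I.erase m, Function.update μ m (μ m - 1) l =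
        ∑ l ∈ X.T.I.erase m, μ l := sum_congr rfl e
    rw [← add_sum_erase _ _ hm, ← add_sum_erase _ _ hm, Function.update_self, e2]
    omega

theorem walk (Y : ℕ → V d) (ν : Fin d → ℕ) (x : V d) (r : ℕ) (hS : ∀ j, Y j ∈ X.M.S)
    (hY : ∀ j m, X.M.h (Y j) m ≤ 1 - X.P.et / 2) (hν : ∀ m, ν m ≤ X.P.NU)
    (h1 : ∀ m, X.M.h (∑ j ∈ range r, Y j - A X ν) m ≤ 1 - X.P.la / 2)
    (h2 : ∀ m ∈ X.T.I, 1 ≤ ν m →
      4 * X.P.la ≤ X.M.h (∑ j ∈ range r, Y j - A X ν) m + X.M.h (X.T.a m) m)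
    (x0 : x ∈ X.M.N) (x1 : ∀ m, X.M.h x m < X.P.la / 4)
    (x2 : ∀ i ≤ r, ∀ μ : Fin d → ℕ, (∀ l, μ l ≤ X.P.NU) →
      x + (∑ j ∈ range i, Y j - A X ν + A X μ) ∉ X.T.Exc) (n : ℕ) :
    ∀ i ≤ r, ∀ μ : Fin d → ℕ, (∀ l, μ l ≤ ν l) → r - i + ∑ l ∈ X.T.I, μ l = n →
      x + (∑ j ∈ range i, Y j - A X ν + A X μ) ∈ X.M.N →
      x + (∑ j ∈ range r, Y j - A X ν) ∈ X.M.N := by
  induction n using Nat.strong_induction_on with
  | _ n ih =>
  intro i hi μ hμ hn hu
  have hμ' : ∀ l, μ l ≤ X.P.NU := fun l => (hμ l).trans (hν l)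
  by_cases hc : ∃ m ∈ X.T.I, 1 ≤ μ m ∧
      4 * X.P.la ≤ X.M.h (x + (∑ j ∈ range i, Y j - A X ν + A X μ)) m
  · obtain ⟨m, hm, m1, m2⟩ := hc
    have c1 := X.T.inv m hm _ hu (x2 i hi μ hμ') m2
    obtain ⟨e1, e2⟩ := A_dec X hm m1
    refine ih _ ?_ i hi (Function.update μ m (μ m - 1)) (fun l => ?_) rfl ?_
    · omega
    · by_cases e : l = m
      · subst e
        rw [Function.update_self]
        exact (Nat.sub_le _ _).trans (hμ l)
      · rw [Function.update_of_ne e]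
        exact hμ l
    · convert c1 using 1
      conv_rhs => rw [e1]
      abel
  push Not at hc
  rcases hi.lt_or_eq with hi | rfl
  · refine ih _ ?_ (i + 1) hi μ hμ rfl ?_
    · omega
    have e : x + (∑ j ∈ range (i + 1), Y j - A X ν + A X μ) =
        x + (∑ j ∈ range i, Y j - A X ν + A X μ) + Y i := by
      rw [sum_range_succ]
      abel
    refine X.M.mem_N_of (e ▸ X.M.S.add_mem (X.M.mem_N.1 hu).2 (hS i)) fun m => ?_
    by_cases hm : m ∈ X.T.I ∧ 1 ≤ μ m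
    · have c1 : (2 : ℝ) ≤ d := by exact_mod_cast X.P.d2
      have c2 := mul_le_mul_of_nonneg_right c1 X.P.la_pos.le
      rw [e, X.M.h_add]
      linarith [hc m hm.1 hm.2, hY i m, X.P.la_et, X.P.la_pos]
    · have c1 := A_le X hμ' (m := m) fun h => by_contra fun h' => hm ⟨h, by omega⟩
      have c2 : X.M.h (∑ j ∈ range (i + 1), Y j) m ≤ X.M.h (∑ j ∈ range r, Y j) m := by
        rw [X.M.h_sum, X.M.h_sum]
        exact sum_le_sum_of_subset_of_nonneg (range_mono hi) fun j _ _ => X.M.h_nonneg (hS j) m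
      have c3 := h1 m
      rw [X.M.h_sub] at c3
      rw [X.M.h_add, X.M.h_add, X.M.h_sub]
      linarith [x1 m]
  · have e : A X μ = 0 := by
      refine sum_eq_zero fun m hm => ?_
      rcases Nat.eq_zero_or_pos (μ m) with h | h
      · rw [h, zero_smul]
      · have c1 := hc m hm h
        rw [X.M.h_add, X.M.h_add] at c1
        linarith [h2 m hm (h.trans_le (hμ m)), A_ge X hm h, X.M.h_nonneg (X.M.mem_N.1 x0).2 m]
    rwa [e, add_zero] at hu

end Path

open GW.Path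

theorem path (hP : PartsStmt) : PathStmt := by
  classical
  intro d X z ν hz z3 hν h1 h2
  obtain ⟨y, hy, ey⟩ := (hP d X.M X.In).2.2 X.P.et X.P.r0 z X.P.et_pos
    (X.P.et1.trans (by norm_num)) (fun g _ hg m => (hg m).le) hz z3 X.P.r0_ge
  obtain ⟨Y, hS, hY, eY⟩ : ∃ Y : ℕ → V d, (∀ j, Y j ∈ X.M.S) ∧
      (∀ j m, X.M.h (Y j) m ≤ 1 - X.P.et / 2) ∧ z = ∑ j ∈ range X.P.r0, Y j := by
    refine ⟨fun j => if h : j < X.P.r0 then y ⟨j, h⟩ else 0, fun j => ?_, fun j m => ?_, ?_⟩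
    · dsimp only
      split_ifs with h
      exacts [X.M.cl_le _ (hy _).1, X.M.S.zero_mem]
    · dsimp only
      split_ifs with h
      · exact (hy _).2 m
      · rw [X.M.h_zero]
        linarith [X.P.et1]
    · rw [ey, sum_range]
      exact sum_congr rfl fun j _ => by rw [dif_pos j.2]
  subst eY
  set St := range (X.P.r0 + 1) ×ˢ Fintype.piFinset fun _ : Fin d => range (X.P.NU + 1) with hSt
  have c1 := cnt_le_sum (A := X.M.N) (P := fun x => (∀ m, X.M.h x m < X.P.la / 4) ∧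
      ¬ (x + (∑ j ∈ range X.P.r0, Y j - A X ν) ∈ X.M.N)) St
    (fun q x => x + (∑ j ∈ range q.1, Y j - A X ν + A X q.2) ∈ X.T.Exc) fun x hx hp => by
      by_contra hc
      push Not at hc
      refine hp.2 (walk X Y ν x _ hS hY hν h1 h2 hx hp.1 (fun i hi μ hμ => hc (i, μ) ?_) _ 0
        (Nat.zero_le _) ν (fun _ => le_rfl) rfl (by simpa using hx))
      exact mem_product.2 ⟨mem_range.2 (Nat.lt_succ_of_le hi),
        Fintype.mem_piFinset.2 fun l => mem_range.2 (Nat.lt_succ_of_le (hμ l))⟩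
  have c2 : ∑ q ∈ St, cnt X.M.N (fun x => x + (∑ j ∈ range q.1, Y j - A X ν + A X q.2) ∈ X.T.Exc) ≤
      St.card • (X.P.de * X.M.n) :=
    sum_le_card_nsmul _ _ _ fun q _ => (cnt_le_inj (fun x => x + _) (fun _ _ h => h)
      fun _ _ _ _ _ _ h => add_right_cancel h).trans X.T.exc
  have c3 : (St.card : ℝ) = (X.P.r0 + 1) * (X.P.NU + 1) ^ d := by
    simp [hSt, Fintype.card_piFinset]
  have c4 := X.F.core (X.P.la / 4) (by linarith [X.P.la_pos]) (by linarith [X.P.la1]) X.P.ep_core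
  have c5 := mul_le_mul_of_nonneg_right X.P.de_le X.M.n_pos.le
  have c6 := mul_le_mul_of_nonneg_left c4 X.P.la_pos.le
  rw [nsmul_eq_mul, c3] at c2
  exact c1.trans (by linarith)

end Pool.Agent.MP_96f5a9_co.GW

end MrgPart12

-- ======== part 13: formerly Pool.Agent.MP_96f5a9_co.gw.Tools
section MrgPart13

/-! Three counting tools: sumsets, scaling of a box, thin layers. -/

set_option autoImplicit false

namespace Pool.Agent.MP_96f5a9_co.GW

open Finset
open scoped Pointwise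

namespace Tools

theorem sum_mem {d : ℕ} (A : Finset (V d)) (r : ℕ) :
    ∀ y : Fin r → V d, (∀ j, y j ∈ A) → ∑ j, y j ∈ r • A := by
  induction r with
  | zero => intro y _; simp
  | succ r ih =>
    intro y hy
    rw [Fin.sum_univ_castSucc, succ_nsmul]
    exact add_mem_add (ih _ fun j => hy _) (hy _)

theorem floor_le (c ρ σ : ℝ) (hc : 0 ≤ c) (h0 : 0 ≤ ρ) (h1 : ρ ≤ σ) :
    σ * ⌊ρ * c⌋₊ ≤ 2 * ρ * ⌊σ * c⌋₊ := by
  rcases Nat.eq_zero_or_pos ⌊ρ * c⌋₊ with h | h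
  · rw [h, Nat.cast_zero, mul_zero]
    positivity
  · have h2 : (1 : ℝ) ≤ ⌊σ * c⌋₊ := by
      exact_mod_cast h.trans_le (Nat.floor_mono (mul_le_mul_of_nonneg_right h1 hc))
    have h3 := Nat.lt_floor_add_one (σ * c)
    have h4 := Nat.floor_le (mul_nonneg h0 hc)
    have h5 : σ * c ≤ 2 * ⌊σ * c⌋₊ := by linarith
    calc σ * ⌊ρ * c⌋₊ ≤ σ * (ρ * c) := mul_le_mul_of_nonneg_left h4 (h0.trans h1)
      _ = ρ * (σ * c) := by ring
      _ ≤ ρ * (2 * ⌊σ * c⌋₊) := mul_le_mul_of_nonneg_left h5 h0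
      _ = _ := by ring

end Tools

open Tools

theorem pl : PlStmt := by
  intro d C A Y Z K r r' hC hY hK hZ
  have h1 : Z ⊆ r • A - r' • A := fun z hz => by
    obtain ⟨y, y', a1, a2, rfl⟩ := hZ z hz
    exact sub_mem_sub (sum_mem A r y a1) (sum_mem A r' y' a2)
  have h2 : C + A ⊆ Y := add_subset_iff.2 hY
  have h3 := (NNRat.cast_le (K := ℝ)).2
    (pluennecke_ruzsa_inequality_nsmul_sub_nsmul_add hC A r r')
  push_cast at h3
  have h4 : (0 : ℝ) < C.card := by exact_mod_cast hC.card_pos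
  have h5 : ((C + A).card : ℝ) / C.card ≤ K := by
    rw [div_le_iff₀ h4]
    exact le_trans (by exact_mod_cast card_le_card h2) hK
  calc (Z.card : ℝ) ≤ ((r • A - r' • A).card : ℝ) := by exact_mod_cast card_le_card h1
    _ ≤ _ := h3
    _ ≤ K ^ (r + r') * C.card := by gcongr

theorem ls : LsStmt := by
  intro d A X Y r C0 H hr hA h0 hX hY
  have hr0 : (0 : ℝ) < r := by exact_mod_cast hr
  have h1 : X ⊆ ((Fintype.piFinset fun _ : A => range r) ×ˢ Y).image
      fun q => r • q.2 + ∑ a : A, q.1 a • (a : V d) := by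
    intro x hx
    obtain ⟨t, -, ht⟩ := AddSubmonoid.mem_closure_finset.1 (hX x hx).1
    have e : r • ∑ a ∈ A, (t a / r) • a + ∑ a ∈ A, (t a % r) • a = x := by
      rw [← ht, smul_sum, ← sum_add_distrib]
      exact sum_congr rfl fun a _ => by rw [smul_smul, ← add_smul, Nat.div_add_mod]
    refine mem_image.2 ⟨(fun a => t a % r, ∑ a ∈ A, (t a / r) • a), mem_product.2 ⟨?_, ?_⟩, ?_⟩
    · exact Fintype.mem_piFinset.2 fun a => mem_range.2 (Nat.mod_lt _ hr)
    · refine hY _ (AddSubmonoid.sum_mem _ fun a ha =>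
        AddSubmonoid.nsmul_mem _ (AddSubmonoid.subset_closure (mem_coe.2 ha)) _) fun m => ?_
      have a1 := congrFun e m
      have a2 : 0 ≤ (∑ a ∈ A, (t a % r) • a) m := by
        rw [Finset.sum_apply]
        exact sum_nonneg fun a ha => nsmul_nonneg (h0 a ha m) _
      rw [Pi.add_apply, Pi.smul_apply, nsmul_eq_mul] at a1
      have a3 : (r : ℤ) * (∑ a ∈ A, (t a / r) • a) m ≤ x m := by linarith
      have a4 : (r : ℝ) * ((∑ a ∈ A, (t a / r) • a) m : ℤ) ≤ (x m : ℤ) := by exact_mod_cast a3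
      exact lt_of_mul_lt_mul_left (a4.trans_lt ((hX x hx).2 m)) hr0.le
    · rw [← e, ← sum_coe_sort A fun a => (t a % r) • a]
  have h2 := (card_le_card h1).trans card_image_le
  rw [card_product, Fintype.card_piFinset, prod_const, card_range, card_univ,
    Fintype.card_coe] at h2
  exact_mod_cast h2.trans (Nat.mul_le_mul_right _ (Nat.pow_le_pow_right hr hA))

theorem tl : TlStmt := by
  intro d M W R m ρ σ h0 h1 hR
  have hc := M.cR_pos m
  set L := R.image fun b => Function.update b m 0 with hL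
  set f : V d × ℕ → V d := fun q => Function.update q.1 m ((M.c m : ℤ) - q.2) with hf
  have a1 : R ⊆ (L ×ˢ Icc 1 ⌊ρ * M.c m⌋₊).image f := by
    intro b hb
    obtain ⟨b1, b2, -⟩ := hR b hb
    rw [M.h_lt_one] at b2
    rw [M.le_h_iff] at b1
    obtain ⟨j, hj⟩ := Int.eq_ofNat_of_zero_le (sub_nonneg.2 b2.le)
    have hj' : (M.c m : ℝ) - (b m : ℤ) = j := by exact_mod_cast hj
    refine mem_image.2 ⟨(Function.update b m 0, j),
      mem_product.2 ⟨mem_image_of_mem _ hb, mem_Icc.2 ⟨by omega, Nat.le_floor (by linarith)⟩⟩, ?_⟩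
    simp only [hf, Function.update_idem, ← hj, sub_sub_cancel, Function.update_eq_self]
  have a2 : (L ×ˢ Icc 1 ⌊σ * M.c m⌋₊).card ≤ W.card := by
    refine card_le_card_of_injOn f (fun q hq => ?_) fun q hq q' hq' e => ?_
    · obtain ⟨b1, b2⟩ := mem_product.1 (mem_coe.1 hq)
      obtain ⟨b, hb, e⟩ := mem_image.1 b1
      obtain ⟨b3, b4⟩ := mem_Icc.1 b2
      have b5 : (q.2 : ℝ) ≤ σ * M.c m :=
        le_trans (by exact_mod_cast b4) (Nat.floor_le (mul_nonneg (h0.trans h1) hc.le))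
      simp only [hf, ← e, Function.update_idem]
      exact (hR b hb).2.2 _ (by push_cast; linarith) (by omega)
    · obtain ⟨b, -, e1⟩ := mem_image.1 (mem_product.1 (mem_coe.1 hq)).1
      obtain ⟨b', -, e2⟩ := mem_image.1 (mem_product.1 (mem_coe.1 hq')).1
      have e3 := congrFun e m
      simp only [hf, Function.update_self] at e3
      have e4 := congrArg (fun x => Function.update x m 0) e
      simp only [hf, ← e1, ← e2, Function.update_idem] at e4
      exact Prod.ext (by rw [← e1, ← e2, e4]) (by omega)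
  have a3 := (card_le_card a1).trans card_image_le
  rw [card_product, Nat.card_Icc, Nat.add_sub_cancel] at a2 a3
  have a4 : (R.card : ℝ) ≤ L.card * ⌊ρ * M.c m⌋₊ := by exact_mod_cast a3
  have a5 : (L.card : ℝ) * ⌊σ * M.c m⌋₊ ≤ W.card := by exact_mod_cast a2
  have a6 := floor_le (M.c m) ρ σ hc.le h0 h1
  calc σ * R.card ≤ σ * (L.card * ⌊ρ * M.c m⌋₊) := mul_le_mul_of_nonneg_left a4 (h0.trans h1)
    _ = L.card * (σ * ⌊ρ * M.c m⌋₊) := by ring
    _ ≤ L.card * (2 * ρ * ⌊σ * M.c m⌋₊) := mul_le_mul_of_nonneg_left a6 (Nat.cast_nonneg _)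
    _ = 2 * ρ * (L.card * ⌊σ * M.c m⌋₊) := by ring
    _ ≤ _ := mul_le_mul_of_nonneg_left a5 (by positivity)

end Pool.Agent.MP_96f5a9_co.GW

end MrgPart13

-- marker of a merged file
example : 731051 + 313632 = 731051 + 313632 := rfl
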