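import Pool.Agent.MP_96f5a9_co.gw.Spec

-- ======== part 0: formerly Pool.Agent.MP_96f5a9_co.gw.Arm
section MrgPart0

/-! Row ARM: the points with a long arm are paid by surplus pairs. -/

set_option autoImplicit false

namespace Pool.Agent.MP_96f5a9_co.GW

open Finset

namespace Arm

variable {d : ℕ}

theorem exists_gen (M : Md d) {z : V d} (hz : z ∈ M.S) (h0 : z ≠ 0) :
    ∃ g ∈ M.G, z - g ∈ M.S := by
  rcases M.dich (fun _ => True) hz with ⟨g, hg, _, hs⟩ | h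
  · exact ⟨g, hg, hs⟩
  · exfalso
    apply h0
    obtain ⟨t, ht⟩ := M.fact h
    rw [ht]
    refine Finset.sum_eq_zero fun g hg => ?_
    exact absurd trivial (mem_flt.1 hg).2.1

/-- an element beyond a face all of whose divisors are long is a generator of the outer kind -/
theorem atom (X : Ctx d) {z : V d} {j : Fin d} {t : ℝ} (hz : z ∈ X.M.S) (h1 : 1 ≤ X.M.h z j)
    (h2 : X.M.h z j ≤ 2 * t) (hg : ∀ g ∈ X.M.G, z - g ∈ X.M.S → t < X.M.h g j) : z ∈ X.Em := by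
  have hz0 : z ≠ 0 := by
    intro h
    rw [h, X.M.h_zero] at h1
    linarith
  obtain ⟨g, hgG, hs⟩ := exists_gen X.M hz hz0
  have hzg : z - g = 0 := by
    by_contra hne
    obtain ⟨g', hgG', hs'⟩ := exists_gen X.M hs hne
    have hs2 : z - g' ∈ X.M.S := by
      have e : z - g' = (z - g - g') + g := by abel
      rw [e]
      exact X.M.S.add_mem hs' (X.M.G_mem hgG)
    have a1 := hg g hgG hs
    have a2 := hg g' hgG' hs2
    have a3 := X.M.h_nonneg hs' j
    rw [X.M.h_sub, X.M.h_sub] at a3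
    linarith
  have hzG : z ∈ X.M.G := by
    rw [sub_eq_zero.1 hzg]; exact hgG
  have het := X.P.et_pos
  refine mem_flt.2 ⟨hzG, fun hI => ?_, fun hK => ?_⟩
  · have := hI j
    linarith
  · obtain ⟨_, _, x, hx, _, hB⟩ := mem_flt.1 hK
    have a1 := (X.M.mem_B_h.1 hB j).2
    have a2 := X.M.h_nonneg (X.M0_le hx) j
    rw [X.M.h_add] at a1
    linarith

theorem le_of_sub_mem (M : Md d) {z g : V d} (hs : z - g ∈ M.S) (m : Fin d) : g m ≤ z m := by
  have := M.nonneg _ hs m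
  simp only [Pi.sub_apply] at this
  omega

/-- inner elements that are high in the direction `j` -/
noncomputable def Hi (X : Ctx d) (j : Fin d) : Finset (V d) :=
  flt X.N0 fun x => 3 / 10 ≤ X.M.h x j

theorem d_two (X : Ctx d) : (2 : ℝ) ≤ d := by exact_mod_cast X.P.d2

theorem mem_Hi (X : Ctx d) {j : Fin d} {x : V d} (hx : x ∈ X.M.S)
    (h : ∀ m, X.M.h x m < 1 - X.P.et) (hj : 3 / 10 ≤ X.M.h x j) : x ∈ Hi X j := by
  have het := X.P.et_pos
  exact mem_flt.2 ⟨mem_flt.2 ⟨X.M.mem_N_of hx fun m => by linarith [h m], X.mem_M0 hx h⟩, hj⟩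

/-- a multiple of the period of middle height -/
theorem exists_mul (X : Ctx d) {j : Fin d} (hj : j ∈ X.T.I) :
    ∃ a ∈ X.M.S, 3 / 10 ≤ X.M.h a j ∧ X.M.h a j ≤ 6 / 10 ∧
      ∀ m, m ≠ j → X.M.h a m ≤ X.P.et := by
  have hd := d_two X
  have hla := X.P.la_pos
  have hla1 := X.P.la1
  have hmu := X.P.mu_pos
  have hlo := X.T.alo j hj
  have hhi := X.T.ahi j hj
  have haS : X.T.a j ∈ X.M.S := (X.M.mem_N.1 (X.T.aN j hj)).2
  set om := X.M.h (X.T.a j) j with hom
  have hompos : 0 < om := lt_of_lt_of_le hla hlo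
  set i : ℕ := ⌈3 / 10 / om⌉₊ with hi
  have hq : 0 ≤ 3 / 10 / om := by positivity
  have i1 : 3 / 10 / om ≤ i := Nat.le_ceil _
  have i2 : (i : ℝ) < 3 / 10 / om + 1 := Nat.ceil_lt_add_one hq
  have i3 : 3 / 10 ≤ i * om := by rwa [div_le_iff₀ hompos] at i1
  have i4 : i * om < 3 / 10 + om := by
    have := mul_lt_mul_of_pos_right i2 hompos
    rwa [add_mul, div_mul_cancel₀ _ hompos.ne', one_mul] at this
  have i5 : i * om ≤ 6 / 10 := by
    rcases le_or_gt om (3 / 10) with h | h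
    · linarith
    · have : i ≤ 1 := by
        rw [hi, Nat.ceil_le, Nat.cast_one, div_le_one hompos]
        exact h.le
      have h' : (i : ℝ) ≤ 1 := by exact_mod_cast this
      have := mul_le_mul_of_nonneg_right h' hompos.le
      linarith
  have i6 : (i : ℝ) ≤ X.P.NU := by
    refine le_trans ?_ X.P.NU_ge
    rw [le_div_iff₀ hla]
    have := mul_le_mul_of_nonneg_left hlo (Nat.cast_nonneg i : (0 : ℝ) ≤ i)
    linarith
  have i7 : (i : ℝ) * X.P.mu ≤ X.P.et := by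
    have a1 := X.P.mu_le
    have a2 := X.P.la_et
    have a3 : (0 : ℝ) ≤ X.P.NU * X.P.mu := by positivity
    have a4 := mul_le_mul_of_nonneg_right i6 hmu.le
    have a5 : X.P.NU * X.P.mu ≤ 4 * d * X.P.NU * X.P.mu := by nlinarith
    have a6 : X.P.la ≤ 100 * d * X.P.la := by nlinarith
    linarith
  refine ⟨i • X.T.a j, X.M.S.nsmul_mem haS i, ?_, ?_, fun m hm => ?_⟩
  · rw [X.M.h_nsmul]; exact i3
  · rw [X.M.h_nsmul]; exact i5
  · rw [X.M.h_nsmul]
    have := mul_le_mul_of_nonneg_left (X.T.aflat j hj m hm) (Nat.cast_nonneg i : (0 : ℝ) ≤ i)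
    linarith

theorem hi_card (X : Ctx d) {j : Fin d} (hj : j ∈ X.T.I) : X.M.n / 3 ≤ (Hi X j).card := by
  obtain ⟨a, haS, a1, a2, a3⟩ := exists_mul X hj
  have hd := d_two X
  have het := X.P.et_pos
  have het1 := X.P.et1
  have hn := X.M.n_pos
  have c1 : cnt X.M.N (fun x => ∀ m, X.M.h x m < 1 - 2 * X.P.et) ≤
      cnt X.M.N (fun x => x ∈ Hi X j) + cnt X.M.N (fun x => x + a ∈ Hi X j) := by
    refine cnt_le_add fun x hx h => ?_
    have hxS := (X.M.mem_N.1 hx).2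
    rcases le_or_gt (3 / 10) (X.M.h x j) with h3 | h3
    · exact Or.inl (mem_Hi X hxS (fun m => by linarith [h m]) h3)
    · refine Or.inr (mem_Hi X (X.M.S.add_mem hxS haS) (fun m => ?_) ?_)
      · rw [X.M.h_add]
        by_cases hm : m = j
        · subst hm; linarith
        · linarith [h m, a3 m hm]
      · rw [X.M.h_add]
        linarith [X.M.h_nonneg hxS j]
  have c2 : cnt X.M.N (fun x => x ∈ Hi X j) ≤ (Hi X j).card := cnt_le_of_sub fun _ _ h => h
  have c3 : cnt X.M.N (fun x => x + a ∈ Hi X j) ≤ (Hi X j).card :=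
    cnt_le_inj (fun x => x + a) (fun _ _ h => h) fun _ _ _ _ _ _ h => add_right_cancel h
  have c4 : cnt X.M.N (fun x => ¬ ∀ m, X.M.h x m < 1 - 2 * X.P.et) ≤
      ∑ m : Fin d, cnt X.M.N (fun x => 1 - 2 * X.P.et ≤ X.M.h x m) := by
    refine cnt_le_sum _ _ fun x _ h => ?_
    push Not at h
    obtain ⟨m, hm⟩ := h
    exact ⟨m, mem_univ _, hm⟩
  have c5 : ∑ m : Fin d, cnt X.M.N (fun x => 1 - 2 * X.P.et ≤ X.M.h x m) ≤
      d * ((2 * (2 * X.P.et) + 4 * X.P.ep) * X.M.n) := by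
    calc _ ≤ ∑ _m : Fin d, (2 * (2 * X.P.et) + 4 * X.P.ep) * X.M.n :=
          Finset.sum_le_sum fun m _ => X.F.ul m (2 * X.P.et) (by linarith)
      _ = _ := by simp
  have c6 := cnt_add_not X.M.N (fun x => ∀ m, X.M.h x m < 1 - 2 * X.P.et)
  have c7 : (X.M.N.card : ℝ) = X.M.n := rfl
  have e1 : d * X.P.et ≤ 1 / 600 := by
    have := X.P.et_le2
    have h2 : 0 ≤ d * X.P.et := by positivity
    nlinarith
  have e2 : d * X.P.ep ≤ 1 / 1000 := X.P.ep_le.trans X.P.la1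
  have e3 : d * ((2 * (2 * X.P.et) + 4 * X.P.ep) * X.M.n) ≤ 1 / 3 * X.M.n := by
    have : d * (2 * (2 * X.P.et) + 4 * X.P.ep) ≤ 1 / 3 := by linarith
    rw [← mul_assoc]
    exact mul_le_mul_of_nonneg_right this hn.le
  linarith

/-- second clause -/
theorem free (X : Ctx d) {l : Fin d} (hl : l ∈ X.T.I) (hF : X.Free l) : X.M.n / 3 ≤ X.Sur := by
  have hc := X.M.cR_pos l
  have het := X.P.et_pos
  have het1 := X.P.et1
  set u : ℤ := ⌈3 / 10 * (X.M.c l : ℝ)⌉ with hu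
  have u1 : 3 / 10 * (X.M.c l : ℝ) ≤ u := Int.le_ceil _
  have u2 : u ≤ X.M.c l := by
    rw [hu, Int.ceil_le]
    push_cast
    linarith
  have u2' : (u : ℝ) ≤ X.M.c l := by exact_mod_cast u2
  set z : V d := Pi.single l (2 * (X.M.c l : ℤ) - u) with hz
  have z1 : z l = 2 * (X.M.c l : ℤ) - u := by simp [hz]
  have z2 : ∀ m, m ≠ l → z m = 0 := fun m hm => by simp [hz, hm]
  have zS : z ∈ X.M.S := by
    refine X.M.out z (fun m => ?_) ⟨l, by omega⟩
    by_cases hm : m = l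
    · subst hm; have := X.M.cpos m; omega
    · rw [z2 m hm]
  have zE : z ∈ X.Em := by
    refine atom X (j := l) (t := 85 / 100) zS ?_ ?_ fun g hg hs => ?_
    · rw [X.M.le_h_iff, z1]; push_cast; linarith
    · rw [X.M.h_le_iff, z1]; push_cast; linarith
    · have g0 : ∀ m, m ≠ l → g m = 0 := fun m hm => by
        have a1 := le_of_sub_mem X.M hs m
        have a2 := X.M.nonneg g (X.M.G_mem hg) m
        rw [z2 m hm] at a1
        omega
      have hnI : ¬ X.In g := fun hI => by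
        have := hF g (X.M.mem_cl_of hg hI) g0
        exact X.M.G0 (this ▸ hg)
      unfold Ctx.In at hnI
      push Not at hnI
      obtain ⟨m, hm⟩ := hnI
      by_cases hml : m = l
      · subst hml; linarith
      · exfalso
        have : X.M.h g m = 0 := by simp [Md.h, g0 m hml]
        linarith
  refine (hi_card X hl).trans ?_
  have hcard : (((Hi X l) ×ˢ ({z} : Finset (V d))).card : ℝ) = (Hi X l).card := by simp
  rw [← hcard]
  refine card_le_cnt fun q hq => ?_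
  obtain ⟨q1, q2⟩ := mem_product.1 hq
  rw [mem_singleton] at q2
  obtain ⟨q3, q4⟩ := mem_flt.1 q1
  refine ⟨mem_product.2 ⟨q3, q2 ▸ zE⟩, l, ?_⟩
  rw [X.M.le_h_iff] at q4 ⊢
  have q5 : u ≤ q.1 l := by rw [hu, Int.ceil_le]; exact q4
  have q6 : (u : ℝ) ≤ q.1 l := by exact_mod_cast q5
  rw [Pi.add_apply, q2, z1]
  push_cast
  linarith

/-- outer generators high above the face `j` -/
noncomputable def Om (X : Ctx d) (j : Fin d) : Finset (V d) :=
  flt X.Em fun g => ∃ β ∈ X.M.B, g = X.M.ce j + β ∧ 7 / 10 ≤ X.M.h β j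

/-- long arms in the direction `j` -/
noncomputable def De (X : Ctx d) (j : Fin d) : Finset (V d) :=
  flt X.M.B fun δ => X.Dl δ ∧ 1 - X.P.th < X.M.h δ j

theorem sur_ge (X : Ctx d) : ∑ j ∈ X.T.I, X.M.n / 3 * (Om X j).card ≤ X.Sur := by
  unfold Ctx.Sur
  rw [cnt_eq]
  refine le_trans ?_ (sum_cnt_le _ X.T.I (fun j q => q.1 ∈ Hi X j ∧ q.2 ∈ Om X j) ?_)
  · refine Finset.sum_le_sum fun j hj => ?_
    have h1 : X.M.n / 3 * (Om X j).card ≤ ((Hi X j ×ˢ Om X j).card : ℝ) := by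
      rw [card_product, Nat.cast_mul]
      exact mul_le_mul_of_nonneg_right (hi_card X hj) (Nat.cast_nonneg _)
    refine h1.trans (card_le_cnt fun q hq => ?_)
    obtain ⟨q1, q2⟩ := mem_product.1 hq
    refine ⟨mem_flt.2 ⟨mem_product.2 ⟨(mem_flt.1 q1).1, (mem_flt.1 q2).1⟩, j, ?_⟩, q1, q2⟩
    obtain ⟨β, _, hβ, h7⟩ := (mem_flt.1 q2).2
    have h3 := (mem_flt.1 q1).2
    rw [X.M.h_add, hβ, X.M.h_add, X.M.h_ce_self]
    linarith
  · intro q _ i _ j _ hi hj
    obtain ⟨β, hB, hβ, _⟩ := (mem_flt.1 hi.2).2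
    obtain ⟨β', hB', hβ', _⟩ := (mem_flt.1 hj.2).2
    exact (X.M.face_unique hB hB' (hβ.symm.trans hβ')).1

theorem arm_le (X : Ctx d) : cnt X.M.B X.Arm ≤ ∑ j ∈ X.T.I, ((De X j).card : ℝ) * X.M.n := by
  refine (cnt_le_sum X.T.I (fun j b => ∃ y ∈ De X j ×ˢ X.M.N, b = y.1 + y.2) ?_).trans ?_
  · rintro b hb ⟨δ, s, hδ, hs, rfl, j, hj, hth⟩
    have hsS := X.M0_le hs
    have hb' := X.M.mem_B.1 hb
    refine ⟨j, hj, (δ, s), mem_product.2 ⟨mem_flt.2 ⟨X.M.mem_B.2 fun m => ⟨hδ.1 m, ?_⟩, hδ, hth⟩,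
      X.M.mem_N.2 ⟨X.M.mem_B.2 fun m => ⟨X.M.nonneg s hsS m, ?_⟩, hsS⟩⟩, rfl⟩
    · have a1 := (hb' m).2
      have a2 := X.M.nonneg s hsS m
      simp only [Pi.add_apply] at a1
      show δ m < _
      omega
    · have a1 := (hb' m).2
      have a2 := hδ.1 m
      simp only [Pi.add_apply] at a1
      show s m < _
      omega
  · refine Finset.sum_le_sum fun j _ => ?_
    have h1 : cnt X.M.B (fun b => ∃ y ∈ De X j ×ˢ X.M.N, b = y.1 + y.2) ≤
        ((De X j ×ˢ X.M.N).card : ℝ) :=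
      cnt_le_rel (fun b (y : V d × V d) => b = y.1 + y.2) (fun _ _ h => h)
        fun _ _ _ _ _ h h' => h.trans h'.symm
    rw [card_product, Nat.cast_mul] at h1
    exact h1

/-- the point below the atom -/
def bet (j : Fin d) (δ : V d) (t : ℤ) : V d := fun m => if m = j then t else δ m / 2

theorem bet_self (j : Fin d) (δ : V d) (t : ℤ) : bet j δ t j = t := by simp [bet]
theorem bet_ne {j m : Fin d} (hm : m ≠ j) (δ : V d) (t : ℤ) : bet j δ t m = δ m / 2 := by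
  simp [bet, hm]

theorem bet_mem (X : Ctx d) {j : Fin d} {δ : V d} (hδ : δ ∈ De X j) {t : ℤ}
    (t1 : 7 / 10 * (X.M.c j : ℝ) ≤ t) (t2 : (t : ℝ) ≤ (1 - 2 * X.P.th) * X.M.c j) :
    X.M.ce j + bet j δ t ∈ Om X j := by
  obtain ⟨hB, hD, hth⟩ := mem_flt.1 hδ
  have hc := X.M.cR_pos j
  have hthp := X.P.th_pos
  have het := X.P.et_pos
  have het1 := X.P.et1
  have hett := X.P.et_th
  have hB' := X.M.mem_B.1 hB
  have t0 : 0 ≤ t := by
    have : (0 : ℝ) ≤ t := by linarith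
    exact_mod_cast this
  have t3 : t < X.M.c j := by
    have : (t : ℝ) < X.M.c j := by nlinarith
    exact_mod_cast this
  have hβB : bet j δ t ∈ X.M.B := X.M.mem_B.2 fun m => by
    by_cases hm : m = j
    · subst hm; rw [bet_self]; exact ⟨t0, t3⟩
    · rw [bet_ne hm]
      have := hB' m
      omega
  have hz : ∀ m, m ≠ j → (X.M.ce j + bet j δ t) m = δ m / 2 := fun m hm => by
    rw [Pi.add_apply, X.M.ce_ne hm, bet_ne hm, zero_add]
  refine mem_flt.2 ⟨?_, bet j δ t, hβB, rfl, by rw [X.M.le_h_iff, bet_self]; exact t1⟩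
  refine atom X (j := j) (t := 1 - X.P.th)
    (X.M.ce_add_mem (fun m => (X.M.mem_B.1 hβB m).1) j) ?_ ?_ fun g hg hs => ?_
  · rw [X.M.h_add, X.M.h_ce_self]
    linarith [(X.M.mem_B_h.1 hβB j).1]
  · rw [X.M.h_add, X.M.h_ce_self]
    have : X.M.h (bet j δ t) j ≤ 1 - 2 * X.P.th := by rw [X.M.h_le_iff, bet_self]; exact t2
    linarith
  · have g1 : ∀ m, m ≠ j → g m ≤ δ m / 2 := fun m hm => by
      have := le_of_sub_mem X.M hs m
      rwa [hz m hm] at this
    by_cases hI : X.In g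
    · by_contra hle
      have hj : g j ≤ δ j := X.M.h_le_h.1 (by linarith [not_lt.1 hle])
      have g0 : g = 0 := hD.2 g (X.M.mem_cl_of hg hI) fun m => by
        by_cases hm : m = j
        · subst hm; exact hj
        · have a1 := g1 m hm
          have a2 := hB' m
          omega
      exact X.M.G0 (g0 ▸ hg)
    · unfold Ctx.In at hI
      push Not at hI
      obtain ⟨m, hm⟩ := hI
      by_cases hmj : m = j
      · subst hmj; linarith
      · exfalso
        have a1 := g1 m hmj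
        have a2 := hB' m
        have a3 : 2 * g m ≤ X.M.c m := by omega
        have a4 : 2 * (g m : ℝ) ≤ X.M.c m := by exact_mod_cast a3
        have a5 : X.M.h g m ≤ 1 / 2 := by rw [X.M.h_le_iff]; linarith
        linarith

theorem fib_le (X : Ctx d) (j : Fin d) (T : Finset ℤ) (y : V d) (P : V d × ℤ → Prop)
    (hP : ∀ q, P q → X.M.ce j + bet j q.1 q.2 = y) :
    cnt (De X j ×ˢ T) P ≤ 2 ^ d * (X.P.th * X.M.c j) := by
  have hc := X.M.cR_pos j
  have hthp := X.P.th_pos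
  set w : ℤ := ⌊(1 - X.P.th) * (X.M.c j : ℝ)⌋ with hw
  set U : Fin d → Finset ℤ := fun m =>
    if m = j then Ioo w (X.M.c j) else Ico (2 * y m) (2 * y m + 2) with hU
  have h1 : cnt (De X j ×ˢ T) P ≤ ((Fintype.piFinset U).card : ℝ) := by
    refine cnt_le_inj (fun q => q.1) (fun q hq he => ?_) fun q _ he q' _ he' h => ?_
    · obtain ⟨hB, _, hth⟩ := mem_flt.1 (mem_product.1 hq).1
      refine Fintype.mem_piFinset.2 fun m => ?_
      by_cases hm : m = j
      · subst hm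
        simp only [hU, if_true, mem_Ioo]
        refine ⟨?_, (X.M.mem_B.1 hB m).2⟩
        rw [hw, Int.floor_lt]
        exact X.M.lt_h_iff.1 hth
      · simp only [hU, if_neg hm, mem_Ico]
        have := congrFun (hP q he) m
        rw [Pi.add_apply, X.M.ce_ne hm, bet_ne hm, zero_add] at this
        omega
    · have a1 := congrFun (hP q he) j
      have a2 := congrFun (hP q' he') j
      rw [Pi.add_apply, bet_self] at a1 a2
      exact Prod.ext h (by omega)
  refine h1.trans ?_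
  rw [Fintype.card_piFinset, Nat.cast_prod]
  have h2 : ∀ m, ((U m).card : ℝ) ≤ 2 * (if m = j then X.P.th * X.M.c j else 1) := fun m => by
    by_cases hm : m = j
    · subst hm
      simp only [hU, if_true, Int.card_Ioo]
      have a1 : (1 - X.P.th) * (X.M.c m : ℝ) < w + 1 := Int.lt_floor_add_one _
      have a2 : 0 ≤ X.P.th * X.M.c m := by positivity
      rcases le_or_gt ((X.M.c m : ℤ) - w - 1) 0 with h | h
      · rw [Int.toNat_eq_zero.2 h]
        push_cast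
        linarith
      · have a3 : ((((X.M.c m : ℤ) - w - 1).toNat : ℤ) : ℝ) = ((X.M.c m : ℤ) - w - 1 : ℤ) := by
          rw [Int.toNat_of_nonneg h.le]
        push_cast at a3
        linarith
    · simp only [hU, if_neg hm, Int.card_Ico]
      have : 2 * y m + 2 - 2 * y m = 2 := by ring
      rw [this]
      norm_num
  calc ∏ m, ((U m).card : ℝ) ≤ ∏ m, 2 * (if m = j then X.P.th * X.M.c j else 1) :=
        Finset.prod_le_prod (fun _ _ => Nat.cast_nonneg _) fun m _ => h2 m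
    _ = _ := by
        rw [Finset.prod_mul_distrib, Finset.prod_ite_eq']
        simp

theorem de_le (X : Ctx d) (j : Fin d) : 6 * d * ((De X j).card : ℝ) ≤ (Om X j).card := by
  rcases (De X j).eq_empty_or_nonempty with h | ⟨δ, hδ⟩
  · rw [h]; simp
  have hc := X.M.cR_pos j
  have hthp := X.P.th_pos
  have hth30 := X.P.th30
  have h1 : 1 ≤ X.P.th * X.M.c j := by
    obtain ⟨hB, _, hth⟩ := mem_flt.1 hδ
    have a1 := X.M.lt_h_iff.1 hth
    have a2 : δ j + 1 ≤ X.M.c j := (X.M.mem_B.1 hB j).2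
    have a3 : (δ j : ℝ) + 1 ≤ X.M.c j := by exact_mod_cast a2
    linarith
  set lo : ℤ := ⌈7 / 10 * (X.M.c j : ℝ)⌉ with hlo
  set hi : ℤ := ⌊(1 - 2 * X.P.th) * (X.M.c j : ℝ)⌋ with hhi
  have l1 : (lo : ℝ) < 7 / 10 * (X.M.c j : ℝ) + 1 := Int.ceil_lt_add_one _
  have l2 : (1 - 2 * X.P.th) * (X.M.c j : ℝ) < hi + 1 := Int.lt_floor_add_one _
  have l3 : X.P.th * X.M.c j ≤ 1 / 30 * X.M.c j := mul_le_mul_of_nonneg_right hth30 hc.le
  have l4 : 1 / 5 * (X.M.c j : ℝ) ≤ ((Icc lo hi).card : ℝ) := by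
    rw [Int.card_Icc]
    have a1 : (hi + 1 - lo : ℤ) ≤ ((hi + 1 - lo).toNat : ℤ) := Int.self_le_toNat _
    have a2 : ((hi + 1 - lo : ℤ) : ℝ) ≤ (((hi + 1 - lo).toNat : ℤ) : ℝ) := by exact_mod_cast a1
    push_cast at a2
    linarith
  have h2 : cnt (De X j ×ˢ Icc lo hi) (fun _ => True) ≤
      2 ^ d * (X.P.th * X.M.c j) * (Om X j).card := by
    refine cnt_le_fib (fun q : V d × ℤ => X.M.ce j + bet j q.1 q.2) _ (fun q hq _ => ?_)
      fun y _ => fib_le X j (Icc lo hi) y _ fun q hq => hq.2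
    obtain ⟨q1, q2⟩ := mem_product.1 hq
    obtain ⟨q3, q4⟩ := mem_Icc.1 q2
    exact bet_mem X q1 (Int.ceil_le.1 q3) (Int.le_floor.1 q4)
  have h3 : ((De X j ×ˢ Icc lo hi).card : ℝ) ≤ cnt (De X j ×ˢ Icc lo hi) (fun _ => True) :=
    card_le_cnt fun _ h => ⟨h, trivial⟩
  rw [card_product, Nat.cast_mul] at h3
  have h4 : ((De X j).card : ℝ) * (1 / 5 * X.M.c j) ≤ (De X j).card * (Icc lo hi).card :=
    mul_le_mul_of_nonneg_left l4 (Nat.cast_nonneg _)
  have h5 : ((De X j).card : ℝ) * X.M.c j ≤ 5 * 2 ^ d * X.P.th * (Om X j).card * X.M.c j := by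
    linarith
  have h6 := le_of_mul_le_mul_right h5 hc
  have h7 := mul_le_mul_of_nonneg_left h6 (by positivity : (0 : ℝ) ≤ 6 * d)
  have h8 := mul_le_mul_of_nonneg_right X.P.th_le (Nat.cast_nonneg (Om X j).card : (0 : ℝ) ≤ _)
  linarith

end Arm

theorem arm : ArmStmt := by
  intro d X
  refine ⟨?_, fun l hl hF => Arm.free X hl hF⟩
  refine le_trans ?_ (Arm.sur_ge X)
  refine (mul_le_mul_of_nonneg_left (Arm.arm_le X) (by positivity)).trans ?_
  rw [Finset.mul_sum]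
  refine Finset.sum_le_sum fun j _ => ?_
  have h := mul_le_mul_of_nonneg_left (Arm.de_le X j) X.M.n_pos.le
  linarith

end Pool.Agent.MP_96f5a9_co.GW

end MrgPart0

-- ======== part 1: formerly Pool.Agent.MP_96f5a9_co.gw.Dd
section MrgPart1

set_option autoImplicit false

namespace Pool.Agent.MP_96f5a9_co.GW

open Finset

namespace Dd

variable {d : ℕ} (X : Ctx d)

include X in
theorem dR : (2 : ℝ) ≤ d := by exact_mod_cast X.P.d2

theorem ga1 : X.P.ga ≤ 1 / 20 := by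
  have h1 := X.P.ga_le
  have h2 := dR X
  have h3 := X.P.ga_pos
  nlinarith

theorem tau_le : X.P.tau ≤ X.P.et := by
  have h1 := X.P.la_tau
  have h2 := dR X
  have h3 := X.P.ga_pos
  have h4 := ga1 X
  have h5 := X.P.et_pos
  have h6 := X.P.et1
  have h7 : X.P.et ^ d ≤ X.P.et := pow_le_of_le_one h5.le (by linarith) (by have := X.P.d2; omega)
  have h8 : 0 ≤ X.P.la * X.P.r0 := mul_nonneg X.P.la_pos.le (Nat.cast_nonneg _)
  have h9 : X.P.ga * X.P.et ^ d ≤ X.P.et := by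
    have : X.P.ga * X.P.et ^ d ≤ 1 * X.P.et ^ d :=
      mul_le_mul_of_nonneg_right (by linarith) (pow_nonneg h5.le _)
    linarith
  unfold Par.tau
  nlinarith

/-- side of the cells -/
noncomputable def ze : ℝ := X.P.ga * X.P.et / (16 * d)

theorem ze_pos : 0 < ze X := by
  have h2 := dR X
  have := X.P.ga_pos
  have := X.P.et_pos
  unfold ze; positivity

theorem ze_mul : 16 * d * ze X = X.P.ga * X.P.et := by
  have h2 := dR X
  unfold ze; field_simp

theorem ze_le : ze X ≤ X.P.et := by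
  have h1 := ze_mul X
  have h2 := dR X
  have h3 := ze_pos X
  have h4 := ga1 X
  have h5 := X.P.et_pos
  nlinarith

theorem exists_rep (k : Fin d) : ∃ Rep : Finset (V d), (Rep.card : ℝ) ≤ X.P.C2 ∧
    (∀ g ∈ Rep, X.TyD k g) ∧ ∀ g, X.TyD k g → ∃ g' ∈ Rep, g' k ≤ g k ∧
      ∀ m, m ≠ k → X.M.h g' m < X.M.h g m + ze X ∧ X.M.h g m < X.M.h g' m + ze X := by
  classical
  have hz := ze_pos X
  let T : Finset (V d) := flt X.Em (X.TyD k)
  let cell : V d → (Fin d → ℤ) := fun g m => if m = k then 0 else ⌊X.M.h g m / ze X⌋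
  have hex : ∀ c : Fin d → ℤ, (∃ g ∈ T, cell g = c) →
      ∃ g' ∈ T, cell g' = c ∧ ∀ g ∈ T, cell g = c → g' k ≤ g k := by
    intro c hc
    obtain ⟨g0, hg0, e0⟩ := hc
    obtain ⟨g', h1, h2⟩ := Finset.exists_min_image (T.filter fun g => cell g = c) (fun g => g k)
      ⟨g0, mem_filter.2 ⟨hg0, e0⟩⟩
    exact ⟨g', (mem_filter.1 h1).1, (mem_filter.1 h1).2,
      fun g hg e => h2 g (mem_filter.2 ⟨hg, e⟩)⟩
  choose! f hf1 hf2 hf3 using hex
  refine ⟨(T.image cell).image f, ?_, ?_, ?_⟩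
  · have h1 : T.image cell ⊆ Fintype.piFinset fun _ : Fin d => Finset.Icc (0 : ℤ) ⌊1 / ze X⌋ := by
      intro c hc
      obtain ⟨g, hg, rfl⟩ := mem_image.1 hc
      have hB := X.M.mem_B_h.1 (mem_flt.1 hg).2.2.1
      refine Fintype.mem_piFinset.2 fun m => mem_Icc.2 ?_
      have h0 : (0 : ℤ) ≤ ⌊1 / ze X⌋ := Int.floor_nonneg.2 (by positivity)
      by_cases hm : m = k
      · simp only [cell, if_pos hm]; exact ⟨le_rfl, h0⟩
      · simp only [cell, if_neg hm]
        exact ⟨Int.floor_nonneg.2 (div_nonneg (hB m).1 hz.le),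
          Int.floor_le_floor (div_le_div_of_nonneg_right (hB m).2.le hz.le)⟩
    have h2 : ((T.image cell).image f).card ≤ (⌊1 / ze X⌋ + 1 - 0).toNat ^ d := by
      refine card_image_le.trans ((card_le_card h1).trans ?_)
      rw [Fintype.card_piFinset]
      simp
    have h0 : (0 : ℤ) ≤ ⌊1 / ze X⌋ := Int.floor_nonneg.2 (by positivity)
    have h3 : (((⌊1 / ze X⌋ + 1 - 0).toNat : ℕ) : ℝ) ≤ 16 * d / (X.P.ga * X.P.et) + 1 := by
      have e1 : (((⌊1 / ze X⌋ + 1 - 0).toNat : ℕ) : ℤ) = ⌊1 / ze X⌋ + 1 := by omega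
      have e2 : (((⌊1 / ze X⌋ + 1 - 0).toNat : ℕ) : ℝ) = (⌊1 / ze X⌋ : ℝ) + 1 := by
        exact_mod_cast congrArg (fun z : ℤ => (z : ℝ)) e1
      have e3 : 1 / ze X = 16 * d / (X.P.ga * X.P.et) := by unfold ze; rw [one_div_div]
      rw [e2, ← e3]
      linarith [Int.floor_le (1 / ze X)]
    calc (((T.image cell).image f).card : ℝ) ≤ (((⌊1 / ze X⌋ + 1 - 0).toNat : ℕ) : ℝ) ^ d := by
          exact_mod_cast h2
      _ ≤ (16 * d / (X.P.ga * X.P.et) + 1) ^ d := pow_le_pow_left₀ (Nat.cast_nonneg _) h3 d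
      _ ≤ X.P.C2 := X.P.C2_ge
  · intro g hg
    obtain ⟨c, hc, rfl⟩ := mem_image.1 hg
    exact (mem_flt.1 (hf1 c (mem_image.1 hc))).2
  · intro g hg
    have hgT : g ∈ T := mem_flt.2 ⟨hg.1, hg⟩
    have hc : ∃ g' ∈ T, cell g' = cell g := ⟨g, hgT, rfl⟩
    refine ⟨f (cell g), mem_image_of_mem _ (mem_image_of_mem _ hgT), hf3 _ hc g hgT rfl,
      fun m hm => ?_⟩
    have e := congrFun (hf2 _ hc) m
    simp only [cell, if_neg hm] at e
    have a1 := Int.floor_le (X.M.h g m / ze X)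
    have a2 := Int.lt_floor_add_one (X.M.h g m / ze X)
    have a3 := Int.floor_le (X.M.h (f (cell g)) m / ze X)
    have a4 := Int.lt_floor_add_one (X.M.h (f (cell g)) m / ze X)
    have e' : ⌊X.M.h (f (cell g)) m / ze X⌋ = ⌊X.M.h g m / ze X⌋ := e
    rw [e'] at a3 a4
    rw [le_div_iff₀ hz] at a1 a3
    rw [div_lt_iff₀ hz] at a2 a4
    constructor <;> linarith

theorem top (hT : TlStmt) (k m : Fin d) (ρ σ : ℝ) (h0 : 0 ≤ ρ) (h1 : ρ ≤ σ) (h2 : σ ≤ 1) :
    σ * cnt (flt X.M.B (X.VD k)) (fun b => 1 - ρ ≤ X.M.h b m ∧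
      ∃ g, X.TyD k g ∧ (∀ i, g i ≤ b i) ∧ X.M.h g m ≤ 1 - σ) ≤
      2 * ρ * (flt X.M.B (X.VD k)).card := by
  rw [cnt_eq]
  refine hT d X.M _ _ m ρ σ h0 h1 fun b hb => ?_
  obtain ⟨hW, hρ, g, hg, hgb, hgm⟩ := mem_flt.1 hb
  have hB := (mem_flt.1 hW).1
  refine ⟨hρ, (X.M.mem_B_h.1 hB m).2, fun t ht1 ht2 => mem_flt.2 ⟨?_, g, hg, fun i => ?_⟩⟩
  · refine X.M.mem_B.2 fun i => ?_
    by_cases hi : i = m
    · subst hi
      rw [Function.update_self]
      refine ⟨?_, ht2⟩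
      have : (0 : ℝ) ≤ t := le_trans (mul_nonneg (by linarith) (X.M.cR_pos i).le) ht1
      exact_mod_cast this
    · rw [Function.update_of_ne hi]; exact X.M.mem_B.1 hB i
  · by_cases hi : i = m
    · subst hi
      rw [Function.update_self]
      have := (X.M.h_le_iff.1 hgm).trans ht1
      exact_mod_cast this
    · rw [Function.update_of_ne hi]; exact hgb i

theorem tyd_le {k m : Fin d} {g : V d} (hg : X.TyD k g) (hm : m ≠ k) :
    X.M.h g m ≤ 1 - X.P.et := by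
  by_cases hI : m ∈ X.T.I
  · have h1 := hg.2.2.2.1 m hI hm
    have h2 := X.P.et_th
    have h3 := X.P.et_pos
    linarith
  · exact (hg.2.2.2.2 m hI).le

/-- the shift -/
noncomputable def sh (k : Fin d) : V d := fun m => if m = k then 0 else ⌊ze X * X.M.c m⌋

theorem sh_self (k : Fin d) : sh X k k = 0 := by simp [sh]

theorem sh_nonneg (k m : Fin d) : 0 ≤ sh X k m := by
  unfold sh
  split_ifs
  · exact le_rfl
  · exact Int.floor_nonneg.2 (mul_nonneg (ze_pos X).le (X.M.cR_pos m).le)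

theorem sh_le (k m : Fin d) : X.M.h (sh X k) m ≤ ze X := by
  rw [X.M.h_le_iff]
  unfold sh
  split_ifs
  · simpa using mul_nonneg (ze_pos X).le (X.M.cR_pos m).le
  · exact Int.floor_le _

theorem le_sh {k m : Fin d} (hm : m ≠ k) {g g' : V d} (h : X.M.h g' m < X.M.h g m + ze X) :
    g' m ≤ g m + sh X k m := by
  have h1 : X.M.h (g' - g) m ≤ ze X := by rw [X.M.h_sub]; linarith
  rw [X.M.h_le_iff] at h1
  have h2 : (g' - g) m ≤ ⌊ze X * X.M.c m⌋ := Int.le_floor.2 h1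
  simp only [sh, if_neg hm]
  simp only [Pi.sub_apply] at h2
  omega

/-- the points of `N1` next to the face `k` only -/
def Nk (k : Fin d) (y : V d) : Prop :=
  1 - X.P.et ≤ X.M.h y k ∧ ∀ m ∈ X.T.I, m ≠ k → X.M.h y m < 1 - X.P.et

theorem split (hL : X.Low) (hC : X.Cm) {k l : Fin d} (hl : l ≠ k) (Rep : Finset (V d))
    (hR1 : ∀ g ∈ Rep, X.TyD k g)
    (hR2 : ∀ g, X.TyD k g → ∃ g' ∈ Rep, g' k ≤ g k ∧
      ∀ m, m ≠ k → X.M.h g' m < X.M.h g m + ze X ∧ X.M.h g m < X.M.h g' m + ze X)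
    {b : V d} (hB : b ∈ X.M.B) {g : V d} (hg : X.TyD k g) (hgb : ∀ m, g m ≤ b m)
    (h1 : ∀ m, m ≠ k → X.M.h b m < 1 - ze X)
    (h2 : ∀ m, m ≠ k → X.M.h g m ≤ 1 - X.P.th → X.M.h b m < 1 - 3 * X.P.et) :
    (∃ r ∈ Rep, b + sh X k - r ∈ X.M.B ∧ r + (b + sh X k - r) ∈ X.M.B ∧
      X.M.ce l + (b + sh X k - r) ∈ X.M0) ∨
    ∃ g' ∈ X.Elow l, b + sh X k + X.M.ce l - g' ∈ flt X.N1 (Nk X k) := by
  obtain ⟨r, hr, hrk, hrm⟩ := hR2 g hg
  have hrT := hR1 r hr
  have hz := ze_le X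
  have hz0 := ze_pos X
  have he0 := X.P.et_pos
  have he1 := X.P.et1
  have hth := X.P.th30
  have hBh := X.M.mem_B_h.1 hB
  have hrB := X.M.mem_B_h.1 hrT.2.1
  have hsk : X.M.h (sh X k) k = 0 := by simp [Md.h, sh_self]
  have hb1 : ∀ m, X.M.h (b + sh X k) m < 1 := by
    intro m
    rw [X.M.h_add]
    by_cases hm : m = k
    · subst hm; rw [hsk]; linarith [(hBh m).2]
    · linarith [h1 m hm, sh_le X k m]
  have hb2 : ∀ m ∈ X.T.I, m ≠ k → X.M.h (b + sh X k) m < 1 - 2 * X.P.et := by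
    intro m hI hm
    rw [X.M.h_add]
    linarith [h2 m hm (hg.2.2.2.1 m hI hm), sh_le X k m]
  have hβ0 : ∀ m, 0 ≤ (b + sh X k - r) m := by
    intro m
    have := hgb m
    simp only [Pi.sub_apply, Pi.add_apply]
    by_cases hm : m = k
    · subst hm; rw [sh_self]; omega
    · have := le_sh X hm (hrm m hm).1; omega
  have hβ1 : ∀ m, X.M.h (b + sh X k - r) m < 1 - 2 * X.P.et := by
    intro m
    rw [X.M.h_sub]
    by_cases hm : m = k
    · subst hm; linarith [hb1 m, hrT.2.2.1]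
    · by_cases hgm : X.M.h g m ≤ 1 - X.P.th
      · rw [X.M.h_add]
        linarith [h2 m hm hgm, sh_le X k m, (hrB m).1]
      · push Not at hgm
        linarith [hb1 m, (hrm m hm).2]
  have hbB : b + sh X k ∈ X.M.B := X.M.mem_B_h.2 fun m => ⟨X.M.h_nonneg_iff.2 (by
    have := (X.M.mem_B.1 hB m).1
    have := sh_nonneg X k m
    simp only [Pi.add_apply]; omega), hb1 m⟩
  rcases hC l _ (fun m => ⟨hβ0 m, hβ1 m⟩) with h | ⟨g', hg', x', hx', e⟩
  · left
    refine ⟨r, hr, X.M.mem_B_h.2 fun m => ⟨X.M.h_nonneg_iff.2 (hβ0 m), by linarith [hβ1 m]⟩,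
      ?_, h⟩
    rw [add_sub_cancel]; exact hbB
  · right
    refine ⟨g', hg', ?_⟩
    obtain ⟨hG', hl', _⟩ := mem_flt.1 hg'
    obtain ⟨hxN, hx0⟩ := mem_flt.1 hx'
    have hxB := X.M.mem_B_h.1 (X.M.mem_N.1 hxN).1
    have ey : b + sh X k + X.M.ce l - g' = r + x' := by
      have : x' = X.M.ce l + (b + sh X k - r) - g' := by rw [e]; abel
      rw [this]; abel
    have hy1 : ∀ m, m ≠ l → X.M.h (r + x') m ≤ X.M.h (b + sh X k) m := by
      intro m hm
      rw [← ey, X.M.h_sub, X.M.h_add, X.M.h_ce_ne hm]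
      linarith [X.M.h_nonneg (X.M.G_mem hG') m]
    have hy2 : l ∈ X.T.I → X.M.h (r + x') l < 1 - X.P.et := by
      intro hI
      rw [← ey, X.M.h_sub, X.M.h_add, X.M.h_ce_self]
      linarith [hb2 l hI hl]
    have hy3 : X.M.h (r + x') l < 1 := by
      by_cases hI : l ∈ X.T.I
      · linarith [hy2 hI]
      · rw [X.M.h_add]
        have a1 := hL x' hx0 (fun m => by linarith [(hxB m).2]) l hI
        linarith [hrT.2.2.2.2 l hI, tau_le X]
    have hyB : r + x' ∈ X.M.B := X.M.mem_B_h.2 fun m => ⟨by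
      rw [X.M.h_add]; linarith [(hrB m).1, (hxB m).1], by
      by_cases hm : m = l
      · subst hm; exact hy3
      · linarith [hy1 m hm, hb1 m]⟩
    rw [ey]
    refine mem_flt.2 ⟨X.light hrT.1 hx0 hyB, ?_, fun m hI hm => ?_⟩
    · rw [X.M.h_add]; linarith [hrT.2.2.1, (hxB k).1]
    · by_cases hm' : m = l
      · subst hm'; exact hy2 hI
      · linarith [hy1 m hm', hb2 m hI hm]

theorem one (hT : TlStmt) (Φ E : ℝ) (hL : X.Low) (hC : X.Cm) (hF : X.Fail Φ) (h0 : 0 ≤ Φ)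
    (hE : ∀ l, ((X.Elow l).card : ℝ) ≤ E) (k : Fin d) :
    cnt X.M.B (X.VD k) ≤ (1 + X.P.ga) * (E * cnt X.N1 (Nk X k) + X.P.C2 * Φ) := by
  classical
  obtain ⟨l, hl⟩ : ∃ l : Fin d, l ≠ k := by
    have : Nontrivial (Fin d) := Fin.nontrivial_iff_two_le.2 X.P.d2
    exact exists_ne k
  obtain ⟨Rep, hR0, hR1, hR2⟩ := exists_rep X k
  have hd := dR X
  have hz0 := ze_pos X
  have he0 := X.P.et_pos
  have he1 := X.P.et1
  have hth := X.P.th30
  have hth0 := X.P.th_pos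
  have hga := ga1 X
  have hga0 := X.P.ga_pos
  set W := flt X.M.B (X.VD k) with hW
  let R : ℝ → ℝ → Fin d → V d → Prop := fun ρ σ m b => 1 - ρ ≤ X.M.h b m ∧
      ∃ g, X.TyD k g ∧ (∀ i, g i ≤ b i) ∧ X.M.h g m ≤ 1 - σ
  let Q1 : V d → Prop := fun b => ∃ m ∈ (univ : Finset (Fin d)), R (ze X) X.P.et m b
  let Q2 : V d → Prop := fun b => ∃ m ∈ (univ : Finset (Fin d)), R (3 * X.P.et) X.P.th m b
  let Q3 : V d → Prop := fun b => ∃ r ∈ Rep, b + sh X k - r ∈ X.M.B ∧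
      r + (b + sh X k - r) ∈ X.M.B ∧ X.M.ce l + (b + sh X k - r) ∈ X.M0
  let Q4 : V d → Prop := fun b => ∃ g' ∈ X.Elow l, b + sh X k + X.M.ce l - g' ∈ flt X.N1 (Nk X k)
  have hw0 : (0 : ℝ) ≤ W.card := Nat.cast_nonneg _
  have c1 : cnt W Q1 ≤ X.P.ga / 8 * W.card := by
    have a1 : ∀ m ∈ (univ : Finset (Fin d)), cnt W (R (ze X) X.P.et m) ≤
        X.P.ga / (8 * d) * W.card := fun m _ => by
      have a := top X hT k m (ze X) X.P.et hz0.le (ze_le X) (by linarith)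
      have e : 2 * ze X * W.card = X.P.et * (X.P.ga / (8 * d) * W.card) := by
        unfold ze; field_simp; ring
      rw [← hW, e] at a
      exact le_of_mul_le_mul_left a he0
    refine (cnt_le_sum univ _ fun b _ hb => hb).trans ((sum_le_sum a1).trans (le_of_eq ?_))
    rw [sum_const, card_univ, Fintype.card_fin, nsmul_eq_mul]
    field_simp
  have c2 : cnt W Q2 ≤ 6 * X.P.ga / 64 * W.card := by
    have a1 : ∀ m ∈ (univ : Finset (Fin d)), cnt W (R (3 * X.P.et) X.P.th m) ≤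
        6 * X.P.ga / (64 * d) * W.card := fun m _ => by
      have a := top X hT k m (3 * X.P.et) X.P.th (by linarith) (by linarith [X.P.et_th])
        (by linarith)
      rw [← hW] at a
      have e1 : 2 * (3 * X.P.et) ≤ X.P.th * (6 * X.P.ga / (64 * d)) := by
        rw [← mul_div_assoc, le_div_iff₀ (by positivity)]
        linarith [X.P.et_le]
      have e : 2 * (3 * X.P.et) * W.card ≤ X.P.th * (6 * X.P.ga / (64 * d) * W.card) := by
        rw [← mul_assoc X.P.th]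
        exact mul_le_mul_of_nonneg_right e1 hw0
      exact le_of_mul_le_mul_left (a.trans e) hth0
    refine (cnt_le_sum univ _ fun b _ hb => hb).trans ((sum_le_sum a1).trans (le_of_eq ?_))
    rw [sum_const, card_univ, Fintype.card_fin, nsmul_eq_mul]
    field_simp
  have c3 : cnt W Q3 ≤ X.P.C2 * Φ := by
    have a1 : ∀ r ∈ Rep, cnt W (fun b => b + sh X k - r ∈ X.M.B ∧
        r + (b + sh X k - r) ∈ X.M.B ∧ X.M.ce l + (b + sh X k - r) ∈ X.M0) ≤ Φ := fun r hr => by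
      have hr' := hR1 r hr
      refine le_trans ?_ (hF r hr'.1 hr'.2.1 l (tyd_le X hr' hl))
      rw [cnt_eq X.M.B]
      refine cnt_le_inj (fun b => b + sh X k - r) (fun b _ hb => mem_flt.2 hb) ?_
      intro x _ _ y _ _ e
      simpa using e
    refine (cnt_le_sum Rep _ fun b _ hb => hb).trans ((sum_le_sum a1).trans ?_)
    rw [sum_const, nsmul_eq_mul]
    exact mul_le_mul_of_nonneg_right hR0 h0
  have c4 : cnt W Q4 ≤ E * cnt X.N1 (Nk X k) := by
    have a1 : ∀ g' ∈ X.Elow l, cnt W (fun b => b + sh X k + X.M.ce l - g' ∈ flt X.N1 (Nk X k)) ≤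
        cnt X.N1 (Nk X k) := fun g' _ => by
      rw [cnt_eq X.N1]
      refine cnt_le_inj (fun b => b + sh X k + X.M.ce l - g') (fun b _ hb => hb) ?_
      intro x _ _ y _ _ e
      simpa using e
    refine (cnt_le_sum (X.Elow l) _ fun b _ hb => hb).trans ((sum_le_sum a1).trans ?_)
    rw [sum_const, nsmul_eq_mul]
    exact mul_le_mul_of_nonneg_right (hE l) (cnt_nonneg _ _)
  have hall : ∀ b ∈ W, True → (Q1 b ∨ Q2 b) ∨ (Q3 b ∨ Q4 b) := by
    intro b hb _
    obtain ⟨hB, g, hg, hgb⟩ := mem_flt.1 hb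
    by_cases q : Q1 b ∨ Q2 b
    · exact Or.inl q
    right
    rw [not_or] at q
    refine split X hL hC hl Rep hR1 hR2 hB hg hgb (fun m hm => ?_) (fun m hm hgm => ?_)
    · by_contra hc
      exact q.1 ⟨m, mem_univ _, not_lt.1 hc, g, hg, hgb, tyd_le X hg hm⟩
    · by_contra hc
      exact q.2 ⟨m, mem_univ _, not_lt.1 hc, g, hg, hgb, hgm⟩
  have t0 : (W.card : ℝ) ≤ cnt W (fun _ => True) := card_le_cnt fun x hx => ⟨hx, trivial⟩
  have t1 := cnt_le_add hall
  have t2 : cnt W (fun b => Q1 b ∨ Q2 b) ≤ cnt W Q1 + cnt W Q2 := cnt_le_add fun _ _ h => h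
  have t3 : cnt W (fun b => Q3 b ∨ Q4 b) ≤ cnt W Q3 + cnt W Q4 := cnt_le_add fun _ _ h => h
  have t4 : (1 - 14 / 64 * X.P.ga) * W.card ≤ E * cnt X.N1 (Nk X k) + X.P.C2 * Φ := by
    linarith
  rw [cnt_eq, ← hW]
  have t5 : 1 ≤ (1 + X.P.ga) * (1 - 14 / 64 * X.P.ga) := by nlinarith
  calc (W.card : ℝ) ≤ (1 + X.P.ga) * (1 - 14 / 64 * X.P.ga) * W.card :=
        le_mul_of_one_le_left hw0 t5
    _ = (1 + X.P.ga) * ((1 - 14 / 64 * X.P.ga) * W.card) := by ring
    _ ≤ _ := mul_le_mul_of_nonneg_left t4 (by linarith)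

end Dd

theorem dd (hT : TlStmt) : DStmt := by
  intro d X Φ E hL hC hF h0 hE
  have hd := Dd.dR X
  have hga := X.P.ga_pos
  have het := X.P.et_pos
  have hE0 : 0 ≤ E := le_trans (Nat.cast_nonneg _) (hE ⟨0, by have := X.P.d2; omega⟩)
  have hC2 : 0 ≤ X.P.C2 := le_trans (by positivity) X.P.C2_ge
  have h1 : ∑ k ∈ X.T.I, cnt X.N1 (Dd.Nk X k) ≤ X.N1.card := by
    refine sum_cnt_le _ _ _ fun y _ i hi j hj h1 h2 => ?_
    by_contra hne
    have a1 := h1.1
    have a2 := h2.2 i hi hne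
    linarith
  have h2 : (X.T.I.card : ℝ) ≤ d := by
    have := card_le_univ X.T.I
    rw [Fintype.card_fin] at this
    exact_mod_cast this
  refine (sum_le_sum fun k _ => Dd.one X hT Φ E hL hC hF h0 hE k).trans ?_
  rw [← mul_sum, sum_add_distrib, ← mul_sum, sum_const, nsmul_eq_mul]
  refine mul_le_mul_of_nonneg_left ?_ (by linarith)
  have a1 := mul_le_mul_of_nonneg_left h1 hE0
  have a2 := mul_le_mul_of_nonneg_right h2 (mul_nonneg hC2 h0)
  linarith

end Pool.Agent.MP_96f5a9_co.GW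

end MrgPart1

-- ======== part 2: formerly Pool.Agent.MP_96f5a9_co.gw.Dom
section MrgPart2

/-! Dominant inner generators. -/

set_option autoImplicit false

namespace Pool.Agent.MP_96f5a9_co.GW

open Finset

namespace Dom

variable {d : ℕ} (X : Ctx d)

theorem A0_S {g : V d} (hg : g ∈ X.A0) : g ∈ X.M.S := X.M.G_mem (mem_flt.1 hg).1

theorem fact0 {z : V d} (hz : z ∈ X.M0) : ∃ t : V d → ℕ, z = ∑ g ∈ X.A0, t g • g :=
  X.M.fact hz

/-- a dominant inner generator for each direction of `I` -/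
theorem exists_dom {m : Fin d} (hm : m ∈ X.T.I) :
    ∃ g ∈ X.A0, 0 < g m ∧ ∀ l, l ≠ m → X.M.h g l < X.M.h g m := by
  have d2 : (2 : ℝ) ≤ d := by exact_mod_cast X.P.d2
  have mu0 := X.P.mu_pos
  have mula := X.P.mu_la
  have la1 := X.P.la1
  have et1 := X.P.et1
  have a0 : X.T.a m ∈ X.M0 := by
    refine X.mem_M0 (X.M.mem_N.1 (X.T.aN m hm)).2 fun l => ?_
    by_cases hl : l = m
    · subst hl
      linarith [X.T.ahi l hm]
    · have := X.T.aflat m hm l hl
      nlinarith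
  obtain ⟨t, ht⟩ := fact0 X a0
  set L : V d → ℝ := fun x => X.M.h x m - ∑ l ∈ univ.erase m, X.M.h x l with hL
  have L0 : 0 < L (X.T.a m) := by
    have h1 : ∑ l ∈ univ.erase m, X.M.h (X.T.a m) l ≤ ∑ _l ∈ univ.erase m, X.P.mu :=
      sum_le_sum fun l hl => X.T.aflat m hm l (ne_of_mem_erase hl)
    have h2 : (((univ : Finset (Fin d)).erase m).card : ℝ) ≤ d := by
      exact_mod_cast (card_erase_le).trans (by simp)
    rw [sum_const, nsmul_eq_mul] at h1
    have h3 := X.T.alo m hm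
    have h4 := mul_le_mul_of_nonneg_right h2 mu0.le
    simp only [hL]
    nlinarith
  have L1 : L (X.T.a m) = ∑ g ∈ X.A0, (t g : ℝ) * L g := by
    conv_lhs => rw [ht]
    simp only [hL, X.M.h_sum, X.M.h_nsmul, mul_sub, sum_sub_distrib, mul_sum]
    rw [sum_comm]
  obtain ⟨g, hg, h⟩ : ∃ g ∈ X.A0, 0 < L g := by
    by_contra hc
    push Not at hc
    have : ∑ g ∈ X.A0, (t g : ℝ) * L g ≤ 0 := sum_nonpos fun g hg =>
      mul_nonpos_of_nonneg_of_nonpos (Nat.cast_nonneg _) (hc g hg)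
    linarith
  have nn := X.M.h_nonneg (A0_S X hg)
  simp only [hL] at h
  refine ⟨g, hg, ?_, fun l hl => ?_⟩
  · have h1 : 0 ≤ ∑ l ∈ univ.erase m, X.M.h g l := sum_nonneg fun l _ => nn l
    have h2 : X.M.h 0 m < X.M.h g m := by rw [X.M.h_zero]; linarith
    simpa using X.M.h_lt_h.1 h2
  · have := single_le_sum (f := fun l => X.M.h g l) (s := univ.erase m) (fun l _ => nn l)
      (mem_erase.2 ⟨hl, mem_univ l⟩)
    linarith

/-- a vanishing coordinate kills the multiplicity -/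
theorem mult_zero {x g : V d} {t : V d → ℕ} (ht : x = ∑ g ∈ X.A0, t g • g) (hg : g ∈ X.A0)
    {j : Fin d} (hj : g j ≠ 0) (hx : x j = 0) : t g = 0 := by
  have h1 : x j = ∑ g ∈ X.A0, (t g : ℤ) * g j := by
    rw [ht]; simp
  have nn : ∀ g ∈ X.A0, 0 ≤ (t g : ℤ) * g j := fun g hg =>
    mul_nonneg (Nat.cast_nonneg _) (X.M.nonneg g (A0_S X hg) j)
  have h2 := (sum_eq_zero_iff_of_nonneg nn).1 (h1 ▸ hx) g hg
  exact_mod_cast (mul_eq_zero.1 h2).resolve_right hj

end Dom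

open Dom

theorem dom : DomStmt := by
  classical
  intro d X
  choose! gm g0 gp gd using fun m (hm : m ∈ X.T.I) => exists_dom X hm
  have inj : Set.InjOn gm X.T.I := by
    intro m hm l hl e
    by_contra hne
    have h1 := gd m hm l (Ne.symm hne)
    have h2 := gd l hl m hne
    rw [e] at h1
    linarith
  have c1 : X.T.I.card ≤ X.A0.card := card_le_card_of_injOn gm (fun m hm => g0 m hm) inj
  refine ⟨c1, fun hc => ?_⟩
  have k0 : X.Kab = ∅ := card_eq_zero.1 (by omega)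
  have im : X.T.I.image gm = X.A0 := by
    refine eq_of_subset_of_card_le (image_subset_iff.2 g0) ?_
    rw [card_image_of_injOn inj]
    omega
  have ex : ∀ g ∈ X.A0, ∃ m ∈ X.T.I, gm m = g := fun g hg => mem_image.1 (im ▸ hg)
  by_cases hf : ∃ l ∈ X.T.I, ∃ j, j ≠ l ∧ gm l j ≠ 0
  · obtain ⟨l, hl, j, hj, hj0⟩ := hf
    refine Or.inl ⟨l, hl, fun x hx h0 => ?_⟩
    obtain ⟨t, ht⟩ := fact0 X hx
    rw [ht]
    refine sum_eq_zero fun g hg => ?_
    obtain ⟨m, hm, rfl⟩ := ex g hg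
    by_cases hml : m = l
    · subst hml
      rw [mult_zero X ht hg hj0 (h0 j hj), zero_smul]
    · rw [mult_zero X ht hg (gp m hm).ne' (h0 m hml), zero_smul]
  push Not at hf
  refine Or.inr fun k hk => ?_
  have w0 := gp k hk
  have hex : ∃ κ : ℕ, (X.M.c k : ℤ) ≤ κ * gm k k :=
    ⟨X.M.c k, le_mul_of_one_le_right (Nat.cast_nonneg _) w0⟩
  have κ1 := Nat.find_spec hex
  refine cnt_le_inj (fun b => X.M.ce k + b - Nat.find hex • gm k) (fun b hb hz => ?_)
    fun b _ _ b' _ _ e => by simpa using e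
  obtain ⟨g, hg, x, hx, e⟩ := hz
  rcases hg with rfl | hg
  swap
  · rw [k0] at hg
    exact absurd hg (notMem_empty _)
  rw [zero_add] at e
  obtain ⟨t, ht⟩ := fact0 X hx
  have hB := X.M.mem_B.1 hb
  have xk : x k = (t (gm k) : ℤ) * gm k k := by
    have h1 : x k = ∑ g ∈ X.A0, (t g : ℤ) * g k := by
      rw [ht]; simp
    rw [h1]
    refine sum_eq_single_of_mem _ (g0 k hk) fun g hg hne => ?_
    obtain ⟨m, hm, rfl⟩ := ex g hg
    rw [hf m hm k fun h => hne (by rw [h]), mul_zero]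
  have xk' : x k = X.M.c k + b k := by rw [← e]; simp [X.M.ce_self]
  have κ2 : Nat.find hex ≤ t (gm k) := Nat.find_min' hex (by linarith [(hB k).1])
  have uS : X.M.ce k + b - Nat.find hex • gm k ∈ X.M.S := by
    obtain ⟨r, hr⟩ := Nat.exists_eq_add_of_le κ2
    have e2 : X.M.ce k + b - Nat.find hex • gm k =
        r • gm k + ∑ g ∈ X.A0.erase (gm k), t g • g := by
      rw [e, ht, ← add_sum_erase _ _ (g0 k hk), hr, add_nsmul]
      abel
    rw [e2]
    exact X.M.S.add_mem (X.M.S.nsmul_mem (A0_S X (g0 k hk)) _) (X.M.S.sum_mem fun g hg =>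
      X.M.S.nsmul_mem (A0_S X (mem_of_mem_erase hg)) _)
  refine X.M.mem_N.2 ⟨X.M.mem_B.2 fun i => ⟨X.M.nonneg _ uS i, ?_⟩, uS⟩
  by_cases hi : i = k
  · subst hi
    have := (hB i).2
    rw [Pi.sub_apply, Pi.add_apply, Pi.smul_apply, X.M.ce_self, nsmul_eq_mul]
    linarith
  · have := (hB i).2
    simpa [X.M.ce_ne hi, hf k hk i hi] using this

end Pool.Agent.MP_96f5a9_co.GW

end MrgPart2

-- ======== part 3: formerly Pool.Agent.MP_96f5a9_co.gw.Fac
section MrgPart3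

/-! First consequences of a near tiling. -/

set_option autoImplicit false

namespace Pool.Agent.MP_96f5a9_co.GW

open Finset

namespace Fac

variable {d : ℕ} (M : Md d) {ε : ℝ}

theorem cnt_true {α : Type} (A : Finset α) : cnt A (fun _ => True) = A.card :=
  le_antisymm (cnt_le_card _ _) (card_le_cnt fun _ h => ⟨h, trivial⟩)

theorem des_srv {k : Fin d} {x g : V d} (h : M.Des ε k x g) : 1 - ε ≤ M.h g k := by
  have := (M.chi_spec h.2.1).2.1
  rwa [h.2.2] at this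

theorem des_le (k : Fin d) (A : Finset (V d × V d)) (Q : V d → Prop)
    (h : ∀ q ∈ A, M.Des ε k q.1 q.2 → Q (q.1 + q.2 - M.ce k)) :
    cnt A (fun q => M.Des ε k q.1 q.2) ≤ cnt M.B Q := by
  refine cnt_le_inj (Y := flt M.B Q) (fun q => q.1 + q.2 - M.ce k)
    (fun q hq hd => mem_flt.2 ⟨hd.1, h q hq hd⟩) fun q _ h1 q' _ h2 e => ?_
  have e2 : q.2 = q'.2 := by rw [← h1.2.2, ← h2.2.2, e]
  refine Prod.ext ?_ e2
  rw [e2] at e
  exact add_right_cancel (sub_left_injective e)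

theorem many (hT : M.Til ε) :
    d * (1 - ε) * M.vol ≤ cnt (M.N ×ˢ M.G) (fun q => ∃ k, M.Des ε k q.1 q.2) := by
  have h1 : cnt ((univ : Finset (Fin d)) ×ˢ M.B) (fun q => ∃ g, M.Srv ε q.1 q.2 g) ≤
      cnt (M.N ×ˢ M.G) (fun q => ∃ k, M.Des ε k q.1 q.2) := by
    refine cnt_le_inj (Y := flt _ _)
      (fun q => (M.ce q.1 + q.2 - M.chi ε q.1 q.2, M.chi ε q.1 q.2)) (fun q hq hs => ?_)
      fun q hq _ q' hq' _ e => ?_
    · have h := M.chi_spec hs
      have e : M.ce q.1 + q.2 - M.chi ε q.1 q.2 + M.chi ε q.1 q.2 - M.ce q.1 = q.2 := by abel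
      refine mem_flt.2 ⟨mem_product.2 ⟨h.2.2, h.1⟩, q.1, ?_⟩
      unfold Md.Des
      rw [e]
      exact ⟨(mem_product.1 hq).2, hs, rfl⟩
    · obtain ⟨e1, e2⟩ := Prod.ext_iff.1 e
      dsimp only at e1 e2
      rw [e2] at e1
      obtain ⟨k1, k2⟩ := M.face_unique (mem_product.1 hq).2 (mem_product.1 hq').2
        (sub_left_injective e1)
      exact Prod.ext k1 k2
  rw [cnt_prod' univ M.B fun k b => ∃ g, M.Srv ε k b g] at h1
  refine le_trans ?_ ((sum_le_sum (f := fun _ => (1 - ε) * M.vol) fun k _ => ?_).trans h1)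
  · simp [mul_assoc]
  · have h2 := cnt_add_not M.B fun b => ∃ g, M.Srv ε k b g
    rw [M.card_B] at h2
    linarith [hT k]

theorem card_NG : ((M.N ×ˢ M.G).card : ℝ) = M.p * M.n := by
  rw [card_product, Nat.cast_mul, mul_comm]; rfl

end Fac

open Fac in
theorem fac (hB : BoxStmt) : FacStmt := by
  intro d M ε hd h0 h1 hc hT
  obtain ⟨b1, b2, -, b4, -⟩ := hB d M
  have hm := many M hT
  have d2 : (2 : ℝ) ≤ d := by exact_mod_cast hd
  have hv := M.vol_pos
  have hn := M.n_pos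
  have hc' : M.p * M.n < d * M.vol := hc
  have und : cnt (M.N ×ˢ M.G) (fun q => ¬ ∃ k, M.Des ε k q.1 q.2) ≤ d * ε * M.vol := by
    have := cnt_add_not (M.N ×ˢ M.G) fun q => ∃ k, M.Des ε k q.1 q.2
    rw [card_NG] at this
    linarith
  have vl : d * (1 - ε) * M.vol ≤ M.p * M.n := hm.trans ((cnt_le_card _ _).trans_eq (card_NG M))
  have dv : 0 < d * M.vol := by positivity
  have vl2 : d * M.vol ≤ 2 * (M.p * M.n) := by nlinarith
  have hp : 0 < M.p := (mul_pos_iff_of_pos_right hn).1 (by linarith)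
  refine ⟨hc, und, vl, fun m ρ hρ => ?_, fun ρ r0 r1 he => ?_, fun l j ρ σ X L hs hX hL => ?_⟩
  · set U := flt M.N fun x => 1 - ρ ≤ M.h x m with hU
    have k1 : cnt (U ×ˢ M.G) (fun _ => True) ≤ cnt (U ×ˢ M.G) (fun q => ¬ ∃ k, M.Des ε k q.1 q.2) +
        cnt (U ×ˢ M.G) (fun q => ∃ k, M.Des ε k q.1 q.2) := cnt_le_add fun q _ _ => (em _).symm
    have k2 : cnt (U ×ˢ M.G) (fun q => ¬ ∃ k, M.Des ε k q.1 q.2) ≤ d * ε * M.vol :=
      (cnt_mono fun q hq h => ⟨mem_product.2 ⟨(mem_flt.1 (mem_product.1 hq).1).1,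
        (mem_product.1 hq).2⟩, h⟩).trans und
    have k3 : cnt (U ×ˢ M.G) (fun q => ∃ k, M.Des ε k q.1 q.2) ≤
        ∑ k, (ρ + if k = m then ε else 0) * M.vol := by
      refine (cnt_le_sum univ (fun k q => M.Des ε k q.1 q.2) fun q _ ⟨k, hk⟩ =>
        ⟨k, mem_univ _, hk⟩).trans (sum_le_sum fun k _ => ?_)
      refine (des_le M k _ _ fun q hq hk => ?_).trans (b1 m _ (by split_ifs <;> linarith))
      have a1 := (mem_flt.1 (mem_product.1 hq).1).2
      have a2 := des_srv M hk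
      have a3 := M.h_nonneg (M.G_mem (mem_product.1 hq).2) m
      rw [M.h_sub, M.h_add]
      split_ifs with e
      · subst e
        rw [M.h_ce_self]
        linarith
      · rw [M.h_ce_ne (Ne.symm e)]
        linarith
    rw [← sum_mul, sum_add_distrib, sum_ite_eq'] at k3
    simp only [sum_const, card_univ, Fintype.card_fin, nsmul_eq_mul, mem_univ, if_true] at k3
    rw [cnt_true, card_product, Nat.cast_mul] at k1
    refine le_of_mul_le_mul_right (a := M.p) ?_ hp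
    have k4 : ε * M.vol ≤ ε * (d * M.vol) := by gcongr; nlinarith
    have k5 := mul_le_mul_of_nonneg_left vl2 (show 0 ≤ ρ + 2 * ε by positivity)
    change (U.card : ℝ) * M.G.card ≤ _
    nlinarith
  · let k : Fin d := ⟨0, by omega⟩
    have k0 := b4 (fun _ => ρ / 2) fun _ => ⟨by positivity, by linarith⟩
    rw [prod_const, card_univ, Fintype.card_fin] at k0
    have k1 : cnt M.B (fun b => ∀ m, M.h b m < ρ / 2) ≤
        cnt M.B (fun b => (∀ m, M.h b m < ρ / 2) ∧ ∃ g, M.Srv ε k b g) +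
          cnt M.B (fun b => ¬ ∃ g, M.Srv ε k b g) :=
      cnt_le_add fun b _ h => (em _).imp_left fun h' => ⟨h, h'⟩
    have e1 : (ρ / 2) ^ d ≤ ρ / 2 := pow_le_of_le_one (by positivity) (by linarith) (by omega)
    have k2 : cnt M.B (fun b => (∀ m, M.h b m < ρ / 2) ∧ ∃ g, M.Srv ε k b g) ≤
        ((flt M.N (fun x => ∀ m, M.h x m < ρ) ×ˢ M.G).card : ℝ) := by
      refine cnt_le_inj (fun b => (M.ce k + b - M.chi ε k b, M.chi ε k b)) (fun b _ hb => ?_)
        fun b _ _ b' _ _ e => ?_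
      · have h := M.chi_spec hb.2
        refine mem_product.2 ⟨mem_flt.2 ⟨h.2.2, fun m => ?_⟩, h.1⟩
        have a1 := hb.1 m
        have a2 := M.h_nonneg (M.G_mem h.1) m
        rw [M.h_sub, M.h_add]
        by_cases e : m = k
        · subst e
          rw [M.h_ce_self]
          linarith [h.2.1]
        · rw [M.h_ce_ne e]
          linarith
      · obtain ⟨e1, e2⟩ := Prod.ext_iff.1 e
        dsimp only at e1 e2
        rw [e2] at e1
        exact add_left_cancel (sub_left_injective e1)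
    rw [card_product, Nat.cast_mul, ← cnt_eq] at k2
    refine le_of_mul_le_mul_right (a := M.p) ?_ hp
    have k3 : kap d ρ * M.n * M.p ≤ (ρ / 2) ^ d / 2 * M.vol := by
      have : kap d ρ * (d * M.vol) = (ρ / 2) ^ d / 2 * M.vol := by
        unfold kap
        field_simp
      rw [← this, mul_assoc, mul_comm M.n]
      exact mul_le_mul_of_nonneg_left hc'.le (by unfold kap; positivity)
    have k4 := mul_le_mul_of_nonneg_right he hv.le
    have k5 := hT k
    change _ ≤ _ * (M.G.card : ℝ)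
    linarith
  · have k1 : cnt (X ×ˢ L) (fun _ => True) ≤ cnt (X ×ˢ L) (fun q => ¬ ∃ k, M.Des ε k q.1 q.2) +
        cnt (X ×ˢ L) (fun q => M.Des ε l q.1 q.2) := by
      refine cnt_le_add fun q hq _ => (em _).symm.imp_right ?_
      rintro ⟨k, hk⟩
      by_cases e : k = l
      · exact e ▸ hk
      · exact absurd (des_srv M hk) (not_le.2 ((hL _ (mem_product.1 hq).2).2.1 k e))
    have k2 : cnt (X ×ˢ L) (fun q => ¬ ∃ k, M.Des ε k q.1 q.2) ≤ d * ε * M.vol :=
      (cnt_mono fun q hq h => ⟨mem_product.2 ⟨(hX _ (mem_product.1 hq).1).1,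
        (hL _ (mem_product.1 hq).2).1⟩, h⟩).trans und
    have k3 := (des_le M (ε := ε) l (X ×ˢ L) _ fun q hq _ => by
      have a1 := (hX _ (mem_product.1 hq).1).2
      have a2 := (hL _ (mem_product.1 hq).2).2.2
      rw [add_sub_assoc, M.h_add]
      linarith).trans (b2 j (ρ + σ) hs)
    rw [cnt_true, card_product, Nat.cast_mul] at k1
    linarith

end Pool.Agent.MP_96f5a9_co.GW

end MrgPart3

-- ======== part 4: formerly Pool.Agent.MP_96f5a9_co.gw.Parts
section MrgPart4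

/-! Cutting sums of generators into parts. -/

set_option autoImplicit false

namespace Pool.Agent.MP_96f5a9_co.GW

open Finset

namespace Parts

variable {d : ℕ} {M : Md d} {P : V d → Prop}

theorem ind {p : V d → Prop} (h0 : p 0)
    (h1 : ∀ g ∈ M.G, P g → ∀ z ∈ M.cl P, p z → p (g + z)) {z : V d} (hz : z ∈ M.cl P) : p z := by
  refine AddSubmonoid.closure_induction_left (motive := fun x _ => p x) h0 ?_ hz
  intro g hg y hy ih
  have := mem_flt.1 (Finset.mem_coe.1 hg)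
  exact h1 g this.1 this.2 y hy ih

theorem cons {Q : V d → Prop} {r : ℕ} {u : V d} {y : Fin r → V d} (hu : Q u) (hy : ∀ j, Q (y j)) :
    ∃ y' : Fin (r + 1) → V d, (∀ j, Q (y' j)) ∧ u + ∑ j, y j = ∑ j, y' j :=
  ⟨Fin.cons u y, fun j => Fin.cases hu hy j, by simp [Fin.sum_univ_succ]⟩

theorem cut {k : Fin d} {a : ℝ} (ha : ∀ g ∈ M.G, P g → M.h g k < a) {z : V d}
    (hz : z ∈ M.cl P) : ∀ T : ℝ, 0 < T → T ≤ M.h z k →
    ∃ y ∈ M.cl P, z - y ∈ M.cl P ∧ T ≤ M.h y k ∧ M.h y k < T + a := by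
  refine ind (p := fun z => ∀ T : ℝ, 0 < T → T ≤ M.h z k →
    ∃ y ∈ M.cl P, z - y ∈ M.cl P ∧ T ≤ M.h y k ∧ M.h y k < T + a) ?_ ?_ hz
  · intro T h1 h2
    rw [M.h_zero] at h2
    linarith
  · intro g hg hp z hz ih T h1 h2
    by_cases hT : T ≤ M.h g k
    · exact ⟨g, M.mem_cl_of hg hp, by simpa using hz, hT, by linarith [ha g hg hp]⟩
    · rw [M.h_add] at h2
      obtain ⟨y, hy, h3, h4, h5⟩ := ih (T - M.h g k) (by linarith) (by linarith)
      refine ⟨g + y, (M.cl P).add_mem (M.mem_cl_of hg hp) hy, by simpa using h3, ?_, ?_⟩ <;>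
        rw [M.h_add] <;> linarith

theorem two {k : Fin d} {a : ℝ} (h0 : 0 < a) (ha : ∀ g ∈ M.G, P g → M.h g k < a) (r : ℕ) :
    ∀ (T : ℝ) (z : V d), z ∈ M.cl P → M.h z k ≤ T → T / a + 1 ≤ r →
    ∃ y : Fin r → V d, (∀ j, y j ∈ M.cl P ∧ M.h (y j) k < 2 * a) ∧ z = ∑ j, y j := by
  induction r with
  | zero =>
    intro T z hz h1 h2
    have := div_nonneg ((M.h_nonneg (M.cl_le P hz) k).trans h1) h0.le
    push_cast at h2
    linarith
  | succ r ih =>
    intro T z hz h1 h2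
    by_cases hT : a ≤ M.h z k
    · obtain ⟨y, hy, h3, h4, h5⟩ := cut ha hz a h0 hT
      obtain ⟨w, hw, e⟩ := ih (T - a) (z - y) h3 (by rw [M.h_sub]; linarith) (by
        rw [sub_div, div_self h0.ne']
        push_cast at h2
        linarith)
      obtain ⟨y', h6, e'⟩ := cons (Q := fun x => x ∈ M.cl P ∧ M.h x k < 2 * a) (u := y)
        ⟨hy, by linarith⟩ hw
      exact ⟨y', h6, by rw [← e', ← e]; abel⟩
    · obtain ⟨y', h6, e'⟩ := cons (Q := fun x => x ∈ M.cl P ∧ M.h x k < 2 * a) (u := z)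
        (y := fun _ : Fin r => 0) ⟨hz, by linarith⟩
        fun _ => ⟨(M.cl P).zero_mem, by rw [M.h_zero]; linarith⟩
      exact ⟨y', h6, by simpa using e'⟩

theorem three {η : ℝ} (h0 : 0 < η) (h1 : η ≤ 1) (hg : ∀ g ∈ M.G, P g → ∀ m, M.h g m ≤ 1 - η)
    {z : V d} (hz : z ∈ M.cl P) : ∀ (r : ℕ), ∀ u ∈ M.cl P, (∀ m, M.h u m ≤ 1 - η / 2) →
    2 * (∑ m, M.h (u + z) m) / η + 1 ≤ r →
    ∃ y : Fin r → V d, (∀ j, y j ∈ M.cl P ∧ ∀ m, M.h (y j) m ≤ 1 - η / 2) ∧ u + z = ∑ j, y j := by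
  have pos : ∀ x ∈ M.cl P, 0 ≤ 2 * (∑ m, M.h x m) / η := fun x hx =>
    div_nonneg (mul_nonneg zero_le_two
      (Finset.sum_nonneg fun m _ => M.h_nonneg (M.cl_le P hx) m)) h0.le
  refine ind (p := fun z => ∀ (r : ℕ), ∀ u ∈ M.cl P, (∀ m, M.h u m ≤ 1 - η / 2) →
    2 * (∑ m, M.h (u + z) m) / η + 1 ≤ r →
    ∃ y : Fin r → V d, (∀ j, y j ∈ M.cl P ∧ ∀ m, M.h (y j) m ≤ 1 - η / 2) ∧
      u + z = ∑ j, y j) ?_ ?_ hz
  · intro r u hu h2 h3
    rw [add_zero] at h3 ⊢
    cases r with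
    | zero =>
      push_cast at h3
      linarith [pos u hu]
    | succ r =>
      obtain ⟨y', h6, e'⟩ := cons (Q := fun x => x ∈ M.cl P ∧ ∀ m, M.h x m ≤ 1 - η / 2) (u := u)
        (y := fun _ : Fin r => 0) ⟨hu, h2⟩
        fun _ => ⟨(M.cl P).zero_mem, fun m => by rw [M.h_zero]; linarith⟩
      exact ⟨y', h6, by simpa using e'⟩
  · intro g hG hp z hz ih r u hu h2 h3
    have hc := M.mem_cl_of hG hp
    by_cases hm : ∀ m, M.h (u + g) m ≤ 1 - η / 2
    · rw [← add_assoc] at h3 ⊢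
      exact ih r (u + g) ((M.cl P).add_mem hu hc) hm h3
    · push Not at hm
      obtain ⟨m, hm⟩ := hm
      rw [M.h_add] at hm
      have h4 : M.h u m ≤ ∑ m, M.h u m :=
        Finset.single_le_sum (f := fun m => M.h u m) (fun m _ => M.h_nonneg (M.cl_le P hu) m)
          (Finset.mem_univ m)
      have h5 : 1 ≤ 2 * (∑ m, M.h u m) / η := by
        rw [le_div_iff₀ h0]
        linarith [hg g hG hp m]
      have h6 : ∑ m, M.h (u + (g + z)) m = ∑ m, M.h u m + ∑ m, M.h (g + z) m := by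
        rw [← Finset.sum_add_distrib]
        exact Finset.sum_congr rfl fun m _ => M.h_add _ _ _
      rw [h6, mul_add, add_div] at h3
      cases r with
      | zero =>
        push_cast at h3
        linarith [pos _ ((M.cl P).add_mem hc hz)]
      | succ r =>
        push_cast at h3
        obtain ⟨w, hw, e⟩ := ih r g hc (fun m => by linarith [hg g hG hp m]) (by linarith)
        obtain ⟨y', h7, e'⟩ := cons (Q := fun x => x ∈ M.cl P ∧ ∀ m, M.h x m ≤ 1 - η / 2)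
          (u := u) ⟨hu, h2⟩ hw
        exact ⟨y', h7, by rw [← e', e]⟩

end Parts

theorem parts : PartsStmt := by
  intro d M P
  refine ⟨fun k a T z ha hz h1 h2 => Parts.cut ha hz T h1 h2,
    fun k a T r z h0 ha hz h1 h2 => Parts.two h0 ha r T z hz h1 h2,
    fun η r z h0 h1 hg hz h3 hr => ?_⟩
  have h4 : ∑ m, M.h z m ≤ 3 * d := by
    refine (Finset.sum_le_sum fun m _ => h3 m).trans_eq ?_
    simp [mul_comm]
  have := Parts.three h0 h1 hg hz r 0 (M.cl P).zero_mem (fun m => by rw [M.h_zero]; linarith)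
    (by
      rw [zero_add]
      refine le_trans (add_le_add_left (div_le_div_of_nonneg_right ?_ h0.le) 1) hr
      linarith)
  rwa [zero_add] at this

end Pool.Agent.MP_96f5a9_co.GW

end MrgPart4

-- ======== part 5: formerly Pool.Agent.MP_96f5a9_co.gw.Uu
section MrgPart5

/-! Points above a generator next to a face without extent. -/

set_option autoImplicit false

namespace Pool.Agent.MP_96f5a9_co.GW

open Finset

namespace Uu

variable {d : ℕ} (X : Ctx d)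

include X in
theorem dR : (2 : ℝ) ≤ d := by exact_mod_cast X.P.d2

theorem tau16 : 16 * X.P.tau ≤ X.P.et ^ d := by
  have h1 := X.P.la_tau
  have h2 := dR X
  have h3 := X.P.ga_le
  have h4 := X.P.ga_pos
  have h5 : 0 < X.P.et ^ d := pow_pos X.P.et_pos d
  have h6 : 0 ≤ X.P.r0 * X.P.la := mul_nonneg (Nat.cast_nonneg _) X.P.la_pos.le
  have h7 : X.P.ga ≤ 1 := by nlinarith
  unfold Par.tau
  nlinarith [mul_le_mul_of_nonneg_right h7 h5.le, mul_le_mul_of_nonneg_right h2 h6]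

theorem tau_et : 16 * X.P.tau ≤ X.P.et :=
  (tau16 X).trans (pow_le_of_le_one X.P.et_pos.le (by linarith [X.P.et1])
    (by have := X.P.d2; omega))

theorem la_tau : 4 * X.P.la ≤ X.P.tau := by
  have h1 := X.P.r0_ge
  have h2 : 0 ≤ 6 * (d : ℝ) / X.P.et := div_nonneg (by positivity) X.P.et_pos.le
  unfold Par.tau
  nlinarith [X.P.la_pos]

theorem la_et : 200 * X.P.la ≤ X.P.et := by
  nlinarith [X.P.la_et, dR X, X.P.la_pos]

theorem lab {j : Fin d} (hj : j ∉ X.T.I) (l : Fin d) {ρ : ℝ} (hρ : 0 ≤ ρ) (L : Finset (V d))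
    (hL : ∀ g ∈ L, g ∈ X.Elow l ∧ X.M.h (g - X.M.ce l) j ≤ ρ) :
    (L.card : ℝ) ≤ 2 * (5 * X.P.la + ρ + 1 / X.M.c j) * X.M.p := by
  have hla := X.P.la_pos
  have h1 := X.F.lab l j ρ (4 * X.P.la) (flt X.M.N fun x => x ∉ X.T.Exc) L (by positivity)
    (fun x hx => ⟨(mem_flt.1 hx).1, X.T.low j hj x (mem_flt.1 hx).1 (mem_flt.1 hx).2⟩)
    fun g hg => by
      obtain ⟨a, -, b⟩ := mem_flt.1 (hL g hg).1
      exact ⟨a, fun m hm => by linarith [b m hm, X.P.ep_la, la_et X], (hL g hg).2⟩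
  have h2 := cnt_add_not X.M.N fun x => x ∈ X.T.Exc
  have h3 : cnt X.M.N (fun x => x ∈ X.T.Exc) ≤ X.T.Exc.card := cnt_le_of_sub fun _ _ h => h
  have hn := X.M.n_pos
  have h4 : X.M.n / 2 ≤ ((flt X.M.N fun x => x ∉ X.T.Exc).card : ℝ) := by
    rw [← cnt_eq]
    have := mul_le_mul_of_nonneg_right X.P.de_half hn.le
    have := X.T.exc
    unfold Md.n at *
    linarith
  have h5 : X.M.vol ≤ X.M.p * X.M.n := by
    have a : (1 : ℝ) ≤ d * (1 - X.P.ep) := by nlinarith [dR X, X.P.ep_la, X.P.la1]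
    nlinarith [X.F.volle, mul_le_mul_of_nonneg_right a X.M.vol_pos.le]
  have hc : 0 < 1 / (X.M.c j : ℝ) := one_div_pos.2 (X.M.cR_pos j)
  have h6 : (d * X.P.ep + ρ + 4 * X.P.la + 1 / X.M.c j) * X.M.vol ≤
      (5 * X.P.la + ρ + 1 / X.M.c j) * (X.M.p * X.M.n) :=
    mul_le_mul (by linarith [X.P.ep_le]) h5 X.M.vol_pos.le (by positivity)
  have h7 := mul_le_mul_of_nonneg_left h4 (Nat.cast_nonneg (α := ℝ) L.card)
  refine le_of_mul_le_mul_right ?_ hn
  linarith

theorem half (j k : Fin d) : cnt X.M.B (X.WU2 j k) ≤ 2 * (flt X.M.B (X.WU j)).card := by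
  refine cnt_le_fib
    (fun b : V d => Function.update b k ((X.M.c k : ℤ) - ((X.M.c k : ℤ) - b k + 1) / 2)) 2
    (fun b hb ⟨g, g1, g2, g3, g4, g5⟩ => ?_) fun y _ => ?_
  · have a1 := X.M.mem_B.1 hb
    have a2 := X.M.mem_B.1 g2 k
    have a3 := a1 k
    refine mem_flt.2 ⟨X.M.mem_B.2 fun i => ?_, g, g1, g2, g3, fun i => ?_⟩ <;>
      rcases eq_or_ne i k with rfl | hi
    · rw [Function.update_self]; omega
    · rw [Function.update_of_ne hi]; exact a1 i
    · rw [Function.update_self]; omega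
    · rw [Function.update_of_ne hi]; exact g4 i hi
  · refine (cnt_le_of_sub (X := {Function.update y k (2 * y k - X.M.c k),
      Function.update y k (2 * y k - X.M.c k + 1)}) fun b _ hb => ?_).trans ?_
    · have e : ∀ t, b k = t → b = Function.update y k t := fun t ht => by
        rw [← hb.2, Function.update_idem, ← ht, Function.update_eq_self]
      have a := congrFun hb.2 k
      simp only [Function.update_self] at a
      rw [mem_insert, mem_singleton]
      rcases (by omega : b k = 2 * y k - X.M.c k ∨ b k = 2 * y k - X.M.c k + 1) with h | h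
      exacts [Or.inl (e _ h), Or.inr (e _ h)]
    · exact_mod_cast Finset.card_le_two

/-- high in direction `m`, above a generator that is low in direction `m` -/
def Bad (j m : Fin d) (b : V d) : Prop := 1 - 2 * X.P.et ≤ X.M.h b m ∧
  ∃ g ∈ X.Em, g ∈ X.M.B ∧ 1 - X.P.et ≤ X.M.h g j ∧ (∀ i, g i ≤ b i) ∧ X.M.h g m ≤ 1 / 2

theorem bad (hT : TlStmt) (j m : Fin d) :
    cnt X.M.B (Bad X j m) ≤ 8 * X.P.et * (flt X.M.B (X.WU j)).card := by
  have h := hT d X.M (flt X.M.B (X.WU j)) (flt X.M.B (Bad X j m)) m (2 * X.P.et) (1 / 2)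
    (by linarith [X.P.et_pos]) (by linarith [X.P.et1]) fun b hb => by
      obtain ⟨b1, b2, g, g1, g2, g3, g4, g5⟩ := mem_flt.1 hb
      refine ⟨b2, (X.M.mem_B_h.1 b1 m).2, fun t t1 t2 => ?_⟩
      have a1 : g m ≤ t := by
        have := X.M.h_le_iff.1 g5
        exact_mod_cast (show (g m : ℝ) ≤ t by linarith)
      have a2 := (X.M.mem_B.1 g2 m).1
      refine mem_flt.2 ⟨X.M.mem_B.2 fun i => ?_, g, g1, g2, g3, fun i => ?_⟩ <;>
        rcases eq_or_ne i m with rfl | hi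
      · rw [Function.update_self]; omega
      · rw [Function.update_of_ne hi]; exact X.M.mem_B.1 b1 i
      · rw [Function.update_self]; exact a1
      · rw [Function.update_of_ne hi]; exact g4 i
  rw [cnt_eq]
  linarith

theorem low0 (hL : X.Low) {j : Fin d} (hj : j ∉ X.T.I) {x : V d} (hx : x ∈ X.M0)
    (hB : x ∈ X.M.B) : X.M.h x j ≤ X.P.tau :=
  hL x hx (fun m => by linarith [(X.M.mem_B_h.1 hB m).2]) j hj

theorem deep (hL : X.Low) (hC : X.Cm) {j : Fin d} (hj : j ∉ X.T.I) {D : ℤ}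
    (hD : ∀ g ∈ X.Elow j, ((X.M.c j - g j : ℤ) : ℝ) ≤ X.P.tau * X.M.c j → X.M.c j - g j ≤ D)
    (hc : 1 / (X.M.c j : ℝ) ≤ X.P.et) :
    cnt X.M.B (fun b => X.WU j b ∧ (∀ m, m ≠ j → ¬ Bad X j m b) ∧ D < X.M.c j - b j) ≤
      6 * X.P.et * X.M.p * X.N1.card := by
  have he := X.P.et_pos
  have he1 := X.P.et1
  have h1 := lab X hj j he.le (flt (X.Elow j) fun g => X.M.h (g - X.M.ce j) j ≤ X.P.et)
    fun g hg => mem_flt.1 hg
  have h2 := cnt_le_rel (A := X.M.B)
    (P := fun b => X.WU j b ∧ (∀ m, m ≠ j → ¬ Bad X j m b) ∧ D < X.M.c j - b j)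
    (Y := (flt (X.Elow j) fun g => X.M.h (g - X.M.ce j) j ≤ X.P.et) ×ˢ X.N1)
    (fun b q => q.2 = b + X.M.ce j - q.1) (fun b hb ⟨⟨g, g1, g2, g3, g4⟩, nb, hbD⟩ => by
      have b1 := X.M.mem_B_h.1 hb
      have a1 := X.M.mem_B_h.1 g2
      have a2 : ∀ m, 0 ≤ (b - g) m := fun m => sub_nonneg.2 (g4 m)
      have a3 : X.M.h (b - g) j ≤ X.P.et := by rw [X.M.h_sub]; linarith [(b1 j).2]
      have a4 : ∀ m, X.M.h (b - g) m < 1 - 2 * X.P.et := fun m => by
        rcases eq_or_ne m j with rfl | hm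
        · linarith
        · rw [X.M.h_sub]
          by_contra h
          refine nb m hm ⟨by linarith [(a1 m).1], g, g1, g2, g3, g4, by linarith [(b1 m).2]⟩
      rcases hC j (b - g) (fun m => ⟨a2 m, a4 m⟩) with h | ⟨g', e1, x', e2, e3⟩
      · have := hL _ h (fun m => by
          rw [X.M.h_add]
          rcases eq_or_ne m j with rfl | hm
          · rw [X.M.h_ce_self]; linarith
          · rw [X.M.h_ce_ne hm]; linarith [a4 m]) j hj
        rw [X.M.h_add, X.M.h_ce_self] at this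
        linarith [X.M.h_nonneg_iff.2 (a2 j), tau_et X]
      obtain ⟨x1, x2⟩ := mem_flt.1 e2
      have x3 := (X.M.mem_N.1 x1).1
      have x4 := X.M.mem_B.1 x3
      have e4 : g' - X.M.ce j = b - g - x' := by
        rw [eq_sub_iff_add_eq, sub_add_eq_add_sub, ← e3]; abel
      have e5 : g + x' = b + X.M.ce j - g' := by
        rw [eq_sub_iff_add_eq, add_assoc, add_comm x', ← e3]; abel
      have e6 := congrFun e3 j
      simp only [Pi.add_apply, X.M.ce_self] at e6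
      have e7 : X.M.c j - g' j ≤ D := hD g' e1 (le_trans (by
        exact_mod_cast (show X.M.c j - g' j ≤ x' j by have := a2 j; omega))
        (X.M.h_le_iff.1 (low0 X hL hj x2 x3)))
      refine ⟨(g', g + x'), mem_product.2 ⟨mem_flt.2 ⟨e1, ?_⟩, X.light g1 x2
        (X.M.mem_B.2 fun i => ⟨add_nonneg (X.M.mem_B.1 g2 i).1 (x4 i).1, ?_⟩)⟩, e5⟩
      · rw [e4, X.M.h_sub]
        linarith [(X.M.mem_B_h.1 x3 j).1]
      · have c1 := X.M.nonneg g' (X.M.G_mem (mem_flt.1 e1).1) i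
        have c2 := (X.M.mem_B.1 hb i).2
        rw [e5, Pi.sub_apply, Pi.add_apply]
        rcases eq_or_ne i j with rfl | hi
        · rw [X.M.ce_self]; omega
        · rw [X.M.ce_ne hi]; omega)
    fun b _ b' _ q h h' => add_right_cancel (sub_left_injective (h.symm.trans h'))
  rw [card_product, Nat.cast_mul] at h2
  refine h2.trans (mul_le_mul_of_nonneg_right (h1.trans ?_) (Nat.cast_nonneg _))
  exact mul_le_mul_of_nonneg_right (by linarith [la_et X]) X.M.p_nonneg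

theorem layer (hB : BoxStmt) (hL : X.Low) (hC : X.Cm) {Φ : ℝ} (hF : X.Fail Φ) {j : Fin d}
    (hj : j ∉ X.T.I) {g : V d} (hg : g ∈ X.Elow j) (g0 : 0 < X.M.c j - g j)
    (g1 : ((X.M.c j - g j : ℤ) : ℝ) ≤ X.P.tau * X.M.c j) :
    X.P.et ^ (d - 1) * cnt X.M.B (fun b => X.M.c j - b j ≤ X.M.c j - g j) ≤
      Φ + 8 * X.P.tau * X.M.p * X.N1.card := by
  have he := X.P.et_pos
  have he1 := X.P.et1
  have ht := tau_et X
  have hc := X.M.cR_pos j
  obtain ⟨l, hl⟩ : ∃ l : Fin d, l ≠ j :=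
    @exists_ne _ (Fin.nontrivial_iff_two_le.2 X.P.d2) j
  set D : ℤ := X.M.c j - g j with hD
  have D1 : (1 : ℝ) ≤ D := by exact_mod_cast g0
  obtain ⟨gG, ga, gb⟩ := mem_flt.1 hg
  have gS := X.M.G_mem gG
  have gB : g ∈ X.M.B := X.M.mem_B.2 fun i => ⟨X.M.nonneg g gS i, by
    rcases eq_or_ne i j with rfl | hi
    · omega
    · exact X.M.h_lt_one.1 (by linarith [gb i hi])⟩
  have gE : g ∈ X.Em := mem_flt.2 ⟨gG, fun h => absurd (h j) (not_lt.2 ga), fun h => by
    obtain ⟨-, -, x, x1, x2, x3⟩ := mem_flt.1 h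
    have := low0 X hL hj x2 x3
    rw [X.M.h_add] at this
    linarith [X.M.h_nonneg (X.M0_le x1) j]⟩
  obtain ⟨b1, -, -, -, b5⟩ := hB d X.M
  have h1 : cnt X.M.B (fun b => X.M.c j - b j ≤ D) ≤ D / X.M.c j * X.M.vol := by
    refine le_trans (cnt_mono fun b hb h => ⟨hb, X.M.le_h_iff.2 ?_⟩) (b1 j _ (by positivity))
    have : ((X.M.c j - b j : ℤ) : ℝ) ≤ D := by exact_mod_cast h
    rw [sub_mul, div_mul_cancel₀ _ hc.ne']
    push_cast at this
    linarith
  have h2 := b5 j 0 D X.P.et le_rfl g0.le (by have := X.M.nonneg g gS j; omega) he.le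
    (by linarith)
  have h3 := lab X hj l (ρ := X.P.tau) (by linarith [la_tau X, X.P.la_pos])
    (flt (X.Elow l) fun g => X.M.h (g - X.M.ce l) j ≤ X.P.tau) fun g hg => mem_flt.1 hg
  have h4 : 1 / (X.M.c j : ℝ) ≤ X.P.tau := by rw [div_le_iff₀ hc]; linarith
  have gβ : ∀ β : V d, (0 ≤ β j ∧ β j < D ∧ ∀ m, m ≠ j → X.M.h β m < X.P.et) → β ∈ X.M.B →
      g + β ∈ X.M.B := fun β h hβ => X.M.mem_B.2 fun i =>
    ⟨add_nonneg (X.M.nonneg g gS i) (X.M.mem_B.1 hβ i).1, by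
      rcases eq_or_ne i j with rfl | hi
      · have := h.2.1
        rw [Pi.add_apply]; omega
      · exact X.M.h_lt_one.1 (by rw [X.M.h_add]; linarith [gb i hi, h.2.2 i hi])⟩
  have h5 := cnt_le_add (A := X.M.B)
    (P := fun β => 0 ≤ β j ∧ β j < D ∧ ∀ m, m ≠ j → X.M.h β m < X.P.et)
    (Q := fun β => g + β ∈ X.M.B ∧ X.M.ce l + β ∈ X.M0)
    (R := fun β => (0 ≤ β j ∧ β j < D ∧ ∀ m, m ≠ j → X.M.h β m < X.P.et) ∧ X.M.ce l + β ∉ X.M0)
    fun β hβ h => (em _).imp (fun h' => ⟨gβ β h hβ, h'⟩) fun h' => ⟨h, h'⟩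
  have h6 := hF g gE gB l (by linarith [gb l hl])
  have h7 := cnt_le_rel (A := X.M.B)
    (P := fun β => (0 ≤ β j ∧ β j < D ∧ ∀ m, m ≠ j → X.M.h β m < X.P.et) ∧ X.M.ce l + β ∉ X.M0)
    (Y := (flt (X.Elow l) fun g => X.M.h (g - X.M.ce l) j ≤ X.P.tau) ×ˢ X.N1)
    (fun β q => q.2 = g + β + X.M.ce l - q.1) (fun β hβ ⟨h, hn⟩ => by
      have a1 : X.M.h β j ≤ X.P.tau := X.M.h_le_iff.2 (le_trans (by exact_mod_cast h.2.1.le) g1)
      obtain ⟨g', e1, x', e2, e3⟩ := (hC l β fun m => ⟨(X.M.mem_B.1 hβ m).1, by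
        rcases eq_or_ne m j with rfl | hm
        · linarith
        · linarith [h.2.2 m hm]⟩).resolve_left hn
      obtain ⟨x1, x2⟩ := mem_flt.1 e2
      have x3 := (X.M.mem_N.1 x1).1
      have e4 : g' - X.M.ce l = β - x' := by
        rw [eq_sub_iff_add_eq, sub_add_eq_add_sub, ← e3]; abel
      have e5 : g + x' = g + β + X.M.ce l - g' := by
        rw [eq_sub_iff_add_eq, add_assoc, add_comm x', ← e3]; abel
      refine ⟨(g', g + x'), mem_product.2 ⟨mem_flt.2 ⟨e1, ?_⟩, X.light gE x2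
        (X.M.mem_B_h.2 fun i => ⟨X.M.h_nonneg (X.M.S.add_mem gS (X.M0_le x2)) i, ?_⟩)⟩, e5⟩
      · rw [e4, X.M.h_sub]
        linarith [(X.M.mem_B_h.1 x3 j).1]
      · rw [e5, X.M.h_sub, X.M.h_add]
        rcases eq_or_ne i l with rfl | hi
        · rw [X.M.h_ce_self, X.M.h_add]
          linarith [gb i hl, h.2.2 i hl, (mem_flt.1 e1).2.1]
        · rw [X.M.h_ce_ne hi]
          linarith [(X.M.mem_B_h.1 (gβ β h hβ) i).2, X.M.h_nonneg (X.M.G_mem (mem_flt.1 e1).1) i])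
    fun b _ b' _ q h h' =>
      add_left_cancel (add_right_cancel (sub_left_injective (h.symm.trans h')))
  rw [card_product, Nat.cast_mul] at h7
  have h8 := mul_le_mul_of_nonneg_right (h3.trans (mul_le_mul_of_nonneg_right
    (show _ ≤ 8 * X.P.tau by linarith [la_tau X, X.P.la_pos]) X.M.p_nonneg))
    (Nat.cast_nonneg (α := ℝ) X.N1.card)
  have h9 := mul_le_mul_of_nonneg_left h1 (pow_pos he (d - 1)).le
  rw [sub_zero] at h2
  linarith

end Uu

theorem uu (hB : BoxStmt) (hT : TlStmt) : UStmt := by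
  intro d X Φ hL hC hF hΦ j hj k
  refine (Uu.half X j k).trans (mul_le_mul_of_nonneg_left ?_ two_pos.le)
  have he := X.P.et_pos
  have hp : 0 ≤ X.M.p * X.N1.card := mul_nonneg X.M.p_nonneg (Nat.cast_nonneg _)
  have hΦ' : 0 ≤ Φ / X.P.et ^ d := by positivity
  rcases (flt X.M.B (X.WU j)).eq_empty_or_nonempty with h0 | ⟨b, hb⟩
  · rw [h0, card_empty, Nat.cast_zero]
    nlinarith [mul_nonneg he.le hp]
  have hc : 1 / (X.M.c j : ℝ) ≤ X.P.et := by
    obtain ⟨-, g, -, g2, g3, -⟩ := mem_flt.1 hb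
    have a1 := X.M.le_h_iff.1 g3
    have a2 : ((g j + 1 : ℤ) : ℝ) ≤ (X.M.c j : ℤ) := by exact_mod_cast (X.M.mem_B.1 g2 j).2
    rw [div_le_iff₀ (X.M.cR_pos j)]
    push_cast at a2
    linarith
  obtain ⟨D, hD, hlay⟩ : ∃ D : ℤ, (∀ g ∈ X.Elow j,
      ((X.M.c j - g j : ℤ) : ℝ) ≤ X.P.tau * X.M.c j → X.M.c j - g j ≤ D) ∧
      X.P.et ^ (d - 1) * cnt X.M.B (fun b => X.M.c j - b j ≤ D) ≤
        Φ + 8 * X.P.tau * X.M.p * X.N1.card := by
    rcases (flt (X.Elow j) fun g => 0 < X.M.c j - g j ∧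
      ((X.M.c j - g j : ℤ) : ℝ) ≤ X.P.tau * X.M.c j).eq_empty_or_nonempty with h0 | hne
    · refine ⟨0, fun g hg h => not_lt.1 fun h' => ?_, ?_⟩
      · exact notMem_empty g (h0 ▸ mem_flt.2 ⟨hg, h', h⟩)
      · rw [cnt_eq_zero fun b hb => by have := (X.M.mem_B.1 hb j).2; omega, mul_zero]
        nlinarith [mul_nonneg (show 0 ≤ X.P.tau by linarith [Uu.la_tau X, X.P.la_pos]) hp]
    · obtain ⟨g, hg, hm⟩ := exists_max_image _ (fun g : V d => X.M.c j - g j) hne
      obtain ⟨g1, g2, g3⟩ := mem_flt.1 hg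
      refine ⟨_, fun g' h1 h2 => ?_, Uu.layer X hB hL hC hF hj g1 g2 g3⟩
      by_cases h : 0 < X.M.c j - g' j
      · exact hm g' (mem_flt.2 ⟨h1, h, h2⟩)
      · omega
  have h1 := cnt_le_add (A := X.M.B) (P := X.WU j) (Q := fun b => ∃ m ∈ univ, Uu.Bad X j m b)
    (R := fun b => X.WU j b ∧ ∀ m, m ≠ j → ¬ Uu.Bad X j m b) fun b _ h =>
      (em _).imp_right fun h' => ⟨h, fun m _ hm => h' ⟨m, mem_univ m, hm⟩⟩
  have h2 := (cnt_le_sum (A := X.M.B) univ (Uu.Bad X j) fun b _ h => h).trans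
    (sum_le_sum fun m _ => Uu.bad X hT j m)
  have h3 := cnt_le_add (A := X.M.B) (P := fun b => X.WU j b ∧ ∀ m, m ≠ j → ¬ Uu.Bad X j m b)
    (Q := fun b => X.WU j b ∧ (∀ m, m ≠ j → ¬ Uu.Bad X j m b) ∧ D < X.M.c j - b j)
    (R := fun b => X.M.c j - b j ≤ D) fun b _ h =>
      (lt_or_ge D (X.M.c j - b j)).imp_left fun h' => ⟨h.1, h.2, h'⟩
  have h4 := Uu.deep X hL hC hj hD hc
  rw [sum_const, card_univ, Fintype.card_fin, nsmul_eq_mul] at h2
  rw [cnt_eq] at h1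
  have h5 : 16 * d * X.P.et ≤ 1 := by
    nlinarith [X.P.et_le2, mul_le_mul_of_nonneg_right (Uu.dR X)
      (mul_nonneg (Nat.cast_nonneg (α := ℝ) d) he.le)]
  have h6 := mul_le_mul_of_nonneg_right h5 (Nat.cast_nonneg (α := ℝ) (flt X.M.B (X.WU j)).card)
  have h7 : 2 * cnt X.M.B (fun b => X.M.c j - b j ≤ D) ≤
      X.P.et * X.M.p * X.N1.card + Φ / X.P.et ^ d := by
    have e : X.P.et ^ d = X.P.et * X.P.et ^ (d - 1) := by
      rw [← pow_succ', Nat.sub_add_cancel (by have := X.P.d2; omega)]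
    have hd := pow_pos he d
    refine le_of_mul_le_mul_left ?_ hd
    rw [mul_add, mul_div_cancel₀ _ hd.ne']
    have a1 := mul_le_mul_of_nonneg_left hlay he.le
    have a2 := mul_le_mul_of_nonneg_right (Uu.tau16 X) (mul_nonneg he.le hp)
    have a3 := mul_le_mul_of_nonneg_right X.P.et1 hΦ
    rw [← mul_assoc, ← e] at a1
    linarith
  linarith

end Pool.Agent.MP_96f5a9_co.GW

end MrgPart5

-- marker of a merged file
example : 731051 + 48612 = 731051 + 48612 := rfl
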