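import Pool.Agent.MP_96f5a9_co.gw.Spec

-- ======== part 0: formerly Pool.Agent.MP_96f5a9_co.gw.Ff
section MrgPart0

/-! Row FF: a counterexample with few generators and long sides has minimal axis periods. -/

set_option autoImplicit false

namespace Pool.Agent.MP_96f5a9_co.GW

open Finset

namespace Ff

variable {d : ℕ} {M : Md d} {Q : ℝ} (A : Ax M Q)

/-- residues modulo the periods -/
def res : V d →+ ((l : Fin d) → ZMod (A.m l)) where
  toFun x l := (x l : ZMod (A.m l))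
  map_zero' := by funext l; simp
  map_add' x y := by funext l; simp

theorem res_eq {x y : V d} : res A x = res A y ↔ ∀ l, (A.m l : ℤ) ∣ x l - y l := by
  rw [funext_iff]
  refine forall_congr' fun l => ?_
  change (x l : ZMod (A.m l)) = (y l : ZMod (A.m l)) ↔ _
  rw [eq_comm, ZMod.intCast_eq_intCast_iff_dvd_sub]

theorem mem_R {x : V d} : x ∈ A.R ↔ ∀ l, 0 ≤ x l ∧ x l < A.m l := by
  simp [Ax.R, Fintype.mem_piFinset]

theorem res_inj {x y : V d} (hx : x ∈ A.R) (hy : y ∈ A.R) (h : res A x = res A y) : x = y := by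
  funext l
  have h1 := (mem_R A).1 hx l
  have h2 := (mem_R A).1 hy l
  have := Int.eq_zero_of_abs_lt_dvd ((res_eq A).1 h l) (by rw [abs_lt]; constructor <;> omega)
  omega

theorem exists_rep (x : V d) : ∃ r ∈ A.R, ∀ l, (A.m l : ℤ) ∣ x l - r l := by
  refine ⟨fun l => x l % A.m l, (mem_R A).2 fun l => ?_, fun l => Int.dvd_self_sub_emod⟩
  have : (0 : ℤ) < A.m l := by exact_mod_cast A.mpos l
  exact ⟨Int.emod_nonneg _ this.ne', Int.emod_lt_of_pos _ this⟩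

theorem R_pos : (0 : ℝ) < A.R.card := by
  have : (0 : V d) ∈ A.R := (mem_R A).2 fun l => ⟨le_rfl, by simpa using A.mpos l⟩
  exact_mod_cast Finset.card_pos.2 ⟨_, this⟩

theorem q_pos (l : Fin d) : 0 < A.q l :=
  div_pos (M.cR_pos l) (by exact_mod_cast A.mpos l)

theorem h_small (hQ : 0 < Q) {x : V d} {l : Fin d} (hx : x l ≤ A.m l) : M.h x l ≤ 1 / Q := by
  rw [M.h_le_iff, one_div, inv_mul_eq_div, le_div_iff₀ hQ]
  have h1 : (x l : ℝ) ≤ A.m l := by exact_mod_cast hx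
  have h2 := A.mQ l
  nlinarith

open Classical in
theorem card_img (T : V d → Prop) (w : V d) :
    (((flt A.R T).image fun r => res A (w + r)).card : ℝ) = cnt A.R T := by
  rw [cnt_eq, Finset.card_image_of_injOn]
  intro x hx y hy h
  refine res_inj A (mem_flt.1 hx).1 (mem_flt.1 hy).1 ?_
  have h' : res A (w + x) = res A (w + y) := h
  rw [map_add, map_add] at h'
  exact add_left_cancel h'

theorem num {k e τ R H P Z D : ℝ} (h0 : 0 < τ) (h1 : τ ≤ 1 / 4) (hk : k * τ ≤ 1 / 4)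
    (he : 0 ≤ e) (hH : 0 < H) (hZ0 : 0 ≤ Z) (hP : P ≤ (1 + τ) * H) (hD : D ≤ τ / 2 * H)
    (hZ : Z * (H - D) ≤ H ^ 2) (hR : R ≤ e * P + Z) (hkH : k * H ≤ (1 + τ) * R) :
    k < e + 2 := by
  have a1 : Z * ((1 - τ / 2) * H) ≤ H ^ 2 :=
    le_trans (mul_le_mul_of_nonneg_left (by linarith) hZ0) hZ
  have a2 : Z * (1 - τ / 2) ≤ H := by
    refine le_of_mul_le_mul_right ?_ hH
    nlinarith
  have a3 : Z ≤ (1 + τ) * H := by
    have : 0 ≤ Z * (τ * (1 - τ)) := mul_nonneg hZ0 (mul_nonneg h0.le (by linarith))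
    nlinarith
  have a4 : R ≤ (e + 1) * ((1 + τ) * H) := by
    have := mul_le_mul_of_nonneg_left hP he
    linarith
  have a5 : k ≤ (e + 1) * (1 + τ) ^ 2 := by
    refine le_of_mul_le_mul_right ?_ hH
    have := mul_le_mul_of_nonneg_left a4 (by linarith : 0 ≤ 1 + τ)
    nlinarith
  by_contra hc
  push Not at hc
  have a6 : (e + 1) * (1 + τ) ^ 2 ≤ (k - 1) * (1 + τ) ^ 2 :=
    mul_le_mul_of_nonneg_right (by linarith) (sq_nonneg _)
  have a7 : k * τ * τ ≤ 1 / 4 * τ := mul_le_mul_of_nonneg_right hk h0.le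
  nlinarith

theorem key (hP : PartsStmt) (hc : FcStmt) (hg : GrpStmt) (i : Fin d) {τ ζ : ℝ} {k s : ℕ}
    (h0 : 0 < τ) (h1 : τ ≤ 1 / 4) (hk : k * τ ≤ 1 / 4) (hQ4 : 4 ≤ Q) (hQ : 16 * d ≤ τ * Q)
    (hs : 6 * d / τ + 1 ≤ s) (hζ0 : 0 ≤ ζ) (hζ : 4 * k * s * ζ ≤ τ)
    (hcov : ∀ g ∈ M.G, ∃ l, g ∈ M.Fl (1 / 2) l) (hHP : ∀ r ∈ A.R, A.Hs τ i r → A.Ps τ r)
    (h2 : cnt A.R (fun r => A.Ps τ r ∧ ¬ A.Hs τ i r) ≤ ζ * A.R.card)
    (h3 : k * cnt A.R (A.Hs τ i) ≤ (1 + τ) * A.R.card)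
    (h4 : (A.R.card : ℝ) ≤ 2 * k * cnt A.R (A.Hs τ i)) :
    (k : ℝ) < cnt (M.Fl (1 / 2) i) (fun g => 1 - τ ≤ M.h g i) + 2 := by
  classical
  have hQ0 : 0 < Q := by linarith
  have hd1 : (1 : ℝ) ≤ d := by exact_mod_cast Nat.succ_le_of_lt i.pos
  have hs1 : (1 : ℝ) ≤ s := le_trans (by have : 0 ≤ 6 * (d : ℝ) / τ := by positivity
                                         linarith) hs
  have hq1 : 1 / Q ≤ τ / 16 := by
    rw [div_le_div_iff₀ hQ0 (by norm_num)]; linarith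
  have hq2 : 2 * d / Q ≤ τ / 8 := by
    rw [div_le_div_iff₀ hQ0 (by norm_num)]; linarith
  obtain ⟨-, -, -, -, c5, c6⟩ := hc d M Q A hQ4
  set H := (flt A.R (A.Hs τ i)).image fun r => res A (0 + r) with hH
  set P := (flt A.R (A.Ps τ)).image fun r => res A (0 + r) with hPd
  have cH : (H.card : ℝ) = cnt A.R (A.Hs τ i) := card_img A _ _
  have cP : (P.card : ℝ) = cnt A.R (A.Ps τ) := card_img A _ _
  have hsub : H ⊆ P := Finset.image_subset_image fun r hr =>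
    mem_flt.2 ⟨(mem_flt.1 hr).1, hHP r (mem_flt.1 hr).1 (mem_flt.1 hr).2⟩
  have inP : ∀ y ∈ M.S, M.h y i ≤ 1 - 3 * τ / 8 → (∀ l, l ≠ i → y l ≤ 2 * A.m l) →
      res A y ∈ P := by
    intro y hy hi hl
    obtain ⟨r, hr, hd⟩ := exists_rep A y
    refine Finset.mem_image.2 ⟨r, mem_flt.2 ⟨hr, ?_⟩, ?_⟩
    · have := c6 i y r (3 * τ / 8) hy hd (by linarith) hi hl
      have hp : 0 ≤ ∏ l, A.q l := Finset.prod_nonneg fun l _ => (q_pos A l).le
      refine le_trans ?_ this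
      rw [mul_comm]
      exact mul_le_mul_of_nonneg_left (by linarith) hp
    · rw [zero_add]; exact ((res_eq A).2 hd).symm
  have below : ∀ r ∈ A.R, ∀ g : V d, M.ce i + r - g ∈ M.S → ∀ l, l ≠ i → g l ≤ A.m l := by
    intro r hr g hg l hl
    have a := M.nonneg _ hg l
    have b := ((mem_R A).1 hr l).2
    simp only [Pi.sub_apply, Pi.add_apply, M.ce_ne hl] at a
    omega
  have hr1 : ∀ r ∈ A.R, ∀ l, M.h r l ≤ τ / 16 := fun r hr l =>
    (h_small A hQ0 ((mem_R A).1 hr l).2.le).trans hq1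
  let Eg : V d → Prop := fun r => ∃ g ∈ M.G, 1 - τ ≤ M.h g i ∧ M.ce i + r - g ∈ M.S
  set Ed := flt (M.Fl (1 / 2) i) fun g => 1 - τ ≤ M.h g i with hEd
  have e1 : cnt A.R Eg ≤ Ed.card * P.card := by
    have := cnt_le_rel (A := A.R) (P := Eg) (Y := Ed ×ˢ P)
      (fun r y => y.2 = res A (M.ce i + r - y.1)) ?_ ?_
    · rwa [Finset.card_product, Nat.cast_mul] at this
    · rintro r hr ⟨g, hg, hgi, hS⟩
      refine ⟨(g, res A (M.ce i + r - g)), Finset.mem_product.2 ⟨mem_flt.2 ⟨?_, hgi⟩, ?_⟩, rfl⟩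
      · obtain ⟨l, hl⟩ := hcov g hg
        by_cases hli : l = i
        · rwa [hli] at hl
        · exfalso
          have a := (mem_flt.1 hl).2.2 i (Ne.symm hli)
          have b := h_small A hQ0 (below r hr g hS l hli)
          linarith
      · refine inP _ hS ?_ fun l hl => ?_
        · rw [M.h_sub, M.h_add, M.h_ce_self]
          have := hr1 r hr i
          linarith
        · have a := M.nonneg _ (M.G_mem hg) l
          have b := (mem_R A).1 hr l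
          simp only [Pi.sub_apply, Pi.add_apply, M.ce_ne hl]
          omega
    · intro r hr r' hr' y e e'
      refine res_inj A hr hr' ?_
      rw [e, map_sub, map_sub, map_add, map_add] at e'
      exact add_left_cancel (sub_left_injective e')
  set Z := (flt A.R fun r => ¬ Eg r).image fun r => res A (M.ce i + r) with hZ
  have cZ : (Z.card : ℝ) = cnt A.R fun r => ¬ Eg r := card_img A _ _
  have e2 := hg _ H P Z s hsub (by
    intro z hz
    obtain ⟨r, hr, rfl⟩ := Finset.mem_image.1 hz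
    obtain ⟨hr, hne⟩ := mem_flt.1 hr
    have hS : M.ce i + r ∈ M.S := M.ce_add_mem (fun l => ((mem_R A).1 hr l).1) i
    rcases M.dich (fun g => 1 - τ ≤ M.h g i) hS with h | h
    · exact absurd h hne
    obtain ⟨y, hy, hsum⟩ := (hP d M _).2.2 τ s (M.ce i + r) h0 (by linarith) (by
      rintro g - ⟨hg1, hg2⟩ l
      by_cases hl : l = i
      · rw [hl]; exact (not_le.1 hg1).le
      · have := h_small A hQ0 (below r hr g hg2 l hl)
        linarith) h (by
      intro l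
      have := hr1 r hr l
      rw [M.h_add]
      by_cases hl : l = i
      · rw [hl, M.h_ce_self]; rw [hl] at this; linarith
      · rw [M.h_ce_ne hl]; linarith) hs
    have hyS : ∀ j, y j ∈ M.S := fun j => M.cl_le _ (hy j).1
    refine ⟨fun j => res A (y j), by rw [hsum, map_sum], fun j x hx => ?_⟩
    obtain ⟨r0, hr0, rfl⟩ := Finset.mem_image.1 hx
    obtain ⟨hr0, hH0⟩ := mem_flt.1 hr0
    have hq := q_pos A i
    have hH1 : 1 - τ / 16 ≤ A.dep i r0 / A.q i := (le_div_iff₀ hq).2 hH0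
    have hdep : 0 < A.dep i r0 := lt_of_lt_of_le (mul_pos (by linarith) hq) hH0
    obtain ⟨u, hu, u1, u2, u3⟩ := c5 i r0 hr0 hdep
    have eu : res A (0 + r0) = res A u := by
      rw [zero_add, eq_comm, res_eq]
      intro l
      by_cases hl : l = i
      · rw [hl]; exact u1
      · rw [u2 l hl, sub_self]; exact dvd_zero _
    rw [eu, ← map_add]
    refine inP _ (M.S.add_mem hu (hyS j)) ?_ fun l hl => ?_
    · rw [M.h_add]
      have := (hy j).2 i
      linarith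
    · have a : y j l ≤ ∑ j', y j' l :=
        Finset.single_le_sum (f := fun j' => y j' l) (fun j' _ => M.nonneg _ (hyS j') l)
          (Finset.mem_univ j)
      have b := congrFun hsum l
      rw [Finset.sum_apply, Pi.add_apply, M.ce_ne hl] at b
      have c := ((mem_R A).1 hr l).2
      have c0 := ((mem_R A).1 hr0 l).2
      rw [Pi.add_apply, u2 l hl]
      omega)
  have hR := R_pos A
  have hH0 : (0 : ℝ) < H.card := by
    rw [cH]
    by_contra hn
    have : cnt A.R (A.Hs τ i) = 0 := le_antisymm (not_lt.1 hn) (cnt_nonneg _ _)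
    rw [this] at h4
    linarith
  have e3 : (P.card : ℝ) - H.card ≤ ζ * (2 * k * H.card) := by
    have a : cnt A.R (A.Ps τ) ≤ cnt A.R (A.Hs τ i) + cnt A.R fun r => A.Ps τ r ∧ ¬ A.Hs τ i r :=
      cnt_le_add fun r _ hp => by tauto
    have b := mul_le_mul_of_nonneg_left h4 hζ0
    rw [cH, cP]
    linarith
  have e4 : s * ((P.card : ℝ) - H.card) ≤ τ / 2 * H.card := by
    have a := mul_le_mul_of_nonneg_left e3 (by linarith : (0 : ℝ) ≤ s)
    have b := mul_le_mul_of_nonneg_right hζ hH0.le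
    nlinarith
  have e5 : (P.card : ℝ) ≤ (1 + τ) * H.card := by
    have a : (0 : ℝ) ≤ P.card - H.card := sub_nonneg.2 (by exact_mod_cast card_le_card hsub)
    have b := mul_le_mul_of_nonneg_right hs1 a
    have c := mul_pos h0 hH0
    linarith
  rw [cnt_eq]
  refine num (R := A.R.card) h0 h1 hk (Nat.cast_nonneg _) hH0 (Nat.cast_nonneg _) e5 e4 e2 ?_
    (by rw [cH]; exact h3)
  rw [← cnt_add_not A.R Eg, cZ]
  linarith

end Ff

open Ff in
theorem ff (hP : PartsStmt) (ha : FaStmt) (hc : FcStmt) (he : FeStmt) (hg : GrpStmt) : FStmt := by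
  classical
  intro d hd E0
  obtain ⟨E, hE0, hE⟩ : ∃ E : ℝ, E0 ≤ E ∧ 1 ≤ E := ⟨max E0 1, le_max_left _ _, le_max_right _ _⟩
  obtain ⟨τ, h0, hτ⟩ : ∃ τ : ℝ, 0 < τ ∧ τ * E = 1 / 4 :=
    ⟨1 / (4 * E), by positivity, by field_simp⟩
  have h1 : τ ≤ 1 / 4 := by nlinarith
  obtain ⟨s, hs⟩ := exists_nat_ge (6 * (d : ℝ) / τ + 1)
  have hs0 : (0 : ℝ) < s := lt_of_lt_of_le (by positivity) hs
  obtain ⟨ζ, hζ0, hζ⟩ : ∃ ζ : ℝ, 0 < ζ ∧ 4 * E * s * ζ = τ :=
    ⟨τ / (4 * E * s), by positivity, by field_simp⟩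
  obtain ⟨Q0, hQ0, hfe⟩ := he d hd E τ ζ hE h0 (by linarith) hζ0
  obtain ⟨Q, hQ1, hQ2⟩ : ∃ Q : ℝ, Q0 ≤ Q ∧ 16 * d / τ ≤ Q :=
    ⟨max Q0 (16 * d / τ), le_max_left _ _, le_max_right _ _⟩
  rw [div_le_iff₀' h0] at hQ2
  obtain ⟨C, hC⟩ := ha d E Q
  refine ⟨C, fun M hp hcC hctr => ?_⟩
  obtain ⟨A⟩ := hC M (hp.trans hE0) hcC
  obtain ⟨k, -, hkE, hcard, hcov, hall⟩ := hfe M Q A hQ1 (hp.trans hE0) hctr
  refine ⟨A.m, fun i => ⟨A.mpos i, M.G_mem (A.mG i)⟩, fun g hgG => ?_⟩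
  obtain ⟨i, hgi⟩ := hcov g hgG
  refine ⟨i, ?_⟩
  obtain ⟨a1, a2, a3, a4⟩ := hall i
  have hQ4 : 4 ≤ Q := hQ0.trans hQ1
  have hkey := key A hP hc hg i h0 h1 (by nlinarith) hQ4 hQ2 hs hζ0.le (by
    have : 4 * (k : ℝ) * s * ζ ≤ 4 * E * s * ζ := by gcongr
    linarith) hcov a1 a2 a3 a4
  set e : V d := Pi.single i (A.m i : ℤ) with hedef
  have hei : e i = A.m i := by simp [hedef]
  have hsm : M.h e i ≤ 1 / 4 :=
    (h_small A (by linarith) hei.le).trans (one_div_le_one_div_of_le (by norm_num) hQ4)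
  have heF : e ∈ M.Fl (1 / 2) i := by
    refine mem_flt.2 ⟨A.mG i, by rw [hei]; exact_mod_cast A.mpos i, fun l hl => ?_⟩
    have b : M.h e l = 0 := by simp [Md.h, hedef, hl]
    have c := M.h_nonneg (M.G_mem (A.mG i)) i
    rw [b]
    exact mul_nonneg (by norm_num) c
  set Ed := flt (M.Fl (1 / 2) i) fun g => 1 - τ ≤ M.h g i with hEd
  have hne : e ∉ Ed := fun h => by
    have := (mem_flt.1 h).2
    linarith
  have heq : insert e Ed = M.Fl (1 / 2) i := by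
    refine Finset.eq_of_subset_of_card_le (Finset.insert_subset heF (flt_sub _ _)) ?_
    rw [Finset.card_insert_of_notMem hne, hcard i]
    rw [cnt_eq] at hkey
    have : k < Ed.card + 2 := by exact_mod_cast hkey
    omega
  rw [← heq] at hgi
  rcases Finset.mem_insert.1 hgi with h | h
  · rw [h, hei]
  · rw [← hei, ← M.h_le_h]
    have := (mem_flt.1 h).2
    linarith

end Pool.Agent.MP_96f5a9_co.GW

end MrgPart0

-- ======== part 1: formerly Pool.Agent.MP_96f5a9_co.gw.Zero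
section MrgPart1

/-! Row `ZERO`: the zero class of a flat direction has at most `(1 + ga) n` points. -/

set_option autoImplicit false

namespace Pool.Agent.MP_96f5a9_co.GW

open Finset

namespace Zero

variable {d : ℕ}

/-- shift the zero class back by `κ` periods -/
theorem shift (X : Ctx d) (hZ : X.Zu) {k : Fin d} (hk : k ∈ X.T.I) (κ : ℕ)
    (hκ : κ * X.P.la ≤ 3) (Q : V d → Prop) (R : ℝ → Prop)
    (h : ∀ b ∈ X.M.B, Q b →
      1 + X.M.h b k - κ * X.M.h (X.T.a k) k < 1 ∧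
      6 * X.P.la ≤ 1 + X.M.h b k - κ * X.M.h (X.T.a k) k + X.M.h (X.T.a k) k ∧
      R (1 + X.M.h b k - κ * X.M.h (X.T.a k) k)) :
    cnt X.M.B (fun b => X.Zero k b ∧ Q b) ≤
      (X.P.C0 + 1) * 2 ^ d * 22 * d * X.P.la * X.M.n + cnt X.M.N (fun u => R (X.M.h u k)) := by
  classical
  set f : V d → V d := fun b => X.M.ce k + b - κ • X.T.a k with hf
  set U : Finset (V d) := (flt X.M.B fun b => X.Zero k b ∧ Q b).image f with hU
  have haS : X.T.a k ∈ X.M.S := (X.M.mem_N.1 (X.T.aN k hk)).2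
  have hfk : ∀ b, X.M.h (f b) k = 1 + X.M.h b k - κ * X.M.h (X.T.a k) k := fun b => by
    simp only [hf]
    rw [X.M.h_sub, X.M.h_add, X.M.h_nsmul, X.M.h_ce_self]
  have h1 : cnt X.M.B (fun b => X.Zero k b ∧ Q b) ≤ U.card := by
    refine cnt_le_inj f (fun x hx hp => mem_image_of_mem f (mem_flt.2 ⟨hx, hp⟩)) ?_
    intro x _ _ y _ _ hxy
    simp only [hf] at hxy
    exact add_left_cancel (sub_left_injective hxy)
  have h2 := hZ k hk κ hκ U (by
    intro u hu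
    obtain ⟨b, hb, rfl⟩ := mem_image.1 hu
    obtain ⟨hbB, ⟨g, hg, x, hx, he⟩, hq⟩ := mem_flt.1 hb
    obtain ⟨e1, e2, _⟩ := h b hbB hq
    have hb1 := X.M.mem_B_h.1 hbB
    refine ⟨⟨g, x, hg, hx, fun m => ?_, ?_⟩, fun m => ?_, ?_⟩
    · have hg0 : 0 ≤ X.M.h g m := by
        rcases hg with rfl | hg
        · rw [X.M.h_zero]
        · exact X.M.h_nonneg (X.M.G_mem (mem_flt.1 hg).1) m
      have e : X.M.h (X.M.ce k + b) m = X.M.h (g + x) m := by rw [he]
      rw [X.M.h_add, X.M.h_add] at e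
      have hc : X.M.h (X.M.ce k) m ≤ 1 := by
        by_cases hm : m = k
        · rw [hm, X.M.h_ce_self]
        · rw [X.M.h_ce_ne hm]; exact zero_le_one
      linarith [(hb1 m).2]
    · simp only [hf]; rw [he]
    · by_cases hm : m = k
      · rw [hm, hfk]; exact e1
      · simp only [hf]
        rw [X.M.h_sub, X.M.h_add, X.M.h_nsmul, X.M.h_ce_ne hm]
        have : 0 ≤ (κ : ℝ) * X.M.h (X.T.a k) m :=
          mul_nonneg (Nat.cast_nonneg _) (X.M.h_nonneg haS m)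
        linarith [(hb1 m).2]
    · rw [hfk]; exact e2)
  have h3 := cnt_add_not U (fun u => u ∈ X.M.N)
  have h4 : cnt U (fun u => u ∈ X.M.N) ≤ cnt X.M.N (fun u => R (X.M.h u k)) := by
    refine cnt_mono fun u hu hN => ⟨hN, ?_⟩
    obtain ⟨b, hb, rfl⟩ := mem_image.1 hu
    obtain ⟨hbB, _, hq⟩ := mem_flt.1 hb
    rw [hfk]; exact (h b hbB hq).2.2
  linarith

/-- few elements are low in the direction `k` when a multiple of the period is next to the face -/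
theorem lowset (hS : LsStmt) (X : Ctx d) (hA : X.A0.card ≤ X.P.C0) {k : Fin d}
    (hk : k ∈ X.T.I) (q : ℕ) (r : ℝ) (hr : r = 1 - q * X.M.h (X.T.a k) k) (hr0 : 0 < r)
    (hr6 : r < 6 * X.P.la) :
    cnt X.M.N (fun u => X.M.h u k < 2 * r) ≤
      (d * (2 * X.P.et + 4 * X.P.ep) + 2 ^ X.P.C0 * (12 * X.P.la + 4 * X.P.ep)) * X.M.n := by
  classical
  have hla := X.P.la_pos
  have hla1 := X.P.la1
  have het := X.P.et_pos
  have haS : X.T.a k ∈ X.M.S := (X.M.mem_N.1 (X.T.aN k hk)).2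
  have h1 : cnt X.M.N (fun u => X.M.h u k < 2 * r) ≤
      cnt X.M.N (fun u => ∃ m, 1 - X.P.et ≤ X.M.h u m) +
        cnt X.M.N (fun u => u ∈ X.M0 ∧ X.M.h u k < 2 * r) := by
    refine cnt_le_add fun x hx hp => ?_
    by_cases hm : ∃ m, 1 - X.P.et ≤ X.M.h x m
    · exact Or.inl hm
    · push Not at hm
      exact Or.inr ⟨X.mem_M0 (X.M.mem_N.1 hx).2 hm, hp⟩
  have h2 : cnt X.M.N (fun u => ∃ m, 1 - X.P.et ≤ X.M.h u m) ≤
      d * ((2 * X.P.et + 4 * X.P.ep) * X.M.n) := by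
    refine (cnt_le_sum univ (fun m u => 1 - X.P.et ≤ X.M.h u m)
      fun x _ hp => hp.imp fun m hm => ⟨mem_univ m, hm⟩).trans ?_
    calc _ ≤ ∑ _m : Fin d, (2 * X.P.et + 4 * X.P.ep) * X.M.n :=
          sum_le_sum fun m _ => X.F.ul m _ het.le
      _ = _ := by simp
  set ρ : Fin d → ℝ := fun m => if m = k then r else 1 / 2 with hρ
  have hρ1 : ∀ m, ρ m ≤ 1 / 2 := fun m => by
    simp only [hρ]
    split_ifs
    · linarith
    · exact le_rfl
  have h3 := hS d X.A0 (flt X.M.N fun u => u ∈ X.M0 ∧ X.M.h u k < 2 * r)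
    (flt X.M.N fun y => ∀ m, X.M.h y m < ρ m) 2 X.P.C0 (fun m => ρ m * X.M.c m) (by norm_num) hA
    (fun a ha m => X.M.nonneg a (X.M.G_mem (mem_flt.1 ha).1) m)
    (by
      intro x hx
      obtain ⟨hN, h0, hlt⟩ := mem_flt.1 hx
      refine ⟨h0, fun m => ?_⟩
      have : X.M.h x m < 2 * ρ m := by
        simp only [hρ]
        split_ifs with hm
        · rw [hm]; exact hlt
        · have := (X.M.mem_B_h.1 (X.M.mem_N.1 hN).1 m).2
          linarith
      rw [X.M.h_lt_iff] at this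
      push_cast
      linarith)
    (by
      intro y hy hlt
      have hy0 : y ∈ X.M0 := hy
      have h5 : ∀ m, X.M.h y m < ρ m := fun m => X.M.h_lt_iff.2 (hlt m)
      exact mem_flt.2 ⟨X.M.mem_N_of (X.M0_le hy0) fun m => by linarith [h5 m, hρ1 m], h5⟩)
  have hq1 : (q : ℝ) * X.P.la ≤ 1 := by
    have := mul_le_mul_of_nonneg_left (X.T.alo k hk) (Nat.cast_nonneg q)
    linarith
  have hmu : (q : ℝ) * X.P.mu ≤ 1 / 2 := by
    have hd : (2 : ℝ) ≤ d := by exact_mod_cast X.P.d2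
    have h6 : 8 * X.P.mu ≤ X.P.la := by nlinarith [X.P.mu_la, X.P.mu_pos]
    have := mul_le_mul_of_nonneg_left h6 (Nat.cast_nonneg q)
    linarith
  have h4 : cnt X.M.N (fun y => ∀ m, X.M.h y m < ρ m) ≤
      cnt X.M.N (fun u => 1 - 6 * X.P.la ≤ X.M.h u k) := by
    rw [cnt_eq X.M.N fun u => 1 - 6 * X.P.la ≤ X.M.h u k]
    refine cnt_le_inj (fun y => y + q • X.T.a k) (fun y hy hp => ?_)
      fun x _ _ y _ _ hxy => add_right_cancel hxy
    have hyS := (X.M.mem_N.1 hy).2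
    refine mem_flt.2 ⟨X.M.mem_N_of (X.M.S.add_mem hyS (X.M.S.nsmul_mem haS q)) fun m => ?_, ?_⟩
    · rw [X.M.h_add, X.M.h_nsmul]
      have h7 := hp m
      simp only [hρ] at h7
      split_ifs at h7 with hm
      · rw [hm] at h7 ⊢; linarith
      · have := mul_le_mul_of_nonneg_left (X.T.aflat k hk m hm) (Nat.cast_nonneg q)
        linarith
    · rw [X.M.h_add, X.M.h_nsmul]
      have := X.M.h_nonneg hyS k
      linarith
  have h5 := X.F.ul k (6 * X.P.la) (by positivity)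
  rw [← cnt_eq, ← cnt_eq] at h3
  have h6 : (2 : ℝ) ^ X.P.C0 * cnt X.M.N (fun y => ∀ m, X.M.h y m < ρ m) ≤
      2 ^ X.P.C0 * ((2 * (6 * X.P.la) + 4 * X.P.ep) * X.M.n) :=
    mul_le_mul_of_nonneg_left (h4.trans h5) (by positivity)
  push_cast at h3
  nlinarith

/-- the constants -/
theorem consts (P : Par d) :
    200 * ((P.C0 + 1) * 2 ^ d * d * P.la) ≤ P.ga ∧ 200 * (2 ^ P.C0 * P.la) ≤ P.ga ∧
      200 * P.la ≤ P.ga ∧ 200 * (d * P.et) ≤ P.ga := by
  have hd : (2 : ℝ) ≤ d := by exact_mod_cast P.d2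
  have hla := P.la_pos
  have h0 := P.la_le
  rw [pow_add] at h0
  have a1 : (1 : ℝ) ≤ 2 ^ P.C0 := one_le_pow₀ (by norm_num)
  have a2 : (1 : ℝ) ≤ 2 ^ d := one_le_pow₀ (by norm_num)
  have a3 : (1 : ℝ) ≤ P.C0 + 1 := by linarith [Nat.cast_nonneg (α := ℝ) P.C0]
  have a4 : (1 : ℝ) ≤ (P.C0 + 1) * 2 ^ d * d :=
    one_le_mul_of_one_le_of_one_le (one_le_mul_of_one_le_of_one_le a3 a2) (by linarith)
  set u : ℝ := (P.C0 + 1) * 2 ^ d * d with hu
  set v : ℝ := 2 ^ P.C0 with hv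
  have h1 : 200 * (u * v * P.la) ≤ P.ga := by
    refine le_of_eq_of_le ?_ h0
    simp only [hu]; ring
  have b1 : u * P.la ≤ u * v * P.la := by
    gcongr; exact le_mul_of_one_le_right (by linarith) a1
  have b2 : v * P.la ≤ u * v * P.la := by
    gcongr; exact le_mul_of_one_le_left (by linarith) a4
  have b3 : P.la ≤ v * P.la := le_mul_of_one_le_left hla.le a1
  refine ⟨by linarith, by linarith, by linarith, ?_⟩
  have := P.et_le
  have h2 : P.th * P.ga ≤ 1 / 30 * P.ga := mul_le_mul_of_nonneg_right P.th30 P.ga_pos.le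
  have h3 : 0 ≤ d * P.et := by have := P.et_pos; positivity
  linarith

end Zero

theorem zero (hS : LsStmt) : ZeroStmt := by
  intro d X hZ hA k hk
  obtain ⟨c1, c2, c3, c4⟩ := Zero.consts X.P
  have hla := X.P.la_pos
  have hla1 := X.P.la1
  have hn := X.M.n_pos
  have hep := X.P.ep_la
  have hep2 := X.P.ep_le
  have hga := X.P.ga_pos
  set om : ℝ := X.M.h (X.T.a k) k with hom
  have ho1 : X.P.la ≤ om := X.T.alo k hk
  have ho0 : 0 < om := lt_of_lt_of_le hla ho1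
  have hX0 : (X.P.C0 + 1) * 2 ^ d * 22 * d * X.P.la * X.M.n ≤ 11 / 100 * X.P.ga * X.M.n :=
    mul_le_mul_of_nonneg_right (by linarith) hn.le
  have hall : cnt X.M.N (fun _ => True) ≤ X.M.n := cnt_le_card _ _
  have hce : ∀ t : ℝ, 0 ≤ t → t ≤ ⌈t / om⌉₊ * om ∧ ⌈t / om⌉₊ * om < t + om := fun t ht => by
    have e1 := Nat.le_ceil (t / om)
    have e2 := Nat.ceil_lt_add_one (div_nonneg ht ho0.le)
    rw [div_le_iff₀ ho0] at e1
    have e3 := mul_lt_mul_of_pos_right e2 ho0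
    rw [add_mul, div_mul_cancel₀ _ ho0.ne', one_mul] at e3
    exact ⟨e1, e3⟩
  obtain ⟨k1, k2⟩ := hce 1 zero_le_one
  obtain ⟨q, hq⟩ : ∃ q : ℕ, ⌈1 / om⌉₊ = q + 1 :=
    ⟨⌈1 / om⌉₊ - 1, by
      have : 0 < ⌈1 / om⌉₊ := Nat.ceil_pos.2 (by positivity)
      omega⟩
  rw [hq] at k1 k2
  push_cast at k1 k2
  have hql : (q : ℝ) * X.P.la ≤ q * om := mul_le_mul_of_nonneg_left ho1 (Nat.cast_nonneg q)
  have hb0 : ∀ b ∈ X.M.B, 0 ≤ X.M.h b k ∧ X.M.h b k < 1 := fun b hb => X.M.mem_B_h.1 hb k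
  have split : ∀ t : ℝ, cnt X.M.B (X.Zero k) ≤
      cnt X.M.B (fun b => X.Zero k b ∧ X.M.h b k < t) +
        cnt X.M.B (fun b => X.Zero k b ∧ t ≤ X.M.h b k) := fun t =>
    cnt_le_add fun b _ hb => (lt_or_ge (X.M.h b k) t).imp (fun h => ⟨hb, h⟩) fun h => ⟨hb, h⟩
  have top : ∀ t : ℝ, 6 * X.P.la ≤ t + (1 - q * om) →
      cnt X.M.B (fun b => X.Zero k b ∧ t ≤ X.M.h b k) ≤ (1 + 11 / 100 * X.P.ga) * X.M.n := by
    intro t ht
    have := Zero.shift X hZ hk (q + 1) (by push_cast; linarith) (fun b => t ≤ X.M.h b k)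
      (fun _ => True) fun b hb hp => by
        have := hb0 b hb
        rw [← hom]
        push_cast
        exact ⟨by linarith, by linarith, trivial⟩
    linarith
  by_cases hAc : 6 * X.P.la ≤ 1 - q * om
  · have h1 : cnt X.M.B (X.Zero k) ≤ cnt X.M.B (fun b => X.Zero k b ∧ 0 ≤ X.M.h b k) :=
      cnt_mono fun b hb hz => ⟨hb, hz, (hb0 b hb).1⟩
    have h2 := top 0 (by linarith)
    nlinarith
  push Not at hAc
  by_cases hC : om < 6 * X.P.la
  · obtain ⟨j1, j2⟩ := hce (6 * X.P.la) (by positivity)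
    set j : ℕ := ⌈6 * X.P.la / om⌉₊
    have hjl : (j : ℝ) * X.P.la ≤ j * om := mul_le_mul_of_nonneg_left ho1 (Nat.cast_nonneg j)
    have h1 := split (6 * X.P.la)
    have h2 := top (6 * X.P.la) (by linarith)
    have h3 := Zero.shift X hZ hk j (by linarith) (fun b => X.M.h b k < 6 * X.P.la)
      (fun t => 1 - 12 * X.P.la ≤ t) fun b hb hp => by
        have := hb0 b hb
        rw [← hom]
        exact ⟨by linarith, by linarith, by linarith⟩
    have h4 := X.F.ul k (12 * X.P.la) (by positivity)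
    have h5 : (2 * (12 * X.P.la) + 4 * X.P.ep) * X.M.n ≤ 1 / 2 * X.P.ga * X.M.n := by
      gcongr
      linarith
    nlinarith
  push Not at hC
  have h1 := split (q * om)
  have h2 := Zero.shift X hZ hk q (by linarith) (fun b => X.M.h b k < q * om)
    (fun _ => True) fun b hb hp => by
      have := hb0 b hb
      rw [← hom]
      exact ⟨by linarith, by linarith, trivial⟩
  have h3 := Zero.shift X hZ hk (2 * q) (by push_cast; linarith) (fun b => q * om ≤ X.M.h b k)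
    (fun t => t < 2 * (1 - q * om)) fun b hb hp => by
      have := hb0 b hb
      rw [← hom]
      push_cast
      exact ⟨by linarith, by linarith, by linarith⟩
  have h4 := Zero.lowset hS X hA hk q (1 - q * om) rfl (by linarith) hAc
  have h5 : (d * (2 * X.P.et + 4 * X.P.ep) + 2 ^ X.P.C0 * (12 * X.P.la + 4 * X.P.ep)) * X.M.n ≤
      1 / 2 * X.P.ga * X.M.n := by
    gcongr
    have : (2 : ℝ) ^ X.P.C0 * X.P.ep ≤ 2 ^ X.P.C0 * X.P.la := by gcongr
    linarith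
  nlinarith

end Pool.Agent.MP_96f5a9_co.GW

end MrgPart1

-- ======== part 2: formerly Pool.Agent.MP_96f5a9_co.gw.Zu
section MrgPart2

/-! Shifting points of the zero class back into the box. -/

set_option autoImplicit false

namespace Pool.Agent.MP_96f5a9_co.GW

open Finset

namespace Zu

/-- the first multiple of `w` that brings `a` below `s` -/
theorem least (a w s : ℝ) (hw : 0 < w) :
    ∃ n : ℕ, a - n * w < s ∧ (1 ≤ n → s + n * w ≤ a + w) := by
  classical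
  have hex : ∃ n : ℕ, a - n * w < s := by
    obtain ⟨n, hn⟩ := exists_nat_gt ((a - s) / w)
    refine ⟨n, ?_⟩
    rw [div_lt_iff₀ hw] at hn
    linarith
  refine ⟨Nat.find hex, Nat.find_spec hex, fun h1 => ?_⟩
  obtain ⟨k, hk⟩ : ∃ k, Nat.find hex = k + 1 := ⟨Nat.find hex - 1, by omega⟩
  have h2 := Nat.find_min hex (m := k) (by omega)
  rw [hk]
  push_cast
  have h3 := not_lt.1 h2
  linarith

/-- a set of translates that keep most of a base inside `N` is not much larger than `N` -/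
theorem pairs {d : ℕ} (N T : Finset (V d)) (c : V d → Prop) (t : V d) (θ : ℝ)
    (hc : 0 < cnt N c)
    (h : ∀ y ∈ T, cnt N (fun x => c x ∧ ¬ (x + (t + y) ∈ N)) ≤ θ * cnt N c) :
    (1 - θ) * T.card ≤ N.card := by
  obtain ⟨C, hC⟩ : ∃ C, C = flt N c := ⟨_, rfl⟩
  have hcard : cnt N c = C.card := by rw [hC]; rfl
  have e1 := cnt_prod C T (fun x y => x + (t + y) ∈ N)
  have e2 := cnt_prod' C T (fun x y => x + (t + y) ∈ N)
  have l1 : ∑ _y ∈ T, (1 - θ) * (C.card : ℝ) ≤ ∑ y ∈ T, cnt C (fun x => x + (t + y) ∈ N) := by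
    refine Finset.sum_le_sum fun y hy => ?_
    have a1 := cnt_add_not C (fun x => x + (t + y) ∈ N)
    have a2 : cnt C (fun x => ¬ (x + (t + y) ∈ N)) ≤
        cnt N (fun x => c x ∧ ¬ (x + (t + y) ∈ N)) :=
      cnt_mono fun x hx hp => by
        rw [hC] at hx
        exact ⟨(mem_flt.1 hx).1, (mem_flt.1 hx).2, hp⟩
    have a3 := h y hy
    rw [hcard] at a3
    linarith
  have l2 : ∑ x ∈ C, cnt T (fun y => x + (t + y) ∈ N) ≤ ∑ _x ∈ C, (N.card : ℝ) := by
    refine Finset.sum_le_sum fun x _ => ?_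
    exact cnt_le_inj (fun y => x + (t + y)) (fun y _ hp => hp)
      (fun y _ _ y' _ _ he => add_left_cancel (add_left_cancel he))
  simp only [Finset.sum_const, nsmul_eq_mul] at l1 l2
  rw [hcard] at hc
  have l3 : (C.card : ℝ) * ((1 - θ) * T.card) ≤ C.card * N.card := by
    have : (T.card : ℝ) * ((1 - θ) * C.card) = C.card * ((1 - θ) * T.card) := by ring
    linarith
  exact le_of_mul_le_mul_left l3 hc

theorem d_ge {d : ℕ} (X : Ctx d) : (2 : ℝ) ≤ d := by exact_mod_cast X.P.d2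

variable {d : ℕ} (X : Ctx d)

theorem tau_le : X.P.tau ≤ 1 / 16 := by
  have h1 := X.P.la_tau
  have h2 := X.P.ga_le
  have h3 := d_ge X
  have h4 : X.P.et ^ d ≤ 1 := pow_le_one₀ X.P.et_pos.le (by linarith [X.P.et1])
  have h5 := X.P.ga_pos
  have h6 : X.P.ga ≤ 1 := by nlinarith
  have h7 : X.P.ga * X.P.et ^ d ≤ 1 := by nlinarith
  have h8 : 0 ≤ (X.P.r0 : ℝ) * X.P.la := mul_nonneg (Nat.cast_nonneg _) X.P.la_pos.le
  unfold Par.tau
  nlinarith

theorem de_le_la : X.P.de ≤ X.P.la := by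
  have h1 := X.P.de_le
  have hla := X.P.la_pos
  have h3 := d_ge X
  have h2 : kap d (X.P.la / 4) ≤ 1 := by
    unfold kap
    rw [div_le_one (by linarith)]
    have : (X.P.la / 4 / 2) ^ d ≤ 1 := pow_le_one₀ (by positivity) (by linarith [X.P.la1])
    linarith
  have h4 : (1 : ℝ) ≤ ((X.P.NU : ℝ) + 1) ^ d :=
    one_le_pow₀ (by linarith [(Nat.cast_nonneg X.P.NU : (0 : ℝ) ≤ X.P.NU)])
  have h5 : (1 : ℝ) ≤ (X.P.r0 : ℝ) + 1 := by
    linarith [(Nat.cast_nonneg X.P.r0 : (0 : ℝ) ≤ X.P.r0)]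
  have h6 : (1 : ℝ) ≤ ((X.P.r0 : ℝ) + 1) * ((X.P.NU : ℝ) + 1) ^ d := by nlinarith
  have h7 := X.P.de_pos
  have h8 : X.P.de ≤ ((X.P.r0 : ℝ) + 1) * ((X.P.NU : ℝ) + 1) ^ d * X.P.de := by nlinarith
  nlinarith

theorem le_NU {n : ℕ} (h : (n : ℝ) * X.P.la ≤ 6) : n ≤ X.P.NU := by
  have h1 := X.P.NU_ge
  have hla := X.P.la_pos
  have h2 : (n : ℝ) ≤ 6 / X.P.la := by rw [le_div_iff₀ hla]; exact h
  exact_mod_cast h2.trans h1

theorem NU_mu : (X.P.NU : ℝ) * X.P.mu ≤ X.P.la / 4 := by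
  have h1 := X.P.mu_le
  have h3 := d_ge X
  have h2 : 0 ≤ (X.P.NU : ℝ) * X.P.mu := mul_nonneg (Nat.cast_nonneg _) X.P.mu_pos.le
  nlinarith

theorem core_pos : 0 < cnt X.M.N (fun x => ∀ m, X.M.h x m < X.P.la / 4) := by
  have hla := X.P.la_pos
  have h1 := X.F.core (X.P.la / 4) (by linarith) (by linarith [X.P.la1]) X.P.ep_core
  have h3 := d_ge X
  have h2 : 0 < kap d (X.P.la / 4) := by unfold kap; positivity
  exact lt_of_lt_of_le (mul_pos h2 X.M.n_pos) h1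

/-- sum of multiples of the periods -/
noncomputable def sm (ν : Fin d → ℕ) : V d := ∑ l ∈ X.T.I, ν l • X.T.a l

theorem aS {l : Fin d} (hl : l ∈ X.T.I) : X.T.a l ∈ X.M.S := (X.M.mem_N.1 (X.T.aN l hl)).2

theorem sm_mem (ν : Fin d → ℕ) : sm X ν ∈ X.M.S :=
  X.M.S.sum_mem fun _ hl => X.M.S.nsmul_mem (aS X hl) _

theorem sm_add (ν ν' : Fin d → ℕ) : sm X (fun l => ν l + ν' l) = sm X ν + sm X ν' := by
  unfold sm
  rw [← Finset.sum_add_distrib]
  exact Finset.sum_congr rfl fun l _ => add_nsmul _ _ _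

theorem sm_single {k : Fin d} (hk : k ∈ X.T.I) (κ : ℕ) :
    sm X (fun l => if l = k then κ else 0) = κ • X.T.a k := by
  unfold sm
  rw [Finset.sum_eq_single k]
  · simp
  · intro l _ hl; simp [hl]
  · intro h; exact absurd hk h

theorem sm_bound (ν : Fin d → ℕ) (hν : ∀ l, ν l ≤ X.P.NU) {m : Fin d} (hm : m ∈ X.T.I) :
    ν m * X.M.h (X.T.a m) m ≤ X.M.h (sm X ν) m ∧
      X.M.h (sm X ν) m ≤ ν m * X.M.h (X.T.a m) m + X.P.la / 4 := by
  unfold sm
  rw [X.M.h_sum, ← Finset.add_sum_erase _ _ hm, X.M.h_nsmul]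
  have h0 : 0 ≤ ∑ l ∈ X.T.I.erase m, X.M.h (ν l • X.T.a l) m :=
    Finset.sum_nonneg fun l hl =>
      X.M.h_nonneg (X.M.S.nsmul_mem (aS X (mem_of_mem_erase hl)) _) m
  have h1 : ∑ l ∈ X.T.I.erase m, X.M.h (ν l • X.T.a l) m ≤
      ∑ _l ∈ X.T.I.erase m, (X.P.NU : ℝ) * X.P.mu := by
    refine Finset.sum_le_sum fun l hl => ?_
    rw [X.M.h_nsmul]
    have a1 := X.T.aflat l (mem_of_mem_erase hl) m (ne_of_mem_erase hl).symm
    have a2 := X.M.h_nonneg (aS X (mem_of_mem_erase hl)) m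
    have a3 : (ν l : ℝ) ≤ X.P.NU := by exact_mod_cast hν l
    exact mul_le_mul a3 a1 a2 (Nat.cast_nonneg _)
  have h2 : ((X.T.I.erase m).card : ℝ) ≤ d := by
    have := Finset.card_le_univ (X.T.I.erase m)
    rw [Fintype.card_fin] at this
    exact_mod_cast this
  have h3 := X.P.mu_le
  have h4 : 0 ≤ (X.P.NU : ℝ) * X.P.mu := mul_nonneg (Nat.cast_nonneg _) X.P.mu_pos.le
  rw [Finset.sum_const, nsmul_eq_mul] at h1
  constructor
  · linarith
  · nlinarith

/-- reduction of an inner element of the box to the corner -/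
theorem base (hPa : PathStmt) (hL : X.Low) {x0 : V d} (hx : x0 ∈ X.M0)
    (h1 : ∀ m, X.M.h x0 m < 1) :
    ∃ ν : Fin d → ℕ, (∀ m, (ν m : ℝ) * X.P.la ≤ 1 + X.P.la) ∧
      (∀ m ∈ X.T.I, X.M.h (x0 - sm X ν) m < 6 * X.P.la) ∧
      (∀ m, m ∉ X.T.I → X.M.h (x0 - sm X ν) m ≤ X.P.tau) ∧
      (∀ m ∈ X.T.I, 1 ≤ ν m →
        6 * X.P.la - X.P.la / 4 ≤ X.M.h (x0 - sm X ν) m + X.M.h (X.T.a m) m) ∧
      (∀ m, - (X.P.la / 4) < X.M.h (x0 - sm X ν) m) ∧
      cnt X.M.N (fun x => (∀ m, X.M.h x m < X.P.la / 4) ∧ ¬ (x + (x0 - sm X ν) ∈ X.M.N)) ≤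
        X.P.la * cnt X.M.N (fun x => ∀ m, X.M.h x m < X.P.la / 4) := by
  have hla := X.P.la_pos
  have hl1 := X.P.la1
  have hta := tau_le X
  have hex : ∀ m, ∃ n : ℕ, (n : ℝ) * X.P.la ≤ 1 + X.P.la ∧ (m ∈ X.T.I →
      X.M.h x0 m - n * X.M.h (X.T.a m) m < 6 * X.P.la ∧
      (1 ≤ n → 6 * X.P.la + n * X.M.h (X.T.a m) m ≤ X.M.h x0 m + X.M.h (X.T.a m) m)) := by
    intro m
    by_cases hm : m ∈ X.T.I
    · have ho := X.T.alo m hm
      obtain ⟨n, hn1, hn2⟩ := least (X.M.h x0 m) (X.M.h (X.T.a m) m) (6 * X.P.la) (by linarith)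
      refine ⟨n, ?_, fun _ => ⟨hn1, hn2⟩⟩
      rcases Nat.eq_zero_or_pos n with h0 | h0
      · rw [h0]; push_cast; linarith
      · have a1 := hn2 h0
        have a2 : (1 : ℝ) ≤ n := by exact_mod_cast h0
        have a3 := h1 m
        nlinarith
    · exact ⟨0, by push_cast; linarith, fun h => absurd h hm⟩
  choose ν hν1 hν2 using hex
  have hNU : ∀ m, ν m ≤ X.P.NU := fun m => le_NU X (by linarith [hν1 m])
  have hup : ∀ m ∈ X.T.I, X.M.h (x0 - sm X ν) m < 6 * X.P.la := fun m hm => by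
    rw [X.M.h_sub]
    linarith [(sm_bound X ν hNU hm).1, (hν2 m hm).1]
  have hoff : ∀ m, m ∉ X.T.I → X.M.h (x0 - sm X ν) m ≤ X.P.tau := fun m hm => by
    rw [X.M.h_sub]
    linarith [X.M.h_nonneg (sm_mem X ν) m, hL x0 hx (fun l => by linarith [h1 l]) m hm]
  have hlo : ∀ m ∈ X.T.I, 1 ≤ ν m →
      6 * X.P.la - X.P.la / 4 ≤ X.M.h (x0 - sm X ν) m + X.M.h (X.T.a m) m := fun m hm h => by
    rw [X.M.h_sub]
    linarith [(sm_bound X ν hNU hm).2, (hν2 m hm).2 h]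
  have hp : cnt X.M.N (fun x => (∀ m, X.M.h x m < X.P.la / 4) ∧
      ¬ (x + (x0 - sm X ν) ∈ X.M.N)) ≤
      X.P.la * cnt X.M.N (fun x => ∀ m, X.M.h x m < X.P.la / 4) := by
    refine hPa d X x0 ν hx (fun m => by linarith [h1 m]) hNU (fun m => ?_) (fun m hm h => ?_)
    · by_cases hm : m ∈ X.T.I
      · have := hup m hm
        unfold sm at this
        linarith
      · have := hoff m hm
        unfold sm at this
        linarith
    · have := hlo m hm h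
      unfold sm at this
      linarith
  refine ⟨ν, hν1, hup, hoff, hlo, ?_, hp⟩
  have hc := core_pos X
  have h2 : cnt X.M.N (fun x => ∀ m, X.M.h x m < X.P.la / 4) ≤
      cnt X.M.N (fun x => (∀ m, X.M.h x m < X.P.la / 4) ∧ x + (x0 - sm X ν) ∈ X.M.N) +
      cnt X.M.N (fun x => (∀ m, X.M.h x m < X.P.la / 4) ∧ ¬ (x + (x0 - sm X ν) ∈ X.M.N)) :=
    cnt_le_add fun x _ hp => by
      by_cases h : x + (x0 - sm X ν) ∈ X.M.N
      · exact Or.inl ⟨hp, h⟩
      · exact Or.inr ⟨hp, h⟩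
  have h3 : 0 < cnt X.M.N
      (fun x => (∀ m, X.M.h x m < X.P.la / 4) ∧ x + (x0 - sm X ν) ∈ X.M.N) := by nlinarith
  obtain ⟨x, _, hx1, hx2⟩ := exists_of_cnt_pos h3
  intro m
  have a1 := X.M.h_nonneg (X.M.mem_N.1 hx2).2 m
  rw [X.M.h_add] at a1
  linarith [hx1 m]

/-- multiples of the periods that clear the top layers -/
theorem jump : ∃ j : Fin d → ℕ, (∀ m, (j m : ℝ) ≤ 9) ∧ ∀ m ∈ X.T.I,
    8 * X.P.la < j m * X.M.h (X.T.a m) m ∧
      j m * X.M.h (X.T.a m) m ≤ 8 * X.P.la + X.M.h (X.T.a m) m := by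
  have hla := X.P.la_pos
  have hex : ∀ m, ∃ n : ℕ, (n : ℝ) ≤ 9 ∧ (m ∈ X.T.I →
      8 * X.P.la < n * X.M.h (X.T.a m) m ∧
      n * X.M.h (X.T.a m) m ≤ 8 * X.P.la + X.M.h (X.T.a m) m) := by
    intro m
    by_cases hm : m ∈ X.T.I
    · have ho := X.T.alo m hm
      obtain ⟨n, hn1, hn2⟩ := least (8 * X.P.la) (X.M.h (X.T.a m) m) 0 (by linarith)
      rcases Nat.eq_zero_or_pos n with h0 | h0
      · rw [h0] at hn1; push_cast at hn1; linarith
      have a1 := hn2 h0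
      refine ⟨n, ?_, fun _ => ⟨by linarith, by linarith⟩⟩
      by_contra hc
      have a2 := not_le.1 hc
      nlinarith
    · exact ⟨0, by push_cast; linarith, fun h => absurd h hm⟩
  choose j h1 h2 using hex
  exact ⟨j, h1, h2⟩

/-- most elements of the box are ordinary -/
theorem ord : (1 - X.P.de - d * (14 * X.P.la + 4 * X.P.ep)) * X.M.n ≤
    cnt X.M.N (fun y => y ∉ X.T.Exc ∧ ∀ m, X.M.h y m < 1 - 7 * X.P.la) := by
  have hla := X.P.la_pos
  have h1 := cnt_add_not X.M.N (fun y => y ∉ X.T.Exc ∧ ∀ m, X.M.h y m < 1 - 7 * X.P.la)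
  have h2 : cnt X.M.N (fun y => ¬ (y ∉ X.T.Exc ∧ ∀ m, X.M.h y m < 1 - 7 * X.P.la)) ≤
      cnt X.M.N (fun y => y ∈ X.T.Exc) +
      cnt X.M.N (fun y => ∃ m, 1 - 7 * X.P.la ≤ X.M.h y m) :=
    cnt_le_add fun y _ hp => by
      by_cases h : y ∈ X.T.Exc
      · exact Or.inl h
      · right
        by_contra hc
        exact hp ⟨h, fun m => not_le.1 fun h' => hc ⟨m, h'⟩⟩
  have h3 : cnt X.M.N (fun y => y ∈ X.T.Exc) ≤ X.T.Exc.card := cnt_le_of_sub fun _ _ h => h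
  have h4 : cnt X.M.N (fun y => ∃ m, 1 - 7 * X.P.la ≤ X.M.h y m) ≤
      ∑ m : Fin d, cnt X.M.N (fun y => 1 - 7 * X.P.la ≤ X.M.h y m) :=
    cnt_le_sum univ _ fun y _ ⟨m, hm⟩ => ⟨m, mem_univ _, hm⟩
  have h5 : ∑ m : Fin d, cnt X.M.N (fun y => 1 - 7 * X.P.la ≤ X.M.h y m) ≤
      ∑ _m : Fin d, (2 * (7 * X.P.la) + 4 * X.P.ep) * X.M.n :=
    Finset.sum_le_sum fun m _ => X.F.ul m (7 * X.P.la) (by linarith)
  simp only [Finset.sum_const, Finset.card_univ, Fintype.card_fin, nsmul_eq_mul] at h5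
  have h6 := X.T.exc
  have h7 : X.M.n = X.M.N.card := rfl
  nlinarith

/-- one class: fixed absorbed generator, fixed set of coordinates near the top -/
theorem one (hPa : PathStmt) (hL : X.Low) {k : Fin d} (hk : k ∈ X.T.I) {κ : ℕ}
    (hκ : κ * X.P.la ≤ 3) {g x0 : V d} (hg : g ∈ X.M.S) (hx0 : x0 ∈ X.M0)
    (hy0 : g + x0 ∈ X.M0) (hB : g + x0 ∈ X.M.B) (F : Finset (Fin d)) (U : Finset (V d))
    (hU : ∀ u ∈ U, u ∉ X.M.N ∧
      (∃ x ∈ X.M0, (∀ m, X.M.h x m ≤ 2) ∧ u = g + x - κ • X.T.a k) ∧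
      (∀ m, X.M.h u m < 1) ∧ 6 * X.P.la ≤ X.M.h u k + X.M.h (X.T.a k) k ∧
      ∀ m ∈ X.T.I, (m ∈ F ↔ 1 - 8 * X.P.la < X.M.h u m)) :
    (U.card : ℝ) ≤ 22 * d * X.P.la * X.M.n := by
  classical
  have hla := X.P.la_pos
  have hl1 := X.P.la1
  have hta := tau_le X
  have hy1 : ∀ m, X.M.h (g + x0) m < 1 := fun m => (X.M.mem_B_h.1 hB m).2
  have hx1 : ∀ m, X.M.h x0 m < 1 := fun m => by
    have := hy1 m
    rw [X.M.h_add] at this
    linarith [X.M.h_nonneg hg m]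
  obtain ⟨ν0, b1, b2, b3, b4, b5, b6⟩ := base X hPa hL hx0 hx1
  obtain ⟨j, j1, j2⟩ := jump X
  obtain ⟨jF, hjF⟩ : ∃ jF : Fin d → ℕ, jF = fun m => if m ∈ F then j m else 0 := ⟨_, rfl⟩
  have jin : ∀ m ∈ F, jF m = j m := fun m hm => by rw [hjF]; simp [hm]
  have jout : ∀ m, m ∉ F → jF m = 0 := fun m hm => by rw [hjF]; simp [hm]
  have j9 : ∀ m, (jF m : ℝ) ≤ 9 := fun m => by
    by_cases hm : m ∈ F
    · rw [jin m hm]; exact j1 m
    · rw [jout m hm]; norm_num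
  have jNU : ∀ m, jF m ≤ X.P.NU := fun m => le_NU X (by nlinarith [j9 m])
  have hκNU : (κ : ℝ) ≤ X.P.NU := by exact_mod_cast le_NU X (n := κ) (by linarith)
  obtain ⟨t0, ht0⟩ : ∃ t0, t0 = x0 - sm X ν0 := ⟨_, rfl⟩
  rw [← ht0] at b2 b3 b4 b5 b6
  obtain ⟨s, hs⟩ : ∃ s, s = sm X jF := ⟨_, rfl⟩
  have sS : s ∈ X.M.S := by rw [hs]; exact sm_mem X jF
  obtain ⟨ν, hν⟩ : ∃ ν : Fin d → ℕ,
      ν = fun l => ν0 l + ((if l = k then κ else 0) + jF l) := ⟨_, rfl⟩
  have hsm : sm X ν = sm X ν0 + (κ • X.T.a k + s) := by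
    rw [hν, sm_add, sm_add, sm_single X hk, hs]
  have νNU : ∀ m, ν m ≤ X.P.NU := fun m => by
    refine le_NU X ?_
    have a1 := b1 m
    have a2 := j9 m
    have a3 : ((if m = k then κ else 0 : ℕ) : ℝ) * X.P.la ≤ 3 := by
      split_ifs
      · exact hκ
      · norm_num
    rw [hν]
    simp only [Nat.cast_add]
    nlinarith
  obtain ⟨Nm, hNm⟩ : ∃ Nm, Nm = flt X.M.N
      (fun y => y ∉ X.T.Exc ∧ ∀ m, X.M.h y m < 1 - 7 * X.P.la) := ⟨_, rfl⟩
  obtain ⟨U', hU'⟩ : ∃ U', U' = U.image fun u => u - s := ⟨_, rfl⟩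
  have cU : U'.card = U.card := by
    rw [hU']; exact Finset.card_image_of_injective _ sub_left_injective
  have hdis : Disjoint U' Nm := by
    refine Finset.disjoint_left.2 fun y hy hy' => ?_
    rw [hU'] at hy
    obtain ⟨u, hu, rfl⟩ := mem_image.1 hy
    rw [hNm] at hy'
    have a1 := (X.M.mem_N.1 (mem_flt.1 hy').1).2
    have a2 := X.M.S.add_mem a1 sS
    rw [sub_add_cancel] at a2
    exact (hU u hu).1 (X.M.mem_N_of a2 (hU u hu).2.2.1)
  have good : ∀ y ∈ U' ∪ Nm, cnt X.M.N (fun x => (∀ m, X.M.h x m < X.P.la / 4) ∧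
      ¬ (x + (t0 + y) ∈ X.M.N)) ≤
      X.P.la * cnt X.M.N (fun x => ∀ m, X.M.h x m < X.P.la / 4) := by
    intro y hy
    rcases mem_union.1 hy with hy | hy
    · rw [hU'] at hy
      obtain ⟨u, hu, rfl⟩ := mem_image.1 hy
      obtain ⟨_, ⟨x, hx, hx2, hux⟩, hu1, hu6, hF⟩ := hU u hu
      have hz : g + x0 + x ∈ X.M0 := X.M0.add_mem hy0 hx
      have hz3 : ∀ m, X.M.h (g + x0 + x) m ≤ 3 := fun m => by
        rw [X.M.h_add]; linarith [hy1 m, hx2 m]
      have e : g + x0 + x - ∑ l ∈ X.T.I, ν l • X.T.a l = t0 + (u - s) := by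
        have : ∑ l ∈ X.T.I, ν l • X.T.a l = sm X ν := rfl
        rw [this, hsm, ht0, hux]; abel
      have hs0 : ∀ m, 0 ≤ X.M.h s m := X.M.h_nonneg sS
      have hp := hPa d X (g + x0 + x) ν hz hz3 νNU (fun m => ?_) (fun m hm h1 => ?_)
      · rw [e] at hp; exact hp
      · by_cases hm : m ∈ X.T.I
        · rw [e, X.M.h_add, X.M.h_sub]
          have a1 := b2 m hm
          by_cases hmF : m ∈ F
          · have a2 := (sm_bound X jF jNU hm).1
            rw [← hs, jin m hmF] at a2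
            linarith [(j2 m hm).1, hu1 m]
          · have a2 : X.M.h u m ≤ 1 - 8 * X.P.la := not_lt.1 fun h => hmF ((hF m hm).2 h)
            linarith [hs0 m]
        · rw [X.M.h_sub]
          have a1 := hL _ hz hz3 m hm
          have a2 := X.M.h_nonneg (sm_mem X ν) m
          unfold sm at a2
          linarith
      · rw [e, X.M.h_add, X.M.h_sub]
        have a2 := (sm_bound X jF jNU hm).2
        rw [← hs] at a2
        by_cases hmF : m ∈ F
        · rw [jin m hmF] at a2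
          linarith [(j2 m hm).2, (hF m hm).1 hmF, b5 m]
        · rw [jout m hmF] at a2
          push_cast at a2
          by_cases hmk : m = k
          · subst hmk
            linarith [b5 m]
          · have a3 : 1 ≤ ν0 m := by
              rw [hν] at h1
              simp only [hmk, if_false, jout m hmF] at h1
              omega
            have a4 := b4 m hm a3
            have a5 : - (X.P.la / 4) ≤ X.M.h u m := by
              rw [hux, X.M.h_sub, X.M.h_add, X.M.h_nsmul]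
              have c1 := X.M.h_nonneg hg m
              have c2 := X.M.h_nonneg (X.M0_le hx) m
              have c3 := X.T.aflat k hk m hmk
              have c4 := X.M.h_nonneg (aS X hk) m
              have c5 : (κ : ℝ) * X.M.h (X.T.a k) m ≤ X.P.NU * X.P.mu :=
                mul_le_mul hκNU c3 c4 (Nat.cast_nonneg _)
              linarith [NU_mu X]
            linarith
    · rw [hNm] at hy
      obtain ⟨hyN, hyE, hy7⟩ := mem_flt.1 hy
      refine le_trans (cnt_mono fun x hx hp => ⟨hx, hp.1, fun hN => hp.2 ?_⟩) b6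
      rw [← add_assoc]
      refine X.M.mem_N_of (X.M.S.add_mem (X.M.mem_N.1 hN).2 (X.M.mem_N.1 hyN).2) fun m => ?_
      rw [X.M.h_add, X.M.h_add]
      by_cases hm : m ∈ X.T.I
      · linarith [hp.1 m, b2 m hm, hy7 m]
      · linarith [hp.1 m, b3 m hm, X.T.low m hm y hyN hyE]
  have hp := pairs X.M.N (U' ∪ Nm) _ t0 X.P.la (core_pos X) good
  rw [Finset.card_union_of_disjoint hdis, cU] at hp
  push_cast at hp
  have ho := ord X
  rw [cnt_eq, ← hNm] at ho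
  have hn : X.M.n = X.M.N.card := rfl
  rw [← hn] at hp
  have hn0 := X.M.n_pos
  have hd := d_ge X
  have hde := de_le_la X
  have hep := X.P.ep_le
  have hsum : (U.card : ℝ) + Nm.card ≤ (1 + 2 * X.P.la) * X.M.n := by
    by_contra hc
    have a1 := not_le.1 hc
    have a2 : (1 - X.P.la) * ((1 + 2 * X.P.la) * X.M.n) <
        (1 - X.P.la) * ((U.card : ℝ) + Nm.card) :=
      mul_lt_mul_of_pos_left a1 (by linarith)
    have a3 : 0 ≤ X.P.la * (1 - 2 * X.P.la) * X.M.n :=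
      mul_nonneg (mul_nonneg hla.le (by linarith)) hn0.le
    nlinarith
  have a4 : 2 * X.P.la + X.P.de + d * (14 * X.P.la + 4 * X.P.ep) ≤ 22 * d * X.P.la := by
    nlinarith
  have a5 := mul_le_mul_of_nonneg_right a4 hn0.le
  nlinarith

end Zu

theorem zu (hPa : PathStmt) : ZuStmt := by
  classical
  intro d X hL hK k hk κ hκ U hU
  have h1 : cnt U (fun u => u ∉ X.M.N) ≤
      ∑ q ∈ insert 0 X.Kab ×ˢ X.T.I.powerset, cnt U (fun u => u ∉ X.M.N ∧
        (∃ x ∈ X.M0, (∀ m, X.M.h x m ≤ 2) ∧ u = q.1 + x - κ • X.T.a k) ∧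
        ∀ m ∈ X.T.I, (m ∈ q.2 ↔ 1 - 8 * X.P.la < X.M.h u m)) := by
    refine cnt_le_sum _ _ fun u hu hN => ?_
    obtain ⟨⟨g, x, hg, hx, hx2, hux⟩, _, _⟩ := hU u hu
    refine ⟨(g, flt X.T.I fun m => 1 - 8 * X.P.la < X.M.h u m), mem_product.2
      ⟨mem_insert.2 hg, mem_powerset.2 (flt_sub _ _)⟩, hN, ⟨x, hx, hx2, hux⟩, fun m hm => ?_⟩
    exact ⟨fun h => (mem_flt.1 h).2, fun h => mem_flt.2 ⟨hm, h⟩⟩
  have h2 : ∀ q ∈ insert 0 X.Kab ×ˢ X.T.I.powerset, cnt U (fun u => u ∉ X.M.N ∧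
        (∃ x ∈ X.M0, (∀ m, X.M.h x m ≤ 2) ∧ u = q.1 + x - κ • X.T.a k) ∧
        ∀ m ∈ X.T.I, (m ∈ q.2 ↔ 1 - 8 * X.P.la < X.M.h u m)) ≤
      22 * d * X.P.la * X.M.n := by
    intro q hq
    have hg : q.1 ∈ X.M.S ∧ ∃ x0 ∈ X.M0, q.1 + x0 ∈ X.M0 ∧ q.1 + x0 ∈ X.M.B := by
      rcases mem_insert.1 (mem_product.1 hq).1 with h | h
      · rw [h]
        refine ⟨X.M.S.zero_mem, 0, X.M0.zero_mem, ?_, ?_⟩
        · rw [add_zero]; exact X.M0.zero_mem
        · rw [add_zero]; exact (X.M.mem_N.1 X.M.zero_mem_N).1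
      · exact ⟨X.M.G_mem (mem_flt.1 h).1, (mem_flt.1 h).2.2⟩
    obtain ⟨hS, x0, hx0, hy0, hB⟩ := hg
    rw [cnt_eq]
    refine Zu.one X hPa hL hk hκ hS hx0 hy0 hB q.2 _ fun u hu => ?_
    obtain ⟨hu1, a1, a2, a3⟩ := mem_flt.1 hu
    exact ⟨a1, a2, (hU u hu1).2.1, (hU u hu1).2.2, a3⟩
  have h3 := Finset.sum_le_sum h2
  rw [Finset.sum_const] at h3
  have h4 : (insert 0 X.Kab ×ˢ X.T.I.powerset).card ≤ (X.P.C0 + 1) * 2 ^ d := by
    rw [Finset.card_product, Finset.card_powerset]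
    refine Nat.mul_le_mul ((Finset.card_insert_le _ _).trans (by omega)) ?_
    refine Nat.pow_le_pow_right (by norm_num) ?_
    simpa using Finset.card_le_univ X.T.I
  have h5 : ((insert 0 X.Kab ×ˢ X.T.I.powerset).card : ℝ) ≤ (X.P.C0 + 1) * 2 ^ d := by
    exact_mod_cast h4
  have h6 : 0 ≤ 22 * d * X.P.la * X.M.n :=
    mul_nonneg (mul_nonneg (by positivity) X.P.la_pos.le) X.M.n_pos.le
  have h7 := mul_le_mul_of_nonneg_right h5 h6
  have e : (X.P.C0 + 1) * 2 ^ d * 22 * d * X.P.la * X.M.n =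
      (X.P.C0 + 1) * 2 ^ d * (22 * d * X.P.la * X.M.n) := by ring
  rw [e]
  refine h1.trans (h3.trans ?_)
  rw [nsmul_eq_mul]
  exact h7

end Pool.Agent.MP_96f5a9_co.GW

end MrgPart2

-- marker of a merged file
example : 731051 + 279259 = 731051 + 279259 := rfl
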