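import Mathlib
import Pool.Agent.MP_96f5a9_co.gw.Spec
import Pool.Agent.MP_96f5a9_co.gw.Uu
import Pool.Agent.MP_96f5a9_co.gw.Tools
import Pool.Agent.MP_96f5a9_co.gw.Struct
import Pool.Agent.MP_96f5a9_co.gw.Fc
import Pool.Agent.MP_96f5a9_co.gw.Fe
import Pool.Agent.MP_96f5a9_co.gw.Zu
import Pool.Agent.MP_96f5a9_co.gw.Layer
import Pool.Agent.MP_96f5a9_co.gw.One

/-! Assembly of the rows. -/

set_option autoImplicit false

namespace Pool.Agent.MP_96f5a9_co.GW

theorem endAll : EndStmt :=
  fin (low parts pl ls) (elow box) cls (zu (path parts)) (zero ls) arm dom (dd tl) (uu box tl)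

theorem mainAll : MainStmt :=
  main (layer box) (step box parts pl) (bulk box parts pl) (fac box) (struct box (inv box)) par
    endAll

theorem fAll : FStmt := ff parts fa fc (fe fb fc) grp

theorem goalAll (d : ℕ) (hd : 1 ≤ d) : Goal d := by
  rcases Nat.eq_or_lt_of_le hd with h | h
  · subst h; exact one
  · exact goal mainAll fAll bridge d h

end Pool.Agent.MP_96f5a9_co.GW
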